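import Pool.Agent.Zk59.ST.Def

set_option autoImplicit false

/-!
# Starters from labelled blocks
-/

namespace Pool.Agent.Zk59.ST

open Classical

variable {G : Type} [Group G]

/-- The labels `L` can be used for one block with the subgroup `H`. -/
def HasBlock (H : Subgroup G) (L : Finset G) : Prop :=
  ∃ p : G → G ⧸ H,
    (∀ q, ∃ d ∈ L, q = p d ∨ q = d • p d) ∧
    (∀ d ∈ L, ∀ d' ∈ L, d ≠ d' → p d ≠ p d' ∧ p d ≠ d' • p d' ∧ d • p d ≠ d' • p d') ∧
    (∀ d ∈ L, d ^ 2 ≠ 1 → d • p d ≠ p d) ∧
    (∀ d ∈ L, d ^ 2 = 1 → d • p d = p d)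

theorem isShort_iff (d p : G) : IsShort (d * p, p) ↔ d ^ 2 = 1 := by
  unfold IsShort
  have h : ((d * p)⁻¹ * p) ^ 2 = p⁻¹ * (d ^ 2)⁻¹ * p := by
    simp only [sq, mul_inv_rev]; group
  constructor
  · intro h1
    rw [show ((d * p, p) : G × G).1 = d * p from rfl, show ((d * p, p) : G × G).2 = p from rfl, h] at h1
    have h2 : (d ^ 2)⁻¹ = 1 := by
      have h3 : (d ^ 2)⁻¹ = p * (p⁻¹ * (d ^ 2)⁻¹ * p) * p⁻¹ := by group
      rw [h3, h1]; group
    exact inv_eq_one.mp h2
  · intro h1
    show ((d * p)⁻¹ * p) ^ 2 = 1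
    rw [h, h1]; group

theorem bd_eq (d p : G) : bd (d * p, p) = if d ^ 2 = 1 then {d} else {d, d⁻¹} := by
  unfold bd
  by_cases h : d ^ 2 = 1
  · rw [if_pos ((isShort_iff d p).mpr h), if_pos h]
    simp
  · rw [if_neg (fun h' => h ((isShort_iff d p).mp h')), if_neg h]
    simp

theorem ph_eq (d p : G) : ph (d * p, p) = if d ^ 2 = 1 then {d * p} else {d * p, p} := by
  unfold ph
  by_cases h : d ^ 2 = 1
  · rw [if_pos ((isShort_iff d p).mpr h), if_pos h]
  · rw [if_neg (fun h' => h ((isShort_iff d p).mp h')), if_neg h]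

theorem count_lab (d g : G) : (if d ^ 2 = 1 then ({d} : Multiset G) else {d, d⁻¹}).count g =
    if g = d ∨ g = d⁻¹ then 1 else 0 := by
  by_cases h : d ^ 2 = 1
  · have h' : d⁻¹ = d := by rw [inv_eq_iff_mul_eq_one, ← sq, h]
    rw [if_pos h, h', Multiset.count_singleton]
    simp
  · have h' : d ≠ d⁻¹ := by
      intro h2; apply h; rw [sq]; nth_rw 2 [h2]; simp
    rw [if_neg h]
    by_cases h1 : g = d
    · subst h1
      simp [Multiset.insert_eq_cons, Multiset.count_singleton, h']
    · by_cases h2 : g = d⁻¹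
      · subst h2
        simp [Multiset.insert_eq_cons, Multiset.count_cons_of_ne h1, Multiset.count_singleton]
      · simp [Multiset.insert_eq_cons, Multiset.count_cons_of_ne h1, Multiset.count_singleton, h1, h2]

theorem coset_iff (H : Subgroup G) (g y : G) : (∃ h ∈ H, y = g * h) ↔ (y : G ⧸ H) = (g : G ⧸ H) := by
  constructor
  · rintro ⟨h, hh, rfl⟩
    rw [QuotientGroup.eq]
    simpa using hh
  · intro h
    have h1 : (g : G ⧸ H) = (y : G ⧸ H) := h.symm
    rw [QuotientGroup.eq] at h1
    exact ⟨g⁻¹ * y, h1, by group⟩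

/-- A starter from blocks that contain one element of each pair `{g, g⁻¹}`, `g ≠ 1`. -/
theorem of_blocks {β : Type} [Fintype β] (H : β → Subgroup G) (L : β → Finset G)
    (hB : ∀ b, HasBlock (H b) (L b)) (h1 : ∀ b, ∀ d ∈ L b, d ≠ 1)
    (huniq : ∀ b b' d d', d ∈ L b → d' ∈ L b' → (d' = d ∨ d' = d⁻¹) → b = b' ∧ d' = d)
    (hex : ∀ g : G, g ≠ 1 → ∃ b, g ∈ L b ∨ g⁻¹ ∈ L b) : HasStarter G := by
  choose p hp1 hp2 hp3 hp4 using hB
  obtain ⟨e⟩ : Nonempty (Fin (Fintype.card β) ≃ β) := ⟨(Fintype.equivFin β).symm⟩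
  have hinj : ∀ b, Set.InjOn (fun d : G => ((d * (p b d).out, (p b d).out) : G × G)) (L b : Set G) := by
    intro b d _ d' _ h
    have h1 := congrArg Prod.fst h
    have h2 := congrArg Prod.snd h
    simp only at h1 h2
    rw [h2] at h1
    exact mul_right_cancel h1
  have hout : ∀ b d, (((p b d).out : G) : G ⧸ H b) = p b d := fun b d => QuotientGroup.out_eq' _
  have hout2 : ∀ b d, ((d * (p b d).out : G) : G ⧸ H b) = d • p b d := by
    intro b d
    conv_rhs => rw [← hout b d]
    rfl
  refine ⟨Fintype.card β, fun i => (L (e i)).image (fun d => (d * (p (e i) d).out, (p (e i) d).out)), ?_, ?_, ?_⟩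
  · intro i x hx
    rw [Finset.mem_image] at hx
    obtain ⟨d, hd, rfl⟩ := hx
    intro h
    simp only at h
    exact h1 (e i) d hd (mul_eq_right.mp h)
  · intro g
    have key : ∀ b : β, (∑ x ∈ (L b).image (fun d => ((d * (p b d).out, (p b d).out) : G × G)), bd x) =
        ∑ d ∈ L b, (if d ^ 2 = 1 then ({d} : Multiset G) else {d, d⁻¹}) := by
      intro b
      rw [Finset.sum_image (hinj b)]
      exact Finset.sum_congr rfl (fun d _ => bd_eq _ _)
    simp only [key]
    rw [e.sum_comp (fun b => ∑ d ∈ L b, (if d ^ 2 = 1 then ({d} : Multiset G) else {d, d⁻¹}))]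
    rw [Multiset.count_sum']
    simp only [Multiset.count_sum', count_lab]
    by_cases hg : g = 1
    · rw [if_pos hg]
      apply Finset.sum_eq_zero
      intro b _
      apply Finset.sum_eq_zero
      intro d hd
      rw [if_neg]
      rintro (h | h)
      · exact h1 b d hd (h ▸ hg)
      · apply h1 b d hd
        rw [hg] at h
        exact (inv_eq_one.mp h.symm)
    · rw [if_neg hg]
      have hg' : ∃ b0, ∃ d0 ∈ L b0, g = d0 ∨ g = d0⁻¹ := by
        obtain ⟨b, hb | hb⟩ := hex g hg
        · exact ⟨b, g, hb, Or.inl rfl⟩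
        · exact ⟨b, g⁻¹, hb, Or.inr (by simp)⟩
      obtain ⟨b0, d0, hd0, hgd⟩ := hg'
      have huq : ∀ b d, d ∈ L b → (g = d ∨ g = d⁻¹) → b0 = b ∧ d = d0 := by
        intro b d hd h
        apply huniq b0 b d0 d hd0 hd
        rcases hgd with h' | h' <;> rcases h with h | h
        · left; rw [← h, h']
        · right; rw [← h', h, inv_inv]
        · right; rw [← h, h']
        · left; exact inv_injective (by rw [← h, h'])
      rw [Finset.sum_eq_single b0, Finset.sum_eq_single d0]
      · rw [if_pos hgd]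
      · intro d hd hne
        rw [if_neg]
        intro h
        exact hne (huq b0 d hd h).2
      · intro h; exact absurd hd0 h
      · intro b _ hne
        apply Finset.sum_eq_zero
        intro d hd
        rw [if_neg]
        intro h
        exact hne (huq b d hd h).1.symm
      · intro h; exact absurd (Finset.mem_univ _) h
  · intro i
    set b := e i with hb
    refine ⟨H b, ?_, ?_⟩
    · intro x hx hs
      rw [Finset.mem_image] at hx
      obtain ⟨d, hd, rfl⟩ := hx
      rw [isShort_iff] at hs
      have h := hp4 b d hd hs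
      rw [← hout2 b d, ← hout b d, hout b d] at h
      have h2 : ((d * (p b d).out : G) : G ⧸ H b) = (((p b d).out : G) : G ⧸ H b) := by
        rw [h, hout]
      rw [QuotientGroup.eq] at h2
      exact h2
    · intro g
      have key : (∑ x ∈ (L b).image (fun d => ((d * (p b d).out, (p b d).out) : G × G)), ph x) =
          ∑ d ∈ L b, (if d ^ 2 = 1 then ({d * (p b d).out} : Multiset G) else {d * (p b d).out, (p b d).out}) := by
        rw [Finset.sum_image (hinj b)]
        exact Finset.sum_congr rfl (fun d _ => ph_eq _ _)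
      rw [key]
      have hcp : ∀ s : Finset G, ∀ f : G → Multiset G, ∀ P : G → Prop,
          (∑ d ∈ s, f d).countP P = ∑ d ∈ s, (f d).countP P := by
        intro s f P
        induction s using Finset.induction_on with
        | empty => simp
        | insert a s ha ih => rw [Finset.sum_insert ha, Finset.sum_insert ha, Multiset.countP_add, ih]
      rw [hcp]
      have hval : ∀ d ∈ L b, ((if d ^ 2 = 1 then ({d * (p b d).out} : Multiset G) else
          {d * (p b d).out, (p b d).out}).countP (fun y => ∃ h ∈ H b, y = g * h)) =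
          if ((g : G ⧸ H b) = p b d ∨ (g : G ⧸ H b) = d • p b d) then 1 else 0 := by
        intro d hd
        have c1 : (∃ h ∈ H b, d * (p b d).out = g * h) ↔ ((g : G ⧸ H b) = d • p b d) := by
          rw [coset_iff, hout2]; exact eq_comm
        have c2 : (∃ h ∈ H b, (p b d).out = g * h) ↔ ((g : G ⧸ H b) = p b d) := by
          rw [coset_iff, hout]; exact eq_comm
        by_cases h2 : d ^ 2 = 1
        · have h4 := hp4 b d hd h2
          rw [if_pos h2, ← Multiset.cons_zero, Multiset.countP_cons, Multiset.countP_zero, zero_add]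
          simp only [c1, h4, or_self]
        · have h3 := hp3 b d hd h2
          rw [if_neg h2, Multiset.insert_eq_cons, ← Multiset.cons_zero, Multiset.countP_cons, Multiset.countP_cons,
            Multiset.countP_zero, zero_add]
          simp only [c1, c2]
          by_cases ha : (g : G ⧸ H b) = p b d
          · have hb2 : ¬ (g : G ⧸ H b) = d • p b d := fun h => h3 (h.symm.trans ha)
            rw [if_pos ha, if_neg hb2, if_pos (Or.inl ha)]
          · by_cases hb2 : (g : G ⧸ H b) = d • p b d
            · rw [if_neg ha, if_pos hb2, if_pos (Or.inr hb2)]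
            · rw [if_neg ha, if_neg hb2, if_neg (not_or.mpr ⟨ha, hb2⟩)]
      rw [Finset.sum_congr rfl hval]
      obtain ⟨d0, hd0, hq⟩ := hp1 b (g : G ⧸ H b)
      rw [Finset.sum_eq_single d0, if_pos hq]
      · intro d hd hne
        rw [if_neg]
        intro h
        obtain ⟨ha, hb', hc⟩ := hp2 b d hd d0 hd0 hne
        obtain ⟨ha', hb'', hc'⟩ := hp2 b d0 hd0 d hd (Ne.symm hne)
        rcases hq with hq | hq <;> rcases h with h | h
        · exact ha (h.symm.trans hq)
        · exact hb'' (hq.symm.trans h)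
        · exact hb' (h.symm.trans hq)
        · exact hc (h.symm.trans hq)
      · intro h; exact absurd hd0 h

end Pool.Agent.Zk59.ST
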