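import Mathlib

set_option autoImplicit false

/-!
# Two combinatorial lemmas: greedy placement of labels, and bijections using every colour at most twice
-/

namespace Pool.Agent.Zk59.ST

open Classical

/-- Greedy placement of labels as disjoint edges. -/
theorem place {G α : Type} [Group G] [MulAction G α] [hα : Nonempty α] (T : Finset α) (D : Finset G)
    (hT : ∀ d ∈ D, ∀ x ∈ T, d • x ∈ T) (hf : ∀ d ∈ D, ∀ x ∈ T, d • x ≠ x) (hc : 4 * D.card < T.card + 4) :
    ∃ p : G → α, (∀ d ∈ D, p d ∈ T) ∧
      (∀ d ∈ D, ∀ d' ∈ D, d ≠ d' → p d ≠ p d' ∧ p d ≠ d' • p d' ∧ d • p d ≠ d' • p d') := by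
  induction D using Finset.induction_on with
  | empty => exact ⟨fun _ => hα.some, by simp, by simp⟩
  | insert a D ha ih =>
    rw [Finset.card_insert_of_notMem ha] at hc
    obtain ⟨p, hp1, hp2⟩ := ih (fun d hd => hT d (Finset.mem_insert_of_mem hd))
      (fun d hd => hf d (Finset.mem_insert_of_mem hd)) (by omega)
    let C : Finset α := D.image p ∪ D.image (fun d => d • p d)
    have hC : C.card ≤ 2 * D.card := by
      calc C.card ≤ (D.image p).card + (D.image (fun d => d • p d)).card := Finset.card_union_le _ _
        _ ≤ D.card + D.card := Nat.add_le_add Finset.card_image_le Finset.card_image_le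
        _ = 2 * D.card := by ring
    let B : Finset α := C ∪ C.image (fun x => a⁻¹ • x)
    have hB : B.card ≤ 4 * D.card := by
      calc B.card ≤ C.card + (C.image (fun x => a⁻¹ • x)).card := Finset.card_union_le _ _
        _ ≤ C.card + C.card := Nat.add_le_add le_rfl Finset.card_image_le
        _ ≤ 4 * D.card := by omega
    obtain ⟨x, hxT, hxB⟩ : ∃ x ∈ T, x ∉ B := by
      by_contra h
      push Not at h
      have := Finset.card_le_card (show T ⊆ B from h)
      omega
    have hx1 : x ∉ C := fun h => hxB (Finset.mem_union_left _ h)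
    have hx2 : a • x ∉ C := fun h => hxB (Finset.mem_union_right _
      (Finset.mem_image.mpr ⟨a • x, h, inv_smul_smul a x⟩))
    have hC1 : ∀ d ∈ D, p d ∈ C := fun d hd => Finset.mem_union_left _ (Finset.mem_image_of_mem _ hd)
    have hC2 : ∀ d ∈ D, d • p d ∈ C := fun d hd => Finset.mem_union_right _
      (Finset.mem_image.mpr ⟨d, hd, rfl⟩)
    have hne : ∀ d ∈ D, d ≠ a := fun d hd h => ha (h ▸ hd)
    refine ⟨Function.update p a x, ?_, ?_⟩
    · intro d hd
      rw [Finset.mem_insert] at hd
      rcases hd with rfl | hd
      · rw [Function.update_self]; exact hxT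
      · rw [Function.update_of_ne (hne d hd)]; exact hp1 d hd
    · intro d hd d' hd' hdd
      rw [Finset.mem_insert] at hd hd'
      rcases hd with rfl | hd <;> rcases hd' with rfl | hd'
      · exact absurd rfl hdd
      · rw [Function.update_self, Function.update_of_ne (hne d' hd')]
        refine ⟨?_, ?_, ?_⟩
        · intro h; exact hx1 (h ▸ hC1 d' hd')
        · intro h; exact hx1 (h ▸ hC2 d' hd')
        · intro h; exact hx2 (h ▸ hC2 d' hd')
      · rw [Function.update_self, Function.update_of_ne (hne d hd)]
        refine ⟨?_, ?_, ?_⟩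
        · intro h; exact hx1 (h ▸ hC1 d hd)
        · intro h; exact hx2 (h ▸ hC1 d hd)
        · intro h; exact hx2 (h ▸ hC2 d hd)
      · rw [Function.update_of_ne (hne d hd), Function.update_of_ne (hne d' hd')]
        exact hp2 d hd d' hd' hdd

/-- A bijection that uses every colour at most twice, if no row and no column repeats a colour. -/
theorem two_bij {X Y C : Type} [Fintype X] [Fintype Y] [Fintype C] (hXY : Fintype.card X = Fintype.card Y)
    (col : X → Y → C) (hrow : ∀ x, Function.Injective (col x)) (hcol : ∀ y, Function.Injective (fun x => col x y)) :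
    ∃ π : X ≃ Y, ∀ c, (Finset.univ.filter (fun x => col x (π x) = c)).card ≤ 2 := by
  obtain ⟨π0⟩ : Nonempty (X ≃ Y) := ⟨Fintype.equivOfCardEq hXY⟩
  let S : Finset ((X ≃ Y) × Finset X) := Finset.univ.filter
    (fun z => ∀ c, (z.2.filter (fun x => col x (z.1 x) = c)).card ≤ 2)
  have hS : S.Nonempty := ⟨(π0, ∅), by simp [S]⟩
  obtain ⟨⟨π, A⟩, hπA, hmax⟩ := Finset.exists_max_image S (fun z => z.2.card) hS
  have hA : ∀ c, (A.filter (fun x => col x (π x) = c)).card ≤ 2 := by
    simpa [S] using hπA
  have hmax' : ∀ (π' : X ≃ Y) (A' : Finset X), (∀ c, (A'.filter (fun x => col x (π' x) = c)).card ≤ 2) →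
      A'.card ≤ A.card := by
    intro π' A' h
    exact hmax (π', A') (by simp only [S, Finset.mem_filter, Finset.mem_univ, true_and]; exact h)
  by_cases hAu : A = Finset.univ
  · exact ⟨π, fun c => by rw [← hAu]; exact hA c⟩
  exfalso
  obtain ⟨i, hi⟩ : ∃ i, i ∉ A := by
    by_contra h
    push Not at h
    exact hAu (Finset.eq_univ_of_forall h)
  let m : C → ℕ := fun c => (A.filter (fun x => col x (π x) = c)).card
  have hm : ∀ c, m c ≤ 2 := hA
  set c0 := col i (π i) with hc0
  -- the colour of `i` is full
  have hmc : m c0 = 2 := by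
    by_contra h
    have h1 : m c0 ≤ 1 := by have := hm c0; omega
    have := hmax' π (insert i A) (by
      intro c
      rw [Finset.filter_insert]
      by_cases hc : col i (π i) = c
      · rw [if_pos hc]
        refine (Finset.card_insert_le _ _).trans ?_
        rw [← hc]
        exact Nat.succ_le_succ h1
      · rw [if_neg hc]; exact hA c)
    rw [Finset.card_insert_of_notMem hi] at this
    omega
  let α : X → C := fun j => col i (π j)
  let β : X → C := fun j => col j (π i)
  have hα : Function.Injective α := fun a b h => π.injective (hrow i h)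
  have hβ : Function.Injective β := fun a b h => hcol (π i) h
  -- bad indices
  let bad : C → Finset X := fun c => Finset.univ.filter (fun j => j ≠ i ∧
    (((α j = c ∨ β j = c) ∧ 2 ≤ m c) ∨ (α j = c ∧ β j = c ∧ 1 ≤ m c)))
  have hbad : ∀ c, (bad c).card ≤ m c := by
    intro c
    have h1 : (Finset.univ.filter (fun j => α j = c)).card ≤ 1 := by
      rw [Finset.card_le_one]
      intro a ha b hb
      simp only [Finset.mem_filter, Finset.mem_univ, true_and] at ha hb
      exact hα (ha.trans hb.symm)
    have h2 : (Finset.univ.filter (fun j => β j = c)).card ≤ 1 := by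
      rw [Finset.card_le_one]
      intro a ha b hb
      simp only [Finset.mem_filter, Finset.mem_univ, true_and] at ha hb
      exact hβ (ha.trans hb.symm)
    by_cases h3 : 2 ≤ m c
    · have : bad c ⊆ (Finset.univ.filter (fun j => α j = c)) ∪ (Finset.univ.filter (fun j => β j = c)) := by
        intro j hj
        simp only [bad, Finset.mem_filter, Finset.mem_univ, true_and, Finset.mem_union] at hj ⊢
        rcases hj.2 with h | h
        · exact h.1
        · exact Or.inl h.1
      have h4 := (Finset.card_le_card this).trans (Finset.card_union_le _ _)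
      omega
    · by_cases h4 : 1 ≤ m c
      · have : bad c ⊆ (Finset.univ.filter (fun j => α j = c)) := by
          intro j hj
          simp only [bad, Finset.mem_filter, Finset.mem_univ, true_and] at hj ⊢
          rcases hj.2 with h | h
          · exact absurd h.2 h3
          · exact h.1
        have h5 := Finset.card_le_card this
        omega
      · have : bad c = ∅ := by
          rw [Finset.eq_empty_iff_forall_notMem]
          intro j hj
          simp only [bad, Finset.mem_filter, Finset.mem_univ, true_and] at hj
          rcases hj.2 with h | h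
          · exact h3 h.2
          · exact h4 h.2.2
        rw [this]; simp
  have hbad0 : bad c0 = ∅ := by
    rw [Finset.eq_empty_iff_forall_notMem]
    intro j hj
    simp only [bad, Finset.mem_filter, Finset.mem_univ, true_and] at hj
    have ha : α j ≠ c0 := fun h => hj.1 (hα (h.trans hc0))
    have hb : β j ≠ c0 := fun h => hj.1 (hβ (h.trans hc0))
    rcases hj.2 with h | h
    · rcases h.1 with h | h
      · exact ha h
      · exact hb h
    · exact ha h.1
  let Bad : Finset X := Finset.univ.biUnion bad
  have hsum : ∑ c, m c = A.card := by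
    rw [Finset.card_eq_sum_card_fiberwise (f := fun x => col x (π x)) (t := Finset.univ)
      (fun x _ => Finset.mem_coe.mpr (Finset.mem_univ _))]
  have hBad : Bad.card ≤ A.card - 2 := by
    have h1 : Bad.card ≤ ∑ c, (bad c).card := Finset.card_biUnion_le
    have h2 : ∑ c, (bad c).card ≤ ∑ c ∈ Finset.univ.erase c0, m c := by
      rw [← Finset.add_sum_erase _ _ (Finset.mem_univ c0), hbad0, Finset.card_empty, zero_add]
      exact Finset.sum_le_sum (fun c _ => hbad c)
    have h3 : m c0 + ∑ c ∈ Finset.univ.erase c0, m c = A.card := by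
      rw [Finset.add_sum_erase _ _ (Finset.mem_univ c0), hsum]
    omega
  have hAcard : A.card + 1 ≤ Fintype.card X := by
    rw [← Finset.card_insert_of_notMem hi]
    exact Finset.card_le_univ _
  have hA2 : 2 ≤ A.card := by
    have : m c0 ≤ A.card := Finset.card_le_card (Finset.filter_subset _ _)
    omega
  obtain ⟨j, hj, hjB⟩ : ∃ j ∈ Finset.univ.erase i, j ∉ Bad := by
    by_contra h
    push Not at h
    have h1 := Finset.card_le_card (show Finset.univ.erase i ⊆ Bad from h)
    rw [Finset.card_erase_of_mem (Finset.mem_univ i), Finset.card_univ] at h1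
    omega
  have hji : j ≠ i := (Finset.mem_erase.mp hj).1
  have hgood : ∀ c, ¬ (((α j = c ∨ β j = c) ∧ 2 ≤ m c) ∨ (α j = c ∧ β j = c ∧ 1 ≤ m c)) := by
    intro c h
    apply hjB
    rw [Finset.mem_biUnion]
    exact ⟨c, Finset.mem_univ _, by
      simp only [bad, Finset.mem_filter, Finset.mem_univ, true_and]; exact ⟨hji, h⟩⟩
  let π' : X ≃ Y := (Equiv.swap i j).trans π
  have hπi : π' i = π j := by simp [π']
  have hπj : π' j = π i := by simp [π']
  have hπx : ∀ x, x ≠ i → x ≠ j → π' x = π x := by
    intro x h1 h2
    simp [π', Equiv.swap_apply_of_ne_of_ne h1 h2]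
  have hfin := hmax' π' (insert i A) (by
    intro c
    have hsub : (insert i A).filter (fun x => col x (π' x) = c) ⊆
        (A.filter (fun x => col x (π x) = c)) ∪ (if α j = c then {i} else ∅) ∪ (if β j = c then {j} else ∅) := by
      intro x hx
      rw [Finset.mem_filter, Finset.mem_insert] at hx
      obtain ⟨hx1, hx2⟩ := hx
      by_cases hxi : x = i
      · subst hxi
        rw [hπi] at hx2
        have : α j = c := hx2
        rw [if_pos this]; simp
      · by_cases hxj : x = j
        · subst hxj
          rw [hπj] at hx2
          have : β x = c := hx2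
          rw [if_pos this]; simp
        · rw [hπx x hxi hxj] at hx2
          have hxA : x ∈ A := by
            rcases hx1 with h | h
            · exact absurd h hxi
            · exact h
          simp [hxA, hx2]
    refine (Finset.card_le_card hsub).trans ?_
    refine (Finset.card_union_le _ _).trans ?_
    refine (Nat.add_le_add (Finset.card_union_le _ _) le_rfl).trans ?_
    have hmc := hm c
    have hg := hgood c
    change m c + _ + _ ≤ 2
    by_cases ha : α j = c <;> by_cases hb : β j = c
    · rw [if_pos ha, if_pos hb]
      simp only [Finset.card_singleton]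
      have : ¬ 1 ≤ m c := fun h => hg (Or.inr ⟨ha, hb, h⟩)
      omega
    · rw [if_pos ha, if_neg hb]
      simp only [Finset.card_singleton, Finset.card_empty]
      have : ¬ 2 ≤ m c := fun h => hg (Or.inl ⟨Or.inl ha, h⟩)
      omega
    · rw [if_neg ha, if_pos hb]
      simp only [Finset.card_singleton, Finset.card_empty]
      have : ¬ 2 ≤ m c := fun h => hg (Or.inl ⟨Or.inr hb, h⟩)
      omega
    · rw [if_neg ha, if_neg hb]
      simp only [Finset.card_empty]
      omega)
  rw [Finset.card_insert_of_notMem hi] at hfin
  omega

end Pool.Agent.Zk59.ST
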