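import Pool.Agent.Zk59.ST.Rem
import Pool.Agent.Zk59.ST.Comb

set_option autoImplicit false

/-!
# The big block
-/

namespace Pool.Agent.Zk59.ST

open Classical

variable {G : Type} [Group G]

/-- The labels `L` can be placed so that their points form a partition of `U`. -/
def PB (H : Subgroup G) (L : Finset G) (U : Finset (G ⧸ H)) : Prop :=
  ∃ p : G → G ⧸ H,
    (∀ d ∈ L, p d ∈ U ∧ d • p d ∈ U) ∧
    (∀ q ∈ U, ∃ d ∈ L, q = p d ∨ q = d • p d) ∧
    (∀ d ∈ L, ∀ d' ∈ L, d ≠ d' → p d ≠ p d' ∧ p d ≠ d' • p d' ∧ d • p d ≠ d' • p d') ∧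
    (∀ d ∈ L, d ^ 2 ≠ 1 → d • p d ≠ p d) ∧
    (∀ d ∈ L, d ^ 2 = 1 → d • p d = p d)

theorem PB.hasBlock [Finite G] {H : Subgroup G} {L : Finset G} {U : Finset (G ⧸ H)} (h : PB H L U)
    (hU : ∀ q, q ∈ U) : HasBlock H L := by
  obtain ⟨p, _, h2, h3, h4, h5⟩ := h
  exact ⟨p, fun q => h2 q (hU q), h3, h4, h5⟩

theorem PB.union {H : Subgroup G} {L L' : Finset G} {U U' : Finset (G ⧸ H)} (h : PB H L U) (h' : PB H L' U')
    (hL : Disjoint L L') (hU : Disjoint U U') : PB H (L ∪ L') (U ∪ U') := by
  obtain ⟨p, h1, h2, h3, h4, h5⟩ := h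
  obtain ⟨p', h1', h2', h3', h4', h5'⟩ := h'
  have hnot : ∀ d ∈ L', d ∉ L := fun d hd hd' => Finset.disjoint_left.mp hL hd' hd
  have hd : ∀ a ∈ U, ∀ b ∈ U', a ≠ b := fun a ha b hb h => Finset.disjoint_left.mp hU ha (h ▸ hb)
  refine ⟨fun d => if d ∈ L then p d else p' d, ?_, ?_, ?_, ?_, ?_⟩
  · intro d hd
    by_cases hdL : d ∈ L
    · simp only [if_pos hdL]
      exact ⟨Finset.mem_union_left _ (h1 d hdL).1, Finset.mem_union_left _ (h1 d hdL).2⟩
    · simp only [if_neg hdL]
      have hdL' : d ∈ L' := (Finset.mem_union.mp hd).resolve_left hdL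
      exact ⟨Finset.mem_union_right _ (h1' d hdL').1, Finset.mem_union_right _ (h1' d hdL').2⟩
  · intro q hq
    rcases Finset.mem_union.mp hq with hq | hq
    · obtain ⟨d, hd, hdq⟩ := h2 q hq
      refine ⟨d, Finset.mem_union_left _ hd, ?_⟩
      simp only [if_pos hd]; exact hdq
    · obtain ⟨d, hd, hdq⟩ := h2' q hq
      refine ⟨d, Finset.mem_union_right _ hd, ?_⟩
      simp only [if_neg (hnot d hd)]; exact hdq
  · intro d hdm d' hdm' hne
    by_cases hdL : d ∈ L <;> by_cases hdL' : d' ∈ L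
    · simp only [if_pos hdL, if_pos hdL']; exact h3 d hdL d' hdL' hne
    · simp only [if_pos hdL, if_neg hdL']
      have hm : d' ∈ L' := (Finset.mem_union.mp hdm').resolve_left hdL'
      exact ⟨hd _ (h1 d hdL).1 _ (h1' d' hm).1, hd _ (h1 d hdL).1 _ (h1' d' hm).2,
        hd _ (h1 d hdL).2 _ (h1' d' hm).2⟩
    · simp only [if_neg hdL, if_pos hdL']
      have hm : d ∈ L' := (Finset.mem_union.mp hdm).resolve_left hdL
      exact ⟨(hd _ (h1 d' hdL').1 _ (h1' d hm).1).symm, (hd _ (h1 d' hdL').2 _ (h1' d hm).1).symm,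
        (hd _ (h1 d' hdL').2 _ (h1' d hm).2).symm⟩
    · simp only [if_neg hdL, if_neg hdL']
      exact h3' d ((Finset.mem_union.mp hdm).resolve_left hdL) d'
        ((Finset.mem_union.mp hdm').resolve_left hdL') hne
  · intro d hdm h2
    by_cases hdL : d ∈ L
    · simp only [if_pos hdL]; exact h4 d hdL h2
    · simp only [if_neg hdL]; exact h4' d ((Finset.mem_union.mp hdm).resolve_left hdL) h2
  · intro d hdm h2
    by_cases hdL : d ∈ L
    · simp only [if_pos hdL]; exact h5 d hdL h2
    · simp only [if_neg hdL]; exact h5' d ((Finset.mem_union.mp hdm).resolve_left hdL) h2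

theorem PB_of_index {ι : Type} [Fintype ι] (H : Subgroup G) (lab : ι → G) (pp : ι → G ⧸ H) (U : Finset (G ⧸ H))
    (hlab : Function.Injective lab) (hin : ∀ i, pp i ∈ U ∧ lab i • pp i ∈ U)
    (hcov : ∀ q ∈ U, ∃ i, q = pp i ∨ q = lab i • pp i)
    (hdisj : ∀ i j, i ≠ j → pp i ≠ pp j ∧ pp i ≠ lab j • pp j ∧ lab i • pp i ≠ lab j • pp j)
    (hlong : ∀ i, lab i ^ 2 ≠ 1 → lab i • pp i ≠ pp i) (hshort : ∀ i, lab i ^ 2 = 1 → lab i • pp i = pp i) :
    PB H (Finset.univ.image lab) U := by
  have hm : ∀ d, d ∈ Finset.univ.image lab ↔ ∃ i, lab i = d := by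
    intro d; simp
  let p : G → G ⧸ H := fun d => if h : ∃ i, lab i = d then pp h.choose else ((1 : G) : G ⧸ H)
  have hp : ∀ i, p (lab i) = pp i := by
    intro i
    have h : ∃ j, lab j = lab i := ⟨i, rfl⟩
    simp only [p, dif_pos h]
    rw [hlab h.choose_spec]
  refine ⟨p, ?_, ?_, ?_, ?_, ?_⟩
  · intro d hd
    obtain ⟨i, rfl⟩ := (hm d).mp hd
    rw [hp]; exact hin i
  · intro q hq
    obtain ⟨i, hi⟩ := hcov q hq
    refine ⟨lab i, (hm _).mpr ⟨i, rfl⟩, ?_⟩
    rw [hp]; exact hi
  · intro d hd d' hd' hne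
    obtain ⟨i, rfl⟩ := (hm d).mp hd
    obtain ⟨j, rfl⟩ := (hm d').mp hd'
    rw [hp, hp]
    exact hdisj i j (fun h => hne (by rw [h]))
  · intro d hd h2
    obtain ⟨i, rfl⟩ := (hm d).mp hd
    rw [hp]; exact hlong i h2
  · intro d hd h2
    obtain ⟨i, rfl⟩ := (hm d).mp hd
    rw [hp]; exact hshort i h2

/-- Two labels for every coset of `V` outside `M`, all different and no two of them inverse to each other. -/
theorem labels [Finite G] (M V : Subgroup G) [V.Normal] (hVM : V ≤ M) (hV4 : 4 ≤ Nat.card V)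
    (hinv : ∀ g : G, g ^ 2 = 1 → g ∈ M) :
    ∃ Λ : G ⧸ V → Bool → G,
      (∀ g : G, g ∉ M → ∀ b, ((Λ g b : G) : G ⧸ V) = g) ∧
      (∀ g g' : G, g ∉ M → g' ∉ M → ∀ b b', Λ g b ≠ (Λ g' b')⁻¹) ∧
      (∀ g g' : G, g ∉ M → g' ∉ M → ∀ b b', Λ g b = Λ g' b' → (g : G ⧸ V) = g' ∧ b = b') := by
  have : Fintype G := Fintype.ofFinite G
  have : Fintype V := Fintype.ofFinite V
  have : Fintype (G ⧸ V) := Fintype.ofFinite _
  obtain ⟨e⟩ : Nonempty (Bool × Bool ↪ V) := by
    apply Function.Embedding.nonempty_of_card_le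
    rw [← Nat.card_eq_fintype_card (α := V)]
    simpa using hV4
  have hev : ∀ x, ((e x : V) : G) ∈ V := fun x => (e x).2
  have hinj : ∀ x y, ((e x : V) : G) = ((e y : V) : G) → x = y := fun x y h => e.injective (Subtype.ext h)
  let r : G ⧸ V → ℕ := fun q => ((Fintype.equivFin (G ⧸ V)) q : ℕ)
  have hr : Function.Injective r := fun a b h => (Fintype.equivFin (G ⧸ V)).injective (Fin.ext h)
  have hout : ∀ q : G ⧸ V, ((q.out : G) : G ⧸ V) = q := fun q => QuotientGroup.out_eq' _
  have hmulV : ∀ (g v : G), v ∈ V → ((g * v : G) : G ⧸ V) = g := by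
    intro g v hv
    have : (g : G ⧸ V) = ((g * v : G) : G ⧸ V) := by rw [QuotientGroup.eq]; simpa using hv
    exact this.symm
  have hh : ∀ q : G ⧸ V, ∃ h : G, (h : G ⧸ V) = q ∧ h ≠ q.out ∧ h ≠ q.out⁻¹ := by
    intro q
    let S : Finset G := Finset.univ.image (fun x : Bool × Bool => q.out * ((e x : V) : G))
    have hS : S.card = 4 := by
      rw [Finset.card_image_of_injective]
      · simp
      · intro x y h
        exact hinj x y (mul_left_cancel h)
    obtain ⟨h, hhS, hh2⟩ : ∃ h ∈ S, h ∉ ({q.out, q.out⁻¹} : Finset G) := by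
      by_contra hcon
      push Not at hcon
      have := Finset.card_le_card (show S ⊆ {q.out, q.out⁻¹} from hcon)
      have h2 : ({q.out, q.out⁻¹} : Finset G).card ≤ 2 := Finset.card_le_two
      omega
    obtain ⟨x, _, rfl⟩ := Finset.mem_image.mp hhS
    refine ⟨q.out * ((e x : V) : G), ?_, ?_, ?_⟩
    · rw [hmulV _ _ (hev x)]; exact hout q
    · intro h; apply hh2; rw [Finset.mem_insert]; exact Or.inl h
    · intro h; apply hh2; rw [Finset.mem_insert, Finset.mem_singleton]; exact Or.inr h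
  choose k hk1 hk2 hk3 using hh
  let Λ : G ⧸ V → Bool → G := fun c b => if c = c⁻¹ then (if b then k c else c.out) else
    if r c < r c⁻¹ then c.out * ((e (b, false) : V) : G) else ((c⁻¹).out * ((e (b, true) : V) : G))⁻¹
  have hΛq : ∀ (c : G ⧸ V) b, ((Λ c b : G) : G ⧸ V) = c := by
    intro c b
    simp only [Λ]
    by_cases h1 : c = c⁻¹
    · rw [if_pos h1]
      cases b
      · simp only [Bool.false_eq_true, if_false]; exact hout c
      · simp only [if_true]; exact hk1 c
    · rw [if_neg h1]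
      by_cases h2 : r c < r c⁻¹
      · rw [if_pos h2, hmulV _ _ (hev _)]; exact hout c
      · rw [if_neg h2, QuotientGroup.mk_inv, hmulV _ _ (hev _), hout, inv_inv]
  have hns : ∀ g : G, g ∉ M → ∀ x : G, (x : G ⧸ V) = g → x ≠ x⁻¹ := by
    intro g hg x hx h
    apply hg
    have hxM : x ∈ M := hinv x (by rw [sq]; nth_rw 2 [h]; simp)
    have h1 : x⁻¹ * g ∈ V := QuotientGroup.eq.mp hx
    have h2 : g = x * (x⁻¹ * g) := by group
    rw [h2]
    exact M.mul_mem hxM (hVM h1)
  have hout' : ∀ g : G, g ∉ M → ((g : G ⧸ V)).out ≠ ((g : G ⧸ V)).out⁻¹ := by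
    intro g hg
    exact hns g hg _ (hout _)
  refine ⟨Λ, fun g _ b => hΛq g b, ?_, ?_⟩
  · intro g g' hg hg' b b' h
    have hgg : (g : G ⧸ V) = (g' : G ⧸ V)⁻¹ := by
      have := congrArg (fun x : G => (x : G ⧸ V)) h
      simp only [QuotientGroup.mk_inv, hΛq] at this
      exact this
    have hgg2 : (g' : G ⧸ V) = (g : G ⧸ V)⁻¹ := by rw [hgg, inv_inv]
    rw [hgg2] at h
    simp only [Λ, inv_inv] at h
    by_cases h1 : (g : G ⧸ V) = (g : G ⧸ V)⁻¹
    · have h1' : (g : G ⧸ V)⁻¹ = (g : G ⧸ V) := h1.symm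
      rw [if_pos h1, if_pos h1', h1'] at h
      cases b <;> cases b' <;> simp only [Bool.false_eq_true, if_false, if_true] at h
      · exact hout' g hg h
      · apply hk3 (g : G ⧸ V); rw [h, inv_inv]
      · exact hk3 (g : G ⧸ V) h
      · exact hns g hg _ (hk1 _) h
    · have h1' : ¬ ((g : G ⧸ V)⁻¹ = (g : G ⧸ V)) := fun h => h1 h.symm
      rw [if_neg h1, if_neg h1'] at h
      by_cases h2 : r (g : G ⧸ V) < r (g : G ⧸ V)⁻¹
      · have h2' : ¬ (r (g : G ⧸ V)⁻¹ < r (g : G ⧸ V)) := by omega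
        rw [if_pos h2, if_neg h2', inv_inv] at h
        have := hinj _ _ (mul_left_cancel h)
        simp at this
      · have h2' : (r (g : G ⧸ V)⁻¹ < r (g : G ⧸ V)) := by
          have : r (g : G ⧸ V)⁻¹ ≠ r (g : G ⧸ V) := fun h => h1' (hr h)
          omega
        rw [if_neg h2, if_pos h2'] at h
        have := hinj _ _ (mul_left_cancel (inv_injective h))
        simp at this
  · intro g g' hg hg' b b' h
    have hgg : (g : G ⧸ V) = (g' : G ⧸ V) := by
      have := congrArg (fun x : G => (x : G ⧸ V)) h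
      simp only [hΛq] at this
      exact this
    refine ⟨hgg, ?_⟩
    rw [← hgg] at h
    simp only [Λ] at h
    by_cases h1 : (g : G ⧸ V) = (g : G ⧸ V)⁻¹
    · rw [if_pos h1, if_pos h1] at h
      cases b <;> cases b' <;> simp only [Bool.false_eq_true, if_false, if_true] at h
      · rfl
      · exact absurd h.symm (hk2 _)
      · exact absurd h (hk2 _)
      · rfl
    · rw [if_neg h1, if_neg h1] at h
      by_cases h2 : r (g : G ⧸ V) < r (g : G ⧸ V)⁻¹
      · rw [if_pos h2, if_pos h2] at h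
        have := hinj _ _ (mul_left_cancel h)
        exact (Prod.mk.inj this).1
      · rw [if_neg h2, if_neg h2] at h
        have := hinj _ _ (mul_left_cancel (inv_injective h))
        exact (Prod.mk.inj this).1

/-- Greedy placement as a partial block. -/
theorem place_PB [Finite G] (H : Subgroup G) (T : Finset (G ⧸ H)) (D : Finset G)
    (hT : ∀ d ∈ D, ∀ x ∈ T, d • x ∈ T) (hf : ∀ d ∈ D, ∀ x ∈ T, d • x ≠ x) (hc : 4 * D.card < T.card + 4)
    (hD2 : ∀ d ∈ D, d ^ 2 ≠ 1) : ∃ C ⊆ T, C.card = 2 * D.card ∧ PB H D C := by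
  obtain ⟨p, hp1, hp2⟩ := place T D hT hf hc
  have hm : ∀ q, q ∈ D.image p ∪ D.image (fun d => d • p d) ↔ ∃ d ∈ D, q = p d ∨ q = d • p d := by
    intro q
    rw [Finset.mem_union, Finset.mem_image, Finset.mem_image]
    constructor
    · rintro (⟨d, hd, rfl⟩ | ⟨d, hd, rfl⟩)
      · exact ⟨d, hd, Or.inl rfl⟩
      · exact ⟨d, hd, Or.inr rfl⟩
    · rintro ⟨d, hd, rfl | rfl⟩
      · exact Or.inl ⟨d, hd, rfl⟩
      · exact Or.inr ⟨d, hd, rfl⟩
  refine ⟨D.image p ∪ D.image (fun d => d • p d), ?_, ?_, p, ?_, ?_, ?_, ?_, ?_⟩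
  · intro q hq
    obtain ⟨d, hd, rfl | rfl⟩ := (hm q).mp hq
    · exact hp1 d hd
    · exact hT d hd _ (hp1 d hd)
  · rw [Finset.card_union_of_disjoint, Finset.card_image_of_injOn, Finset.card_image_of_injOn]
    · ring
    · intro d hd d' hd' h
      by_contra hne
      exact (hp2 d hd d' hd' hne).2.2 h
    · intro d hd d' hd' h
      by_contra hne
      exact (hp2 d hd d' hd' hne).1 h
    · rw [Finset.disjoint_left]
      intro q hq hq'
      rw [Finset.mem_image] at hq hq'
      obtain ⟨d, hd, rfl⟩ := hq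
      obtain ⟨d', hd', h⟩ := hq'
      by_cases hne : d = d'
      · rw [← hne] at h
        exact hf d hd _ (hp1 d hd) h
      · exact (hp2 d hd d' hd' hne).2.1 h.symm
  · intro d hd
    exact ⟨(hm _).mpr ⟨d, hd, Or.inl rfl⟩, (hm _).mpr ⟨d, hd, Or.inr rfl⟩⟩
  · intro q hq; exact (hm q).mp hq
  · exact hp2
  · intro d hd _
    exact hf d hd _ (hp1 d hd)
  · intro d hd h2
    exact absurd h2 (hD2 d hd)

/-- The big block: the labels `D` (elements of `M`) together with labels outside `M` and some involutions of `V` form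
a block with the subgroup `V`. -/
theorem bigBlock [Finite G] (M V : Subgroup G) [V.Normal] (hM : M.index = 2) (hVM : V ≤ M)
    (hVinv : ∀ v ∈ V, v ^ 2 = 1) (hV4 : 4 ≤ Nat.card V)
    (hinv : ∀ g : G, g ^ 2 = 1 → g ∈ M) (D : Finset G) (hDM : ∀ d ∈ D, d ∈ M) (hD2 : ∀ d ∈ D, d ^ 2 ≠ 1)
    (hDanti : ∀ d ∈ D, ∀ d' ∈ D, d' ≠ d⁻¹) (hcard : 2 * D.card * Nat.card V ≤ Nat.card M) :
    ∃ L : Finset G, HasBlock V L ∧ D ⊆ L ∧ (∀ d ∈ L, d ∈ D ∨ (d ∈ V ∧ d ≠ 1) ∨ d ∉ M) ∧
      (∀ d ∈ L, ∀ d' ∈ L, d' = d⁻¹ → d' = d) ∧ (∀ d ∈ L, d ≠ 1) := by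
  have : Fintype G := Fintype.ofFinite G
  have : Fintype V := Fintype.ofFinite V
  have : Fintype (G ⧸ V) := Fintype.ofFinite _
  have hmem : ∀ g : G, (g : G ⧸ V) ∈ M.map (QuotientGroup.mk' V) ↔ g ∈ M := by
    intro g
    constructor
    · rintro ⟨m, hm, hmg⟩
      have h1 : (m : G ⧸ V) = (g : G ⧸ V) := hmg
      rw [QuotientGroup.eq] at h1
      have h2 : g = m * (m⁻¹ * g) := by group
      rw [h2]; exact M.mul_mem hm (hVM h1)
    · intro hg; exact ⟨g, hg, rfl⟩
  let T0 : Finset (G ⧸ V) := Finset.univ.filter (fun q => q ∈ M.map (QuotientGroup.mk' V))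
  let T1 : Finset (G ⧸ V) := Finset.univ.filter (fun q => q ∉ M.map (QuotientGroup.mk' V))
  have hT0 : ∀ g : G, (g : G ⧸ V) ∈ T0 ↔ g ∈ M := by intro g; simp only [T0, Finset.mem_filter, Finset.mem_univ, true_and]; exact hmem g
  have hT1 : ∀ g : G, (g : G ⧸ V) ∈ T1 ↔ g ∉ M := by
    intro g; simp only [T1, Finset.mem_filter, Finset.mem_univ, true_and]; rw [hmem g]
  have hT01 : Disjoint T0 T1 := by
    rw [Finset.disjoint_left]
    intro q h0 h1
    simp only [T0, T1, Finset.mem_filter, Finset.mem_univ, true_and] at h0 h1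
    exact h1 h0
  have hTu : T0 ∪ T1 = Finset.univ := by
    ext q
    simp only [T0, T1, Finset.mem_filter, Finset.mem_univ, true_and, Finset.mem_union, iff_true]
    exact Classical.em _
  obtain ⟨s, hs⟩ : ∃ s : G, s ∉ M := by
    by_contra h
    push Not at h
    have : M = ⊤ := by ext x; simp [h x]
    rw [this, Subgroup.index_top] at hM
    omega
  have hTc : T1.card = T0.card := by
    have : T1 = T0.image (fun q => (s : G ⧸ V) * q) := by
      ext q
      induction q using QuotientGroup.induction_on with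
      | H g =>
        rw [hT1, Finset.mem_image]
        constructor
        · intro hg
          refine ⟨((s⁻¹ * g : G) : G ⧸ V), ?_, ?_⟩
          · rw [hT0, Subgroup.mul_mem_iff_of_index_two hM]
            constructor
            · intro h; exact absurd (by simpa using h) hs
            · intro h; exact absurd h hg
          · rw [← QuotientGroup.mk_mul]; congr 1; group
        · rintro ⟨x, hx, hxg⟩
          induction x using QuotientGroup.induction_on with
          | H x =>
            rw [hT0] at hx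
            intro hgM
            apply hs
            rw [← QuotientGroup.mk_mul, QuotientGroup.eq] at hxg
            have h2 : s = g * ((s * x)⁻¹ * g)⁻¹ * x⁻¹ := by group
            rw [h2]
            exact M.mul_mem (M.mul_mem hgM (M.inv_mem (hVM hxg))) (M.inv_mem hx)
    rw [this, Finset.card_image_of_injective]
    intro a b h
    exact mul_left_cancel h
  have hsum : T0.card + T1.card = Fintype.card (G ⧸ V) := by
    rw [← Finset.card_union_of_disjoint hT01, hTu, Finset.card_univ]
  have hN : T0.card * Nat.card V = Nat.card M := by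
    have h1 : Nat.card V * V.index = Nat.card G := V.card_mul_index
    have h2 : Nat.card M * M.index = Nat.card G := M.card_mul_index
    have h3 : V.index = Fintype.card (G ⧸ V) := by rw [Subgroup.index, Nat.card_eq_fintype_card]
    rw [hM] at h2
    rw [h3, ← hsum, hTc] at h1
    nlinarith
  have hVpos : 0 < Nat.card V := by omega
  have hDN : 2 * D.card ≤ T0.card := by
    have h1 : 2 * D.card * Nat.card V ≤ T0.card * Nat.card V := by rw [hN]; exact hcard
    exact Nat.le_of_mul_le_mul_right h1 hVpos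
  -- action of the labels
  have hact : ∀ (d : G) (g : G), d • ((g : G) : G ⧸ V) = ((d * g : G) : G ⧸ V) := fun d g => rfl
  have hactT0 : ∀ d ∈ D, ∀ q ∈ T0, d • q ∈ T0 := by
    intro d hd q hq
    induction q using QuotientGroup.induction_on with
    | H g =>
      rw [hT0] at hq
      rw [hact, hT0]
      exact M.mul_mem (hDM d hd) hq
  have hactT1 : ∀ d ∈ D, ∀ q ∈ T1, d • q ∈ T1 := by
    intro d hd q hq
    induction q using QuotientGroup.induction_on with
    | H g =>
      rw [hT1] at hq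
      rw [hact, hT1]
      intro h
      apply hq
      have h2 : g = d⁻¹ * (d * g) := by group
      rw [h2]
      exact M.mul_mem (M.inv_mem (hDM d hd)) h
  have hfree : ∀ (d : G), d ∉ V → ∀ q : G ⧸ V, d • q ≠ q := by
    intro d hd q h
    induction q using QuotientGroup.induction_on with
    | H g =>
      rw [hact] at h
      have h1 := h.symm
      rw [QuotientGroup.eq] at h1
      apply hd
      have h2 : d = g * (g⁻¹ * (d * g)) * g⁻¹ := by group
      rw [h2]
      exact (inferInstance : V.Normal).conj_mem _ h1 g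
  have hDV : ∀ d ∈ D, d ∉ V := fun d hd h => hD2 d hd (hVinv d h)
  have hfixV : ∀ v ∈ V, ∀ q : G ⧸ V, v • q = q := by
    intro v hv q
    induction q using QuotientGroup.induction_on with
    | H g =>
      rw [hact]
      have : ((g : G) : G ⧸ V) = ((v * g : G) : G ⧸ V) := by
        rw [QuotientGroup.eq]
        have := (inferInstance : V.Normal).conj_mem v hv g⁻¹
        simpa [mul_assoc] using this
      exact this.symm
  -- split `D`
  obtain ⟨Da, hDaD, hDac⟩ := Finset.exists_subset_card_eq (show (D.card + 1) / 2 ≤ D.card by omega)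
  let Db : Finset G := D \ Da
  have hDbc : Db.card = D.card / 2 := by
    have : Db.card = D.card - Da.card := Finset.card_sdiff_of_subset hDaD
    omega
  have hDbD : Db ⊆ D := Finset.sdiff_subset
  have hDab : Disjoint Da Db := Finset.disjoint_sdiff
  have hDu : Da ∪ Db = D := Finset.union_sdiff_of_subset hDaD
  obtain ⟨Ca, hCaT, hCac, hPa⟩ := place_PB V T0 Da (fun d hd => hactT0 d (hDaD hd))
    (fun d hd q _ => hfree d (hDV d (hDaD hd)) q) (by omega) (fun d hd => hD2 d (hDaD hd))
  obtain ⟨Cb, hCbT, hCbc, hPb⟩ := place_PB V T1 Db (fun d hd => hactT1 d (hDbD hd))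
    (fun d hd q _ => hfree d (hDV d (hDbD hd)) q) (by omega) (fun d hd => hD2 d (hDbD hd))
  let X : Finset (G ⧸ V) := T0 \ Ca
  let Y' : Finset (G ⧸ V) := T1 \ Cb
  have hXc : X.card = T0.card - 2 * Da.card := by
    rw [Finset.card_sdiff_of_subset hCaT, hCac]
  have hYc' : Y'.card = T0.card - 2 * Db.card := by
    rw [Finset.card_sdiff_of_subset hCbT, hCbc, hTc]
  obtain ⟨Z, hZY, hZc⟩ := Finset.exists_subset_card_eq
    (show 2 * (D.card % 2) ≤ Y'.card by omega)
  let Y : Finset (G ⧸ V) := Y' \ Z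
  have hYc : Y.card = X.card := by
    rw [Finset.card_sdiff_of_subset hZY, hZc, hXc, hYc', hDac, hDbc]
    omega
  -- the loops
  let W : Finset G := (Finset.univ.filter (fun v : G => v ∈ V)).erase 1
  have hW : ∀ v, v ∈ W ↔ v ≠ 1 ∧ v ∈ V := by intro v; simp [W]
  have hWc : 2 ≤ W.card := by
    have h1 : (Finset.univ.filter (fun v : G => v ∈ V)).card = Nat.card V := by
      rw [Nat.card_eq_fintype_card, Fintype.card_subtype]
    have h2 : W.card = (Finset.univ.filter (fun v : G => v ∈ V)).card - 1 :=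
      Finset.card_erase_of_mem (by simp [V.one_mem])
    omega
  obtain ⟨W', hW'W, hW'c⟩ := Finset.exists_subset_card_eq
    (show 2 * (D.card % 2) ≤ W.card by omega)
  obtain ⟨ε⟩ : Nonempty ((Z : Finset (G ⧸ V)) ≃ (W' : Finset G)) := by
    refine ⟨Finset.equivOfCardEq ?_⟩
    rw [hZc, hW'c]
  have hPZ : PB V (Finset.univ.image (fun z : Z => ((ε z : W') : G))) Z := by
    have hεV : ∀ z : Z, ((ε z : W') : G) ∈ V := fun z => ((hW _).mp (hW'W (ε z).2)).2
    apply PB_of_index V (fun z : Z => ((ε z : W') : G)) (fun z : Z => (z : G ⧸ V)) Z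
    · intro a b h
      exact ε.injective (Subtype.ext h)
    · intro z
      refine ⟨z.2, ?_⟩
      rw [hfixV _ (hεV z)]; exact z.2
    · intro q hq
      exact ⟨⟨q, hq⟩, Or.inl rfl⟩
    · intro a b hab
      have hab' : (a : G ⧸ V) ≠ b := fun h => hab (Subtype.ext h)
      rw [hfixV _ (hεV a), hfixV _ (hεV b)]
      exact ⟨hab', hab', hab'⟩
    · intro z h2
      exact absurd (hVinv _ (hεV z)) h2
    · intro z _
      exact hfixV _ (hεV z) _
  -- the bijection
  obtain ⟨π, hπ⟩ := two_bij (X := X) (Y := Y) (C := G ⧸ V) (by simp only [Fintype.card_coe]; exact hYc.symm)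
    (fun x y => (y : G ⧸ V) * (x : G ⧸ V)⁻¹)
    (fun x a b h => Subtype.ext (mul_right_cancel h))
    (fun y a b h => Subtype.ext (inv_injective (mul_left_cancel h)))
  obtain ⟨Λ, hΛ1, hΛ2, hΛ3⟩ := labels M V hVM hV4 hinv
  let c : X → G ⧸ V := fun x => ((π x : Y) : G ⧸ V) * (x : G ⧸ V)⁻¹
  have hYT : ∀ y : Y, (y : G ⧸ V) ∈ T1 := fun y => Finset.sdiff_subset (Finset.sdiff_subset y.2)
  have hXT : ∀ x : X, (x : G ⧸ V) ∈ T0 := fun x => Finset.sdiff_subset x.2
  have hc : ∀ x : X, ∃ g : G, g ∉ M ∧ (g : G ⧸ V) = c x := by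
    intro x
    obtain ⟨a, ha⟩ := QuotientGroup.mk_surjective (x : G ⧸ V)
    obtain ⟨b, hb⟩ := QuotientGroup.mk_surjective ((π x : Y) : G ⧸ V)
    have haM : a ∈ M := by rw [← hT0, ha]; exact hXT x
    have hbM : b ∉ M := by rw [← hT1, hb]; exact hYT _
    refine ⟨b * a⁻¹, ?_, ?_⟩
    · intro h
      apply hbM
      have : b = (b * a⁻¹) * a := by group
      rw [this]; exact M.mul_mem h haM
    · simp only [c]
      rw [QuotientGroup.mk_mul, QuotientGroup.mk_inv, ha, hb]
  choose γ hγ1 hγ2 using hc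
  let r : X → ℕ := fun x => ((Fintype.equivFin X) x : ℕ)
  have hr : Function.Injective r := fun a b h => (Fintype.equivFin X).injective (Fin.ext h)
  let idx : X → Bool := fun x => decide (∃ x' : X, c x' = c x ∧ r x' < r x)
  have hidx : ∀ x x' : X, c x = c x' → idx x = idx x' → x = x' := by
    have key : ∀ x x' : X, c x = c x' → idx x = idx x' → ¬ r x < r x' := by
      intro x x' hcc hi hlt
      have h1 : idx x' = true := by simp only [idx, decide_eq_true_eq]; exact ⟨x, hcc, hlt⟩
      rw [h1] at hi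
      simp only [idx, decide_eq_true_eq] at hi
      obtain ⟨x'', hc'', hlt''⟩ := hi
      have h3 : ({x'', x, x'} : Finset X) ⊆ Finset.univ.filter (fun y => c y = c x) := by
        intro y hy
        simp only [Finset.mem_insert, Finset.mem_singleton] at hy
        simp only [Finset.mem_filter, Finset.mem_univ, true_and]
        rcases hy with rfl | rfl | rfl
        · exact hc''
        · rfl
        · exact hcc.symm
      have h4 : ({x'', x, x'} : Finset X).card = 3 := by
        rw [Finset.card_eq_three]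
        refine ⟨x'', x, x', ?_, ?_, ?_, rfl⟩
        · intro h; rw [h] at hlt''; omega
        · intro h; rw [h] at hlt''; omega
        · intro h; rw [h] at hlt; omega
      have h5 := Finset.card_le_card h3
      have h6 : (Finset.univ.filter (fun y => c y = c x)).card ≤ 2 := by
        refine le_trans (le_of_eq ?_) (hπ (c x))
        congr
      rw [h4] at h5
      omega
    intro x x' hcc hi
    apply hr
    have h1 := key x x' hcc hi
    have h2 := key x' x hcc.symm hi.symm
    omega
  let lam : X → G := fun x => Λ (c x) (idx x)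
  have hlam1 : ∀ x, ((lam x : G) : G ⧸ V) = c x := by
    intro x
    have := hΛ1 (γ x) (hγ1 x) (idx x)
    rw [hγ2 x] at this
    exact this
  have hlamM : ∀ x, lam x ∉ M := by
    intro x h
    apply hγ1 x
    have h1 : ((lam x : G) : G ⧸ V) = (γ x : G ⧸ V) := by rw [hlam1, hγ2]
    rw [QuotientGroup.eq] at h1
    have h2 : γ x = lam x * ((lam x)⁻¹ * γ x) := by group
    rw [h2]; exact M.mul_mem h (hVM h1)
  have hlaminj : Function.Injective lam := by
    intro x x' h
    have h' : Λ (γ x : G ⧸ V) (idx x) = Λ (γ x' : G ⧸ V) (idx x') := by rw [hγ2, hγ2]; exact h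
    obtain ⟨h1, h2⟩ := hΛ3 (γ x) (γ x') (hγ1 x) (hγ1 x') _ _ h'
    rw [hγ2, hγ2] at h1
    exact hidx x x' h1 h2
  have hlamanti : ∀ x x', lam x ≠ (lam x')⁻¹ := by
    intro x x' h
    have h' : Λ (γ x : G ⧸ V) (idx x) = (Λ (γ x' : G ⧸ V) (idx x'))⁻¹ := by rw [hγ2, hγ2]; exact h
    exact hΛ2 (γ x) (γ x') (hγ1 x) (hγ1 x') _ _ h'
  have hlamact : ∀ x : X, lam x • (x : G ⧸ V) = ((π x : Y) : G ⧸ V) := by
    intro x
    have h1 : lam x • (x : G ⧸ V) = ((lam x : G) : G ⧸ V) * (x : G ⧸ V) := by
      obtain ⟨a, ha⟩ := QuotientGroup.mk_surjective (x : G ⧸ V)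
      rw [← ha]; rfl
    rw [h1, hlam1]
    simp only [c]
    rw [inv_mul_cancel_right]
  have hXY : Disjoint X Y := by
    rw [Finset.disjoint_left]
    intro q hq hq'
    exact Finset.disjoint_left.mp hT01 (hXT ⟨q, hq⟩) (hYT ⟨q, hq'⟩)
  have hne : ∀ (x : X) (y : Y), (x : G ⧸ V) ≠ y := fun x y h =>
    Finset.disjoint_left.mp hXY x.2 (h ▸ y.2)
  have hPX : PB V (Finset.univ.image lam) (X ∪ Y) := by
    apply PB_of_index V lam (fun x : X => (x : G ⧸ V)) (X ∪ Y) hlaminj
    · intro x
      refine ⟨Finset.mem_union_left _ x.2, ?_⟩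
      rw [hlamact]; exact Finset.mem_union_right _ (π x).2
    · intro q hq
      rcases Finset.mem_union.mp hq with hq | hq
      · exact ⟨⟨q, hq⟩, Or.inl rfl⟩
      · refine ⟨π.symm ⟨q, hq⟩, Or.inr ?_⟩
        rw [hlamact, Equiv.apply_symm_apply]
    · intro a b hab
      refine ⟨fun h => hab (Subtype.ext h), ?_, ?_⟩
      · rw [hlamact]; exact hne a _
      · rw [hlamact, hlamact]
        intro h
        exact hab (π.injective (Subtype.ext h))
    · intro x _
      rw [hlamact]; exact (hne x _).symm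
    · intro x h2
      exact absurd (hinv _ h2) (hlamM x)
  -- put everything together
  have hDaCb : Disjoint Ca Cb := Finset.disjoint_of_subset_left hCaT (Finset.disjoint_of_subset_right hCbT hT01)
  have hP1 := hPa.union hPb hDab hDaCb
  have hZlab : ∀ d ∈ Finset.univ.image (fun z : Z => ((ε z : W') : G)), d ≠ 1 ∧ d ∈ V := by
    intro d hd
    rw [Finset.mem_image] at hd
    obtain ⟨z, _, rfl⟩ := hd
    exact (hW _).mp (hW'W (ε z).2)
  have hXlab : ∀ d ∈ Finset.univ.image lam, d ∉ M := by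
    intro d hd
    rw [Finset.mem_image] at hd
    obtain ⟨z, _, rfl⟩ := hd
    exact hlamM z
  have hZT1 : Z ⊆ T1 := hZY.trans Finset.sdiff_subset
  have hP2 := hP1.union hPZ (by
      rw [hDu, Finset.disjoint_left]
      intro d hd hd'
      exact hDV d hd (hZlab d hd').2) (by
      rw [Finset.disjoint_union_left]
      constructor
      · exact Finset.disjoint_of_subset_left hCaT (Finset.disjoint_of_subset_right hZT1 hT01)
      · exact Finset.disjoint_of_subset_right hZY Finset.disjoint_sdiff)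
  have hP3 := hP2.union hPX (by
      rw [Finset.disjoint_left]
      intro d hd hd'
      apply hXlab d hd'
      rcases Finset.mem_union.mp hd with h | h
      · rw [hDu] at h; exact hDM d h
      · exact hVM (hZlab d h).2) (by
      rw [Finset.disjoint_left]
      intro q hq hq'
      rcases Finset.mem_union.mp hq' with h' | h'
      · have h0 := Finset.sdiff_subset h'
        rcases Finset.mem_union.mp hq with h | h
        · rcases Finset.mem_union.mp h with h | h
          · exact (Finset.mem_sdiff.mp h').2 h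
          · exact Finset.disjoint_left.mp hT01 h0 (hCbT h)
        · exact Finset.disjoint_left.mp hT01 h0 (hZT1 h)
      · have h1 := (Finset.mem_sdiff.mp h').1
        rcases Finset.mem_union.mp hq with h | h
        · rcases Finset.mem_union.mp h with h | h
          · exact Finset.disjoint_left.mp hT01 (hCaT h) (Finset.sdiff_subset h1)
          · exact (Finset.mem_sdiff.mp h1).2 h
        · exact (Finset.mem_sdiff.mp h').2 h)
  refine ⟨_, hP3.hasBlock ?_, ?_, ?_, ?_, ?_⟩
  · intro q
    have hq : q ∈ T0 ∪ T1 := by rw [hTu]; exact Finset.mem_univ _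
    rcases Finset.mem_union.mp hq with h | h
    · by_cases hqa : q ∈ Ca
      · exact Finset.mem_union_left _ (Finset.mem_union_left _ (Finset.mem_union_left _ hqa))
      · exact Finset.mem_union_right _ (Finset.mem_union_left _ (Finset.mem_sdiff.mpr ⟨h, hqa⟩))
    · by_cases hqb : q ∈ Cb
      · exact Finset.mem_union_left _ (Finset.mem_union_left _ (Finset.mem_union_right _ hqb))
      · by_cases hqz : q ∈ Z
        · exact Finset.mem_union_left _ (Finset.mem_union_right _ hqz)
        · exact Finset.mem_union_right _ (Finset.mem_union_right _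
            (Finset.mem_sdiff.mpr ⟨Finset.mem_sdiff.mpr ⟨h, hqb⟩, hqz⟩))
  · intro d hd
    rw [← hDu] at hd
    exact Finset.mem_union_left _ (Finset.mem_union_left _ hd)
  · intro d hd
    rcases Finset.mem_union.mp hd with h | h
    · rcases Finset.mem_union.mp h with h | h
      · left; rw [← hDu]; exact h
      · right; left; exact ⟨(hZlab d h).2, (hZlab d h).1⟩
    · right; right; exact hXlab d h
  · intro d hd d' hd' hdd
    have hcase : ∀ d, d ∈ (Da ∪ Db) ∪ (Finset.univ.image (fun z : Z => ((ε z : W') : G))) → d ∈ M := by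
      intro d h
      rcases Finset.mem_union.mp h with h | h
      · rw [hDu] at h; exact hDM d h
      · exact hVM (hZlab d h).2
    rcases Finset.mem_union.mp hd with h | h <;> rcases Finset.mem_union.mp hd' with h' | h'
    · rcases Finset.mem_union.mp h with h | h <;> rcases Finset.mem_union.mp h' with h' | h'
      · rw [hDu] at h h'
        exact absurd hdd (hDanti d h d' h')
      · exfalso
        rw [hDu] at h
        apply hDV d h
        have := V.inv_mem (hZlab d' h').2
        rwa [hdd, inv_inv] at this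
      · exfalso
        rw [hDu] at h'
        apply hDV d' h'
        rw [hdd]; exact V.inv_mem (hZlab d h).2
      · have h2 := hVinv d (hZlab d h).2
        rw [hdd, inv_eq_iff_mul_eq_one, ← sq, h2]
    · exfalso
      apply hXlab d' h'
      rw [hdd]; exact M.inv_mem (hcase d h)
    · exfalso
      apply hXlab d h
      have := M.inv_mem (hcase d' h')
      rwa [hdd, inv_inv] at this
    · rw [Finset.mem_image] at h h'
      obtain ⟨x, _, rfl⟩ := h
      obtain ⟨x', _, rfl⟩ := h'
      exact absurd hdd (hlamanti x' x)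
  · intro d hd h1
    rcases Finset.mem_union.mp hd with h | h
    · rcases Finset.mem_union.mp h with h | h
      · rw [hDu] at h
        apply hD2 d h; rw [h1, one_pow]
      · exact (hZlab d h).1 h1
    · apply hXlab d h; rw [h1]; exact M.one_mem

end Pool.Agent.Zk59.ST
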