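import Pool.Agent.Zk59.ST.Fill
import Pool.Agent.Zk59.ST.Big

set_option autoImplicit false

/-!
# Families of big blocks from a maximal elementary abelian subgroup
-/

namespace Pool.Agent.Zk59.ST

open Classical

variable {G : Type} [Group G]

/-- The labels `D` can be covered by blocks that use otherwise only labels of square one and labels outside `F`. -/
def BigFor (F : Subgroup G) (D : Finset G) : Prop :=
  ∃ (β : Type) (_ : Fintype β) (H : β → Subgroup G) (L : β → Finset G),
    (∀ b, HasBlock (H b) (L b)) ∧ (∀ b, ∀ d ∈ L b, d ≠ 1) ∧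
    (∀ b b' d d', d ∈ L b → d' ∈ L b' → (d' = d ∨ d' = d⁻¹) → b = b' ∧ d' = d) ∧
    (∀ d ∈ D, ∃ b, d ∈ L b) ∧ (∀ b, ∀ d ∈ L b, d ∈ D ∨ d ^ 2 = 1 ∨ d ∉ F)

theorem BigFor.empty (F : Subgroup G) : BigFor F ∅ :=
  ⟨Empty, inferInstance, fun b => b.elim, fun b => b.elim, fun b => b.elim, fun b => b.elim, fun b => b.elim,
    by simp, fun b => b.elim⟩

/-- Half of the elements that map `a H` to `b H` are not involutions. -/
theorem list_lower [Finite G] (H M : Subgroup G) (hM : M.index = 2) (hHM : H ≤ M) (hH2 : ∀ x ∈ H, x ^ 2 = 1)
    (hmax : ∀ E : Subgroup G, (∀ e ∈ E, e ^ 2 = 1) → Nat.card E ≤ Nat.card H) (a b : G) (ha : a ∈ M) (hb : b ∉ M) :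
    ∃ S : Finset G, Nat.card H ≤ 2 * S.card ∧ ∀ g ∈ S, g • (a : G ⧸ H) = (b : G ⧸ H) ∧ g ^ 2 ≠ 1 := by
  have : Fintype G := Fintype.ofFinite G
  have : Fintype H := Fintype.ofFinite H
  have hMn : M.Normal := Subgroup.normal_of_index_eq_two hM
  let ℓ : Finset G := Finset.univ.filter (fun g => g • (a : G ⧸ H) = (b : G ⧸ H))
  have hℓ : ∀ g, g ∈ ℓ ↔ g • (a : G ⧸ H) = (b : G ⧸ H) := by
    intro g
    rw [Finset.mem_filter]
    exact ⟨fun h => h.2, fun h => ⟨Finset.mem_univ _, h⟩⟩
  have hℓ2 : ∀ g, g ∈ ℓ ↔ b⁻¹ * g * a ∈ H := by
    intro g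
    rw [hℓ]
    have e : g • (a : G ⧸ H) = ((g * a : G) : G ⧸ H) := rfl
    rw [e, eq_comm, QuotientGroup.eq]
    rw [mul_assoc]
  have hcard : Nat.card H ≤ ℓ.card := by
    rw [Nat.card_eq_fintype_card, ← Finset.card_univ]
    refine Finset.card_le_card_of_injOn (fun x : H => b * (x : G) * a⁻¹) ?_ ?_
    · intro x _
      simp only [Finset.mem_coe]
      rw [hℓ2]
      have : b⁻¹ * (b * (x : G) * a⁻¹) * a = (x : G) := by group
      rw [this]; exact x.2
    · intro x _ y _ h
      simp only at h
      exact Subtype.ext (mul_left_cancel (mul_right_cancel h))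
  let S' : Finset G := ℓ.filter (fun g => g ^ 2 = 1)
  have hS'card : 2 * S'.card ≤ Nat.card H := by
    by_cases hne : S'.Nonempty
    · obtain ⟨u, hu⟩ := hne
      obtain ⟨hu1, hu2⟩ := Finset.mem_filter.mp hu
      rw [hℓ2] at hu1
      have huu : u * u = 1 := by rw [← sq, hu2]
      have huM : u ∉ M := by
        intro h
        apply hb
        have h1 : b⁻¹ * u * a ∈ M := hHM hu1
        have h2 : b⁻¹ ∈ M := by
          have e : b⁻¹ = (b⁻¹ * u * a) * (a⁻¹ * u⁻¹) := by group
          rw [e]; exact M.mul_mem h1 (M.mul_mem (M.inv_mem ha) (M.inv_mem h))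
        exact (inv_mem_iff).mp h2
      -- the conjugate subgroup
      let H' : Subgroup G := H.map (MulAut.conj a).toMonoidHom
      have hH' : ∀ g, g ∈ H' ↔ a⁻¹ * g * a ∈ H := by
        intro g
        constructor
        · rintro ⟨x, hx, rfl⟩
          have : a⁻¹ * ((MulAut.conj a).toMonoidHom x) * a = x := by
            simp [MulAut.conj_apply, mul_assoc]
          rw [this]; exact hx
        · intro h
          refine ⟨a⁻¹ * g * a, h, ?_⟩
          simp [MulAut.conj_apply, mul_assoc]
      have hH'M : H' ≤ M := by
        intro g hg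
        rw [hH'] at hg
        have h1 := hMn.conj_mem _ (hHM hg) a
        have : a * (a⁻¹ * g * a) * a⁻¹ = g := by group
        rw [this] at h1; exact h1
      have hH'2 : ∀ g ∈ H', g ^ 2 = 1 := by
        intro g hg
        rw [hH'] at hg
        have h1 := hH2 _ hg
        have : (a⁻¹ * g * a) ^ 2 = a⁻¹ * g ^ 2 * a := by simp only [sq]; group
        rw [this] at h1
        have e : g ^ 2 = a * (a⁻¹ * g ^ 2 * a) * a⁻¹ := by group
        rw [e, h1]; group
      have hH'card : Nat.card H' = Nat.card H :=
        (Nat.card_congr (H.equivMapOfInjective _ (MulAut.conj a).injective).toEquiv).symm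
      let C : Subgroup G := H' ⊓ Subgroup.centralizer {u}
      have hC : ∀ g, g ∈ C ↔ g ∈ H' ∧ g * u = u * g := by
        intro g
        rw [Subgroup.mem_inf, Subgroup.mem_centralizer_singleton_iff]
      have hCH : C ≤ H' := inf_le_left
      have hCne : C ≠ H' := by
        intro hEq
        have hcomm : ∀ g ∈ H', g * u = u * g := fun g hg => ((hC g).mp (hEq ▸ hg)).2
        let E : Subgroup G :=
          { carrier := {g | g ∈ H' ∨ u * g ∈ H'}
            one_mem' := Or.inl H'.one_mem
            mul_mem' := by
              rintro g k (hg | hg) (hk | hk)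
              · exact Or.inl (H'.mul_mem hg hk)
              · right
                have : u * (g * k) = g * (u * k) := by rw [← mul_assoc, ← hcomm g hg, mul_assoc]
                rw [this]; exact H'.mul_mem hg hk
              · right
                have : u * (g * k) = (u * g) * k := by rw [mul_assoc]
                rw [this]; exact H'.mul_mem hg hk
              · left
                have : g * k = (u * g) * (u * k) := by
                  have h1 := hcomm _ hg
                  calc g * k = (u * u) * g * k := by rw [huu, one_mul]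
                    _ = u * (u * g) * k := by simp only [mul_assoc]
                    _ = (u * g) * u * k := by rw [h1]
                    _ = (u * g) * (u * k) := by simp only [mul_assoc]
                rw [this]; exact H'.mul_mem hg hk
            inv_mem' := by
              rintro g (hg | hg)
              · exact Or.inl (H'.inv_mem hg)
              · right
                have h1 := hcomm _ (H'.inv_mem hg)
                have : u * g⁻¹ = (u * g)⁻¹ := by
                  have h2 : u * g⁻¹ = u * (u * g)⁻¹ * u := by
                    rw [mul_inv_rev]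
                    have : u⁻¹ = u := by rw [inv_eq_iff_mul_eq_one, huu]
                    rw [this, mul_assoc, mul_assoc, huu, mul_one]
                  rw [h2, ← h1, mul_assoc, huu, mul_one]
                rw [this]; exact H'.inv_mem hg }
        have hE2 : ∀ e ∈ E, e ^ 2 = 1 := by
          rintro e (he | he)
          · exact hH'2 e he
          · have h1 := hH'2 _ he
            have h2 := hcomm _ he
            have h3 : (u * e) ^ 2 = e ^ 2 := by
              rw [sq, sq]
              calc (u * e) * (u * e) = ((u * e) * u) * e := by simp only [mul_assoc]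
                _ = (u * (u * e)) * e := by rw [h2]
                _ = (u * u) * (e * e) := by simp only [mul_assoc]
                _ = e * e := by rw [huu, one_mul]
            rw [← h3, h1]
        have h1 := hmax E hE2
        have hHE : H' ≤ E := fun g hg => Or.inl hg
        rw [← hH'card] at h1
        have h2 : H' = E := Subgroup.eq_of_le_of_card_ge hHE h1
        have h3 : u ∈ E := Or.inr (by rw [huu]; exact H'.one_mem)
        rw [← h2] at h3
        exact huM (hH'M h3)
      have hCcard : 2 * Nat.card C ≤ Nat.card H' := by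
        obtain ⟨c, hc⟩ := Subgroup.card_dvd_of_le hCH
        have h1 : 0 < Nat.card H' := Nat.card_pos
        have h2 : c ≠ 1 := by
          rintro rfl
          apply hCne
          apply Subgroup.eq_of_le_of_card_ge hCH
          omega
        have h3 : c ≠ 0 := by rintro rfl; omega
        rw [hc, mul_comm 2]
        exact Nat.mul_le_mul_left _ (by omega)
      have : Fintype C := Fintype.ofFinite C
      have hSC : S'.card ≤ Nat.card C := by
        rw [Nat.card_eq_fintype_card, ← Fintype.card_coe]
        refine Fintype.card_le_of_injective (fun g : S' => (⟨u * (g : G), ?_⟩ : C)) ?_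
        · obtain ⟨g, hg⟩ := g
          obtain ⟨hg1, hg2⟩ := Finset.mem_filter.mp hg
          rw [hℓ2] at hg1
          have hgg : g * g = 1 := by rw [← sq, hg2]
          have h1 : u * g ∈ H' := by
            rw [hH']
            have e : a⁻¹ * (u * g) * a = (b⁻¹ * u⁻¹ ⁻¹ * a)⁻¹ * (b⁻¹ * g * a) := by
              rw [inv_inv]
              have : u⁻¹ = u := by rw [inv_eq_iff_mul_eq_one, huu]
              rw [mul_inv_rev, mul_inv_rev, this]; group
            rw [e, inv_inv]
            exact H.mul_mem (H.inv_mem hu1) hg1
          rw [hC]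
          refine ⟨h1, ?_⟩
          have h2 := hH'2 _ h1
          rw [sq] at h2
          -- `u g u g = 1`
          have h3 : g * u * g = u := by
            calc g * u * g = (u * u) * (g * u * g) := by rw [huu, one_mul]
              _ = u * (u * g * (u * g)) := by simp only [mul_assoc]
              _ = u := by rw [h2, mul_one]
          show u * g * u = u * (u * g)
          have h4 : g * u = u * g := by
            calc g * u = g * u * (g * g) := by rw [hgg, mul_one]
              _ = (g * u * g) * g := by simp only [mul_assoc]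
              _ = u * g := by rw [h3]
          rw [mul_assoc, h4]
        · intro g g' h
          have h1 : u * (g : G) = u * (g' : G) := congrArg Subtype.val h
          exact Subtype.ext (mul_left_cancel h1)
      rw [hH'card] at hCcard
      omega
    · rw [Finset.not_nonempty_iff_eq_empty] at hne
      rw [hne]; simp
  refine ⟨ℓ.filter (fun g => ¬ g ^ 2 = 1), ?_, ?_⟩
  · have h1 : S'.card + (ℓ.filter (fun g => ¬ g ^ 2 = 1)).card = ℓ.card :=
      Finset.card_filter_add_card_filter_not (s := ℓ) (fun g => g ^ 2 = 1)
    omega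
  · intro g hg
    obtain ⟨h1, h2⟩ := Finset.mem_filter.mp hg
    exact ⟨(hℓ g).mp h1, h2⟩

/-- Distinct representatives of large finite sets. -/
theorem exists_sdr {ι α : Type} [Fintype ι] (t : ι → Finset α) (h : ∀ i, Fintype.card ι ≤ (t i).card) :
    ∃ f : ι → α, Function.Injective f ∧ ∀ i, f i ∈ t i := by
  rw [← Finset.all_card_le_biUnion_card_iff_exists_injective]
  intro s
  by_cases hs : s.Nonempty
  · obtain ⟨i, hi⟩ := hs
    calc s.card ≤ Fintype.card ι := Finset.card_le_univ s
      _ ≤ (t i).card := h i
      _ ≤ (s.biUnion t).card := Finset.card_le_card (Finset.subset_biUnion_of_mem t hi)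
  · rw [Finset.not_nonempty_iff_eq_empty] at hs
    rw [hs]; simp

/-- A finite set can be distributed to `c` parts of at most `κ` elements. -/
theorem split {α ι : Type} [Fintype ι] [Nonempty ι] (κ : ℕ) (D : Finset α) (hD : D.card ≤ Fintype.card ι * κ) :
    ∃ f : α → ι, ∀ j, (D.filter (fun d => f d = j)).card ≤ κ := by
  by_cases hκ : κ = 0
  · subst hκ
    have : D = ∅ := Finset.card_eq_zero.mp (by omega)
    subst this
    exact ⟨fun _ => Classical.arbitrary ι, by simp⟩
  have hκ0 : 0 < κ := Nat.pos_of_ne_zero hκ
  let e := D.equivFin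
  let e' := Fintype.equivFin ι
  let f : α → ι := fun d => if h : d ∈ D then e'.symm ⟨(e ⟨d, h⟩ : ℕ) / κ, by
    have h1 := (e ⟨d, h⟩).2
    rw [Nat.div_lt_iff_lt_mul hκ0]
    omega⟩ else Classical.arbitrary ι
  refine ⟨f, fun j => ?_⟩
  have hmap : ∀ d (h : d ∈ D), f d = j → (e ⟨d, h⟩ : ℕ) / κ = (e' j : ℕ) := by
    intro d h hf
    simp only [f, dif_pos h] at hf
    rw [← hf, Equiv.apply_symm_apply]
  calc (D.filter (fun d => f d = j)).card
      ≤ (Finset.Ico ((e' j : ℕ) * κ) (((e' j : ℕ) + 1) * κ)).card := by
        refine Finset.card_le_card_of_injOn (fun d => if h : d ∈ D then (e ⟨d, h⟩ : ℕ) else 0) ?_ ?_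
        · intro d hd
          have hd' := Finset.mem_filter.mp (Finset.mem_coe.mp hd)
          simp only [dif_pos hd'.1, Finset.coe_Ico, Set.mem_Ico]
          have := hmap d hd'.1 hd'.2
          have h1 := Nat.div_add_mod (e ⟨d, hd'.1⟩ : ℕ) κ
          have h2 := Nat.mod_lt (e ⟨d, hd'.1⟩ : ℕ) hκ0
          rw [this] at h1
          have h3 : ((e' j : ℕ) + 1) * κ = κ * (e' j : ℕ) + κ := by ring
          have h4 : (e' j : ℕ) * κ = κ * (e' j : ℕ) := by ring
          rw [h3, h4]
          omega
        · intro d hd d' hd' h
          have h1 := (Finset.mem_filter.mp (Finset.mem_coe.mp hd)).1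
          have h2 := (Finset.mem_filter.mp (Finset.mem_coe.mp hd')).1
          simp only [dif_pos h1, dif_pos h2] at h
          have := e.injective (Fin.ext h)
          exact congrArg Subtype.val this
    _ = κ := by
      rw [Nat.card_Ico]
      have h3 : ((e' j : ℕ) + 1) * κ = (e' j : ℕ) * κ + κ := by ring
      rw [h3]; omega

end Pool.Agent.Zk59.ST
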