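import Pool.Agent.Zk59.ST.BBT

set_option autoImplicit false

/-!
# Families of big blocks from a maximal elementary abelian subgroup: the construction
-/

namespace Pool.Agent.Zk59.ST

open Classical

variable {G : Type} [Group G]

theorem big_alpha [Finite G] (F M H : Subgroup G) (hM : M.index = 2) (hFM : F ≤ M) (hHM : H ≤ M)
    (hH2 : ∀ x ∈ H, x ^ 2 = 1)
    (hmax : ∀ E : Subgroup G, (∀ e ∈ E, e ^ 2 = 1) → Nat.card E ≤ Nat.card H) (m : ℕ) (hm : 0 < m)
    (hHm : Nat.card H = 8 * m) (D : Finset G) (hDF : ∀ d ∈ D, d ∈ F) (hD2 : ∀ d ∈ D, d ^ 2 ≠ 1)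
    (hanti : ∀ d ∈ D, ∀ d' ∈ D, d' ≠ d⁻¹) (hc : 32 * D.card ≤ Nat.card G) : BigFor F D := by
  by_cases hDe : D = ∅
  · rw [hDe]; exact BigFor.empty F
  have : Fintype G := Fintype.ofFinite G
  have : Fintype H := Fintype.ofFinite H
  have : Fintype (G ⧸ H) := Fintype.ofFinite _
  -- the two sides
  let T : Bool → Finset (G ⧸ H) := fun s => Finset.univ.filter (fun q => (∃ a ∈ M, q = (a : G ⧸ H)) ↔ s = true)
  have hT : ∀ (g : G) (s : Bool), (g : G ⧸ H) ∈ T s ↔ (g ∈ M ↔ s = true) := by
    intro g s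
    have h1 : (∃ a ∈ M, (g : G ⧸ H) = (a : G ⧸ H)) ↔ g ∈ M := by
      constructor
      · rintro ⟨a, ha, h⟩
        rw [QuotientGroup.eq] at h
        have h2 := M.mul_mem ha (M.inv_mem (hHM h))
        have e : a * (g⁻¹ * a)⁻¹ = g := by group
        rw [e] at h2; exact h2
      · intro h; exact ⟨g, h, rfl⟩
    rw [Finset.mem_filter, h1]
    exact ⟨fun h => h.2, fun h => ⟨Finset.mem_univ _, h⟩⟩
  have hTsmul : ∀ (d : G) (q : G ⧸ H) (s : Bool), d ∈ M → q ∈ T s → d • q ∈ T s := by
    intro d q s hd hq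
    induction q using QuotientGroup.induction_on with
    | H g =>
      have e : d • (g : G ⧸ H) = ((d * g : G) : G ⧸ H) := rfl
      rw [e, hT, M.mul_mem_cancel_left hd, ← hT]
      exact hq
  have hfree : ∀ (d : G) (q : G ⧸ H), d • q = q → d ^ 2 = 1 := by
    intro d q hq
    induction q using QuotientGroup.induction_on with
    | H g =>
      have e : d • (g : G ⧸ H) = ((d * g : G) : G ⧸ H) := rfl
      rw [e, eq_comm, QuotientGroup.eq] at hq
      have h1 := hH2 _ hq
      have h2 : (g⁻¹ * (d * g)) ^ 2 = g⁻¹ * d ^ 2 * g := by simp only [sq]; group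
      rw [h2] at h1
      have h3 : d ^ 2 = g * (g⁻¹ * d ^ 2 * g) * g⁻¹ := by group
      rw [h3, h1]; group
  obtain ⟨g0, hg0⟩ : ∃ g : G, g ∉ M := by
    by_contra h
    push Not at h
    have : M = ⊤ := by ext x; simp [h x]
    rw [this, Subgroup.index_top] at hM
    omega
  set N := (T true).card with hN
  have hTcard : ∀ s, (T s).card = N := by
    intro s
    cases s with
    | true => rfl
    | false =>
      have h1 : T false = (T true).image (fun q => g0 • q) := by
        ext q
        rw [Finset.mem_image]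
        have key : ∀ q : G ⧸ H, g0⁻¹ • q ∈ T true ↔ q ∈ T false := by
          intro q
          induction q using QuotientGroup.induction_on with
          | H g =>
            have e : g0⁻¹ • (g : G ⧸ H) = ((g0⁻¹ * g : G) : G ⧸ H) := rfl
            rw [e, hT, hT, Subgroup.mul_mem_iff_of_index_two hM, inv_mem_iff]
            simp [hg0]
        constructor
        · intro hq
          exact ⟨g0⁻¹ • q, (key q).mpr hq, smul_inv_smul g0 q⟩
        · rintro ⟨q', hq', rfl⟩
          rw [← key]
          rw [inv_smul_smul]; exact hq'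
      rw [h1, Finset.card_image_of_injective _ (MulAction.injective g0)]
  have hGN : 16 * (m * N) = Nat.card G := by
    have h1 : Nat.card H * H.index = Nat.card G := H.card_mul_index
    have h2 : H.index = N + N := by
      rw [Subgroup.index, Nat.card_eq_fintype_card, ← Finset.card_univ]
      have h3 : (Finset.univ : Finset (G ⧸ H)) = T true ∪ T false := by
        ext q
        simp only [Finset.mem_univ, Finset.mem_union, true_iff]
        induction q using QuotientGroup.induction_on with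
        | H g =>
          rw [hT, hT]
          by_cases hg : g ∈ M <;> simp [hg]
      rw [h3, Finset.card_union_of_disjoint, hTcard false]
      rw [Finset.disjoint_left]
      intro q h4 h5
      induction q using QuotientGroup.induction_on with
      | H g =>
        rw [hT] at h4 h5
        by_cases hg : g ∈ M <;> simp [hg] at h4 h5
    rw [← h1, h2, hHm]; ring
  have hN2 : 2 ≤ N := by
    obtain ⟨d, hd⟩ := Finset.nonempty_of_ne_empty hDe
    have h1 : ((1 : G) : G ⧸ H) ∈ T true := (hT 1 true).mpr (by simp [M.one_mem])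
    have h2 : d • ((1 : G) : G ⧸ H) ∈ T true := hTsmul d _ true (hFM (hDF d hd)) h1
    have h3 : d • ((1 : G) : G ⧸ H) ≠ ((1 : G) : G ⧸ H) := fun h => hD2 d hd (hfree _ _ h)
    exact Finset.one_lt_card.mpr ⟨_, h2, _, h1, h3⟩
  -- the size of the parts
  set t := D.card with ht
  obtain ⟨κ, hκ1, hκ2⟩ : ∃ κ, t ≤ 2 * m * κ ∧ 2 * m * κ < t + 2 * m := by
    refine ⟨(t + (2 * m - 1)) / (2 * m), ?_, ?_⟩
    · have h1 := Nat.div_add_mod (t + (2 * m - 1)) (2 * m)
      have h2 := Nat.mod_lt (t + (2 * m - 1)) (show 0 < 2 * m by omega)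
      omega
    · have h1 := Nat.div_add_mod (t + (2 * m - 1)) (2 * m)
      omega
  have hκN : 4 * κ < N + 4 := by
    by_contra h
    push Not at h
    have h1 : 2 * m * (N + 4) ≤ 2 * m * (4 * κ) := Nat.mul_le_mul_left _ h
    have h2 : 2 * m * (N + 4) = 2 * (m * N) + 8 * m := by ring
    have h3 : 2 * m * (4 * κ) = 4 * (2 * m * κ) := by ring
    rw [h2, h3] at h1
    omega
  have hκN2 : 2 * κ ≤ N := by omega
  -- distribution of the labels
  have : Nonempty (Fin m × Bool) := ⟨(⟨0, hm⟩, true)⟩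
  obtain ⟨f, hf⟩ := split (ι := Fin m × Bool) κ D (by
    rw [Fintype.card_prod, Fintype.card_fin, Fintype.card_bool, mul_comm m 2]; exact hκ1)
  let DD : Fin m × Bool → Finset G := fun i => D.filter (fun d => f d = i)
  have hDD : ∀ i d, d ∈ DD i ↔ d ∈ D ∧ f d = i := by intro i d; exact Finset.mem_filter
  have hfc : ∀ i, (DD i).card ≤ κ := by
    intro i
    convert hf i
  have hDDsum : ∑ i, (DD i).card = t := by
    rw [ht, Finset.card_eq_sum_card_fiberwise (f := f) (t := Finset.univ)
      (fun x _ => Finset.mem_coe.mpr (Finset.mem_univ _))]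
  have hplace : ∀ i : Fin m × Bool, ∃ C ⊆ T i.2, C.card = 2 * (DD i).card ∧ PB H (DD i) C := by
    intro i
    apply place_PB H (T i.2) (DD i)
    · intro d hd x hx
      exact hTsmul d x _ (hFM (hDF d ((hDD i d).mp hd).1)) hx
    · intro d hd x _ h
      exact hD2 d ((hDD i d).mp hd).1 (hfree d x h)
    · rw [hTcard]
      have := hfc i
      omega
    · intro d hd
      exact hD2 d ((hDD i d).mp hd).1
  choose C hC1 hC2 hC3 using hplace
  have hloop : ∀ i : Fin m × Bool, ∃ E ⊆ T i.2 \ C i, E.card = 2 * (κ - (DD i).card) := by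
    intro i
    apply Finset.exists_subset_card_eq
    have h1 := Finset.card_sdiff_of_subset (hC1 i)
    rw [h1, hTcard, hC2]
    have := hfc i
    omega
  choose E hE1 hE2 using hloop
  -- loops
  have hcardι : Fintype.card (Σ i, E i) + 2 * t = 2 * (2 * m * κ) := by
    rw [Fintype.card_sigma]
    simp only [Fintype.card_coe, hE2]
    rw [← hDDsum, Finset.mul_sum, ← Finset.sum_add_distrib]
    have h1 : ∀ i ∈ (Finset.univ : Finset (Fin m × Bool)), 2 * (κ - (DD i).card) + 2 * (DD i).card = 2 * κ := by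
      intro i _
      have := hfc i
      omega
    rw [Finset.sum_congr rfl h1, Finset.sum_const, Finset.card_univ, Fintype.card_prod, Fintype.card_fin,
      Fintype.card_bool]
    simp only [smul_eq_mul]; ring
  let tt : (Σ i, E i) → Finset G := fun j => Finset.univ.filter (fun x => x • (j.2 : G ⧸ H) = j.2 ∧ x ≠ 1)
  have htt : ∀ j x, x ∈ tt j ↔ x • (j.2 : G ⧸ H) = j.2 ∧ x ≠ 1 := by
    intro j x
    rw [Finset.mem_filter]
    exact ⟨fun h => h.2, fun h => ⟨Finset.mem_univ _, h⟩⟩
  have httc : ∀ j, 8 * m - 1 ≤ (tt j).card := by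
    intro j
    obtain ⟨g, hg⟩ : ∃ g : G, (g : G ⧸ H) = (j.2 : G ⧸ H) := ⟨(j.2 : G ⧸ H).out, QuotientGroup.out_eq' _⟩
    have h1 : ((Finset.univ : Finset H).erase 1).card = 8 * m - 1 := by
      rw [Finset.card_erase_of_mem (Finset.mem_univ _), Finset.card_univ, ← Nat.card_eq_fintype_card, hHm]
    rw [← h1]
    refine Finset.card_le_card_of_injOn (fun x : H => g * (x : G) * g⁻¹) ?_ ?_
    · intro x hx
      have hx' := (Finset.mem_erase.mp (Finset.mem_coe.mp hx)).1
      simp only [Finset.mem_coe]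
      rw [htt, ← hg]
      constructor
      · have e : (g * (x : G) * g⁻¹) • (g : G ⧸ H) = ((g * (x : G) * g⁻¹ * g : G) : G ⧸ H) := rfl
        rw [e, eq_comm, QuotientGroup.eq]
        have : g⁻¹ * (g * (x : G) * g⁻¹ * g) = (x : G) := by group
        rw [this]; exact x.2
      · intro h
        apply hx'
        apply Subtype.ext
        have : (x : G) = g⁻¹ * (g * (x : G) * g⁻¹) * g := by group
        rw [this, h]; simp
    · intro x _ y _ h
      simp only at h
      exact Subtype.ext (mul_left_cancel (mul_right_cancel h))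
  obtain ⟨u, hu1, hu2⟩ := exists_sdr tt (fun j => (by
    have := httc j
    omega))
  -- the rest
  let X : Fin m → Finset (G ⧸ H) := fun k => T true \ (C (k, true) ∪ E (k, true))
  let Y : Fin m → Finset (G ⧸ H) := fun k => T false \ (C (k, false) ∪ E (k, false))
  have hCE : ∀ i : Fin m × Bool, C i ∪ E i ⊆ T i.2 := by
    intro i
    apply Finset.union_subset (hC1 i)
    exact (hE1 i).trans Finset.sdiff_subset
  have hCEd : ∀ i, Disjoint (C i) (E i) := by
    intro i
    rw [Finset.disjoint_left]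
    intro q hq hq'
    exact (Finset.mem_sdiff.mp (hE1 i hq')).2 hq
  have hCEc : ∀ i, (C i ∪ E i).card = 2 * κ := by
    intro i
    rw [Finset.card_union_of_disjoint (hCEd i), hC2, hE2]
    have := hfc i
    omega
  have hXc : ∀ k, (X k).card = N - 2 * κ := by
    intro k
    have h1 := Finset.card_sdiff_of_subset (hCE (k, true))
    rw [hCEc, hTcard] at h1
    exact h1
  have hYc : ∀ k, (Y k).card = N - 2 * κ := by
    intro k
    have h1 := Finset.card_sdiff_of_subset (hCE (k, false))
    rw [hCEc, hTcard] at h1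
    exact h1
  obtain ⟨π, lam, hl1, hl2, hl3⟩ := fill (G := G) (Ω := G ⧸ H) m (N - 2 * κ) (4 * m) (by omega) le_rfl X Y hXc hYc (by
    intro k x hx y hy
    have hx' := (Finset.mem_sdiff.mp hx).1
    have hy' := (Finset.mem_sdiff.mp hy).1
    induction x using QuotientGroup.induction_on with
    | H a => induction y using QuotientGroup.induction_on with
      | H b =>
        rw [hT] at hx' hy'
        obtain ⟨S, hS1, hS2⟩ := list_lower H M hM hHM hH2 hmax a b (by simpa using hx') (by simpa using hy')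
        exact ⟨S, by omega, hS2⟩)
  have hXT : ∀ k, X k ⊆ T true := fun k => Finset.sdiff_subset
  have hYT : ∀ k, Y k ⊆ T false := fun k => Finset.sdiff_subset
  have hTd : Disjoint (T true) (T false) := by
    rw [Finset.disjoint_left]
    intro q h4 h5
    induction q using QuotientGroup.induction_on with
    | H g =>
      rw [hT] at h4 h5
      by_cases hg : g ∈ M <;> simp [hg] at h4 h5
  have hlamM : ∀ k x, lam k x ∉ M := by
    intro k x hM'
    have h1 := hTsmul (lam k x) x true hM' (hXT k x.2)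
    rw [hl1] at h1
    exact Finset.disjoint_left.mp hTd h1 (hYT k (π k x).2)
  -- partial blocks
  let UU : Fin m × Bool → Finset G := fun i => Finset.univ.image (fun e : E i => u ⟨i, e⟩)
  have hUU : ∀ i d, d ∈ UU i ↔ ∃ e : E i, u ⟨i, e⟩ = d := by intro i d; simp [UU]
  have hu2' : ∀ i (e : E i), u ⟨i, e⟩ • (e : G ⧸ H) = e ∧ u ⟨i, e⟩ ≠ 1 := fun i e => (htt ⟨i, e⟩ _).mp (hu2 ⟨i, e⟩)
  have husq : ∀ i (e : E i), u ⟨i, e⟩ ^ 2 = 1 := fun i e => hfree _ _ (hu2' i e).1
  have hPBU : ∀ i, PB H (UU i) (E i) := by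
    intro i
    refine PB_of_index H (fun e : E i => u ⟨i, e⟩) (fun e => (e : G ⧸ H)) (E i) ?_ ?_ ?_ ?_ ?_ ?_
    · intro e e' h
      have h1 := hu1 h
      exact eq_of_heq (Sigma.mk.inj h1).2
    · intro e
      exact ⟨e.2, by rw [(hu2' i e).1]; exact e.2⟩
    · intro q hq
      exact ⟨⟨q, hq⟩, Or.inl rfl⟩
    · intro e e' hne
      have hne' : (e : G ⧸ H) ≠ e' := fun h => hne (Subtype.ext h)
      rw [(hu2' i e).1, (hu2' i e').1]
      exact ⟨hne', hne', hne'⟩
    · intro e h; exact absurd (husq i e) h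
    · intro e _; exact (hu2' i e).1
  let LL : Fin m → Finset G := fun k => Finset.univ.image (lam k)
  have hLL : ∀ k d, d ∈ LL k ↔ ∃ x : X k, lam k x = d := by intro k d; simp [LL]
  have hPBL : ∀ k, PB H (LL k) (X k ∪ Y k) := by
    intro k
    refine PB_of_index H (lam k) (fun x => (x : G ⧸ H)) (X k ∪ Y k) ?_ ?_ ?_ ?_ ?_ ?_
    · intro x x' h
      have h1 := hl3 k k x x' (Or.inl h.symm)
      exact eq_of_heq (Sigma.mk.inj h1).2
    · intro x
      refine ⟨Finset.mem_union_left _ x.2, ?_⟩
      rw [hl1]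
      exact Finset.mem_union_right _ (π k x).2
    · intro q hq
      rcases Finset.mem_union.mp hq with hq | hq
      · exact ⟨⟨q, hq⟩, Or.inl rfl⟩
      · refine ⟨(π k).symm ⟨q, hq⟩, Or.inr ?_⟩
        rw [hl1, Equiv.apply_symm_apply]
    · intro x x' hne
      have hne' : (x : G ⧸ H) ≠ x' := fun h => hne (Subtype.ext h)
      rw [hl1, hl1]
      refine ⟨hne', ?_, ?_⟩
      · intro h
        have h1 := hXT k x.2
        rw [h] at h1
        exact Finset.disjoint_left.mp hTd h1 (hYT k (π k x').2)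
      · intro h
        exact hne ((π k).injective (Subtype.ext h))
    · intro x _ h
      rw [hl1] at h
      have h1 := hXT k x.2
      rw [← h] at h1
      exact Finset.disjoint_left.mp hTd h1 (hYT k (π k x).2)
    · intro x h; exact absurd h (hl2 k x)
  have hd1 : ∀ i, Disjoint (DD i) (UU i) := by
    intro i
    rw [Finset.disjoint_left]
    intro d h1 h2
    obtain ⟨e, rfl⟩ := (hUU i d).mp h2
    exact hD2 _ ((hDD i _).mp h1).1 (husq i e)
  have hPB1 : ∀ i, PB H (DD i ∪ UU i) (C i ∪ E i) := fun i => (hC3 i).union (hPBU i) (hd1 i) (hCEd i)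
  have hd2 : ∀ k, Disjoint (DD (k, true) ∪ UU (k, true)) (DD (k, false) ∪ UU (k, false)) := by
    intro k
    rw [Finset.disjoint_left]
    intro d h1 h2
    rcases Finset.mem_union.mp h1 with h1 | h1 <;> rcases Finset.mem_union.mp h2 with h2 | h2
    · have e1 := ((hDD _ _).mp h1).2
      have e2 := ((hDD _ _).mp h2).2
      rw [e1] at e2
      simp at e2
    · obtain ⟨e, rfl⟩ := (hUU _ d).mp h2
      exact hD2 _ ((hDD _ _).mp h1).1 (husq _ e)
    · obtain ⟨e, rfl⟩ := (hUU _ d).mp h1
      exact hD2 _ ((hDD _ _).mp h2).1 (husq _ e)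
    · obtain ⟨e, rfl⟩ := (hUU _ d).mp h1
      obtain ⟨e', he'⟩ := (hUU _ _).mp h2
      have h3 := (Sigma.mk.inj (hu1 he')).1
      simp at h3
  have hd3 : ∀ k, Disjoint (C (k, true) ∪ E (k, true)) (C (k, false) ∪ E (k, false)) := by
    intro k
    exact Disjoint.mono (hCE (k, true)) (hCE (k, false)) hTd
  have hd4 : ∀ k, Disjoint ((DD (k, true) ∪ UU (k, true)) ∪ (DD (k, false) ∪ UU (k, false))) (LL k) := by
    intro k
    rw [Finset.disjoint_left]
    intro d h1 h2
    obtain ⟨x, rfl⟩ := (hLL k d).mp h2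
    have hD' : ∀ i, lam k x ∉ DD i := fun i h => hlamM k x (hFM (hDF _ ((hDD i _).mp h).1))
    have hU' : ∀ i, lam k x ∉ UU i := by
      intro i h
      obtain ⟨e, he⟩ := (hUU i _).mp h
      apply hl2 k x
      rw [← he]; exact husq i e
    simp only [Finset.mem_union] at h1
    rcases h1 with (h1 | h1) | (h1 | h1)
    · exact hD' _ h1
    · exact hU' _ h1
    · exact hD' _ h1
    · exact hU' _ h1
  have hd5 : ∀ k, Disjoint ((C (k, true) ∪ E (k, true)) ∪ (C (k, false) ∪ E (k, false))) (X k ∪ Y k) := by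
    intro k
    rw [Finset.disjoint_left]
    intro q h1 h2
    rcases Finset.mem_union.mp h2 with h2 | h2
    · rcases Finset.mem_union.mp h1 with h1 | h1
      · exact (Finset.mem_sdiff.mp h2).2 h1
      · exact Finset.disjoint_left.mp hTd (hXT k h2) (hCE (k, false) h1)
    · rcases Finset.mem_union.mp h1 with h1 | h1
      · exact Finset.disjoint_left.mp hTd (hCE (k, true) h1) (hYT k h2)
      · exact (Finset.mem_sdiff.mp h2).2 h1
  let L : Fin m → Finset G := fun k => ((DD (k, true) ∪ UU (k, true)) ∪ (DD (k, false) ∪ UU (k, false))) ∪ LL k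
  have hLmem : ∀ k d, d ∈ L k → (d ∈ D ∧ (f d).1 = k) ∨ (∃ j : Σ i, E i, j.1.1 = k ∧ u j = d) ∨
      ∃ x : X k, lam k x = d := by
    intro k d hd
    simp only [L, Finset.mem_union] at hd
    rcases hd with ((hd | hd) | (hd | hd)) | hd
    · left
      obtain ⟨h1, h2⟩ := (hDD _ _).mp hd
      exact ⟨h1, by rw [h2]⟩
    · right; left
      obtain ⟨e, he⟩ := (hUU _ _).mp hd
      exact ⟨⟨_, e⟩, rfl, he⟩
    · left
      obtain ⟨h1, h2⟩ := (hDD _ _).mp hd
      exact ⟨h1, by rw [h2]⟩
    · right; left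
      obtain ⟨e, he⟩ := (hUU _ _).mp hd
      exact ⟨⟨_, e⟩, rfl, he⟩
    · right; right
      exact (hLL _ _).mp hd
  have hself : ∀ g : G, g ^ 2 = 1 → g⁻¹ = g := by
    intro g hg; rw [inv_eq_iff_mul_eq_one, ← sq, hg]
  refine ⟨Fin m, inferInstance, fun _ => H, L, ?_, ?_, ?_, ?_, ?_⟩
  · intro k
    refine PB.hasBlock (((hPB1 (k, true)).union (hPB1 (k, false)) (hd2 k) (hd3 k)).union (hPBL k) (hd4 k) (hd5 k)) ?_
    intro q
    have hq : q ∈ T true ∨ q ∈ T false := by
      induction q using QuotientGroup.induction_on with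
      | H g =>
        rw [hT, hT]
        by_cases hg : g ∈ M <;> simp [hg]
    rcases hq with hq | hq
    · by_cases h1 : q ∈ C (k, true) ∪ E (k, true)
      · exact Finset.mem_union_left _ (Finset.mem_union_left _ h1)
      · exact Finset.mem_union_right _ (Finset.mem_union_left _ (Finset.mem_sdiff.mpr ⟨hq, h1⟩))
    · by_cases h1 : q ∈ C (k, false) ∪ E (k, false)
      · exact Finset.mem_union_left _ (Finset.mem_union_right _ h1)
      · exact Finset.mem_union_right _ (Finset.mem_union_right _ (Finset.mem_sdiff.mpr ⟨hq, h1⟩))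
  · intro k d hd h1
    rcases hLmem k d hd with h | ⟨j, _, hj⟩ | ⟨x, hx⟩
    · exact hD2 d h.1 (by rw [h1, one_pow])
    · exact (hu2' j.1 j.2).2 (by rw [show (⟨j.1, j.2⟩ : Σ i, E i) = j from rfl, hj, h1])
    · exact hl2 k x (by rw [hx, h1, one_pow])
  · intro k k' d d' hd hd' hdd
    have hcl : ∀ P : G → Prop, (∀ g, P g → P g⁻¹) → P d → P d' := by
      intro P hP h
      rcases hdd with h' | h' <;> rw [h']
      · exact h
      · exact hP _ h
    have hsq : d ^ 2 = 1 → d' ^ 2 = 1 := hcl (fun g => g ^ 2 = 1) (fun g hg => by rw [inv_pow, hg, inv_one])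
    have hsq' : d ^ 2 ≠ 1 → d' ^ 2 ≠ 1 := hcl (fun g => g ^ 2 ≠ 1) (fun g hg h => hg (by
      rw [inv_pow] at h; exact inv_eq_one.mp h))
    have hmm : d ∈ M → d' ∈ M := hcl (fun g => g ∈ M) (fun g hg => M.inv_mem hg)
    have hmm' : d ∉ M → d' ∉ M := hcl (fun g => g ∉ M) (fun g hg h => hg (inv_mem_iff.mp h))
    rcases hLmem k d hd with ⟨h1, h2⟩ | ⟨j, h1, h2⟩ | ⟨x, hx⟩ <;>
      rcases hLmem k' d' hd' with ⟨h1', h2'⟩ | ⟨j', h1', h2'⟩ | ⟨x', hx'⟩
    · rcases hdd with h | h
      · rw [h] at h2'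
        exact ⟨h2.symm.trans h2', h⟩
      · exact absurd h (hanti d h1 d' h1')
    · exfalso
      apply hsq' (hD2 d h1)
      rw [← h2']; exact husq j'.1 j'.2
    · exfalso
      have := hmm (hFM (hDF d h1))
      rw [← hx'] at this
      exact hlamM k' x' this
    · exfalso
      apply hD2 d' h1'
      apply hsq
      rw [← h2]; exact husq j.1 j.2
    · have h3 : d ^ 2 = 1 := by rw [← h2]; exact husq j.1 j.2
      have h4 : d' = d := by
        rcases hdd with h | h
        · exact h
        · rw [h, hself d h3]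
      have h5 : j = j' := hu1 (by rw [h2, h2', h4])
      exact ⟨by rw [← h1, ← h1', h5], h4⟩
    · exfalso
      apply hl2 k' x'
      rw [hx']
      apply hsq
      rw [← h2]; exact husq j.1 j.2
    · exfalso
      have h3 : d ∉ M := by rw [← hx]; exact hlamM k x
      exact hmm' h3 (hFM (hDF d' h1'))
    · exfalso
      have h3 : d ^ 2 ≠ 1 := by rw [← hx]; exact hl2 k x
      apply hsq' h3
      rw [← h2']; exact husq j'.1 j'.2
    · have h3 := hl3 k k' x x' (by rw [hx, hx']; exact hdd)
      have h4 : k = k' := (Sigma.mk.inj h3).1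
      refine ⟨h4, ?_⟩
      subst h4
      have h5 : x = x' := eq_of_heq (Sigma.mk.inj h3).2
      rw [← hx, ← hx', h5]
  · intro d hd
    refine ⟨(f d).1, ?_⟩
    simp only [L, Finset.mem_union]
    have h1 : d ∈ DD (f d) := (hDD _ _).mpr ⟨hd, rfl⟩
    cases hb : (f d).2 with
    | true =>
      left; left; left
      have : f d = ((f d).1, true) := by rw [← hb]
      rw [← this]; exact h1
    | false =>
      left; right; left
      have : f d = ((f d).1, false) := by rw [← hb]
      rw [← this]; exact h1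
  · intro k d hd
    rcases hLmem k d hd with h | ⟨j, _, hj⟩ | ⟨x, hx⟩
    · exact Or.inl h.1
    · right; left
      rw [← hj]; exact husq j.1 j.2
    · right; right
      intro h
      rw [← hx] at h
      exact hlamM k x (hFM h)

end Pool.Agent.Zk59.ST
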