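import Mathlib

set_option autoImplicit false

/-!
# Normal Klein four-groups in finite 2-groups
-/

namespace Pool.Agent.Zk59.ST

variable {G : Type} [Group G]

theorem meet_center [Finite G] (h : IsPGroup 2 G) (N : Subgroup G) [N.Normal] (hN : N ≠ ⊥) :
    ∃ x ∈ N, x ≠ 1 ∧ ∀ g : G, g * x * g⁻¹ = x := by
  have : Fact (Nat.Prime 2) := ⟨Nat.prime_two⟩
  have hp : IsPGroup 2 (ConjAct G) := h.of_equiv ConjAct.toConjAct
  have hNp : IsPGroup 2 N := h.to_subgroup N
  have hdvd : 2 ∣ Nat.card N := by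
    obtain ⟨n, hn⟩ := IsPGroup.iff_card.mp hNp
    rw [hn]
    apply dvd_pow_self
    rintro rfl
    rw [pow_zero] at hn
    exact hN (N.eq_bot_of_card_eq hn)
  have h1 : (1 : N) ∈ MulAction.fixedPoints (ConjAct G) N := by
    intro g
    exact smul_one g
  obtain ⟨b, hb, hne⟩ := hp.exists_fixed_point_of_prime_dvd_card_of_fixed_point N hdvd h1
  refine ⟨b, b.2, fun h => hne (Subtype.ext h.symm), ?_⟩
  intro g
  have h3 : ((ConjAct.toConjAct g • b : N) : G) = g * b * g⁻¹ := rfl
  rw [← h3, hb (ConjAct.toConjAct g)]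

theorem meet_center_quot [Finite G] (h : IsPGroup 2 G) (B N : Subgroup G) [hB : B.Normal] [hN : N.Normal] (hBN : B ≤ N)
    (hne : B ≠ N) : ∃ x ∈ N, x ∉ B ∧ ∀ g : G, g * x * g⁻¹ * x⁻¹ ∈ B := by
  have hq : IsPGroup 2 (G ⧸ B) := h.to_quotient B
  have hNn : (N.map (QuotientGroup.mk' B)).Normal := hN.map _ (QuotientGroup.mk'_surjective B)
  have hnb : N.map (QuotientGroup.mk' B) ≠ ⊥ := by
    intro hbot
    apply hne
    apply le_antisymm hBN
    intro x hx
    have : (QuotientGroup.mk' B) x ∈ N.map (QuotientGroup.mk' B) := ⟨x, hx, rfl⟩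
    rw [hbot, Subgroup.mem_bot] at this
    exact (QuotientGroup.eq_one_iff x).mp this
  obtain ⟨y, ⟨x, hx, rfl⟩, hy1, hy2⟩ := meet_center hq _ hnb
  refine ⟨x, hx, ?_, ?_⟩
  · intro hxB
    exact hy1 ((QuotientGroup.eq_one_iff x).mpr hxB)
  · intro g
    have h1 := hy2 (g : G ⧸ B)
    have h2 : ((g * x * g⁻¹ * x⁻¹ : G) : G ⧸ B) = 1 := by
      have e : ((g * x * g⁻¹ * x⁻¹ : G) : G ⧸ B) = ((g : G ⧸ B) * (x : G ⧸ B) * (g : G ⧸ B)⁻¹) * (x : G ⧸ B)⁻¹ := rfl
      rw [e]
      have h1' : (g : G ⧸ B) * (x : G ⧸ B) * (g : G ⧸ B)⁻¹ = (x : G ⧸ B) := h1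
      rw [h1', mul_inv_cancel]
    exact (QuotientGroup.eq_one_iff _).mp h2

/-- The subgroup `{1, z, x, x z}`. -/
def kleinSub (z x : G) (hz : z ^ 2 = 1) (hx : x ^ 2 = 1) (hzx : z * x = x * z) : Subgroup G where
  carrier := {g | g = 1 ∨ g = z ∨ g = x ∨ g = x * z}
  one_mem' := Or.inl rfl
  mul_mem' := by
    have hz' : z * z = 1 := by rw [← sq, hz]
    have hx' : x * x = 1 := by rw [← sq, hx]
    have e1 : z * (x * z) = x := by rw [← mul_assoc, hzx, mul_assoc, hz', mul_one]
    have e2 : x * (x * z) = z := by rw [← mul_assoc, hx', one_mul]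
    have e3 : x * z * z = x := by rw [mul_assoc, hz', mul_one]
    have e4 : x * z * x = z := by rw [mul_assoc, hzx, ← mul_assoc, hx', one_mul]
    have e5 : x * z * (x * z) = 1 := by rw [← mul_assoc, e4, hz']
    rintro a b (rfl | rfl | rfl | rfl) (rfl | rfl | rfl | rfl) <;> simp [hz', hx', e1, e2, e3, e4, e5, hzx]
  inv_mem' := by
    have hz' : z⁻¹ = z := by rw [inv_eq_iff_mul_eq_one, ← sq, hz]
    have hx' : x⁻¹ = x := by rw [inv_eq_iff_mul_eq_one, ← sq, hx]
    rintro a (rfl | rfl | rfl | rfl) <;> simp [hz', hx', hzx]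

theorem mem_kleinSub (z x : G) (hz : z ^ 2 = 1) (hx : x ^ 2 = 1) (hzx : z * x = x * z) (g : G) :
    g ∈ kleinSub z x hz hx hzx ↔ (g = 1 ∨ g = z ∨ g = x ∨ g = x * z) := Iff.rfl

/-- A normal Klein four-group from a central involution `z` and an involution `x` with `g x g⁻¹ ∈ {x, x z}`. -/
theorem klein_of (z x : G) (hz : z ^ 2 = 1) (hz1 : z ≠ 1) (hzc : ∀ g : G, g * z * g⁻¹ = z) (hx : x ^ 2 = 1)
    (hx1 : x ≠ 1) (hxz : x ≠ z) (hxc : ∀ g : G, g * x * g⁻¹ = x ∨ g * x * g⁻¹ = x * z) :
    ∃ V : Subgroup G, V.Normal ∧ Nat.card V = 4 ∧ ∀ v ∈ V, v ^ 2 = 1 := by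
  have hzx : z * x = x * z := by
    have := hzc x
    have h2 : x * z * x⁻¹ * x = z * x := by rw [this]
    rw [inv_mul_cancel_right] at h2
    exact h2.symm
  have hz' : z * z = 1 := by rw [← sq, hz]
  have hx' : x * x = 1 := by rw [← sq, hx]
  refine ⟨kleinSub z x hz hx hzx, ⟨?_⟩, ?_, ?_⟩
  · intro n hn g
    rw [mem_kleinSub] at hn ⊢
    rcases hn with rfl | rfl | rfl | rfl
    · left; group
    · right; left; exact hzc g
    · rcases hxc g with h | h
      · right; right; left; exact h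
      · right; right; right; exact h
    · have e : g * (x * z) * g⁻¹ = (g * x * g⁻¹) * (g * z * g⁻¹) := by group
      rw [e, hzc]
      rcases hxc g with h | h
      · right; right; right; rw [h]
      · right; right; left; rw [h, mul_assoc, hz', mul_one]
  · classical
    have hset : ((kleinSub z x hz hx hzx : Subgroup G) : Set G) = (({1, z, x, x * z} : Finset G) : Set G) := by
      ext g
      rw [SetLike.mem_coe, mem_kleinSub]
      simp
    have h1 : Nat.card (kleinSub z x hz hx hzx) = ((kleinSub z x hz hx hzx : Subgroup G) : Set G).ncard := rfl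
    rw [h1, hset, Set.ncard_coe_finset]
    have hxz1 : x * z ≠ 1 := by
      intro h
      apply hxz
      have : x = x * z * z := by rw [mul_assoc, hz', mul_one]
      rw [this, h, one_mul]
    have hxzz : x * z ≠ z := fun h => hx1 (mul_eq_right.mp h)
    have hxzx : x * z ≠ x := fun h => hz1 (mul_eq_left.mp h)
    rw [Finset.card_insert_of_notMem, Finset.card_insert_of_notMem, Finset.card_insert_of_notMem,
      Finset.card_singleton]
    · simp only [Finset.mem_singleton]; exact hxzx.symm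
    · simp only [Finset.mem_insert, Finset.mem_singleton, not_or]; exact ⟨hxz.symm, hxzz.symm⟩
    · simp only [Finset.mem_insert, Finset.mem_singleton, not_or]; exact ⟨hz1.symm, hx1.symm, hxz1.symm⟩
  · intro v hv
    rw [mem_kleinSub] at hv
    rcases hv with rfl | rfl | rfl | rfl
    · exact one_pow 2
    · exact hz
    · exact hx
    · rw [sq]
      have e4 : x * z * x = z := by rw [mul_assoc, hzx, ← mul_assoc, hx', one_mul]
      rw [← mul_assoc, e4, hz']

/-- A normal subgroup of exponent two and order at least four contains a normal Klein four-group. -/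
theorem klein_of_normal [Finite G] (h : IsPGroup 2 G) (N : Subgroup G) [hN : N.Normal] (hN2 : ∀ n ∈ N, n ^ 2 = 1)
    (hc : 3 ≤ Nat.card N) : ∃ V : Subgroup G, V.Normal ∧ Nat.card V = 4 ∧ ∀ v ∈ V, v ^ 2 = 1 := by
  have hNb : N ≠ ⊥ := by
    rintro rfl
    simp at hc
  obtain ⟨z, hzN, hz1, hzc⟩ := meet_center h N hNb
  have hz2 := hN2 z hzN
  let B : Subgroup G := kleinSub z 1 hz2 (one_pow 2) (by simp)
  have hBmem : ∀ g, g ∈ B ↔ g = 1 ∨ g = z := by
    intro g
    rw [mem_kleinSub]
    simp only [one_mul]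
    tauto
  have hBn : B.Normal := by
    constructor
    intro n hn g
    rw [hBmem] at hn ⊢
    rcases hn with rfl | rfl
    · left; group
    · right; exact hzc g
  have hBN : B ≤ N := by
    intro g hg
    rcases (hBmem g).mp hg with rfl | rfl
    · exact N.one_mem
    · exact hzN
  have hne : B ≠ N := by
    intro hEq
    have h1 : Nat.card B ≤ 2 := by
      classical
      have hset : (B : Set G) = (({1, z} : Finset G) : Set G) := by
        ext g
        rw [SetLike.mem_coe, hBmem]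
        simp
      have h1 : Nat.card B = (B : Set G).ncard := rfl
      rw [h1, hset, Set.ncard_coe_finset]
      exact Finset.card_le_two
    rw [hEq] at h1
    omega
  obtain ⟨x, hxN, hxB, hxc⟩ := meet_center_quot h B N hBN hne
  have hxB' : x ≠ 1 ∧ x ≠ z := by
    constructor
    · intro h'; exact hxB ((hBmem x).mpr (Or.inl h'))
    · intro h'; exact hxB ((hBmem x).mpr (Or.inr h'))
  refine klein_of z x hz2 hz1 hzc (hN2 x hxN) hxB'.1 hxB'.2 ?_
  intro g
  rcases (hBmem _).mp (hxc g) with h' | h'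
  · left; exact mul_inv_eq_one.mp h'
  · right
    have h2 : g * x * g⁻¹ = z * x := by
      have : g * x * g⁻¹ = (g * x * g⁻¹ * x⁻¹) * x := by group
      rw [this, h']
    rw [h2]
    have := hzc x
    have h3 : x * z * x⁻¹ * x = z * x := by rw [this]
    rw [inv_mul_cancel_right] at h3
    exact h3.symm

end Pool.Agent.Zk59.ST
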