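import Pool.Agent.Zk59.ST.Two

set_option autoImplicit false

/-!
# Finite 2-groups with a normal Klein four-group that are not generated by involutions
-/

namespace Pool.Agent.Zk59.ST

open Classical

variable {G : Type} [Group G]

theorem exists_index_two_ge [Finite G] (h : IsPGroup 2 G) (C : Subgroup G) (hC : C ≠ ⊤) :
    ∃ K : Subgroup G, K.index = 2 ∧ C ≤ K := by
  have : Fact (Nat.Prime 2) := ⟨Nat.prime_two⟩
  obtain ⟨n, hn⟩ := IsPGroup.iff_card.mp h
  obtain ⟨m, hm⟩ := IsPGroup.iff_card.mp (h.to_subgroup C)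
  have hlt : Nat.card C < Nat.card G := by
    apply lt_of_le_of_ne (Subgroup.card_le_card_group C)
    intro h'
    exact hC (Subgroup.eq_top_of_card_eq C h')
  rw [hn, hm] at hlt
  have hmn : m < n := (Nat.pow_lt_pow_iff_right (by norm_num)).mp hlt
  obtain ⟨n', rfl⟩ : ∃ n', n = n' + 1 := ⟨n - 1, by omega⟩
  obtain ⟨K, hK1, hK2⟩ := Sylow.exists_subgroup_card_pow_prime_le 2
    (show 2 ^ n' ∣ Nat.card G by rw [hn]; exact pow_dvd_pow _ (by omega)) C hm (by omega)
  refine ⟨K, ?_, hK2⟩
  have h1 := K.card_mul_index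
  rw [hK1, hn, pow_succ] at h1
  exact Nat.eq_of_mul_eq_mul_left (by positivity) h1

theorem main_of_klein [Finite G] (h : IsPGroup 2 G) (hinv : Subgroup.closure {x : G | x ^ 2 = 1} ≠ ⊤)
    (hcyc : ∀ x : G, 2 < (Subgroup.zpowers x).index) (V : Subgroup G) [V.Normal] (hVc : Nat.card V = 4)
    (hVinv : ∀ v ∈ V, v ^ 2 = 1) : HasStarter G := by
  have : Fact (Nat.Prime 2) := ⟨Nat.prime_two⟩
  obtain ⟨M, hM, hMinv⟩ := exists_index_two_ge h _ hinv
  have hMi : ∀ g : G, g ^ 2 = 1 → g ∈ M := fun g hg => hMinv (Subgroup.subset_closure hg)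
  have hVM : V ≤ M := fun v hv => hMi v (hVinv v hv)
  let F : Subgroup G := ⨅ K : {K : Subgroup G // K.index = 2}, (K : Subgroup G)
  have hFmem : ∀ f : G, f ∈ F ↔ ∀ K : Subgroup G, K.index = 2 → f ∈ K := by
    intro f
    simp only [F, Subgroup.mem_iInf, Subtype.forall]
  have hFn : F.Normal := Subgroup.normal_iInf_normal (fun K => Subgroup.normal_of_index_eq_two K.2)
  have hFM : F ≤ M := fun f hf => (hFmem f).mp hf M hM
  have hGM : Nat.card M * 2 = Nat.card G := by rw [← hM]; exact M.card_mul_index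
  have hGF : Nat.card F * F.index = Nat.card G := F.card_mul_index
  obtain ⟨r, hr⟩ : ∃ r, F.index = 2 ^ r := by
    have h1 : IsPGroup 2 (G ⧸ F) := h.to_quotient F
    obtain ⟨r, hr⟩ := IsPGroup.iff_card.mp h1
    exact ⟨r, hr⟩
  have hr0 : r ≠ 0 := by
    rintro rfl
    rw [pow_zero, Subgroup.index_eq_one] at hr
    have : M = ⊤ := top_le_iff.mp (hr ▸ hFM)
    rw [this, Subgroup.index_top] at hM
    omega
  have hr1 : r ≠ 1 := by
    rintro rfl
    rw [pow_one] at hr
    have hFMeq : F = M := by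
      apply Subgroup.eq_of_le_of_card_ge hFM
      rw [hr] at hGF
      omega
    obtain ⟨g, hg⟩ : ∃ g : G, g ∉ M := by
      by_contra h'
      push Not at h'
      have : M = ⊤ := by ext x; simp [h' x]
      rw [this, Subgroup.index_top] at hM
      omega
    by_cases ht : Subgroup.zpowers g = ⊤
    · have := hcyc g
      rw [ht, Subgroup.index_top] at this
      omega
    · obtain ⟨K, hK, hgK⟩ := exists_index_two_ge h _ ht
      have hMK : M = K := by
        apply Subgroup.eq_of_le_of_card_ge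
        · intro x hx
          rw [← hFMeq] at hx
          exact (hFmem x).mp hx K hK
        · have := K.card_mul_index
          rw [hK] at this
          omega
      apply hg
      rw [hMK]
      exact hgK (Subgroup.mem_zpowers g)
  by_cases hr3 : 3 ≤ r
  · refine starter_of_one M V F hM hVM hVinv (by omega) hMi (fun f hf => (hFmem f).mpr hf) hFM ?_
    rw [hVc]
    have h8 : 8 ≤ F.index := by
      rw [hr]
      calc 8 = 2 ^ 3 := by norm_num
        _ ≤ 2 ^ r := Nat.pow_le_pow_right (by norm_num) hr3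
    have : Nat.card F * 8 ≤ Nat.card F * F.index := Nat.mul_le_mul_left _ h8
    omega
  have hr2 : r = 2 := by omega
  subst hr2
  have hF4 : Nat.card F * 4 = Nat.card G := by rw [← hGF, hr]; norm_num
  by_cases hF1 : Nat.card F < 4
  · -- all elements of `F` are involutions or trivial
    refine of_special (β := Empty) (fun b => b.elim) (fun b => b.elim) (fun b => b.elim) (fun b => b.elim)
      (fun b => b.elim) ?_
    intro f hf2 hfK
    exfalso
    apply hf2
    have hfF : f ∈ F := (hFmem f).mpr hfK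
    obtain ⟨k, hk⟩ := IsPGroup.iff_card.mp (h.to_subgroup F)
    have hk2 : k ≤ 1 := by
      by_contra hk'
      have : 2 ^ 2 ≤ 2 ^ k := Nat.pow_le_pow_right (by norm_num) (by omega)
      rw [hk] at hF1
      omega
    have h1 : (⟨f, hfF⟩ : F) ^ Nat.card F = 1 := pow_card_eq_one'
    have h2 : f ^ Nat.card F = 1 := by
      have h4 := congrArg Subtype.val h1
      rw [SubmonoidClass.coe_pow] at h4
      exact h4
    have h3 : Nat.card F ∣ 2 := by
      rw [hk]
      calc 2 ^ k ∣ 2 ^ 1 := pow_dvd_pow _ hk2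
        _ = 2 := by norm_num
    obtain ⟨c, hc⟩ := h3
    rw [hc, pow_mul, h2, one_pow]
  -- choose `H`
  obtain ⟨y, hyM, hyF⟩ : ∃ y ∈ M, y ∉ F := by
    by_contra h'
    push Not at h'
    have : M = F := le_antisymm h' hFM
    rw [this] at hGM
    have : 0 < Nat.card F := Nat.card_pos
    omega
  have hMp : IsPGroup 2 M := h.to_subgroup M
  have hCtop : (Subgroup.zpowers y).subgroupOf M ≠ ⊤ := by
    intro h'
    rw [Subgroup.subgroupOf_eq_top] at h'
    have h1 : Subgroup.zpowers y = M := le_antisymm (by rwa [Subgroup.zpowers_le]) h'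
    have := hcyc y
    rw [h1, hM] at this
    omega
  obtain ⟨K', hK', hCK'⟩ := exists_index_two_ge hMp _ hCtop
  let H : Subgroup G := K'.map M.subtype
  have hHM : H ≤ M := by
    rintro x ⟨z, _, rfl⟩
    exact z.2
  have hHmem : ∀ (a : G) (ha : a ∈ M), a ∈ H ↔ (⟨a, ha⟩ : M) ∈ K' := by
    intro a ha
    constructor
    · rintro ⟨z, hz, hza⟩
      have : z = ⟨a, ha⟩ := Subtype.ext hza
      rw [← this]; exact hz
    · intro h'
      exact ⟨_, h', rfl⟩
  have hyH : y ∈ H := by
    rw [hHmem y hyM]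
    apply hCK'
    rw [Subgroup.mem_subgroupOf]
    exact Subgroup.mem_zpowers y
  have hHc : Nat.card H * 2 = Nat.card M := by
    have h1 : Nat.card H = Nat.card K' :=
      (Nat.card_congr (K'.equivMapOfInjective M.subtype M.subtype_injective).toEquiv).symm
    rw [h1, ← hK']
    exact K'.card_mul_index
  have hFH : ¬ F ≤ H := by
    intro h'
    have h1 : F = H := by
      apply Subgroup.eq_of_le_of_card_ge h'
      omega
    apply hyF
    rw [h1]; exact hyH
  refine starter_of_two M V F hM hVM hVinv (by omega) hMi (fun f hf => (hFmem f).mpr hf) hFM M H hM hHM hFM ?_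
    hFH ?_ ?_ (h.to_subgroup F)
  · intro a ha b hb haH hbH
    have hab : a⁻¹ * b ∈ M := M.mul_mem (M.inv_mem ha) hb
    rw [hHmem _ hab]
    rw [hHmem _ ha] at haH
    rw [hHmem _ hb] at hbH
    have e1 : (⟨a⁻¹ * b, hab⟩ : M) = (⟨a, ha⟩ : M)⁻¹ * ⟨b, hb⟩ := rfl
    rw [e1, Subgroup.mul_mem_iff_of_index_two hK', inv_mem_iff]
    exact ⟨fun h' => absurd h' haH, fun h' => absurd h' hbH⟩
  · rw [hVc]; omega
  · rw [hVc]; omega

end Pool.Agent.Zk59.ST
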