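import Pool.Agent.Zk59.ST.BBU
import Pool.Agent.Zk59.ST.Rank
import Pool.Agent.Zk59.ST.Klein

set_option autoImplicit false

/-!
# A big block if no elementary abelian subgroup has order eight
-/

namespace Pool.Agent.Zk59.ST

open Classical

variable {G : Type} [Group G]

/-- Blocks of a subgroup are blocks of the group. -/
theorem hasBlock_lift (C : Subgroup G) (V' : Subgroup C) (H : Subgroup G) (φ : C ⧸ V' → G ⧸ H)
    (hinj : Function.Injective φ) (hsurj : Function.Surjective φ) (heq : ∀ (c : C) q, φ (c • q) = (c : G) • φ q)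
    (L : Finset C) (hL : HasBlock V' L) : HasBlock H (L.image (fun c : C => (c : G))) := by
  obtain ⟨p, h1, h2, h3, h4⟩ := hL
  let p' : G → G ⧸ H := fun g => if hg : g ∈ C then φ (p ⟨g, hg⟩) else ((1 : G) : G ⧸ H)
  have hp' : ∀ c : C, p' (c : G) = φ (p c) := by
    intro c
    simp only [p', dif_pos c.2]
  have hsq : ∀ c : C, (c : G) ^ 2 = 1 ↔ c ^ 2 = 1 := by
    intro c
    constructor
    · intro h; exact Subtype.ext h
    · intro h; exact congrArg Subtype.val h
  refine ⟨p', ?_, ?_, ?_, ?_⟩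
  · intro q
    obtain ⟨q', rfl⟩ := hsurj q
    obtain ⟨d, hd, h⟩ := h1 q'
    refine ⟨d, Finset.mem_image_of_mem _ hd, ?_⟩
    rw [hp', ← heq]
    rcases h with h | h
    · left; rw [h]
    · right; rw [← h]
  · intro d hd d' hd' hne
    obtain ⟨c, hc, rfl⟩ := Finset.mem_image.mp hd
    obtain ⟨c', hc', rfl⟩ := Finset.mem_image.mp hd'
    have hne' : c ≠ c' := fun h => hne (by rw [h])
    obtain ⟨e1, e2, e3⟩ := h2 c hc c' hc' hne'
    rw [hp', hp', ← heq, ← heq]
    exact ⟨fun h => e1 (hinj h), fun h => e2 (hinj h), fun h => e3 (hinj h)⟩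
  · intro d hd h
    obtain ⟨c, hc, rfl⟩ := Finset.mem_image.mp hd
    rw [hp', ← heq]
    intro h'
    exact h3 c hc (fun h'' => h ((hsq c).mpr h'')) (hinj h')
  · intro d hd h
    obtain ⟨c, hc, rfl⟩ := Finset.mem_image.mp hd
    rw [hp', ← heq, h4 c hc ((hsq c).mp h)]

/-- The subgroup `V ∪ x V`. -/
def addInv (V : Subgroup G) (x : G) (hx : x ^ 2 = 1) (hxV : ∀ v ∈ V, x * v * x⁻¹ ∈ V) : Subgroup G where
  carrier := {g | g ∈ V ∨ x * g ∈ V}
  one_mem' := Or.inl V.one_mem
  mul_mem' := by
    have hxx : x * x = 1 := by rw [← sq, hx]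
    have hxi : x⁻¹ = x := by rw [inv_eq_iff_mul_eq_one, hxx]
    rintro g k (hg | hg) (hk | hk)
    · exact Or.inl (V.mul_mem hg hk)
    · right
      have h1 := hxV g hg
      have e : x * (g * k) = (x * g * x⁻¹) * (x * k) := by group
      rw [e]; exact V.mul_mem h1 hk
    · right
      have e : x * (g * k) = (x * g) * k := by rw [mul_assoc]
      rw [e]; exact V.mul_mem hg hk
    · left
      have h1 := hxV _ hg
      have e : g * k = (x * (x * g) * x⁻¹) * (x * k) := by
        rw [hxi]
        calc g * k = (x * x) * g * (x * x) * k := by rw [hxx, one_mul, mul_one]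
          _ = x * (x * g) * x * (x * k) := by simp only [mul_assoc]
      rw [e]; exact V.mul_mem h1 hk
  inv_mem' := by
    have hxx : x * x = 1 := by rw [← sq, hx]
    have hxi : x⁻¹ = x := by rw [inv_eq_iff_mul_eq_one, hxx]
    rintro g (hg | hg)
    · exact Or.inl (V.inv_mem hg)
    · right
      have h1 := hxV _ (V.inv_mem hg)
      have e : x * g⁻¹ = x * (x * g)⁻¹ * x⁻¹ := by
        rw [mul_inv_rev, hxi]
        simp only [mul_assoc, hxx, mul_one]
      rw [e]; exact h1

theorem mem_addInv (V : Subgroup G) (x : G) (hx : x ^ 2 = 1) (hxV : ∀ v ∈ V, x * v * x⁻¹ ∈ V) (g : G) :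
    g ∈ addInv V x hx hxV ↔ g ∈ V ∨ x * g ∈ V := Iff.rfl

/-- If `V` is elementary abelian and `x` is a commuting involution outside `V`, then `V ⟨x⟩` is elementary abelian. -/
theorem addInv_elem [Finite G] (V : Subgroup G) (hV : ∀ v ∈ V, v ^ 2 = 1) (x : G) (hx : x ^ 2 = 1)
    (hxc : ∀ v ∈ V, x * v = v * x) (hxV : x ∉ V) :
    ∃ E : Subgroup G, (∀ e ∈ E, e ^ 2 = 1) ∧ 2 * Nat.card V ≤ Nat.card E := by
  have hxx : x * x = 1 := by rw [← sq, hx]
  have hc : ∀ v ∈ V, x * v * x⁻¹ ∈ V := by
    intro v hv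
    rw [hxc v hv, mul_inv_cancel_right]; exact hv
  refine ⟨addInv V x hx hc, ?_, ?_⟩
  · rintro e (he | he)
    · exact hV e he
    · have h1 := hV _ he
      have h2 := hxc _ he
      have h3 : (x * e) ^ 2 = e ^ 2 := by
        rw [sq, sq]
        calc (x * e) * (x * e) = ((x * e) * x) * e := by simp only [mul_assoc]
          _ = (x * (x * e)) * e := by rw [h2]
          _ = (x * x) * (e * e) := by simp only [mul_assoc]
          _ = e * e := by rw [hxx, one_mul]
      rw [← h3, h1]
  · have hle : V ≤ addInv V x hx hc := fun v hv => Or.inl hv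
    obtain ⟨c, hcc⟩ := Subgroup.card_dvd_of_le hle
    have h1 : 0 < Nat.card V := Nat.card_pos
    have h0 : 0 < Nat.card (addInv V x hx hc) := Nat.card_pos
    have h2 : c ≠ 1 := by
      rintro rfl
      have h3 : V = addInv V x hx hc := by
        apply Subgroup.eq_of_le_of_card_ge hle
        omega
      apply hxV
      rw [h3, mem_addInv]
      right
      rw [hxx]; exact V.one_mem
    have h3 : c ≠ 0 := by rintro rfl; omega
    rw [hcc, mul_comm 2]
    exact Nat.mul_le_mul_left _ (by omega)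

/-- The elements of a Klein four-group. -/
theorem klein_elems [Finite G] (V : Subgroup G) (hVc : Nat.card V = 4) (z v : G) (hz : z ∈ V) (hv : v ∈ V)
    (hz1 : z ≠ 1) (hv1 : v ≠ 1) (hvz : v ≠ z) (hzz : z * z = 1) :
    ∀ w ∈ V, w = 1 ∨ w = z ∨ w = v ∨ w = v * z := by
  have : Fintype G := Fintype.ofFinite G
  have : Fintype V := Fintype.ofFinite V
  let S : Finset G := {1, z, v, v * z}
  have hxz1 : v * z ≠ 1 := by
    intro h
    apply hvz
    have : v = v * z * z := by rw [mul_assoc, hzz, mul_one]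
    rw [this, h, one_mul]
  have hxzz : v * z ≠ z := fun h => hv1 (mul_eq_right.mp h)
  have hxzx : v * z ≠ v := fun h => hz1 (mul_eq_left.mp h)
  have hS : S.card = 4 := by
    simp only [S]
    rw [Finset.card_insert_of_notMem, Finset.card_insert_of_notMem, Finset.card_insert_of_notMem,
      Finset.card_singleton]
    · simp only [Finset.mem_singleton]; exact hxzx.symm
    · simp only [Finset.mem_insert, Finset.mem_singleton, not_or]; exact ⟨hvz.symm, hxzz.symm⟩
    · simp only [Finset.mem_insert, Finset.mem_singleton, not_or]; exact ⟨hz1.symm, hv1.symm, hxz1.symm⟩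
  let T : Finset G := Finset.univ.filter (fun g => g ∈ V)
  have hT : T.card = 4 := by
    rw [← hVc, Nat.card_eq_fintype_card, Fintype.card_subtype]
  have hST : S ⊆ T := by
    intro g hg
    simp only [S, Finset.mem_insert, Finset.mem_singleton] at hg
    rw [Finset.mem_filter]
    refine ⟨Finset.mem_univ _, ?_⟩
    rcases hg with rfl | rfl | rfl | rfl
    · exact V.one_mem
    · exact hz
    · exact hv
    · exact V.mul_mem hv hz
  have hEq : S = T := Finset.eq_of_subset_of_card_le hST (by omega)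
  intro w hw
  have : w ∈ T := by rw [Finset.mem_filter]; exact ⟨Finset.mem_univ _, hw⟩
  rw [← hEq] at this
  simpa [S] using this

theorem big_beta [Finite G] (h : IsPGroup 2 G) (hgen : Subgroup.closure {x : G | x ^ 2 = 1} = ⊤)
    (F V : Subgroup G) [hVn : V.Normal] (hVc : Nat.card V = 4) (hV2 : ∀ v ∈ V, v ^ 2 = 1) (hVF : V ≤ F)
    (hF : ∀ K : Subgroup G, K.index = 2 → F ≤ K) (hno : ∀ E : Subgroup G, (∀ e ∈ E, e ^ 2 = 1) → Nat.card E < 8)
    (hF8 : 8 * Nat.card F ≤ Nat.card G)
    (D : Finset G) (hDF : ∀ d ∈ D, d ∈ F) (hD2 : ∀ d ∈ D, d ^ 2 ≠ 1)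
    (hanti : ∀ d ∈ D, ∀ d' ∈ D, d' ≠ d⁻¹) (hc : 32 * D.card ≤ Nat.card G) : BigFor F D := by
  have : Fintype G := Fintype.ofFinite G
  have hinvC : ∀ y : G, y ^ 2 = 1 → (∀ v ∈ V, y * v = v * y) → y ∈ V := by
    intro y hy hyc
    by_contra hyV
    obtain ⟨E, hE1, hE2⟩ := addInv_elem V hV2 y hy hyc hyV
    have := hno E hE1
    omega
  -- an involution that does not centralize `V`
  have hFtop : F ≠ ⊤ := by
    intro h'
    rw [h'] at hF8
    have h1 : Nat.card (⊤ : Subgroup G) = Nat.card G := Subgroup.card_top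
    have h2 : 0 < Nat.card G := Nat.card_pos
    omega
  obtain ⟨x, hx2, hxC⟩ : ∃ x : G, x ^ 2 = 1 ∧ ¬ ∀ v ∈ V, x * v = v * x := by
    by_contra hcon
    push Not at hcon
    apply hFtop
    rw [eq_top_iff, ← hgen, Subgroup.closure_le]
    intro x hx
    exact hVF (hinvC x hx (hcon x hx))
  -- the centralizer
  have hVb : V ≠ ⊥ := by
    rintro rfl
    simp at hVc
  obtain ⟨z, hzV, hz1, hzc⟩ := meet_center h V hVb
  have hzz : z * z = 1 := by rw [← sq, hV2 z hzV]
  let C : Subgroup G := Subgroup.centralizer (V : Set G)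
  have hC : ∀ g, g ∈ C ↔ ∀ v ∈ V, v * g = g * v := by
    intro g
    rw [Subgroup.mem_centralizer_iff]
    rfl
  obtain ⟨v0, hv0, hv01, hv0z⟩ : ∃ v ∈ V, v ≠ 1 ∧ v ≠ z := by
    by_contra hcon
    push Not at hcon
    have : Fintype V := Fintype.ofFinite V
    have h1 : (Finset.univ.filter (fun g : G => g ∈ V)) ⊆ {1, z} := by
      intro g hg
      have hg' := (Finset.mem_filter.mp hg).2
      rw [Finset.mem_insert, Finset.mem_singleton]
      by_cases h1 : g = 1
      · exact Or.inl h1
      · exact Or.inr (hcon g hg' h1)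
    have h2 := Finset.card_le_card h1
    have h3 : (Finset.univ.filter (fun g : G => g ∈ V)).card = 4 := by
      rw [← hVc, Nat.card_eq_fintype_card, Fintype.card_subtype]
    have h4 : ({1, z} : Finset G).card ≤ 2 := Finset.card_le_two
    omega
  have helem := klein_elems V hVc z v0 hzV hv0 hz1 hv01 hv0z hzz
  have hzc' : ∀ g : G, g * z = z * g := fun g => mul_inv_eq_iff_eq_mul.mp (hzc g)
  have hC' : ∀ g, g ∈ C ↔ g * v0 * g⁻¹ = v0 := by
    intro g
    rw [hC]
    constructor
    · intro h'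
      rw [← h' v0 hv0, mul_inv_cancel_right]
    · intro h' v hv
      have h1 : g * v0 = v0 * g := mul_inv_eq_iff_eq_mul.mp h'
      rcases helem v hv with rfl | rfl | rfl | rfl
      · simp
      · exact (hzc' g).symm
      · exact h1.symm
      · rw [mul_assoc, ← hzc' g, ← mul_assoc, ← h1, mul_assoc]
  -- conjugation moves `v0` at most by `z`
  have hconj : ∀ g : G, g ∉ C → g * v0 * g⁻¹ = v0 * z := by
    intro g hg
    rcases helem _ (hVn.conj_mem v0 hv0 g) with h' | h' | h' | h'
    · exfalso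
      apply hv01
      have : v0 = g⁻¹ * (g * v0 * g⁻¹) * g := by group
      rw [this, h']; group
    · exfalso
      apply hv0z
      have h1 : v0 = g⁻¹ * (g * v0 * g⁻¹) * g := by group
      rw [h1, h', mul_assoc, ← hzc' g, ← mul_assoc, inv_mul_cancel, one_mul]
    · exact absurd ((hC' g).mpr h') hg
    · exact h'
  have hxC' : x ∉ C := by
    intro h'
    apply hxC
    intro v hv
    exact ((hC x).mp h' v hv).symm
  have hCi : C.index = 2 := by
    rw [Subgroup.index_eq_two_iff]
    refine ⟨x, fun b => ?_⟩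
    by_cases hb : b ∈ C
    · right
      exact ⟨hb, fun h' => hxC' ((C.mul_mem_cancel_left hb).mp h')⟩
    · left
      refine ⟨?_, hb⟩
      rw [hC']
      have e : b * x * v0 * (b * x)⁻¹ = b * (x * v0 * x⁻¹) * b⁻¹ := by group
      rw [e, hconj x hxC']
      have e2 : b * (v0 * z) * b⁻¹ = (b * v0 * b⁻¹) * (b * z * b⁻¹) := by group
      rw [e2, hconj b hb, hzc, mul_assoc, hzz, mul_one]
  have hFC : F ≤ C := hF C hCi
  have hCcard : 2 * Nat.card C = Nat.card G := by
    have := C.card_mul_index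
    rw [hCi] at this; omega
  have hCp : IsPGroup 2 C := h.to_subgroup C
  have hFC' : F.subgroupOf C ≠ ⊤ := by
    intro h'
    rw [Subgroup.subgroupOf_eq_top] at h'
    have h1 : F = C := le_antisymm hFC h'
    rw [h1] at hF8
    have : 0 < Nat.card C := Nat.card_pos
    omega
  obtain ⟨K, hK, hFK⟩ := exists_index_two_ge hCp _ hFC'
  let V' : Subgroup C := V.subgroupOf C
  have hV'n : V'.Normal := hVn.comap C.subtype
  have hVC : V ≤ C := hVF.trans hFC
  have hV'mem : ∀ c : C, c ∈ V' ↔ (c : G) ∈ V := fun c => Subgroup.mem_subgroupOf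
  have hV'card : Nat.card V' = 4 := by
    rw [← hVc]
    exact Nat.card_congr (Subgroup.subgroupOfEquivOfLe hVC).toEquiv
  have hV'K : V' ≤ K := by
    intro c hc
    apply hFK
    rw [Subgroup.mem_subgroupOf]
    exact hVF ((hV'mem c).mp hc)
  have hKcard : 4 * Nat.card K = Nat.card G := by
    have := K.card_mul_index
    rw [hK] at this; omega
  let D' : Finset C := Finset.univ.filter (fun c : C => (c : G) ∈ D)
  have hD' : ∀ c : C, c ∈ D' ↔ (c : G) ∈ D := by intro c; simp [D']
  have hD'card : D'.card = D.card := by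
    have h1 : D = D'.image (fun c : C => (c : G)) := by
      ext d
      rw [Finset.mem_image]
      constructor
      · intro hd
        exact ⟨⟨d, hFC (hDF d hd)⟩, (hD' _).mpr hd, rfl⟩
      · rintro ⟨c, hc, rfl⟩
        exact (hD' c).mp hc
    conv_rhs => rw [h1]
    rw [Finset.card_image_of_injective _ Subtype.val_injective]
  have hsq : ∀ c : C, (c : G) ^ 2 = 1 ↔ c ^ 2 = 1 := by
    intro c
    constructor
    · intro h; exact Subtype.ext h
    · intro h; exact congrArg Subtype.val h
  obtain ⟨L, hL1, hL2, hL3, hL4, hL5⟩ := bigBlock K V' hK hV'K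
    (fun v hv => (hsq v).mp (hV2 _ ((hV'mem v).mp hv))) (by omega)
    (fun g hg => hV'K ((hV'mem g).mpr (hinvC g ((hsq g).mpr hg) (fun v hv => ((hC g).mp g.2 v hv).symm))))
    D' (fun d hd => hFK (by rw [Subgroup.mem_subgroupOf]; exact hDF _ ((hD' d).mp hd)))
    (fun d hd h' => hD2 _ ((hD' d).mp hd) ((hsq d).mpr h'))
    (fun d hd d' hd' h' => hanti _ ((hD' d).mp hd) _ ((hD' d').mp hd') (by rw [h']; rfl))
    (by rw [hV'card, hD'card]; omega)
  -- the subgroup of order eight
  have hxV : ∀ v ∈ V, x * v * x⁻¹ ∈ V := fun v hv => hVn.conj_mem v hv x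
  let H : Subgroup G := addInv V x hx2 hxV
  have hH : ∀ g, g ∈ H ↔ g ∈ V ∨ x * g ∈ V := fun g => mem_addInv V x hx2 hxV g
  let φ : C ⧸ V' → G ⧸ H := fun q => (((q.out : C) : G) : G ⧸ H)
  have hφ : ∀ c : C, φ (c : C ⧸ V') = (((c : C) : G) : G ⧸ H) := by
    intro c
    have h1 : (((c : C ⧸ V').out : C) : C ⧸ V') = (c : C ⧸ V') := QuotientGroup.out_eq' _
    rw [QuotientGroup.eq] at h1
    show ((((c : C ⧸ V').out : C) : G) : G ⧸ H) = ((c : G) : G ⧸ H)
    rw [QuotientGroup.eq, hH]
    left
    exact (hV'mem _).mp h1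
  have hmain := hasBlock_lift C V' H φ (by
      intro q q' hqq
      induction q using QuotientGroup.induction_on with
      | H c => induction q' using QuotientGroup.induction_on with
        | H c' =>
          rw [hφ, hφ, QuotientGroup.eq, hH] at hqq
          rw [QuotientGroup.eq, hV'mem]
          rcases hqq with hqq | hqq
          · exact hqq
          · exfalso
            apply hxC'
            have h1 : x * ((c : G)⁻¹ * (c' : G)) ∈ C := hVC hqq
            have h2 : ((c : G)⁻¹ * (c' : G)) ∈ C := C.mul_mem (C.inv_mem c.2) c'.2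
            exact (C.mul_mem_cancel_right h2).mp h1)
    (by
      intro q
      induction q using QuotientGroup.induction_on with
      | H g =>
        by_cases hg : g ∈ C
        · exact ⟨((⟨g, hg⟩ : C) : C ⧸ V'), hφ _⟩
        · have h1 : g * x ∈ C := by
            rw [Subgroup.mul_mem_iff_of_index_two hCi]
            exact ⟨fun h' => absurd h' hg, fun h' => absurd h' hxC'⟩
          refine ⟨((⟨g * x, h1⟩ : C) : C ⧸ V'), ?_⟩
          rw [hφ]
          show ((g * x : G) : G ⧸ H) = (g : G ⧸ H)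
          rw [QuotientGroup.eq, hH]
          right
          have : x * ((g * x)⁻¹ * g) = 1 := by group
          rw [this]; exact V.one_mem)
    (by
      intro c q
      induction q using QuotientGroup.induction_on with
      | H c' =>
        have e : c • (c' : C ⧸ V') = ((c * c' : C) : C ⧸ V') := rfl
        rw [e, hφ, hφ]
        rfl)
    L hL1
  refine ⟨Unit, inferInstance, fun _ => H, fun _ => L.image (fun c : C => (c : G)), fun _ => hmain, ?_, ?_, ?_, ?_⟩
  · intro _ d hd
    obtain ⟨c, hc, rfl⟩ := Finset.mem_image.mp hd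
    intro h'
    exact hL5 c hc (Subtype.ext h')
  · intro _ _ d d' hd hd' hdd
    obtain ⟨c, hc, rfl⟩ := Finset.mem_image.mp hd
    obtain ⟨c', hc', rfl⟩ := Finset.mem_image.mp hd'
    refine ⟨rfl, ?_⟩
    rcases hdd with h' | h'
    · exact h'
    · rw [hL4 c hc c' hc' (Subtype.ext h')]
  · intro d hd
    refine ⟨(), ?_⟩
    exact Finset.mem_image.mpr ⟨⟨d, hFC (hDF d hd)⟩, hL2 ((hD' _).mpr hd), rfl⟩
  · intro _ d hd
    obtain ⟨c, hc, rfl⟩ := Finset.mem_image.mp hd
    rcases hL3 c hc with h' | h' | h'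
    · left; exact (hD' c).mp h'
    · right; left
      exact hV2 _ ((hV'mem c).mp h'.1)
    · right; right
      intro hcF
      apply h'
      apply hFK
      rw [Subgroup.mem_subgroupOf]
      exact hcF

end Pool.Agent.Zk59.ST
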