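import Pool.Agent.Zk59.ST.KL

set_option autoImplicit false

/-!
# 2-groups generated by involutions with cyclic Frattini subgroup: blocks from conjugacy classes of involutions
-/

namespace Pool.Agent.Zk59.ST

open Classical

variable {G : Type} [Group G]

/-- A block from a transitive action. -/
theorem hasBlock_of_orbit {Ω : Type} [MulAction G Ω] (ω : Ω) (L : Finset G) (p : G → Ω)
    (h0 : ∀ d ∈ L, p d ∈ MulAction.orbit G ω)
    (h1 : ∀ q ∈ MulAction.orbit G ω, ∃ d ∈ L, q = p d ∨ q = d • p d)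
    (h2 : ∀ d ∈ L, ∀ d' ∈ L, d ≠ d' → p d ≠ p d' ∧ p d ≠ d' • p d' ∧ d • p d ≠ d' • p d')
    (h3 : ∀ d ∈ L, d ^ 2 ≠ 1 → d • p d ≠ p d) (h4 : ∀ d ∈ L, d ^ 2 = 1 → d • p d = p d) :
    HasBlock (MulAction.stabilizer G ω) L := by
  let ψ : G ⧸ MulAction.stabilizer G ω → Ω := MulAction.ofQuotientStabilizer G ω
  have hψinj : Function.Injective ψ := MulAction.injective_ofQuotientStabilizer G ω
  have hψmk : ∀ g : G, ψ (g : G ⧸ MulAction.stabilizer G ω) = g • ω := fun g => rfl
  have hψs : ∀ (g : G) q, ψ (g • q) = g • ψ q := by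
    intro g q
    induction q using QuotientGroup.induction_on with
    | H a =>
      have e : g • (a : G ⧸ MulAction.stabilizer G ω) = ((g * a : G) : G ⧸ MulAction.stabilizer G ω) := rfl
      rw [e, hψmk, hψmk, mul_smul]
  have hψo : ∀ q, ψ q ∈ MulAction.orbit G ω := by
    intro q
    induction q using QuotientGroup.induction_on with
    | H a => exact ⟨a, rfl⟩
  have hpre : ∀ d : G, ∃ q : G ⧸ MulAction.stabilizer G ω, d ∈ L → ψ q = p d := by
    intro d
    by_cases hd : d ∈ L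
    · obtain ⟨g, hg⟩ := h0 d hd
      exact ⟨(g : G ⧸ MulAction.stabilizer G ω), fun _ => hg⟩
    · exact ⟨((1 : G) : G ⧸ MulAction.stabilizer G ω), fun h => absurd h hd⟩
  choose p' hp' using hpre
  refine ⟨p', ?_, ?_, ?_, ?_⟩
  · intro q
    obtain ⟨d, hd, h⟩ := h1 (ψ q) (hψo q)
    refine ⟨d, hd, ?_⟩
    rcases h with h | h
    · left; exact hψinj (by rw [h, hp' d hd])
    · right; exact hψinj (by rw [h, hψs, hp' d hd])
  · intro d hd d' hd' hne
    obtain ⟨e1, e2, e3⟩ := h2 d hd d' hd' hne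
    refine ⟨fun h => e1 ?_, fun h => e2 ?_, fun h => e3 ?_⟩
    · rw [← hp' d hd, ← hp' d' hd', h]
    · rw [← hp' d hd, ← hp' d' hd', ← hψs, h]
    · rw [← hp' d hd, ← hp' d' hd', ← hψs, ← hψs, h]
  · intro d hd hd2 h
    apply h3 d hd hd2
    rw [← hp' d hd, ← hψs, h]
  · intro d hd hd2
    apply hψinj
    rw [hψs, hp' d hd, h4 d hd hd2]

/-- The group with the conjugation action. -/
def Cj (G : Type) : Type := G

instance instCj : MulAction G (Cj G) where
  smul g x := (show G from g * (show G from x) * g⁻¹)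
  one_smul x := by
    have h' : ∀ y : G, (1 : G) * y * (1 : G)⁻¹ = y := by intro y; simp
    exact h' x
  mul_smul g h x := by
    have h' : ∀ y : G, (g * h) * y * (g * h)⁻¹ = g * (h * y * h⁻¹) * g⁻¹ := by intro y; group
    exact h' x

theorem Cj_smul (g : G) (x : Cj G) : g • x = (show Cj G from g * (show G from x) * g⁻¹) := rfl

/-- A starter from labels that are placed on conjugacy classes of involutions. -/
theorem starter_of_conj [Finite G] (T : Finset G) (D : Finset G) (hT2 : ∀ t ∈ T, t ^ 2 = 1)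
    (hT : ∀ d ∈ D, ∀ t ∈ T, d * t * d⁻¹ ∈ T) (hf : ∀ d ∈ D, ∀ t ∈ T, d * t * d⁻¹ ≠ t)
    (hc : 4 * D.card < T.card + 4) (hD2 : ∀ d ∈ D, d ^ 2 ≠ 1) (hanti : ∀ d ∈ D, ∀ d' ∈ D, d' ≠ d⁻¹)
    (hcov : ∀ f : G, f ^ 2 ≠ 1 → (∀ K : Subgroup G, K.index = 2 → f ∈ K) → f ∈ D ∨ f⁻¹ ∈ D) :
    HasStarter G := by
  have : Fintype G := Fintype.ofFinite G
  have : Fintype (Cj G) := (inferInstance : Fintype G)
  have : Nonempty (Cj G) := ⟨(1 : G)⟩
  obtain ⟨p, hp1, hp2⟩ := place (G := G) (α := Cj G) (show Finset (Cj G) from T) D hT hf hc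
  -- the conjugacy classes that are used
  let β := {c : MulAction.orbitRel.Quotient G (Cj G) // ∃ d ∈ D, (Quotient.mk'' (p d) : MulAction.orbitRel.Quotient G (Cj G)) = c}
  have : Fintype (MulAction.orbitRel.Quotient G (Cj G)) := Fintype.ofFinite _
  have : Fintype β := Fintype.ofFinite _
  have hmk : ∀ x y : Cj G, (Quotient.mk'' x : MulAction.orbitRel.Quotient G (Cj G)) = Quotient.mk'' y ↔
      x ∈ MulAction.orbit G y := by
    intro x y
    rw [Quotient.eq'']
    rfl
  -- elements of used classes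
  have hinv : ∀ (d : G) (y : Cj G), d ∈ D → y ∈ MulAction.orbit G (p d) → (show G from y) ^ 2 = 1 ∧
      (show G from y) ≠ 1 := by
    intro d y hd hy
    obtain ⟨g, rfl⟩ := hy
    have h1 : (show G from p d) ^ 2 = 1 := hT2 _ (hp1 d hd)
    have h2 : (show G from p d) ≠ 1 := by
      intro h
      apply hf d hd (p d) (hp1 d hd)
      rw [show p d = (1 : G) from h]; simp
    have h3 : ∀ u : G, u ^ 2 = 1 → (g * u * g⁻¹) ^ 2 = 1 := by
      intro u hu
      rw [conj_pow, hu]; simp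
    have h4 : ∀ u : G, u ≠ 1 → g * u * g⁻¹ ≠ 1 := by
      intro u hu h
      apply hu
      have e : u = g⁻¹ * (g * u * g⁻¹) * g := by group
      rw [e, h]; simp
    exact ⟨h3 _ h1, h4 _ h2⟩
  let cov : Cj G → Prop := fun y => ∃ d ∈ D, y = p d ∨ y = d • p d
  let cl : Cj G → MulAction.orbitRel.Quotient G (Cj G) := fun y => Quotient.mk'' y
  let L : β → Finset G := fun b => D.filter (fun d => cl (p d) = b.1) ∪
    Finset.univ.filter (fun y : G => cl (show Cj G from y) = b.1 ∧ ¬ cov (show Cj G from y))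
  have hL : ∀ b g, g ∈ L b ↔ (g ∈ D ∧ cl (p g) = b.1) ∨ (cl (show Cj G from g) = b.1 ∧ ¬ cov (show Cj G from g)) := by
    intro b g
    rw [Finset.mem_union, Finset.mem_filter, Finset.mem_filter]
    simp
  have hbinv : ∀ (b : β) (y : G), cl (show Cj G from y) = b.1 → y ^ 2 = 1 ∧ y ≠ 1 := by
    intro b y hy
    obtain ⟨c, d, hd, hc⟩ := b
    exact hinv d y hd ((hmk _ _).mp (hy.trans hc.symm))
  let pp : G → Cj G := fun g => if g ∈ D then p g else (show Cj G from g)
  have hpD : ∀ g ∈ D, pp g = p g := fun g hg => if_pos hg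
  have hpN : ∀ g, g ∉ D → pp g = (show Cj G from g) := fun g hg => if_neg hg
  have hsm : ∀ g : G, g • (show Cj G from g) = (show Cj G from g) := by
    intro g
    rw [Cj_smul]
    show g * g * g⁻¹ = g
    group
  have hcls : ∀ (g : G) (y : Cj G), cl (g • y) = cl y := by
    intro g y
    exact (hmk _ _).mpr ⟨g, rfl⟩
  refine of_special (β := β) (fun b => MulAction.stabilizer G (b.1.out)) L ?_ ?_ ?_ ?_
  · intro b
    have hout : cl b.1.out = b.1 := Quotient.out_eq' _
    have horb : ∀ y : Cj G, y ∈ MulAction.orbit G b.1.out ↔ cl y = b.1 := by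
      intro y
      rw [← hmk]
      show cl y = cl b.1.out ↔ _
      rw [hout]
    have hcase : ∀ d ∈ L b, (d ∈ D ∧ cl (p d) = b.1 ∧ pp d = p d) ∨
        (d ∉ D ∧ d ^ 2 = 1 ∧ cl (show Cj G from d) = b.1 ∧ ¬ cov (show Cj G from d) ∧ pp d = (show Cj G from d)) := by
      intro d hd
      rcases (hL b d).mp hd with h | h
      · exact Or.inl ⟨h.1, h.2, hpD d h.1⟩
      · have h1 := (hbinv b d h.1).1
        have h2 : d ∉ D := fun h' => hD2 d h' h1
        exact Or.inr ⟨h2, h1, h.1, h.2, hpN d h2⟩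
    refine hasBlock_of_orbit b.1.out (L b) pp ?_ ?_ ?_ ?_ ?_
    · intro d hd
      rw [horb]
      rcases hcase d hd with ⟨_, h, h'⟩ | ⟨_, _, h, _, h'⟩
      · rw [h', h]
      · rw [h', h]
    · intro q hq
      rw [horb] at hq
      by_cases hqc : cov q
      · obtain ⟨d, hd, h⟩ := hqc
        have h1 : cl (p d) = b.1 := by
          rcases h with h | h
          · rw [← h, hq]
          · rw [← hcls d, ← h, hq]
        exact ⟨d, (hL b d).mpr (Or.inl ⟨hd, h1⟩), by rw [hpD d hd]; exact h⟩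
      · have h2 : (show G from q) ∈ L b := (hL b _).mpr (Or.inr ⟨hq, hqc⟩)
        refine ⟨(show G from q), h2, Or.inl ?_⟩
        have h1 := (hbinv b (show G from q) hq).1
        rw [hpN _ (fun h' => hD2 _ h' h1)]
    · intro d hd d' hd' hne
      rcases hcase d hd with ⟨a1, a2, a3⟩ | ⟨a1, a2, a3, a4, a5⟩ <;>
        rcases hcase d' hd' with ⟨b1, b2, b3⟩ | ⟨b1, b2, b3, b4, b5⟩
      · rw [a3, b3]
        exact hp2 d a1 d' b1 hne
      · rw [a3, b5, hsm]
        refine ⟨?_, ?_, ?_⟩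
        · intro h; exact b4 ⟨d, a1, Or.inl h.symm⟩
        · intro h; exact b4 ⟨d, a1, Or.inl h.symm⟩
        · intro h; exact b4 ⟨d, a1, Or.inr h.symm⟩
      · rw [a5, b3, hsm]
        refine ⟨?_, ?_, ?_⟩
        · intro h; exact a4 ⟨d', b1, Or.inl h⟩
        · intro h; exact a4 ⟨d', b1, Or.inr h⟩
        · intro h; exact a4 ⟨d', b1, Or.inr h⟩
      · rw [a5, b5, hsm, hsm]
        exact ⟨hne, hne, hne⟩
    · intro d hd hd2
      rcases hcase d hd with ⟨a1, a2, a3⟩ | ⟨a1, a2, a3, a4, a5⟩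
      · rw [a3]
        exact hf d a1 (p d) (hp1 d a1)
      · exact absurd a2 hd2
    · intro d hd hd2
      rcases hcase d hd with ⟨a1, a2, a3⟩ | ⟨a1, a2, a3, a4, a5⟩
      · exact absurd hd2 (hD2 d a1)
      · rw [a5, hsm]
  · intro b d hd h1
    rcases (hL b d).mp hd with h | h
    · exact hD2 d h.1 (by rw [h1, one_pow])
    · exact (hbinv b d h.1).2 h1
  · intro b b' d d' hd hd' hdd
    rcases (hL b d).mp hd with h | h <;> rcases (hL b' d').mp hd' with h' | h'
    · rcases hdd with e | e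
      · refine ⟨?_, e⟩
        apply Subtype.ext
        rw [← h.2, ← h'.2, e]
      · exact absurd e (hanti d h.1 d' h'.1)
    · exfalso
      have h1 := (hbinv b' d' h'.1).1
      rcases hdd with e | e
      · exact hD2 d h.1 (by rw [← e]; exact h1)
      · apply hD2 d h.1
        rw [e, inv_pow] at h1
        exact inv_eq_one.mp h1
    · exfalso
      have h1 := (hbinv b d h.1).1
      apply hD2 d' h'.1
      rcases hdd with e | e
      · rw [e]; exact h1
      · rw [e, inv_pow, h1, inv_one]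
    · have h1 := (hbinv b d h.1).1
      have h2 : d' = d := by
        rcases hdd with e | e
        · exact e
        · rw [e, inv_eq_iff_mul_eq_one, ← sq, h1]
      refine ⟨?_, h2⟩
      apply Subtype.ext
      rw [← h.1, ← h'.1, h2]
  · intro f hf2 hfK
    have hD : ∀ d ∈ D, ∃ b, d ∈ L b := by
      intro d hd
      exact ⟨⟨cl (p d), d, hd, rfl⟩, (hL _ d).mpr (Or.inl ⟨hd, rfl⟩)⟩
    rcases hcov f hf2 hfK with h | h
    · obtain ⟨b, hb⟩ := hD f h
      exact ⟨b, Or.inl hb⟩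
    · obtain ⟨b, hb⟩ := hD _ h
      exact ⟨b, Or.inr hb⟩

/-- In a group with all squares in `N`, an element outside `N` is outside some subgroup of index two. -/
theorem exists_index_two_not_mem [Finite G] (N : Subgroup G) (hsq : ∀ g : G, g ^ 2 ∈ N) (t : G) (ht : t ∉ N) :
    ∃ K : Subgroup G, K.index = 2 ∧ N ≤ K ∧ t ∉ K := by
  have : Fintype (Subgroup G) := Fintype.ofFinite _
  obtain ⟨M, hM, hmax⟩ := Finset.exists_max_image
    ((Finset.univ : Finset (Subgroup G)).filter (fun P => N ≤ P ∧ t ∉ P)) (fun E => Nat.card E)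
    ⟨N, Finset.mem_filter.mpr ⟨Finset.mem_univ _, le_rfl, ht⟩⟩
  obtain ⟨hNM, htM⟩ := (Finset.mem_filter.mp hM).2
  have hconj : ∀ g : G, ∀ m ∈ M, g⁻¹ * m * g ∈ M := by
    intro g m hm
    have e : g⁻¹ * m * g = (g⁻¹) ^ 2 * ((g * m) ^ 2) * (m⁻¹) ^ 2 * m := by simp only [sq]; group
    rw [e]
    exact M.mul_mem (M.mul_mem (M.mul_mem (hNM (hsq _)) (hNM (hsq _))) (hNM (hsq _))) hm
  have hkey : ∀ g : G, g ∉ M → g⁻¹ * t ∈ M := by
    intro g hg
    let Q := addSq M g (hNM (hsq g)) (hconj g)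
    have hMQ : M ≤ Q := fun m hm => Or.inl hm
    have hgQ : g ∈ Q := Or.inr (by rw [inv_mul_cancel]; exact M.one_mem)
    by_contra hcon
    have htQ : t ∉ Q := by
      rintro (h | h)
      · exact htM h
      · exact hcon h
    have h1 := hmax Q (Finset.mem_filter.mpr ⟨Finset.mem_univ _, hNM.trans hMQ, htQ⟩)
    have h2 : M = Q := Subgroup.eq_of_le_of_card_ge hMQ h1
    exact hg (h2 ▸ hgQ)
  refine ⟨M, ?_, hNM, htM⟩
  rw [Subgroup.index_eq_two_iff]
  refine ⟨t, fun b => ?_⟩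
  by_cases hb : b ∈ M
  · right
    exact ⟨hb, fun h' => htM ((M.mul_mem_cancel_left hb).mp h')⟩
  · left
    refine ⟨?_, hb⟩
    have e : b * t = b ^ 2 * (b⁻¹ * t) := by rw [sq]; group
    rw [e]; exact M.mul_mem (hNM (hsq b)) (hkey b hb)

end Pool.Agent.Zk59.ST
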