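import Pool.Agent.Zk59.ST.CB

set_option autoImplicit false

/-!
# 2-groups generated by involutions with cyclic Frattini subgroup
-/

namespace Pool.Agent.Zk59.ST

open Classical

variable {G : Type} [Group G]

/-- If all products of two involutions have their square in the normal subgroup `N`, then all squares are in `N`. -/
theorem squares_mem (hgen : Subgroup.closure {x : G | x ^ 2 = 1} = ⊤) (N : Subgroup G) [N.Normal]
    (h : ∀ x y : G, x ^ 2 = 1 → y ^ 2 = 1 → (x * y) ^ 2 ∈ N) (g : G) : g ^ 2 ∈ N := by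
  have hI : ∀ x : G, x ^ 2 = 1 → (x : G ⧸ N) * (x : G ⧸ N) = 1 := by
    intro x hx
    have h1 : ((x * x : G) : G ⧸ N) = ((1 : G) : G ⧸ N) := by rw [← sq, hx]
    exact h1
  have hxy : ∀ x y : G, x ^ 2 = 1 → y ^ 2 = 1 → Commute (x : G ⧸ N) (y : G ⧸ N) := by
    intro x y hx hy
    have h1 : (((x * y) ^ 2 : G) : G ⧸ N) = 1 := (QuotientGroup.eq_one_iff _).mpr (h x y hx hy)
    rw [sq] at h1
    have h2 : (x : G ⧸ N) * (y : G ⧸ N) * ((x : G ⧸ N) * (y : G ⧸ N)) = 1 := h1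
    have hx' := hI x hx
    have hy' := hI y hy
    show (x : G ⧸ N) * (y : G ⧸ N) = (y : G ⧸ N) * (x : G ⧸ N)
    calc (x : G ⧸ N) * (y : G ⧸ N)
        = ((x : G ⧸ N) * (y : G ⧸ N)) * (((x : G ⧸ N) * (y : G ⧸ N) * ((x : G ⧸ N) * (y : G ⧸ N)))⁻¹) := by
          rw [h2]; simp
      _ = (y : G ⧸ N)⁻¹ * (x : G ⧸ N)⁻¹ := by group
      _ = (y : G ⧸ N) * (x : G ⧸ N) := by
          rw [inv_eq_of_mul_eq_one_left hx', inv_eq_of_mul_eq_one_left hy']
  have hA : ∀ g : G, ∀ y : G, y ^ 2 = 1 → Commute (g : G ⧸ N) (y : G ⧸ N) := by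
    intro g y hy
    have hg : g ∈ Subgroup.closure {x : G | x ^ 2 = 1} := by rw [hgen]; trivial
    induction hg using Subgroup.closure_induction with
    | mem x hx => exact hxy x y hx hy
    | one => exact Commute.one_left _
    | mul a b _ _ ha hb => exact Commute.mul_left ha hb
    | inv a _ ha => exact Commute.inv_left ha
  have hB : ∀ g k : G, Commute (g : G ⧸ N) (k : G ⧸ N) := by
    intro g k
    have hk : k ∈ Subgroup.closure {x : G | x ^ 2 = 1} := by rw [hgen]; trivial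
    induction hk using Subgroup.closure_induction with
    | mem x hx => exact hA g x hx
    | one => exact Commute.one_right _
    | mul a b _ _ ha hb => exact Commute.mul_right ha hb
    | inv a _ ha => exact Commute.inv_right ha
  rw [← QuotientGroup.eq_one_iff]
  have hC : (g : G ⧸ N) ^ 2 = 1 := by
    have hg : g ∈ Subgroup.closure {x : G | x ^ 2 = 1} := by rw [hgen]; trivial
    induction hg using Subgroup.closure_induction with
    | mem x hx => rw [sq]; exact hI x hx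
    | one => exact one_pow 2
    | mul a b _ _ ha hb =>
      show ((a : G ⧸ N) * (b : G ⧸ N)) ^ 2 = 1
      rw [(hB a b).mul_pow, ha, hb, one_mul]
    | inv a _ ha =>
      show ((a : G ⧸ N)⁻¹) ^ 2 = 1
      rw [inv_pow, ha, inv_one]
  exact hC

theorem starter_cyclic_frattini [Finite G] (h : IsPGroup 2 G)
    (hgen : Subgroup.closure {x : G | x ^ 2 = 1} = ⊤) (F : Subgroup G) [hFn : F.Normal]
    (hF : ∀ K : Subgroup G, K.index = 2 → F ≤ K)
    (hF' : ∀ f : G, (∀ K : Subgroup G, K.index = 2 → f ∈ K) → f ∈ F) (hFc : IsCyclic F) : HasStarter G := by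
  have : Fintype G := Fintype.ofFinite G
  have : Fact (Nat.Prime 2) := ⟨Nat.prime_two⟩
  obtain ⟨⟨c, hcF⟩, hc⟩ := hFc.exists_generator
  have hFz : ∀ b, b ∈ F ↔ ∃ k : ℤ, c ^ k = b := by
    intro b
    constructor
    · intro hb
      obtain ⟨k, hk⟩ := Subgroup.mem_zpowers_iff.mp (hc ⟨b, hb⟩)
      refine ⟨k, ?_⟩
      have := congrArg (fun x : F => (x : G)) hk
      exact this
    · rintro ⟨k, rfl⟩
      exact F.zpow_mem hcF k
  have hFzp : F = Subgroup.zpowers c := by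
    ext b
    rw [hFz, Subgroup.mem_zpowers_iff]
  by_cases hc1 : c = 1
  · apply starter_of_exp_two
    intro f hf
    obtain ⟨k, hk⟩ := (hFz f).mp (hF' f hf)
    rw [← hk, hc1]; simp
  obtain ⟨n, hn⟩ : ∃ n, orderOf c = 2 ^ n := IsPGroup.iff_orderOf.mp h c
  have hn0 : n ≠ 0 := by
    rintro rfl
    rw [pow_zero, orderOf_eq_one_iff] at hn
    exact hc1 hn
  have h2n : (2 : ℤ) ∣ 2 ^ n := dvd_pow_self 2 hn0
  have hone : ∀ n' : ℤ, c ^ n' = 1 ↔ (2 ^ n : ℤ) ∣ n' := by
    intro n'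
    rw [← orderOf_dvd_iff_zpow_eq_one, hn]
    push_cast
    rfl
  -- the maximal subgroup
  let N : Subgroup G := Subgroup.zpowers (c ^ 2)
  have hN : ∀ g, g ∈ N ↔ ∃ k : ℤ, c ^ (2 * k) = g := by
    intro g
    rw [Subgroup.mem_zpowers_iff]
    constructor
    · rintro ⟨k, rfl⟩
      exact ⟨k, by rw [zpow_mul, zpow_ofNat]⟩
    · rintro ⟨k, rfl⟩
      exact ⟨k, by rw [zpow_mul, zpow_ofNat]⟩
  have hNn : N.Normal := by
    constructor
    intro g hg a
    rw [hN] at hg ⊢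
    obtain ⟨k, rfl⟩ := hg
    obtain ⟨l, hl⟩ := (hFz _).mp (hFn.conj_mem c hcF a)
    refine ⟨l * k, ?_⟩
    rw [← conj_zpow, ← hl, ← zpow_mul]
    congr 1; ring
  have hcN : c ∉ N := by
    intro h'
    obtain ⟨k, hk⟩ := (hN c).mp h'
    have h1 : c ^ (2 * k - 1) = 1 := by rw [zpow_sub_one, hk, mul_inv_cancel]
    rw [hone] at h1
    have := h2n.trans h1
    omega
  obtain ⟨x, y, hx2, hy2, hxy⟩ : ∃ x y : G, x ^ 2 = 1 ∧ y ^ 2 = 1 ∧ (x * y) ^ 2 ∉ N := by
    by_contra hcon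
    push Not at hcon
    obtain ⟨K, hK, _, hcK⟩ := exists_index_two_not_mem N (squares_mem hgen N hcon) c hcN
    exact hcK (hF K hK hcF)
  set a := x * y with ha
  have hxx : x * x = 1 := by rw [← sq, hx2]
  have hyy : y * y = 1 := by rw [← sq, hy2]
  have hxi : x⁻¹ = x := by rw [inv_eq_iff_mul_eq_one, hxx]
  have hyi : y⁻¹ = y := by rw [inv_eq_iff_mul_eq_one, hyy]
  have ha2F : a ^ 2 ∈ F := hF' _ (fun K hK => Subgroup.sq_mem_of_index_two hK a)
  obtain ⟨k, hk⟩ := (hFz _).mp ha2F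
  have hkodd : ¬ (2 : ℤ) ∣ k := by
    rintro ⟨l, rfl⟩
    exact hxy ((hN _).mpr ⟨l, hk⟩)
  have hcop : IsCoprime k (2 ^ n : ℤ) := by
    apply IsCoprime.pow_right
    obtain ⟨l, hl⟩ : ∃ l, k = 2 * l + 1 := ⟨k / 2, by omega⟩
    exact ⟨1, -l, by rw [hl]; ring⟩
  obtain ⟨u, v, huv⟩ := hcop
  have hca : c = (a ^ 2) ^ u := by
    rw [← hk, ← zpow_mul]
    have h1 : c ^ (1 - k * u) = 1 := by
      rw [hone]
      exact ⟨v, by linarith⟩
    have h2 : c ^ (1 - k * u) * c ^ (k * u) = c := by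
      rw [← zpow_add]
      have : 1 - k * u + k * u = 1 := by ring
      rw [this, zpow_one]
    rw [h1, one_mul] at h2
    exact h2.symm
  have hFa : ∀ f ∈ F, ∃ j : ℤ, f = a ^ (2 * j) := by
    intro f hf
    obtain ⟨l, rfl⟩ := (hFz f).mp hf
    refine ⟨u * l, ?_⟩
    rw [hca, ← zpow_natCast, ← zpow_mul, ← zpow_mul]
    congr 1
  have hxa : ∀ i : ℤ, x * a ^ i = a ^ (-i) * x := by
    intro i
    have h1 : x * a * x⁻¹ = a⁻¹ := by
      rw [ha, mul_inv_rev, hyi, hxi, ← mul_assoc, hxx, one_mul]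
    have h2 : x * a ^ i * x⁻¹ = a ^ (-i) := by
      rw [← conj_zpow, h1, inv_zpow, zpow_neg]
    rw [← h2]; group
  -- the order of `a`
  obtain ⟨m, hm⟩ : ∃ m, orderOf a = 2 ^ m := IsPGroup.iff_orderOf.mp h a
  have hm0 : m ≠ 0 := by
    rintro rfl
    rw [pow_zero, orderOf_eq_one_iff] at hm
    apply hxy
    rw [hm, one_pow]; exact N.one_mem
  have hord2 : 2 * orderOf (a ^ 2) = orderOf a := by
    have h1 : 2 ∣ orderOf a := by rw [hm]; exact dvd_pow_self 2 hm0
    rw [orderOf_pow_of_dvd (by norm_num) h1]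
    omega
  have hcard : Nat.card F ≤ orderOf (a ^ 2) := by
    have h1 : F ≤ Subgroup.zpowers (a ^ 2) := by
      rw [hFzp, Subgroup.zpowers_le, Subgroup.mem_zpowers_iff]
      exact ⟨u, hca.symm⟩
    have h2 := Nat.card_le_card_of_injective (Subgroup.inclusion h1) (Subgroup.inclusion_injective h1)
    rwa [Nat.card_zpowers] at h2
  -- the involutions `a ^ i * x`
  let T : Finset G := (Finset.range (orderOf a)).image (fun i : ℕ => a ^ i * x)
  have hTm : ∀ t, t ∈ T ↔ ∃ i : ℤ, t = a ^ i * x := by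
    intro t
    rw [Finset.mem_image]
    constructor
    · rintro ⟨i, _, rfl⟩
      exact ⟨i, by rw [zpow_natCast]⟩
    · rintro ⟨i, rfl⟩
      have h1 : a ^ i ∈ Subgroup.zpowers a := Subgroup.zpow_mem_zpowers a i
      have h2 : a ^ i ∈ (Finset.range (orderOf a)).image (fun i : ℕ => a ^ i) := by
        have := (mem_zpowers_iff_mem_range_orderOf (x := a) (y := a ^ i)).mp h1
        exact this
      obtain ⟨l, hl, hl'⟩ := Finset.mem_image.mp h2
      exact ⟨l, hl, by rw [hl']⟩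
  have hTc : T.card = orderOf a := by
    rw [Finset.card_image_of_injOn, Finset.card_range]
    intro i hi j hj hij
    simp only at hij
    exact pow_injOn_Iio_orderOf (by simpa using hi) (by simpa using hj) (mul_right_cancel hij)
  -- the labels
  let S : Finset G := Finset.univ.filter (fun f => f ∈ F ∧ f ^ 2 ≠ 1)
  have hS : ∀ f, f ∈ S ↔ f ∈ F ∧ f ^ 2 ≠ 1 := by intro f; simp [S]
  obtain ⟨D, hDS, hD1, hD2, hD3⟩ := exists_reps S
    (fun s hs => (hS _).mpr ⟨F.inv_mem ((hS s).mp hs).1, by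
      intro h; apply ((hS s).mp hs).2
      rw [inv_pow] at h; exact inv_eq_one.mp h⟩)
    (fun s hs => ((hS s).mp hs).2)
  have hScard : S.card ≤ Nat.card F := by
    have h1 : (Finset.univ.filter (fun f : G => f ∈ F)).card = Nat.card F := by
      rw [Nat.card_eq_fintype_card, Fintype.card_subtype]
    rw [← h1]
    apply Finset.card_le_card
    intro f hf
    simp [((hS f).mp hf).1]
  have hact : ∀ (j i : ℤ), a ^ (2 * j) * (a ^ i * x) * (a ^ (2 * j))⁻¹ = a ^ (4 * j + i) * x := by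
    intro j i
    have h1 : (a ^ (2 * j))⁻¹ = a ^ (-(2 * j)) := by rw [zpow_neg]
    rw [h1]
    calc a ^ (2 * j) * (a ^ i * x) * a ^ (-(2 * j)) = a ^ (2 * j) * a ^ i * (x * a ^ (-(2 * j))) := by
          simp only [mul_assoc]
      _ = a ^ (2 * j) * a ^ i * (a ^ (-(-(2 * j))) * x) := by rw [hxa]
      _ = a ^ (4 * j + i) * x := by
          rw [← mul_assoc, ← zpow_add, ← zpow_add]
          congr 2; ring
  refine starter_of_conj T D ?_ ?_ ?_ ?_ ?_ hD2 ?_
  · intro t ht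
    obtain ⟨i, rfl⟩ := (hTm t).mp ht
    rw [sq]
    calc a ^ i * x * (a ^ i * x) = a ^ i * (x * a ^ i) * x := by simp only [mul_assoc]
      _ = a ^ i * (a ^ (-i) * x) * x := by rw [hxa]
      _ = (a ^ i * a ^ (-i)) * (x * x) := by simp only [mul_assoc]
      _ = 1 := by rw [← zpow_add, hxx]; simp
  · intro d hd t ht
    obtain ⟨i, rfl⟩ := (hTm t).mp ht
    obtain ⟨j, rfl⟩ := hFa d ((hS d).mp (hDS hd)).1
    rw [hTm, hact]
    exact ⟨_, rfl⟩
  · intro d hd t ht h'
    obtain ⟨i, rfl⟩ := (hTm t).mp ht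
    obtain ⟨j, rfl⟩ := hFa d ((hS d).mp (hDS hd)).1
    rw [hact] at h'
    have h1 := mul_right_cancel h'
    apply ((hS _).mp (hDS hd)).2
    rw [zpow_add] at h1
    have h2 : a ^ (4 * j) = 1 := mul_eq_right.mp h1
    rw [← zpow_natCast, ← zpow_mul, ← h2]
    congr 1
    push_cast; ring
  · rw [hTc]; omega
  · intro d hd
    exact ((hS d).mp (hDS hd)).2
  · intro f hf2 hfK
    exact hD1 f ((hS f).mpr ⟨hF' f hfK, hf2⟩)

end Pool.Agent.Zk59.ST
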