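import Pool.Agent.Zk59.ST.Klein

set_option autoImplicit false

/-!
# A finite 2-group without a normal Klein four-group has a cyclic subgroup of index at most two
-/

namespace Pool.Agent.Zk59.ST

open Classical

variable {G : Type} [Group G]

theorem exists_max_abelian [Finite G] (h : IsPGroup 2 G) :
    ∃ A : Subgroup G, A.Normal ∧ (∀ a ∈ A, ∀ b ∈ A, a * b = b * a) ∧
      (∀ x : G, (∀ a ∈ A, x * a = a * x) → x ∈ A) := by
  have : Fintype (Subgroup G) := Fintype.ofFinite _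
  let S : Finset (Subgroup G) := Finset.univ.filter
    (fun A => A.Normal ∧ (∀ a ∈ A, ∀ b ∈ A, a * b = b * a))
  have hS : ∀ A, A ∈ S ↔ A.Normal ∧ (∀ a ∈ A, ∀ b ∈ A, a * b = b * a) := by intro A; simp [S]
  have hne : S.Nonempty := ⟨⊥, (hS _).mpr ⟨inferInstance, by
    intro a ha b hb
    rw [Subgroup.mem_bot] at ha hb
    rw [ha, hb]⟩⟩
  obtain ⟨A, hA, hmax⟩ := Finset.exists_max_image S (fun A => Nat.card A) hne
  obtain ⟨hAn, hAc⟩ := (hS A).mp hA
  refine ⟨A, hAn, hAc, ?_⟩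
  let C : Subgroup G := Subgroup.centralizer (A : Set G)
  have hC : ∀ x, x ∈ C ↔ ∀ a ∈ A, x * a = a * x := by
    intro x
    rw [Subgroup.mem_centralizer_iff]
    constructor
    · intro h' a ha; exact (h' a ha).symm
    · intro h' a ha; exact (h' a ha).symm
  have hCn : C.Normal := by
    constructor
    intro n hn g
    rw [hC] at hn ⊢
    intro a ha
    have h1 := hn (g⁻¹ * a * g) (by simpa using hAn.conj_mem a ha g⁻¹)
    have h2 : g * n * g⁻¹ * a = g * (n * (g⁻¹ * a * g)) * g⁻¹ := by group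
    have h3 : a * (g * n * g⁻¹) = g * ((g⁻¹ * a * g) * n) * g⁻¹ := by group
    rw [h2, h3, h1]
  have hAC : A ≤ C := fun a ha => (hC a).mpr (fun b hb => hAc a ha b hb)
  intro x hx
  by_contra hxA
  have hne' : A ≠ C := by
    intro h'
    apply hxA
    rw [h']; exact (hC x).mpr hx
  obtain ⟨y, hyC, hyA, hyc⟩ := meet_center_quot h A C hAC hne'
  have hyC' := (hC y).mp hyC
  let A' : Subgroup G := (Subgroup.zpowers (y : G ⧸ A)).comap (QuotientGroup.mk' A)
  have hA' : ∀ g, g ∈ A' ↔ ∃ k : ℤ, (y ^ k)⁻¹ * g ∈ A := by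
    intro g
    rw [Subgroup.mem_comap, Subgroup.mem_zpowers_iff]
    constructor
    · rintro ⟨k, hk⟩
      refine ⟨k, ?_⟩
      rw [← QuotientGroup.eq]
      exact hk
    · rintro ⟨k, hk⟩
      refine ⟨k, ?_⟩
      rw [← QuotientGroup.eq] at hk
      exact hk
  have hAA' : A ≤ A' := fun a ha => (hA' a).mpr ⟨0, by simpa using ha⟩
  have hyA' : y ∈ A' := (hA' y).mpr ⟨1, by simpa using A.one_mem⟩
  have hyk : ∀ (k : ℤ) (a : G), a ∈ A → y ^ k * a = a * y ^ k := by
    intro k a ha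
    have : Commute y a := hyC' a ha
    exact (this.zpow_left k).eq
  have hA'S : A' ∈ S := by
    rw [hS]
    constructor
    · constructor
      intro n hn g
      have hcomm : Commute (g : G ⧸ A) (y : G ⧸ A) := by
        have h1 := hyc g
        have h2 : ((g * y * g⁻¹ * y⁻¹ : G) : G ⧸ A) = 1 := (QuotientGroup.eq_one_iff _).mpr h1
        have h3 : ((g * y * g⁻¹ * y⁻¹ : G) : G ⧸ A) =
          ((g : G ⧸ A) * (y : G ⧸ A) * (g : G ⧸ A)⁻¹) * (y : G ⧸ A)⁻¹ := rfl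
        rw [h3, mul_inv_eq_one] at h2
        exact mul_inv_eq_iff_eq_mul.mp h2
      rw [Subgroup.mem_comap, Subgroup.mem_zpowers_iff] at hn ⊢
      obtain ⟨k, hk⟩ := hn
      refine ⟨k, ?_⟩
      have h4 : (QuotientGroup.mk' A) (g * n * g⁻¹) = (g : G ⧸ A) * (QuotientGroup.mk' A) n * (g : G ⧸ A)⁻¹ := rfl
      rw [h4, ← hk, (hcomm.zpow_right k).eq, mul_inv_cancel_right]
    · intro a ha b hb
      obtain ⟨k, hk⟩ := (hA' a).mp ha
      obtain ⟨l, hl⟩ := (hA' b).mp hb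
      set u := (y ^ k)⁻¹ * a with hu
      set v := (y ^ l)⁻¹ * b with hv
      have ea : a = y ^ k * u := by rw [hu]; group
      have eb : b = y ^ l * v := by rw [hv]; group
      rw [ea, eb]
      calc y ^ k * u * (y ^ l * v) = y ^ k * (u * y ^ l) * v := by group
        _ = y ^ k * (y ^ l * u) * v := by rw [hyk l u hk]
        _ = (y ^ k * y ^ l) * (u * v) := by group
        _ = (y ^ l * y ^ k) * (v * u) := by rw [← zpow_add, ← zpow_add, add_comm, hAc u hk v hl]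
        _ = y ^ l * (y ^ k * v) * u := by group
        _ = y ^ l * (v * y ^ k) * u := by rw [hyk k v hl]
        _ = y ^ l * v * (y ^ k * u) := by group
  have hle := hmax A' hA'S
  have hEq : A = A' := Subgroup.eq_of_le_of_card_ge hAA' hle
  exact hyA (hEq ▸ hyA')

theorem card_pow_le {A : Type} [CommGroup A] [Fintype A] (h2 : (Finset.univ.filter (fun a : A => a ^ 2 = 1)).card ≤ 2)
    (k : ℕ) : (Finset.univ.filter (fun a : A => a ^ (2 ^ k) = 1)).card ≤ 2 ^ k := by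
  induction k with
  | zero =>
    have : (Finset.univ.filter (fun a : A => a ^ (2 ^ 0) = 1)) = {1} := by ext a; simp
    rw [this]; simp
  | succ k ih =>
    have h1 := Finset.card_le_mul_card_image (f := fun a : A => a ^ 2)
      (Finset.univ.filter (fun a : A => a ^ (2 ^ (k + 1)) = 1)) 2 (by
        intro b hb
        rw [Finset.mem_image] at hb
        obtain ⟨a0, ha0, rfl⟩ := hb
        refine le_trans ?_ h2
        apply Finset.card_le_card_of_injOn (fun a => a0⁻¹ * a)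
        · intro a ha
          rw [Finset.mem_coe, Finset.mem_filter] at ha
          rw [Finset.mem_coe, Finset.mem_filter]
          refine ⟨Finset.mem_univ _, ?_⟩
          rw [mul_pow, ha.2, inv_pow, inv_mul_cancel]
        · intro a _ b _ h
          exact mul_left_cancel h)
    have h3 : (Finset.univ.filter (fun a : A => a ^ (2 ^ (k + 1)) = 1)).image (fun a : A => a ^ 2) ⊆
        Finset.univ.filter (fun a : A => a ^ (2 ^ k) = 1) := by
      intro b hb
      rw [Finset.mem_image] at hb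
      obtain ⟨a, ha, rfl⟩ := hb
      rw [Finset.mem_filter] at ha ⊢
      refine ⟨Finset.mem_univ _, ?_⟩
      rw [← pow_mul, ← pow_succ']
      exact ha.2
    have h4 := Finset.card_le_card h3
    calc _ ≤ 2 * _ := h1
      _ ≤ 2 * 2 ^ k := Nat.mul_le_mul_left _ (h4.trans ih)
      _ = 2 ^ (k + 1) := by rw [pow_succ, mul_comm]

theorem isCyclic_of_two {A : Type} [CommGroup A] [Finite A] (hp : IsPGroup 2 A)
    (h2 : Nat.card {a : A // a ^ 2 = 1} ≤ 2) : IsCyclic A := by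
  have : Fintype A := Fintype.ofFinite A
  have h2' : (Finset.univ.filter (fun a : A => a ^ 2 = 1)).card ≤ 2 := by
    rw [← Fintype.card_subtype, ← Nat.card_eq_fintype_card]; exact h2
  apply isCyclic_of_card_pow_eq_one_le
  intro n hn
  have hsub : (Finset.univ.filter (fun a : A => a ^ n = 1)) ⊆
      (Finset.univ.filter (fun a : A => a ^ (2 ^ (n.factorization 2)) = 1)) := by
    intro a ha
    rw [Finset.mem_filter] at ha ⊢
    refine ⟨Finset.mem_univ _, ?_⟩
    have : Fact (Nat.Prime 2) := ⟨Nat.prime_two⟩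
    obtain ⟨j, hj⟩ := IsPGroup.iff_orderOf.mp hp a
    have h1 : 2 ^ j ∣ n := by rw [← hj]; exact orderOf_dvd_of_pow_eq_one ha.2
    have h3 : 2 ^ j ∣ 2 ^ (n.factorization 2) :=
      pow_dvd_pow _ ((Nat.Prime.pow_dvd_iff_le_factorization Nat.prime_two hn.ne').mp h1)
    rw [← hj] at h3
    exact orderOf_dvd_iff_pow_eq_one.mp h3
  refine (Finset.card_le_card hsub).trans ((card_pow_le h2' _).trans ?_)
  exact Nat.le_of_dvd hn (Nat.ordProj_dvd n 2)

theorem nt1 (k : ℕ) (s : ℤ) (h1 : s % 4 = 1) (h2 : (8 * 2 ^ k : ℤ) ∣ s ^ 2 - 1) (h3 : ¬ (8 * 2 ^ k : ℤ) ∣ s - 1) :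
    (8 * 2 ^ k : ℤ) ∣ s - 1 - 4 * 2 ^ k := by
  obtain ⟨u, hu⟩ : ∃ u, s = 1 + 4 * u := ⟨s / 4, by omega⟩
  subst hu
  have h4 : (2 ^ k : ℤ) ∣ u * (1 + 2 * u) := by
    obtain ⟨w, hw⟩ := h2
    refine ⟨w, ?_⟩
    have : (8 : ℤ) * (u * (1 + 2 * u)) = 8 * (2 ^ k * w) := by ring_nf; ring_nf at hw; linarith
    exact mul_left_cancel₀ (by norm_num) this
  have hcop : IsCoprime (2 ^ k : ℤ) (1 + 2 * u) := by
    apply IsCoprime.pow_left
    exact ⟨-u, 1, by ring⟩
  obtain ⟨v, hv⟩ := hcop.dvd_of_dvd_mul_right h4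
  subst hv
  have hodd : ¬ (2 : ℤ) ∣ v := by
    rintro ⟨w, rfl⟩
    apply h3
    exact ⟨w, by ring⟩
  obtain ⟨w, hw⟩ : ∃ w, v = 2 * w + 1 := ⟨v / 2, by omega⟩
  exact ⟨w, by rw [hw]; ring⟩

theorem nt2 (k : ℕ) (n : ℤ) (h : (8 * 2 ^ k : ℤ) ∣ 2 * n + 4 * 2 ^ k * n) : (4 * 2 ^ k : ℤ) ∣ n := by
  have h4 : (4 * 2 ^ k : ℤ) ∣ n * (1 + 2 * 2 ^ k) := by
    obtain ⟨w, hw⟩ := h
    refine ⟨w, ?_⟩
    have : (2 : ℤ) * (n * (1 + 2 * 2 ^ k)) = 2 * (4 * 2 ^ k * w) := by linarith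
    exact mul_left_cancel₀ (by norm_num) this
  have hcop : IsCoprime (4 * 2 ^ k : ℤ) (1 + 2 * 2 ^ k) := by
    have h2 : IsCoprime (2 : ℤ) (1 + 2 * 2 ^ k) := ⟨-(2 ^ k), 1, by ring⟩
    have : (4 * 2 ^ k : ℤ) = 2 ^ (k + 2) := by rw [pow_add]; ring
    rw [this]
    exact h2.pow_left
  exact hcop.dvd_of_dvd_mul_right h4

end Pool.Agent.Zk59.ST
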