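import Pool.Agent.Zk59.ST.CB2

set_option autoImplicit false

/-!
# Noncyclic 2-groups with a cyclic subgroup of index two
-/

namespace Pool.Agent.Zk59.ST

open Classical

variable {G : Type} [Group G]

/-- The number theory behind the generalized quaternion case. -/
theorem nt3 (q : ℕ) (hq : ∃ l, q = 2 ^ l) (s k : ℤ) (hs : ¬ (2 : ℤ) ∣ s) (hk : (2 : ℤ) ∣ k)
    (h1 : (4 * q : ℤ) ∣ k * (s - 1)) : (∃ i : ℤ, (4 * q : ℤ) ∣ i * (1 + s) + k) ∨ (2 * q : ℤ) ∣ k := by
  obtain ⟨l, hl⟩ := hq
  have hcop : ∀ w : ℤ, IsCoprime (2 * w + 1) (2 * q : ℤ) := by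
    intro w
    have h2 : (2 * q : ℤ) = 2 ^ (l + 1) := by rw [hl]; push_cast; ring
    rw [h2]
    apply IsCoprime.pow_right
    exact ⟨1, -w, by ring⟩
  rcases odd_of s hs with h4 | h4
  · left
    obtain ⟨w, hw⟩ : ∃ w, 1 + s = 2 * (2 * w + 1) := ⟨(s - 1) / 4, by omega⟩
    obtain ⟨u, v, huv⟩ := hcop w
    obtain ⟨k', rfl⟩ := hk
    refine ⟨-k' * u, k' * v, ?_⟩
    rw [hw]
    have h5 : u * (2 * w + 1) = 1 - v * (2 * q) := by linarith
    calc -k' * u * (2 * (2 * w + 1)) + 2 * k' = -2 * k' * (u * (2 * w + 1)) + 2 * k' := by ring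
      _ = 4 * q * (k' * v) := by rw [h5]; ring
  · right
    obtain ⟨w, hw⟩ : ∃ w, s - 1 = 2 * (2 * w + 1) := ⟨(s - 3) / 4, by omega⟩
    rw [hw] at h1
    have h5 : (2 * q : ℤ) ∣ k * (2 * w + 1) := by
      obtain ⟨e, he⟩ := h1
      refine ⟨e, ?_⟩
      have : (2 : ℤ) * (k * (2 * w + 1)) = 2 * (2 * q * e) := by linarith
      exact mul_left_cancel₀ (by norm_num) this
    exact (hcop w).symm.dvd_of_dvd_mul_right h5

theorem starter_cyclic_index_two [Finite G] (h : IsPGroup 2 G) (hG : ¬ IsCyclic G) (a : G)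
    (hA : (Subgroup.zpowers a).index = 2) : HasStarter G := by
  have : Fintype G := Fintype.ofFinite G
  have : Fact (Nat.Prime 2) := ⟨Nat.prime_two⟩
  set A := Subgroup.zpowers a with hAdef
  have hAn : A.Normal := Subgroup.normal_of_index_eq_two hA
  have hAm : ∀ g, g ∈ A ↔ ∃ k : ℤ, a ^ k = g := fun g => Subgroup.mem_zpowers_iff
  have haA : a ∈ A := Subgroup.mem_zpowers a
  obtain ⟨m, hm⟩ : ∃ m, orderOf a = 2 ^ m := IsPGroup.iff_orderOf.mp h a
  have hone' : ∀ n : ℤ, a ^ n = 1 ↔ (2 ^ m : ℤ) ∣ n := by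
    intro n
    rw [← orderOf_dvd_iff_zpow_eq_one, hm]
    push_cast
    rfl
  -- all squares are even powers of `a`
  let B : Subgroup G := Subgroup.zpowers (a ^ 2)
  have hB : ∀ g, g ∈ B ↔ ∃ k : ℤ, a ^ (2 * k) = g := by
    intro g
    rw [Subgroup.mem_zpowers_iff]
    constructor
    · rintro ⟨k, rfl⟩
      exact ⟨k, by rw [zpow_mul, zpow_ofNat]⟩
    · rintro ⟨k, rfl⟩
      exact ⟨k, by rw [zpow_mul, zpow_ofNat]⟩
  have heven : ∀ g, g ∉ A → ∀ k : ℤ, a ^ k = g ^ 2 → (2 : ℤ) ∣ k := by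
    intro g hg k hk
    by_contra hodd
    apply hG
    have hcop : IsCoprime k (2 ^ m : ℤ) := by
      apply IsCoprime.pow_right
      obtain ⟨l, hl⟩ : ∃ l, k = 2 * l + 1 := ⟨k / 2, by omega⟩
      exact ⟨1, -l, by rw [hl]; ring⟩
    obtain ⟨u, v, huv⟩ := hcop
    have hag : a ∈ Subgroup.zpowers g := by
      have h1 : a ^ (1 - k * u) = 1 := by
        rw [hone']
        exact ⟨v, by linarith⟩
      have h2 : a ^ (1 - k * u) * a ^ (k * u) = a := by
        rw [← zpow_add]
        have : 1 - k * u + k * u = 1 := by ring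
        rw [this, zpow_one]
      rw [h1, one_mul, zpow_mul, hk] at h2
      rw [← h2]
      exact Subgroup.zpow_mem _ (Subgroup.pow_mem _ (Subgroup.mem_zpowers g) 2) u
    have hAg : A ≤ Subgroup.zpowers g := by rw [hAdef, Subgroup.zpowers_le]; exact hag
    refine ⟨g, fun x => ?_⟩
    by_cases hx : x ∈ A
    · exact hAg hx
    · have h3 : x * g ∈ A := by
        rw [Subgroup.mul_mem_iff_of_index_two hA]
        exact ⟨fun h' => absurd h' hx, fun h' => absurd h' hg⟩
      exact (Subgroup.mul_mem_cancel_right _ (Subgroup.mem_zpowers g)).mp (hAg h3)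
  have hsqB : ∀ g : G, g ^ 2 ∈ B := by
    intro g
    rw [hB]
    by_cases hg : g ∈ A
    · obtain ⟨k, rfl⟩ := (hAm g).mp hg
      exact ⟨k, by rw [mul_comm, zpow_mul, zpow_ofNat]⟩
    · obtain ⟨k, hk⟩ := (hAm _).mp (Subgroup.sq_mem_of_index_two hA g)
      obtain ⟨l, rfl⟩ := heven g hg k hk
      exact ⟨l, hk⟩
  have hFB : ∀ f : G, (∀ K : Subgroup G, K.index = 2 → f ∈ K) → f ∈ B := by
    intro f hf
    by_contra hfB
    obtain ⟨K, hK, _, hfK⟩ := exists_index_two_not_mem B hsqB f hfB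
    exact hfK (hf K hK)
  by_cases hm2 : m ≤ 2
  · apply starter_of_exp_two
    intro f hf
    obtain ⟨k, rfl⟩ := (hB f).mp (hFB f hf)
    have h1 : (a ^ (2 * k)) ^ 2 = a ^ (4 * k) := by
      rw [← zpow_ofNat, ← zpow_mul]; congr 1; ring
    rw [h1, hone']
    have h2 : (2 ^ m : ℤ) ∣ 2 ^ 2 := pow_dvd_pow 2 hm2
    have h3 : (2 ^ 2 : ℤ) = 4 := by norm_num
    rw [h3] at h2
    exact h2.mul_right k
  push Not at hm2
  obtain ⟨q, hq, hmq, hq2⟩ : ∃ q : ℕ, (∃ l, q = 2 ^ l) ∧ (2 ^ m : ℤ) = 4 * q ∧ 2 ≤ q := by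
    refine ⟨2 ^ (m - 2), ⟨m - 2, rfl⟩, ?_, ?_⟩
    · push_cast
      have : m = (m - 2) + 2 := by omega
      conv_lhs => rw [this, pow_add]
      ring
    · calc 2 = 2 ^ 1 := by norm_num
        _ ≤ 2 ^ (m - 2) := Nat.pow_le_pow_right (by norm_num) (by omega)
  rw [hmq] at hone'
  have hq0 : (0 : ℤ) < q := by exact_mod_cast (by omega : 0 < q)
  -- conjugation
  have hs : ∀ g : G, ∃ s : ℤ, g * a * g⁻¹ = a ^ s ∧ ¬ (2 : ℤ) ∣ s := by
    intro g
    obtain ⟨s, hs⟩ := (hAm _).mp (hAn.conj_mem a haA g)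
    refine ⟨s, hs.symm, ?_⟩
    rintro ⟨t, rfl⟩
    have h1 : g * a ^ (2 * q : ℤ) * g⁻¹ = 1 := by
      rw [← conj_zpow, ← hs, ← zpow_mul, hone']
      exact ⟨t, by ring⟩
    have h2 : a ^ (2 * q : ℤ) = 1 := by
      have h3 : a ^ (2 * q : ℤ) = g⁻¹ * (g * a ^ (2 * q : ℤ) * g⁻¹) * g := by group
      rw [h3, h1]; group
    rw [hone'] at h2
    have := Int.le_of_dvd (by positivity) h2
    linarith
  let z : G := a ^ (2 * q : ℤ)
  have hz2 : z * z = 1 := by
    simp only [z]
    rw [← zpow_add, hone']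
    exact ⟨1, by ring⟩
  have hz1 : z ≠ 1 := by
    intro h'
    have h2 := (hone' _).mp h'
    have := Int.le_of_dvd (by positivity) h2
    linarith
  have hzc : ∀ g : G, g * z * g⁻¹ = z := by
    intro g
    obtain ⟨s, hs1, hs2⟩ := hs g
    simp only [z]
    rw [← conj_zpow, hs1, ← zpow_mul, ← mul_inv_eq_one, ← zpow_neg, ← zpow_add, hone']
    obtain ⟨w, hw⟩ : ∃ w, s = 2 * w + 1 := ⟨s / 2, by omega⟩
    exact ⟨w, by rw [hw]; ring⟩
  have hzc' : ∀ g : G, g * z = z * g := fun g => mul_inv_eq_iff_eq_mul.mp (hzc g)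
  have hzA : z ∈ A := (hAm z).mpr ⟨_, rfl⟩
  -- the element `b`
  obtain ⟨b, hbA, hb⟩ : ∃ b : G, b ∉ A ∧ (b ^ 2 = 1 ∨ (b ^ 2 = z ∧ ∀ g, g ∉ A → g ^ 2 ≠ 1)) := by
    by_cases hex : ∃ b : G, b ∉ A ∧ b ^ 2 = 1
    · obtain ⟨b, hb1, hb2⟩ := hex
      exact ⟨b, hb1, Or.inl hb2⟩
    push Not at hex
    obtain ⟨b, hbA⟩ : ∃ b : G, b ∉ A := by
      by_contra h'
      push Not at h'
      have : A = ⊤ := by ext x; simp [h' x]
      rw [this, Subgroup.index_top] at hA
      omega
    refine ⟨b, hbA, Or.inr ⟨?_, hex⟩⟩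
    obtain ⟨k, hk⟩ := (hAm _).mp (Subgroup.sq_mem_of_index_two hA b)
    have hk2 := heven b hbA k hk
    obtain ⟨s, hs1, hs2⟩ := hs b
    have h1 : (4 * q : ℤ) ∣ k * (s - 1) := by
      rw [← hone']
      have h2 : b * a ^ k * b⁻¹ = a ^ k := by rw [hk]; group
      rw [← conj_zpow, hs1, ← zpow_mul] at h2
      have h3 : a ^ (k * (s - 1)) = a ^ (s * k) * (a ^ k)⁻¹ := by
        rw [← zpow_neg, ← zpow_add]; congr 1; ring
      rw [h3, h2, mul_inv_cancel]
    rcases nt3 q hq s k hs2 hk2 h1 with ⟨i, hi⟩ | h2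
    · exfalso
      apply hex (a ^ i * b)
      · intro h'
        exact hbA ((A.mul_mem_cancel_left ((hAm _).mpr ⟨i, rfl⟩)).mp h')
      · have h3 : (a ^ i * b) ^ 2 = a ^ i * (b * a ^ i * b⁻¹) * b ^ 2 := by simp only [sq]; group
        rw [h3, ← conj_zpow, hs1, ← zpow_mul, ← hk, ← zpow_add, ← zpow_add, hone']
        have : i + s * i + k = i * (1 + s) + k := by ring
        rw [this]; exact hi
    · obtain ⟨t, rfl⟩ := h2
      rw [← hk]
      rcases Int.emod_two_eq_zero_or_one t with h0 | h0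
      · exfalso
        apply hex b hbA
        rw [← hk, hone']
        obtain ⟨t', rfl⟩ : ∃ t', t = 2 * t' := ⟨t / 2, by omega⟩
        exact ⟨t', by ring⟩
      · simp only [z]
        rw [← mul_inv_eq_one, ← zpow_neg, ← zpow_add, hone']
        obtain ⟨t', rfl⟩ : ∃ t', t = 2 * t' + 1 := ⟨t / 2, by omega⟩
        exact ⟨t', by ring⟩
  -- the subgroup `H = {1, z, b, b z}`
  let P : Subgroup G := kleinSub z 1 (by rw [sq]; exact hz2) (one_pow 2) (by simp)
  have hP : ∀ g, g ∈ P ↔ g = 1 ∨ g = z := by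
    intro g
    rw [mem_kleinSub]
    simp only [one_mul]
    tauto
  have hb2P : b ^ 2 ∈ P := by
    rw [hP]
    rcases hb with h' | h'
    · exact Or.inl h'
    · exact Or.inr h'.1
  have hPb : ∀ p ∈ P, b⁻¹ * p * b ∈ P := by
    intro p hp
    rw [hP] at hp ⊢
    rcases hp with rfl | rfl
    · left; group
    · right
      have := hzc b⁻¹
      rw [inv_inv] at this; exact this
  let H : Subgroup G := addSq P b hb2P hPb
  have hH : ∀ g, g ∈ H ↔ g ∈ P ∨ b⁻¹ * g ∈ P := fun g => Iff.rfl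
  have hPH : P ≤ H := fun g hg => Or.inl hg
  have hbH : b ∈ H := Or.inr (by rw [inv_mul_cancel]; exact P.one_mem)
  have hPA : P ≤ A := by
    intro g hg
    rcases (hP g).mp hg with rfl | rfl
    · exact A.one_mem
    · exact hzA
  have hHA : ∀ g ∈ A, g ∈ H → g ∈ P := by
    intro g hgA hgH
    rcases (hH g).mp hgH with h' | h'
    · exact h'
    · exfalso
      apply hbA
      have h1 := hPA h'
      exact inv_mem_iff.mp ((A.mul_mem_cancel_right hgA).mp h1)
  -- the points
  have hpt : ∀ i j : ℤ, ((a ^ i : G) : G ⧸ H) = ((a ^ j : G) : G ⧸ H) ↔ (2 * q : ℤ) ∣ j - i := by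
    intro i j
    rw [QuotientGroup.eq]
    have h1 : (a ^ i)⁻¹ * a ^ j = a ^ (j - i) := by rw [← zpow_neg, ← zpow_add]; congr 1; ring
    rw [h1]
    constructor
    · intro h'
      have h2 := (hP _).mp (hHA _ ((hAm _).mpr ⟨_, rfl⟩) h')
      rcases h2 with h2 | h2
      · rw [hone'] at h2
        exact Dvd.dvd.trans ⟨2, by ring⟩ h2
      · simp only [z] at h2
        rw [← mul_inv_eq_one, ← zpow_neg, ← zpow_add, hone'] at h2
        have h3 : (2 * q : ℤ) ∣ j - i + -(2 * q) := Dvd.dvd.trans ⟨2, by ring⟩ h2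
        have h4 := dvd_add h3 (dvd_refl (2 * q : ℤ))
        have h5 : j - i + -(2 * (q : ℤ)) + 2 * q = j - i := by ring
        rwa [h5] at h4
    · rintro ⟨t, ht⟩
      apply hPH
      rw [hP, ht]
      rcases Int.emod_two_eq_zero_or_one t with h0 | h0
      · left
        rw [hone']
        obtain ⟨t', rfl⟩ : ∃ t', t = 2 * t' := ⟨t / 2, by omega⟩
        exact ⟨t', by ring⟩
      · right
        simp only [z]
        rw [← mul_inv_eq_one, ← zpow_neg, ← zpow_add, hone']
        obtain ⟨t', rfl⟩ : ∃ t', t = 2 * t' + 1 := ⟨t / 2, by omega⟩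
        exact ⟨t', by ring⟩
  have hcovpt : ∀ x : G ⧸ H, ∃ i : ℤ, x = ((a ^ i : G) : G ⧸ H) := by
    intro x
    induction x using QuotientGroup.induction_on with
    | H g =>
      by_cases hg : g ∈ A
      · obtain ⟨i, rfl⟩ := (hAm g).mp hg
        exact ⟨i, rfl⟩
      · have h1 : g * b ∈ A := by
          rw [Subgroup.mul_mem_iff_of_index_two hA]
          exact ⟨fun h' => absurd h' hg, fun h' => absurd h' hbA⟩
        obtain ⟨i, hi⟩ := (hAm _).mp h1
        refine ⟨i, ?_⟩
        rw [hi, QuotientGroup.eq]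
        have : g⁻¹ * (g * b) = b := by group
        rw [this]; exact hbH
  have : Fintype (G ⧸ H) := Fintype.ofFinite _
  have hmod : ∀ k : ℤ, ∃ r t : ℤ, k = r + 2 * q * t ∧ 0 ≤ r ∧ r < 2 * q := by
    intro k
    refine ⟨k % (2 * q), k / (2 * q), (Int.emod_add_mul_ediv k (2 * q)).symm, Int.emod_nonneg _ (by positivity),
      Int.emod_lt_of_pos _ (by positivity)⟩
  have hpt0 : ∀ i j : ℤ, -(2 * (q : ℤ)) < j - i → j - i < 2 * q →
      ((a ^ i : G) : G ⧸ H) = ((a ^ j : G) : G ⧸ H) → i = j := by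
    intro i j h1 h2 h3
    rw [hpt] at h3
    obtain ⟨t, ht⟩ := h3
    have h4 : t = 0 := by
      by_contra hne
      rcases lt_or_gt_of_ne hne with h' | h'
      · have : 2 * (q : ℤ) * t ≤ 2 * q * (-1) := by
          apply mul_le_mul_of_nonneg_left (by omega) (by positivity)
        linarith
      · have : 2 * (q : ℤ) * 1 ≤ 2 * q * t := by
          apply mul_le_mul_of_nonneg_left (by omega) (by positivity)
        linarith
    rw [h4] at ht
    linarith
  have hpw0 : ∀ i j : ℤ, -(2 * (q : ℤ)) < j - i → j - i < 2 * q → a ^ (2 * i) = a ^ (2 * j) → i = j := by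
    intro i j h1 h2 h3
    have h4 : a ^ (2 * j - 2 * i) = 1 := by
      rw [sub_eq_add_neg, zpow_add, ← h3, ← zpow_add]; simp
    rw [hone'] at h4
    obtain ⟨t, ht⟩ := h4
    have h5 : j - i = 2 * q * t := by linarith
    have h4 : t = 0 := by
      by_contra hne
      rcases lt_or_gt_of_ne hne with h' | h'
      · have : 2 * (q : ℤ) * t ≤ 2 * q * (-1) := by
          apply mul_le_mul_of_nonneg_left (by omega) (by positivity)
        linarith
      · have : 2 * (q : ℤ) * 1 ≤ 2 * q * t := by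
          apply mul_le_mul_of_nonneg_left (by omega) (by positivity)
        linarith
    rw [h4] at h5
    linarith
  have hcovF : ∀ f : G, f ^ 2 ≠ 1 → (∀ K : Subgroup G, K.index = 2 → f ∈ K) →
      ∃ i : ℕ, 1 ≤ i ∧ i < q ∧ (f = a ^ (2 * (i : ℤ)) ∨ f⁻¹ = a ^ (2 * (i : ℤ))) := by
    intro f hf2 hfK
    obtain ⟨k, rfl⟩ := (hB f).mp (hFB f hfK)
    obtain ⟨r, t, hk, hr0, hr1⟩ := hmod k
    have hrq : r ≠ 0 ∧ r ≠ q := by
      constructor
      · rintro rfl
        apply hf2
        rw [← zpow_ofNat, ← zpow_mul, hone', hk]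
        exact ⟨2 * t, by push_cast; ring⟩
      · intro hrq
        apply hf2
        rw [← zpow_ofNat, ← zpow_mul, hone', hk, hrq]
        exact ⟨1 + 2 * t, by push_cast; ring⟩
    by_cases hrq' : r < q
    · refine ⟨r.toNat, by omega, by omega, Or.inl ?_⟩
      rw [Int.toNat_of_nonneg hr0, ← mul_inv_eq_one, ← zpow_neg, ← zpow_add, hone', hk]
      exact ⟨t, by ring⟩
    · refine ⟨(2 * q - r).toNat, by omega, by omega, Or.inr ?_⟩
      rw [Int.toNat_of_nonneg (by omega), ← zpow_neg, ← mul_inv_eq_one, ← zpow_neg, ← zpow_add, hone', hk]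
      exact ⟨-t - 1, by ring⟩
  have hbAk : ∀ k : ℤ, b ≠ a ^ k := fun k h' => hbA (h' ▸ (hAm _).mpr ⟨k, rfl⟩)
  rcases hb with hb1 | ⟨hb1, hno⟩
  · -- there is an involution outside `A`
    let lab : Fin (q + 1) → G := fun i => if i.1 = 0 then b else a ^ (2 * (i.1 : ℤ))
    have hlab0 : ∀ i : Fin (q + 1), i.1 = 0 → lab i = b := fun i hi => if_pos hi
    have hlab1 : ∀ i : Fin (q + 1), i.1 ≠ 0 → lab i = a ^ (2 * (i.1 : ℤ)) := fun i hi => if_neg hi
    let pp : Fin (q + 1) → G ⧸ H := fun i => ((a ^ (-(i.1 : ℤ)) : G) : G ⧸ H)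
    have hsm : ∀ i, lab i • pp i = ((a ^ (i.1 : ℤ) : G) : G ⧸ H) := by
      intro i
      by_cases hi : i.1 = 0
      · rw [hlab0 i hi]
        show ((b * a ^ (-(i.1 : ℤ)) : G) : G ⧸ H) = ((a ^ (i.1 : ℤ) : G) : G ⧸ H)
        rw [hi]
        simp only [Nat.cast_zero, neg_zero, zpow_zero, mul_one]
        rw [QuotientGroup.eq, mul_one]
        exact H.inv_mem hbH
      · rw [hlab1 i hi]
        show ((a ^ (2 * (i.1 : ℤ)) * a ^ (-(i.1 : ℤ)) : G) : G ⧸ H) = ((a ^ (i.1 : ℤ) : G) : G ⧸ H)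
        rw [← zpow_add]
        congr 2; ring
    have hinj : ∀ i j, (lab i = lab j → i = j) := by
      intro i j hij
      have h1 := i.2
      have h2 := j.2
      by_cases hi : i.1 = 0 <;> by_cases hj : j.1 = 0
      · exact Fin.ext (by omega)
      · rw [hlab0 i hi, hlab1 j hj] at hij
        exact absurd hij (hbAk _)
      · rw [hlab1 i hi, hlab0 j hj] at hij
        exact absurd hij.symm (hbAk _)
      · rw [hlab1 i hi, hlab1 j hj] at hij
        have := hpw0 _ _ (by omega) (by omega) hij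
        exact Fin.ext (by omega)
    have hPB := PB_of_index H lab pp Finset.univ (fun i j => hinj i j)
      (fun i => ⟨Finset.mem_univ _, Finset.mem_univ _⟩)
      (by
        intro x _
        obtain ⟨k, rfl⟩ := hcovpt x
        obtain ⟨r, t, hk, hr0, hr1⟩ := hmod k
        by_cases hrq : r ≤ q
        · refine ⟨⟨r.toNat, by omega⟩, Or.inr ?_⟩
          rw [hsm]
          simp only [Int.toNat_of_nonneg hr0]
          rw [hpt, hk]
          exact ⟨-t, by ring⟩
        · refine ⟨⟨(2 * q - r).toNat, by omega⟩, Or.inl ?_⟩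
          simp only [pp]
          rw [Int.toNat_of_nonneg (by omega), hpt, hk]
          exact ⟨-t - 1, by ring⟩)
      (by
        intro i j hij
        have h1 := i.2
        have h2 := j.2
        have hne : i.1 ≠ j.1 := fun h' => hij (Fin.ext h')
        rw [hsm, hsm]
        refine ⟨?_, ?_, ?_⟩
        · intro h'
          have := hpt0 _ _ (by omega) (by omega) h'
          omega
        · intro h'
          have := hpt0 _ _ (by omega) (by omega) h'
          omega
        · intro h'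
          have := hpt0 _ _ (by omega) (by omega) h'
          omega)
      (by
        intro i hi2 h'
        rw [hsm] at h'
        have h1 := i.2
        simp only [pp] at h'
        rw [hpt] at h'
        obtain ⟨t, ht⟩ := h'
        have h3 : -(i.1 : ℤ) = q * t := by linarith
        apply hi2
        by_cases hi : i.1 = 0
        · rw [hlab0 i hi]; exact hb1
        · rw [hlab1 i hi, ← zpow_ofNat, ← zpow_mul, hone']
          exact ⟨-t, by
            have : (i.1 : ℤ) = -(q * t) := by linarith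
            rw [this]; push_cast; ring⟩)
      (by
        intro i hi2
        rw [hsm]
        show _ = ((a ^ (-(i.1 : ℤ)) : G) : G ⧸ H)
        by_cases hi : i.1 = 0
        · rw [hi]; simp
        · rw [hlab1 i hi, ← zpow_ofNat, ← zpow_mul, hone'] at hi2
          obtain ⟨t, ht⟩ := hi2
          rw [hpt]
          push_cast at ht
          refine ⟨-t, ?_⟩
          linarith)
    refine of_special (β := Unit) (fun _ => H) (fun _ => Finset.univ.image lab)
      (fun _ => hPB.hasBlock (fun _ => Finset.mem_univ _)) ?_ ?_ ?_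
    · intro _ d hd
      obtain ⟨i, _, rfl⟩ := Finset.mem_image.mp hd
      have h1 := i.2
      by_cases hi : i.1 = 0
      · rw [hlab0 i hi]
        intro h'
        exact hbA (h' ▸ A.one_mem)
      · rw [hlab1 i hi]
        intro h'
        have := hpw0 0 (i.1 : ℤ) (by omega) (by omega) (by rw [h']; simp)
        omega
    · intro _ _ d d' hd hd' hdd
      obtain ⟨i, _, rfl⟩ := Finset.mem_image.mp hd
      obtain ⟨j, _, rfl⟩ := Finset.mem_image.mp hd'
      have h1 := i.2
      have h2 := j.2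
      refine ⟨rfl, ?_⟩
      rcases hdd with h' | h'
      · exact h'
      · by_cases hi : i.1 = 0 <;> by_cases hj : j.1 = 0
        · rw [hlab0 i hi, hlab0 j hj]
        · exfalso
          rw [hlab0 i hi, hlab1 j hj] at h'
          apply hbAk (-(2 * (j.1 : ℤ)))
          rw [zpow_neg, h', inv_inv]
        · exfalso
          rw [hlab1 i hi, hlab0 j hj, ← zpow_neg] at h'
          exact hbAk _ h'
        · rw [hlab1 i hi, hlab1 j hj, ← zpow_neg, ← mul_neg] at h'
          have h3 := hpw0 (j.1 : ℤ) (-(i.1 : ℤ) + 2 * q)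
          have h4 : a ^ (2 * (-(i.1 : ℤ) + 2 * q)) = a ^ (2 * -(i.1 : ℤ)) := by
            rw [← mul_inv_eq_one, ← zpow_neg, ← zpow_add, hone']
            exact ⟨1, by ring⟩
          have h5 := h3 (by omega) (by omega) (by rw [h4]; exact h')
          rw [hlab1 i hi, hlab1 j hj]
          congr 2
          omega
    · intro f hf2 hfK
      obtain ⟨i, hi1, hi2, hi3⟩ := hcovF f hf2 hfK
      refine ⟨(), ?_⟩
      have hmem : a ^ (2 * (i : ℤ)) ∈ Finset.univ.image lab := by
        rw [Finset.mem_image]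
        exact ⟨⟨i, by omega⟩, Finset.mem_univ _, hlab1 _ (by simp only; omega)⟩
      rcases hi3 with h' | h' <;> rw [h']
      · exact Or.inl hmem
      · exact Or.inr hmem
  · -- there is no involution outside `A`
    have hqbA : a ^ (q : ℤ) * b ∉ A := by
      intro h'
      exact hbA ((A.mul_mem_cancel_left ((hAm _).mpr ⟨_, rfl⟩)).mp h')
    have hqbk : ∀ k : ℤ, a ^ (q : ℤ) * b ≠ a ^ k := fun k h' => hqbA (h' ▸ (hAm _).mpr ⟨k, rfl⟩)
    let lab : Fin q → G := fun i => if i.1 = 0 then a ^ (q : ℤ) * b else a ^ (2 * (i.1 : ℤ))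
    have hlab0 : ∀ i : Fin q, i.1 = 0 → lab i = a ^ (q : ℤ) * b := fun i hi => if_pos hi
    have hlab1 : ∀ i : Fin q, i.1 ≠ 0 → lab i = a ^ (2 * (i.1 : ℤ)) := fun i hi => if_neg hi
    let pp : Fin q → G ⧸ H := fun i => ((a ^ (-(i.1 : ℤ)) : G) : G ⧸ H)
    let ee : Fin q → ℤ := fun i => if i.1 = 0 then q else i.1
    have hee : ∀ i : Fin q, 0 < ee i ∧ ee i ≤ q ∧ ((i.1 = 0 ∧ ee i = q) ∨ (i.1 ≠ 0 ∧ ee i = i.1)) := by
      intro i
      have h1 := i.2
      by_cases hi : i.1 = 0
      · have : ee i = q := if_pos hi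
        omega
      · have : ee i = i.1 := if_neg hi
        omega
    have hsm : ∀ i, lab i • pp i = ((a ^ (ee i) : G) : G ⧸ H) := by
      intro i
      rcases (hee i).2.2 with ⟨hi, he⟩ | ⟨hi, he⟩
      · rw [hlab0 i hi, he]
        show ((a ^ (q : ℤ) * b * a ^ (-(i.1 : ℤ)) : G) : G ⧸ H) = ((a ^ (q : ℤ) : G) : G ⧸ H)
        rw [hi]
        simp only [Nat.cast_zero, neg_zero, zpow_zero, mul_one]
        rw [QuotientGroup.eq]
        have : (a ^ (q : ℤ) * b)⁻¹ * a ^ (q : ℤ) = b⁻¹ := by group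
        rw [this]
        exact H.inv_mem hbH
      · rw [hlab1 i hi, he]
        show ((a ^ (2 * (i.1 : ℤ)) * a ^ (-(i.1 : ℤ)) : G) : G ⧸ H) = ((a ^ (i.1 : ℤ) : G) : G ⧸ H)
        rw [← zpow_add]
        congr 2; ring
    have hinj : ∀ i j, (lab i = lab j → i = j) := by
      intro i j hij
      have h1 := i.2
      have h2 := j.2
      by_cases hi : i.1 = 0 <;> by_cases hj : j.1 = 0
      · exact Fin.ext (by omega)
      · rw [hlab0 i hi, hlab1 j hj] at hij
        exact absurd hij (hqbk _)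
      · rw [hlab1 i hi, hlab0 j hj] at hij
        exact absurd hij.symm (hqbk _)
      · rw [hlab1 i hi, hlab1 j hj] at hij
        have := hpw0 _ _ (by omega) (by omega) hij
        exact Fin.ext (by omega)
    have hPB := PB_of_index H lab pp Finset.univ (fun i j => hinj i j)
      (fun i => ⟨Finset.mem_univ _, Finset.mem_univ _⟩)
      (by
        intro x _
        obtain ⟨k, rfl⟩ := hcovpt x
        obtain ⟨r, t, hk, hr0, hr1⟩ := hmod k
        by_cases hr : r = 0
        · refine ⟨⟨0, by omega⟩, Or.inl ?_⟩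
          simp only [pp]
          rw [hpt, hk, hr]
          exact ⟨-t, by push_cast; ring⟩
        · by_cases hrq : r < q
          · refine ⟨⟨r.toNat, by omega⟩, Or.inr ?_⟩
            have h1 : ee ⟨r.toNat, by omega⟩ = r := by
              rcases (hee ⟨r.toNat, by omega⟩).2.2 with ⟨h', _⟩ | ⟨_, h'⟩
              · simp only at h'; omega
              · rw [h', Int.toNat_of_nonneg hr0]
            rw [hsm, h1, hpt, hk]
            exact ⟨-t, by ring⟩
          · by_cases hrq2 : r = q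
            · refine ⟨⟨0, by omega⟩, Or.inr ?_⟩
              have h1 : ee ⟨0, by omega⟩ = q := by
                rcases (hee ⟨0, by omega⟩).2.2 with ⟨_, h'⟩ | ⟨h', _⟩
                · exact h'
                · exact absurd rfl h'
              rw [hsm, h1, hpt, hk, hrq2]
              exact ⟨-t, by ring⟩
            · refine ⟨⟨(2 * q - r).toNat, by omega⟩, Or.inl ?_⟩
              simp only [pp]
              rw [Int.toNat_of_nonneg (by omega), hpt, hk]
              exact ⟨-t - 1, by ring⟩)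
      (by
        intro i j hij
        have h1 := i.2
        have h2 := j.2
        have hne : i.1 ≠ j.1 := fun h' => hij (Fin.ext h')
        have h3 := hee i
        have h4 := hee j
        rw [hsm, hsm]
        refine ⟨?_, ?_, ?_⟩
        · intro h'
          have := hpt0 _ _ (by omega) (by omega) h'
          omega
        · intro h'
          have := hpt0 _ _ (by omega) (by omega) h'
          omega
        · intro h'
          have := hpt0 _ _ (by omega) (by omega) h'
          omega)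
      (by
        intro i hi2 h'
        rw [hsm] at h'
        have h1 := i.2
        have h3 := hee i
        have := hpt0 _ _ (by omega) (by omega) h'
        omega)
      (by
        intro i hi2
        exfalso
        have h1 := i.2
        by_cases hi : i.1 = 0
        · rw [hlab0 i hi] at hi2
          exact hno _ hqbA hi2
        · rw [hlab1 i hi, ← zpow_ofNat, ← zpow_mul] at hi2
          have h3 := hpw0 0 (i.1 * 2 : ℤ) (by omega) (by omega) (by
            rw [mul_zero, zpow_zero, ← hi2]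
            congr 1; push_cast; ring)
          omega)
    refine of_special (β := Unit) (fun _ => H) (fun _ => Finset.univ.image lab)
      (fun _ => hPB.hasBlock (fun _ => Finset.mem_univ _)) ?_ ?_ ?_
    · intro _ d hd
      obtain ⟨i, _, rfl⟩ := Finset.mem_image.mp hd
      have h1 := i.2
      by_cases hi : i.1 = 0
      · rw [hlab0 i hi]
        intro h'
        exact hqbA (h' ▸ A.one_mem)
      · rw [hlab1 i hi]
        intro h'
        have := hpw0 0 (i.1 : ℤ) (by omega) (by omega) (by rw [h']; simp)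
        omega
    · intro _ _ d d' hd hd' hdd
      obtain ⟨i, _, rfl⟩ := Finset.mem_image.mp hd
      obtain ⟨j, _, rfl⟩ := Finset.mem_image.mp hd'
      have h1 := i.2
      have h2 := j.2
      refine ⟨rfl, ?_⟩
      rcases hdd with h' | h'
      · exact h'
      · by_cases hi : i.1 = 0 <;> by_cases hj : j.1 = 0
        · rw [hlab0 i hi, hlab0 j hj]
        · exfalso
          rw [hlab0 i hi, hlab1 j hj] at h'
          apply hqbk (-(2 * (j.1 : ℤ)))
          rw [zpow_neg, h', inv_inv]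
        · exfalso
          rw [hlab1 i hi, hlab0 j hj, ← zpow_neg] at h'
          exact hqbk _ h'
        · rw [hlab1 i hi, hlab1 j hj, ← zpow_neg, ← mul_neg] at h'
          have h3 := hpw0 (j.1 : ℤ) (-(i.1 : ℤ) + 2 * q)
          have h4 : a ^ (2 * (-(i.1 : ℤ) + 2 * q)) = a ^ (2 * -(i.1 : ℤ)) := by
            rw [← mul_inv_eq_one, ← zpow_neg, ← zpow_add, hone']
            exact ⟨1, by ring⟩
          have h5 := h3 (by omega) (by omega) (by rw [h4]; exact h')
          omega
    · intro f hf2 hfK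
      obtain ⟨i, hi1, hi2, hi3⟩ := hcovF f hf2 hfK
      refine ⟨(), ?_⟩
      have hmem : a ^ (2 * (i : ℤ)) ∈ Finset.univ.image lab := by
        rw [Finset.mem_image]
        exact ⟨⟨i, by omega⟩, Finset.mem_univ _, hlab1 _ (by simp only; omega)⟩
      rcases hi3 with h' | h' <;> rw [h']
      · exact Or.inl hmem
      · exact Or.inr hmem

end Pool.Agent.Zk59.ST
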