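import Mathlib

set_option autoImplicit false

/-!
# Starters in finite groups of even order: definitions

The group is written multiplicatively.  An edge `[x, y]` of the complete graph on `G` is given by an ordered
pair `(x, y)` with `x ≠ y`; the group acts by right multiplication.
-/

namespace Pool.Agent.Zk59.ST

/-- The edge `[x, y]` is short: the element `j = x⁻¹ y` with `x j = y` satisfies `j ^ 2 = 1`, so that (for `x ≠ y`)
`j` is the involution that fixes the edge. -/
def IsShort {G : Type} [Group G] (e : G × G) : Prop := (e.1⁻¹ * e.2) ^ 2 = 1

open Classical in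
/-- The multiset `∂ [x, y]`: `{x y⁻¹, y x⁻¹}` for a long edge and `{x y⁻¹}` for a short one. -/
noncomputable def bd {G : Type} [Group G] (e : G × G) : Multiset G :=
  if IsShort e then {e.1 * e.2⁻¹} else {e.1 * e.2⁻¹, e.2 * e.1⁻¹}

open Classical in
/-- The multiset `φ [x, y]`: `{x, y}` for a long edge and `{x}` for a short one. -/
noncomputable def ph {G : Type} [Group G] (e : G × G) : Multiset G :=
  if IsShort e then {e.1} else {e.1, e.2}

open Classical in
/-- The multiset `A` is a left transversal of `H`: every left coset `g H` contains exactly one element of `A`. -/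
def IsLeftTransversal {G : Type} [Group G] (A : Multiset G) (H : Subgroup G) : Prop :=
  ∀ g : G, A.countP (fun y => ∃ h ∈ H, y = g * h) = 1

open Classical in
/-- `G` admits a starter: a finite family of finite sets `S i` of edges such that every element `≠ 1` of `G` occurs
exactly once (and `1` does not occur) in the multiset union of the `∂ e`, `e ∈ S i`, and for every `i` the multiset
union of the `φ e`, `e ∈ S i`, is a left transversal of a subgroup `H` that contains all involutions fixing a
short edge of `S i`. -/
def HasStarter (G : Type) [Group G] : Prop :=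
  ∃ (k : ℕ) (S : Fin k → Finset (G × G)),
    (∀ i, ∀ e ∈ S i, e.1 ≠ e.2) ∧
    (∀ g : G, (∑ i, ∑ e ∈ S i, bd e).count g = if g = 1 then 0 else 1) ∧
    ∀ i, ∃ H : Subgroup G, (∀ e ∈ S i, IsShort e → e.1⁻¹ * e.2 ∈ H) ∧ IsLeftTransversal (∑ e ∈ S i, ph e) H

end Pool.Agent.Zk59.ST
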