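import Pool.Agent.Zk59.ST.Cyc

set_option autoImplicit false

/-!
# A finite 2-group without a normal Klein four-group has a cyclic subgroup of index at most two (main step)
-/

namespace Pool.Agent.Zk59.ST

open Classical

variable {G : Type} [Group G]

theorem odd_of (s : ℤ) (h : ¬ (2 : ℤ) ∣ s) : s % 4 = 1 ∨ s % 4 = 3 := by omega

theorem exists_klein [Finite G] (h : IsPGroup 2 G) (hcyc : ∀ x : G, 2 < (Subgroup.zpowers x).index) :
    ∃ V : Subgroup G, V.Normal ∧ Nat.card V = 4 ∧ ∀ v ∈ V, v ^ 2 = 1 := by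
  obtain ⟨A, hAn, hAc, hAC⟩ := exists_max_abelian h
  -- the elements of square one in `A`
  let Ω : Subgroup G :=
    { carrier := {a | a ∈ A ∧ a ^ 2 = 1}
      one_mem' := ⟨A.one_mem, one_pow 2⟩
      mul_mem' := by
        rintro a b ⟨ha, ha2⟩ ⟨hb, hb2⟩
        refine ⟨A.mul_mem ha hb, ?_⟩
        have : Commute a b := hAc a ha b hb
        rw [this.mul_pow, ha2, hb2, one_mul]
      inv_mem' := by
        rintro a ⟨ha, ha2⟩
        exact ⟨A.inv_mem ha, by rw [inv_pow, ha2, inv_one]⟩ }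
  have hΩ : ∀ a, a ∈ Ω ↔ a ∈ A ∧ a ^ 2 = 1 := fun a => Iff.rfl
  have hΩn : Ω.Normal := by
    constructor
    intro n hn g
    rw [hΩ] at hn ⊢
    refine ⟨hAn.conj_mem n hn.1 g, ?_⟩
    have : (g * n * g⁻¹) ^ 2 = g * n ^ 2 * g⁻¹ := by simp only [sq]; group
    rw [this, hn.2]; group
  by_cases hΩc : 3 ≤ Nat.card Ω
  · exact klein_of_normal h Ω (fun n hn => ((hΩ n).mp hn).2) hΩc
  have hΩc' : Nat.card Ω ≤ 2 := by omega
  -- `A` is cyclic
  let iA : CommGroup A := { (inferInstance : Group A) with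
    mul_comm := fun a b => Subtype.ext (hAc a a.2 b b.2) }
  have hcycA : IsCyclic A := by
    apply isCyclic_of_two (h.to_subgroup A)
    refine le_trans (le_of_eq ?_) hΩc'
    apply Nat.card_congr
    refine ⟨fun a => ⟨(a : A), (a : A).2, ?_⟩, fun a => ⟨⟨(a : G), a.2.1⟩, ?_⟩, ?_, ?_⟩
    · have := congrArg (fun x : A => (x : G)) a.2
      exact this
    · exact Subtype.ext a.2.2
    · intro a; rfl
    · intro a; rfl
  obtain ⟨⟨a, haA⟩, ha⟩ := hcycA.exists_generator
  have hAz : ∀ b, b ∈ A ↔ ∃ k : ℤ, a ^ k = b := by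
    intro b
    constructor
    · intro hb
      obtain ⟨k, hk⟩ := Subgroup.mem_zpowers_iff.mp (ha ⟨b, hb⟩)
      refine ⟨k, ?_⟩
      have := congrArg (fun x : A => (x : G)) hk
      exact this
    · rintro ⟨k, rfl⟩
      exact A.zpow_mem haA k
  have hAzp : A = Subgroup.zpowers a := by
    ext b
    rw [hAz, Subgroup.mem_zpowers_iff]
  have hAC' : ∀ x, x * a = a * x → x ∈ A := by
    intro x hx
    apply hAC
    intro b hb
    obtain ⟨k, rfl⟩ := (hAz b).mp hb
    have : Commute x a := hx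
    exact (this.zpow_right k).eq
  obtain ⟨m, hm⟩ : ∃ m, orderOf a = 2 ^ m := by
    have : Fact (Nat.Prime 2) := ⟨Nat.prime_two⟩
    exact IsPGroup.iff_orderOf.mp h a
  have hone : ∀ n : ℤ, a ^ n = 1 ↔ (2 ^ m : ℤ) ∣ n := by
    intro n
    rw [← orderOf_dvd_iff_zpow_eq_one, hm]
    push_cast
    rfl
  have heq : ∀ n n' : ℤ, a ^ n = a ^ n' ↔ (2 ^ m : ℤ) ∣ n - n' := by
    intro n n'
    rw [← hone, zpow_sub, mul_inv_eq_one]
  -- conjugation exponents
  have hs : ∀ g : G, ∃ s : ℤ, g * a * g⁻¹ = a ^ s := by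
    intro g
    obtain ⟨k, hk⟩ := (hAz _).mp (hAn.conj_mem a haA g)
    exact ⟨k, hk.symm⟩
  choose s hs using hs
  have hsz : ∀ (g : G) (n : ℤ), g * a ^ n * g⁻¹ = a ^ (s g * n) := by
    intro g n
    rw [← conj_zpow, hs g, ← zpow_mul]
  -- the order of `a` is at least four
  have hm2 : 2 ≤ m := by
    by_contra hm2
    have ha2 : ∀ n : ℤ, a ^ n = 1 ∨ a ^ n = a := by
      intro n
      have h2m : (2 ^ m : ℤ) ∣ 2 := by
        have : m = 0 ∨ m = 1 := by omega
        rcases this with rfl | rfl <;> norm_num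
      rcases Int.emod_two_eq_zero_or_one n with h0 | h0
      · left
        rw [hone]
        exact h2m.trans (by omega)
      · right
        have h3 : a ^ n = a ^ (1 : ℤ) := by
          rw [heq]
          exact h2m.trans (by omega)
        rw [h3, zpow_one]
    have hall : ∀ g : G, g ∈ A := by
      intro g
      apply hAC'
      rcases ha2 (s g) with h' | h'
      · have h1 : g * a * g⁻¹ = 1 := by rw [hs g, h']
        have h2 : a = 1 := by
          have h3 : a = g⁻¹ * (g * a * g⁻¹) * g := by group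
          rw [h3, h1]; group
        rw [h2]; simp
      · have h1 : g * a * g⁻¹ = a := by rw [hs g, h']
        exact mul_inv_eq_iff_eq_mul.mp h1
    have h1 := hcyc a
    have h2 : Subgroup.zpowers a = ⊤ := by
      rw [← hAzp]; ext x; simp [hall x]
    rw [h2, Subgroup.index_top] at h1
    omega
  have hpow2 : (2 ^ m : ℤ) = 4 * 2 ^ (m - 2) := by
    have : m = (m - 2) + 2 := by omega
    conv_lhs => rw [this, pow_add]
    ring
  have h4m : (4 : ℤ) ∣ 2 ^ m := ⟨_, hpow2⟩
  have hsodd : ∀ g, ¬ (2 : ℤ) ∣ s g := by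
    rintro g ⟨t, ht⟩
    have h1 : g * a ^ ((2 : ℤ) * 2 ^ (m - 2)) * g⁻¹ = 1 := by
      rw [hsz, hone, ht, hpow2]
      exact ⟨t, by ring⟩
    have h2 : a ^ ((2 : ℤ) * 2 ^ (m - 2)) = 1 := by
      have h3 : a ^ ((2 : ℤ) * 2 ^ (m - 2)) = g⁻¹ * (g * a ^ ((2 : ℤ) * 2 ^ (m - 2)) * g⁻¹) * g := by group
      rw [h3, h1]; group
    rw [hone, hpow2] at h2
    have hpos : (0 : ℤ) < 2 * 2 ^ (m - 2) := by positivity
    have := Int.le_of_dvd hpos h2
    nlinarith [pow_pos (show (0 : ℤ) < 2 by norm_num) (m - 2)]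
  have hsmul : ∀ g k : G, (4 : ℤ) ∣ s (g * k) - s g * s k := by
    intro g k
    refine h4m.trans ?_
    rw [← heq]
    have h1 : (g * k) * a * (g * k)⁻¹ = g * (k * a * k⁻¹) * g⁻¹ := by group
    rw [← hs (g * k), h1, hs k, hsz]
  -- an element `c` outside `A` with square in `A` and exponent 1 modulo 4
  obtain ⟨c, hcA, hc2, hc4⟩ : ∃ c : G, c ∉ A ∧ c ^ 2 ∈ A ∧ s c % 4 = 1 := by
    by_cases hex : ∃ k : G, k ^ 2 ∉ A
    · obtain ⟨k, hk⟩ := hex
      obtain ⟨N, hN⟩ := h k
      have hP : ∃ j, k ^ (2 ^ j) ∈ A := ⟨N, by rw [hN]; exact A.one_mem⟩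
      let j := Nat.find hP
      have hj : k ^ (2 ^ j) ∈ A := Nat.find_spec hP
      have hjmin : ∀ i, i < j → k ^ (2 ^ i) ∉ A := fun i hi => Nat.find_min hP hi
      have hj2 : 2 ≤ j := by
        by_contra hlt
        have : j = 0 ∨ j = 1 := by omega
        apply hk
        rcases this with h0 | h0
        · rw [h0, pow_zero, pow_one] at hj
          exact A.pow_mem hj 2
        · rw [h0, pow_one] at hj; exact hj
      refine ⟨k ^ (2 ^ (j - 1)), hjmin _ (by omega), ?_, ?_⟩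
      · rw [← pow_mul, ← pow_succ, show j - 1 + 1 = j by omega]; exact hj
      · have e : k ^ (2 ^ (j - 1)) = k ^ (2 ^ (j - 2)) * k ^ (2 ^ (j - 2)) := by
          rw [← pow_add]; congr 1
          rw [show j - 1 = (j - 2) + 1 by omega, pow_succ]; ring
        rw [e]
        have h1 := hsmul (k ^ (2 ^ (j - 2))) (k ^ (2 ^ (j - 2)))
        have h2 := hsodd (k ^ (2 ^ (j - 2)))
        set u := s (k ^ (2 ^ (j - 2))) with hu
        have h3 : u * u % 4 = 1 := by
          rcases odd_of u h2 with h' | h' <;> rw [Int.mul_emod, h'] <;> norm_num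
        omega
    · push Not at hex
      obtain ⟨g, hgA⟩ : ∃ g, g ∉ A := by
        by_contra h'
        push Not at h'
        have h1 := hcyc a
        have h2 : Subgroup.zpowers a = ⊤ := by
          rw [← hAzp]; ext x; simp [h' x]
        rw [h2, Subgroup.index_top] at h1
        omega
      obtain ⟨k, hkA, hgk⟩ : ∃ k, k ∉ A ∧ g⁻¹ * k ∉ A := by
        by_contra h'
        push Not at h'
        have h1 := hcyc a
        rw [← hAzp] at h1
        have : Fintype (G ⧸ A) := Fintype.ofFinite _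
        have h2 : A.index = (Finset.univ : Finset (G ⧸ A)).card := by
          rw [Subgroup.index, Nat.card_eq_fintype_card, Finset.card_univ]
        have h3 : (Finset.univ : Finset (G ⧸ A)) ⊆ {((1 : G) : G ⧸ A), ((g : G) : G ⧸ A)} := by
          intro q _
          induction q using QuotientGroup.induction_on with
          | H k =>
            rw [Finset.mem_insert, Finset.mem_singleton]
            by_cases hk : k ∈ A
            · left
              have : ((1 : G) : G ⧸ A) = (k : G ⧸ A) := by rw [QuotientGroup.eq]; simpa using hk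
              exact this.symm
            · right
              have : ((g : G) : G ⧸ A) = (k : G ⧸ A) := by rw [QuotientGroup.eq]; exact h' k hk
              exact this.symm
        have h4 := Finset.card_le_card h3
        have h5 : ({((1 : G) : G ⧸ A), ((g : G) : G ⧸ A)} : Finset (G ⧸ A)).card ≤ 2 := Finset.card_le_two
        omega
      have hgkA : g * k ∉ A := by
        intro h'
        apply hgk
        have : g⁻¹ * k = (g ^ 2)⁻¹ * (g * k) := by rw [sq]; group
        rw [this]; exact A.mul_mem (A.inv_mem (hex g)) h'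
      rcases odd_of _ (hsodd g) with h1 | h1
      · exact ⟨g, hgA, hex g, h1⟩
      · rcases odd_of _ (hsodd k) with h2 | h2
        · exact ⟨k, hkA, hex k, h2⟩
        · refine ⟨g * k, hgkA, hex _, ?_⟩
          have h3 := hsmul g k
          have h4 : s g * s k % 4 = 1 := by rw [Int.mul_emod, h1, h2]; norm_num
          omega
  -- the exponent of `c`
  have hcs2 : (2 ^ m : ℤ) ∣ s c ^ 2 - 1 := by
    rw [← heq]
    have h1 : c ^ 2 * a * (c ^ 2)⁻¹ = a := by
      rw [hAc _ hc2 a haA]; group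
    have h2 : c ^ 2 * a * (c ^ 2)⁻¹ = c * (c * a * c⁻¹) * c⁻¹ := by rw [sq]; group
    rw [h2, hs c, hsz, ← sq] at h1
    rw [h1, zpow_one]
  have hcs1 : ¬ (2 ^ m : ℤ) ∣ s c - 1 := by
    rw [← heq]
    intro h'
    apply hcA
    apply hAC'
    rw [← hs c, zpow_one] at h'
    exact mul_inv_eq_iff_eq_mul.mp h'
  have hm3 : 3 ≤ m := by
    by_contra hm3
    have : m = 2 := by omega
    subst this
    apply hcs1
    have : (2 ^ 2 : ℤ) = 4 := by norm_num
    rw [this]; omega
  obtain ⟨k, rfl⟩ : ∃ k, m = k + 3 := ⟨m - 3, by omega⟩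
  have h8 : (2 ^ (k + 3) : ℤ) = 8 * 2 ^ k := by rw [pow_add]; ring
  rw [h8] at hcs1 hcs2
  have hcs := nt1 k (s c) hc4 hcs2 hcs1
  simp only [h8] at hone heq
  set q : ℤ := 2 ^ k with hq
  have hcq : c * a * c⁻¹ = a ^ (1 + 4 * q) := by
    rw [hs c, heq]
    have : s c - (1 + 4 * q) = s c - 1 - 4 * q := by ring
    rw [this]; exact hcs
  have hcqz : ∀ n : ℤ, c * a ^ n * c⁻¹ = a ^ ((1 + 4 * q) * n) := by
    intro n
    rw [← conj_zpow, hcq, ← zpow_mul]
  have hqpos : 0 < q := by positivity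
  let z : G := a ^ (4 * q)
  have hz2 : z ^ 2 = 1 := by
    simp only [z]
    rw [← zpow_natCast, ← zpow_mul, hone]
    exact ⟨1, by push_cast; ring⟩
  have hz1 : z ≠ 1 := by
    simp only [z]
    rw [Ne, hone]
    intro h'
    have := Int.le_of_dvd (by positivity) h'
    omega
  have hzodd : ∀ n : ℤ, ¬ (2 : ℤ) ∣ n → a ^ (4 * q * n) = z := by
    intro n hn
    simp only [z]
    rw [heq]
    obtain ⟨w, hw⟩ : ∃ w, n = 2 * w + 1 := ⟨n / 2, by omega⟩
    exact ⟨w, by rw [hw]; ring⟩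
  have hzc : ∀ g : G, g * z * g⁻¹ = z := by
    intro g
    simp only [z]
    rw [hsz, mul_comm (s g)]
    exact hzodd _ (hsodd g)
  -- the involution `x`
  obtain ⟨i, hi⟩ := (hAz _).mp hc2
  have hieven : (2 : ℤ) ∣ i := by
    by_contra hodd
    have h1 : c * a ^ i * c⁻¹ = a ^ i := by rw [hi, sq]; group
    rw [hcqz, heq] at h1
    have h2 : a ^ (4 * q * i) = 1 := by
      rw [hone]
      have : (1 + 4 * q) * i - i = 4 * q * i := by ring
      rw [this] at h1; exact h1
    rw [hzodd i hodd] at h2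
    exact hz1 h2
  obtain ⟨l, hl⟩ := hieven
  let j : ℤ := -l * (1 - 2 * q)
  let x : G := c * a ^ j
  have hx2 : x ^ 2 = 1 := by
    have e1 : x ^ 2 = (c * a ^ j * c⁻¹) * c ^ 2 * a ^ j := by simp only [x, sq]; group
    rw [e1, hcqz, ← hi, ← zpow_add, ← zpow_add, hone]
    refine ⟨q * l, ?_⟩
    simp only [j]
    rw [hl]; ring
  have hxA : x ∉ A := by
    intro h'
    apply hcA
    have : c = x * (a ^ j)⁻¹ := by simp only [x]; group
    rw [this]; exact A.mul_mem h' (A.inv_mem (A.zpow_mem haA j))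
  have hzA : z ∈ A := A.zpow_mem haA _
  have hxact : ∀ n : ℤ, x * a ^ n * x⁻¹ = a ^ ((1 + 4 * q) * n) := by
    intro n
    have : x * a ^ n * x⁻¹ = c * a ^ n * c⁻¹ := by simp only [x]; group
    rw [this, hcqz]
  refine klein_of z x hz2 hz1 hzc hx2 (fun h' => hxA (h' ▸ A.one_mem)) (fun h' => hxA (h' ▸ hzA)) ?_
  intro g
  set y := g * x * g⁻¹ with hy
  have hy2 : y ^ 2 = 1 := by
    have : y ^ 2 = g * x ^ 2 * g⁻¹ := by rw [hy]; simp only [sq]; group
    rw [this, hx2]; group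
  have hyact : y * a * y⁻¹ = a ^ (1 + 4 * q) := by
    have h1 : y * a * y⁻¹ = g * (x * (g⁻¹ * a * g⁻¹⁻¹) * x⁻¹) * g⁻¹ := by rw [hy]; group
    rw [h1, hs g⁻¹, hxact]
    have h2 : (1 + 4 * q) * s g⁻¹ = s g⁻¹ + 4 * q * s g⁻¹ := by ring
    rw [h2, zpow_add, hzodd _ (hsodd g⁻¹), ← hs g⁻¹]
    have h3 : g * (g⁻¹ * a * g⁻¹⁻¹ * z) * g⁻¹ = a * (g * z * g⁻¹) := by group
    rw [h3, hzc, zpow_add, zpow_one]
  have hxyA : x⁻¹ * y ∈ A := by
    apply hAC'
    have h1 : x * a * x⁻¹ = a ^ (1 + 4 * q) := by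
      have := hxact 1
      rw [zpow_one, mul_one] at this; exact this
    have h2 : y * a * y⁻¹ = x * a * x⁻¹ := by rw [hyact, h1]
    calc x⁻¹ * y * a = x⁻¹ * (y * a * y⁻¹) * y := by group
      _ = x⁻¹ * (x * a * x⁻¹) * y := by rw [h2]
      _ = a * (x⁻¹ * y) := by group
  obtain ⟨n, hn⟩ := (hAz _).mp hxyA
  have hyx : y = x * a ^ n := by rw [hn]; group
  have hfin : a ^ ((1 + 4 * q) * n + n) = 1 := by
    rw [zpow_add, ← hxact]
    have h1 : x * a ^ n * x⁻¹ * a ^ n = (x * a ^ n) * (x⁻¹ ^ 2 * (x * a ^ n)) := by simp only [sq]; group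
    have h2 : x⁻¹ ^ 2 = 1 := by rw [inv_pow, hx2, inv_one]
    rw [h1, h2, one_mul, ← hyx, ← sq, hy2]
  rw [hone] at hfin
  have hn4 := nt2 k n (by
    have : (2 : ℤ) * n + 4 * 2 ^ k * n = (1 + 4 * q) * n + n := by rw [hq]; ring
    rw [this]; exact hfin)
  obtain ⟨w, hw⟩ := hn4
  by_cases hw2 : (2 : ℤ) ∣ w
  · left
    have : a ^ n = 1 := by
      rw [hone, hw]
      obtain ⟨w', rfl⟩ := hw2
      exact ⟨w', by rw [hq]; ring⟩
    rw [hyx, this, mul_one]
  · right
    rw [hyx, hw, ← hq, hzodd w hw2]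

end Pool.Agent.Zk59.ST
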