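import Mathlib

set_option autoImplicit false

/-!
# Filling several bipartite blocks at once

In every one of `m` blocks there are sets `X k`, `Y k` of `n` points.  If for every pair `x ∈ X k`, `y ∈ Y k` there are at least
`w ≥ 4 m` non-involutions `g` (`w ≥ 4`) with `g x = y`, then the blocks can be filled with labels that are different up to
inversion.
-/

namespace Pool.Agent.Zk59.ST

open Classical

theorem fill {G Ω : Type} [Group G] [Finite G] [MulAction G Ω] (m n w : ℕ) (hw : 4 ≤ w) (hmw : 4 * m ≤ w)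
    (X Y : Fin m → Finset Ω) (hX : ∀ k, (X k).card = n) (hY : ∀ k, (Y k).card = n)
    (hl : ∀ k, ∀ x ∈ X k, ∀ y ∈ Y k, ∃ S : Finset G, w ≤ S.card ∧ ∀ g ∈ S, g • x = y ∧ g ^ 2 ≠ 1) :
    ∃ (π : ∀ k, X k ≃ Y k) (lam : ∀ k, X k → G),
      (∀ k x, lam k x • (x : Ω) = (π k x : Ω)) ∧ (∀ k x, lam k x ^ 2 ≠ 1) ∧
      (∀ k k' x x', (lam k' x' = lam k x ∨ lam k' x' = (lam k x)⁻¹) →
        (⟨k, x⟩ : Σ k, X k) = ⟨k', x'⟩) := by
  have : Fintype G := Fintype.ofFinite G
  let I := Σ k, X k
  -- the full list
  let ℓ : Ω → Ω → Finset G := fun x y => Finset.univ.filter (fun g => g • x = y ∧ g ^ 2 ≠ 1)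
  have hℓ : ∀ x y g, g ∈ ℓ x y ↔ g • x = y ∧ g ^ 2 ≠ 1 := by intro x y g; simp [ℓ]
  have hℓw : ∀ k, ∀ x ∈ X k, ∀ y ∈ Y k, w ≤ (ℓ x y).card := by
    intro k x hx y hy
    obtain ⟨S, hS1, hS2⟩ := hl k x hx y hy
    exact hS1.trans (Finset.card_le_card (fun g hg => (hℓ x y g).mpr (hS2 g hg)))
  -- states
  let Valid : ((∀ k, X k ≃ Y k) × (I → G) × Finset I) → Prop := fun z =>
    (∀ i ∈ z.2.2, z.2.1 i ∈ ℓ (i.2 : Ω) (z.1 i.1 i.2 : Ω)) ∧
    (∀ i ∈ z.2.2, ∀ j ∈ z.2.2, (z.2.1 j = z.2.1 i ∨ z.2.1 j = (z.2.1 i)⁻¹) → i = j)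
  have hne : ∃ z, Valid z := by
    have hEq : ∀ k, Nonempty (X k ≃ Y k) := fun k => ⟨Finset.equivOfCardEq (by rw [hX, hY])⟩
    exact ⟨(fun k => (hEq k).some, fun _ => 1, ∅), by simp [Valid]⟩
  let S : Finset ((∀ k, X k ≃ Y k) × (I → G) × Finset I) := Finset.univ.filter Valid
  have hS : S.Nonempty := by
    obtain ⟨z, hz⟩ := hne
    exact ⟨z, by simp [S, hz]⟩
  obtain ⟨⟨π, lam, A⟩, hz, hmax⟩ := Finset.exists_max_image S (fun z => z.2.2.card) hS
  have hV : Valid (π, lam, A) := by simpa [S] using hz
  obtain ⟨hV1, hV2⟩ := hV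
  simp only at hV1 hV2
  have hmax' : ∀ (π' : ∀ k, X k ≃ Y k) (lam' : I → G) (A' : Finset I), Valid (π', lam', A') → A'.card ≤ A.card :=
    fun π' lam' A' h => hmax (π', lam', A') (by simp only [S, Finset.mem_filter, Finset.mem_univ, true_and]; exact h)
  by_cases hAu : ∀ i, i ∈ A
  · refine ⟨π, fun k x => lam ⟨k, x⟩, ?_, ?_, ?_⟩
    · intro k x; exact ((hℓ _ _ _).mp (hV1 ⟨k, x⟩ (hAu _))).1
    · intro k x; exact ((hℓ _ _ _).mp (hV1 ⟨k, x⟩ (hAu _))).2
    · intro k k' x x' h
      exact hV2 ⟨k, x⟩ (hAu _) ⟨k', x'⟩ (hAu _) h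
  exfalso
  push Not at hAu
  obtain ⟨⟨k, x⟩, hi⟩ := hAu
  set i : I := ⟨k, x⟩ with hidef
  -- the used elements
  let U : Finset G := A.image lam ∪ A.image (fun j => (lam j)⁻¹)
  have hU : U.card ≤ 2 * A.card := by
    calc U.card ≤ (A.image lam).card + (A.image (fun j => (lam j)⁻¹)).card := Finset.card_union_le _ _
      _ ≤ A.card + A.card := Nat.add_le_add Finset.card_image_le Finset.card_image_le
      _ = 2 * A.card := by ring
  have hUmem : ∀ g, g ∈ U ↔ ∃ j ∈ A, g = lam j ∨ g = (lam j)⁻¹ := by
    intro g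
    simp only [U, Finset.mem_union, Finset.mem_image]
    constructor
    · rintro (⟨j, hj, rfl⟩ | ⟨j, hj, rfl⟩)
      · exact ⟨j, hj, Or.inl rfl⟩
      · exact ⟨j, hj, Or.inr rfl⟩
    · rintro ⟨j, hj, rfl | rfl⟩
      · exact Or.inl ⟨j, hj, rfl⟩
      · exact Or.inr ⟨j, hj, rfl⟩
  have hUinv : ∀ g, g⁻¹ ∈ U ↔ g ∈ U := by
    intro g
    rw [hUmem, hUmem]
    constructor
    · rintro ⟨j, hj, h | h⟩
      · exact ⟨j, hj, Or.inr (by rw [← h, inv_inv])⟩
      · exact ⟨j, hj, Or.inl (inv_injective h)⟩
    · rintro ⟨j, hj, h | h⟩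
      · exact ⟨j, hj, Or.inr (by rw [h])⟩
      · exact ⟨j, hj, Or.inl (by rw [h, inv_inv])⟩
  have hself : ∀ g : G, g ^ 2 ≠ 1 → g ≠ g⁻¹ := by
    intro g hg h
    apply hg
    rw [sq]; nth_rw 2 [h]; simp
  -- the list of `i` is used up
  have hiU : ∀ g ∈ ℓ (x : Ω) (π k x : Ω), g ∈ U := by
    intro g hg
    by_contra hgU
    have := hmax' π (Function.update lam i g) (insert i A) (by
      constructor
      · intro j hj
        simp only at hj ⊢
        by_cases hji : j = i
        · rw [hji, Function.update_self]; exact hg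
        · rw [Function.update_of_ne hji]
          exact hV1 j ((Finset.mem_insert.mp hj).resolve_left hji)
      · intro j hj j' hj' h
        simp only at hj hj' h
        by_cases hji : j = i <;> by_cases hji' : j' = i
        · rw [hji, hji']
        · exfalso
          rw [hji, Function.update_self, Function.update_of_ne hji'] at h
          have hj'A := (Finset.mem_insert.mp hj').resolve_left hji'
          apply hgU
          rw [hUmem]
          rcases h with h | h
          · exact ⟨j', hj'A, Or.inl h.symm⟩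
          · exact ⟨j', hj'A, Or.inr (by rw [h, inv_inv])⟩
        · exfalso
          rw [hji', Function.update_self, Function.update_of_ne hji] at h
          have hjA := (Finset.mem_insert.mp hj).resolve_left hji
          apply hgU
          rw [hUmem]
          exact ⟨j, hjA, h⟩
        · rw [Function.update_of_ne hji, Function.update_of_ne hji'] at h
          exact hV2 j ((Finset.mem_insert.mp hj).resolve_left hji) j'
            ((Finset.mem_insert.mp hj').resolve_left hji') h)
    rw [Finset.card_insert_of_notMem hi] at this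
    omega
  -- every exchange with another point of the block fails
  let a : X k → ℕ := fun j => (ℓ (x : Ω) (π k j : Ω) ∩ U).card
  let b : X k → ℕ := fun j => (ℓ (j : Ω) (π k x : Ω) ∩ U).card
  have hfail : ∀ j : X k, j ≠ x → w ≤ a j + b j := by
    intro j hj
    by_contra hlt
    push Not at hlt
    let P : Finset G := ℓ (x : Ω) (π k j : Ω) \ U
    let Q : Finset G := ℓ (j : Ω) (π k x : Ω) \ U
    have hP : P.card + a j = (ℓ (x : Ω) (π k j : Ω)).card := Finset.card_sdiff_add_card_inter _ _
    have hQ : Q.card + b j = (ℓ (j : Ω) (π k x : Ω)).card := Finset.card_sdiff_add_card_inter _ _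
    have h1 := hℓw k x x.2 (π k j) (π k j).2
    have h2 := hℓw k j j.2 (π k x) (π k x).2
    -- choose two labels
    obtain ⟨g, hg, g', hg', hgg1, hgg2⟩ : ∃ g ∈ P, ∃ g' ∈ Q, g' ≠ g ∧ g' ≠ g⁻¹ := by
      by_cases hP3 : 3 ≤ P.card
      · obtain ⟨g', hg'⟩ : Q.Nonempty := Finset.card_pos.mp (by omega)
        obtain ⟨g, hg, hg2⟩ : ∃ g ∈ P, g ∉ ({g', g'⁻¹} : Finset G) := by
          by_contra hcon
          push Not at hcon
          have := Finset.card_le_card (show P ⊆ {g', g'⁻¹} from hcon)
          have h3 : ({g', g'⁻¹} : Finset G).card ≤ 2 := Finset.card_le_two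
          omega
        rw [Finset.mem_insert, Finset.mem_singleton, not_or] at hg2
        exact ⟨g, hg, g', hg', fun h => hg2.1 h.symm, fun h => hg2.2 (by rw [h, inv_inv])⟩
      · have hQ3 : 3 ≤ Q.card := by omega
        obtain ⟨g, hg⟩ : P.Nonempty := Finset.card_pos.mp (by omega)
        obtain ⟨g', hg', hg2⟩ : ∃ g' ∈ Q, g' ∉ ({g, g⁻¹} : Finset G) := by
          by_contra hcon
          push Not at hcon
          have := Finset.card_le_card (show Q ⊆ {g, g⁻¹} from hcon)
          have h3 : ({g, g⁻¹} : Finset G).card ≤ 2 := Finset.card_le_two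
          omega
        rw [Finset.mem_insert, Finset.mem_singleton, not_or] at hg2
        exact ⟨g, hg, g', hg', hg2.1, hg2.2⟩
    obtain ⟨hg1, hgU⟩ := Finset.mem_sdiff.mp hg
    obtain ⟨hg1', hgU'⟩ := Finset.mem_sdiff.mp hg'
    set i' : I := ⟨k, j⟩ with hi'def
    have hii' : i' ≠ i := by
      intro h
      rw [hi'def, hidef] at h
      exact hj (eq_of_heq (Sigma.mk.inj h).2)
    let π' : ∀ k, X k ≃ Y k := Function.update π k ((Equiv.swap x j).trans (π k))
    let lam' : I → G := Function.update (Function.update lam i g) i' g'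
    have hlam'i : lam' i = g := by
      simp only [lam']
      rw [Function.update_of_ne (Ne.symm hii'), Function.update_self]
    have hlam'i' : lam' i' = g' := by simp only [lam', Function.update_self]
    have hlam'j : ∀ j, j ≠ i → j ≠ i' → lam' j = lam j := by
      intro j h1 h2
      simp only [lam']
      rw [Function.update_of_ne h2, Function.update_of_ne h1]
    have hgood := hmax' π' lam' (insert i A) (by
      constructor
      · rintro ⟨k1, x1⟩ hx1
        simp only at hx1 ⊢
        by_cases hk : k1 = k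
        · subst hk
          have hπ' : π' k1 = (Equiv.swap x j).trans (π k1) := by simp only [π', Function.update_self]
          by_cases hx : x1 = x
          · subst hx
            have e1 : (π' k1 x1 : Ω) = (π k1 j : Ω) := by rw [hπ']; simp
            rw [e1]
            have e2 : lam' ⟨k1, x1⟩ = g := hlam'i
            rw [e2]; exact hg1
          · by_cases hx2 : x1 = j
            · subst hx2
              have e1 : (π' k1 x1 : Ω) = (π k1 x : Ω) := by rw [hπ']; simp
              rw [e1]
              have e2 : lam' ⟨k1, x1⟩ = g' := hlam'i'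
              rw [e2]; exact hg1'
            · have e1 : (π' k1 x1 : Ω) = (π k1 x1 : Ω) := by
                rw [hπ']; simp [Equiv.swap_apply_of_ne_of_ne hx hx2]
              rw [e1]
              have hn1 : (⟨k1, x1⟩ : I) ≠ i := by
                intro h; rw [hidef] at h; exact hx (eq_of_heq (Sigma.mk.inj h).2)
              have hn2 : (⟨k1, x1⟩ : I) ≠ i' := by
                intro h; rw [hi'def] at h; exact hx2 (eq_of_heq (Sigma.mk.inj h).2)
              rw [hlam'j _ hn1 hn2]
              exact hV1 _ ((Finset.mem_insert.mp hx1).resolve_left hn1)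
        · have e1 : π' k1 = π k1 := by simp only [π']; rw [Function.update_of_ne hk]
          rw [e1]
          have hn1 : (⟨k1, x1⟩ : I) ≠ i := by
            intro h; rw [hidef] at h; exact hk (Sigma.mk.inj h).1
          have hn2 : (⟨k1, x1⟩ : I) ≠ i' := by
            intro h; rw [hi'def] at h; exact hk (Sigma.mk.inj h).1
          rw [hlam'j _ hn1 hn2]
          exact hV1 _ ((Finset.mem_insert.mp hx1).resolve_left hn1)
      · -- labels are different up to inversion
        have hold : ∀ j1 ∈ insert i A, j1 ≠ i → j1 ≠ i' → lam' j1 ∈ U ∧ lam' j1 = lam j1 ∧ j1 ∈ A := by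
          intro j1 hj1 h1 h2
          have hA := (Finset.mem_insert.mp hj1).resolve_left h1
          rw [hlam'j j1 h1 h2]
          exact ⟨(hUmem _).mpr ⟨j1, hA, Or.inl rfl⟩, rfl, hA⟩
        have hcl : ∀ u v : G, u ∈ U → v ∉ U → ¬ (v = u ∨ v = u⁻¹) := by
          intro u v hu hv h
          rcases h with h | h
          · exact hv (h ▸ hu)
          · exact hv (h ▸ (hUinv u).mpr hu)
        have hcl' : ∀ u v : G, u ∉ U → v ∈ U → ¬ (v = u ∨ v = u⁻¹) := by
          intro u v hu hv h
          rcases h with h | h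
          · exact hu (h ▸ hv)
          · exact hu ((hUinv u).mp (h ▸ hv))
        intro j1 hj1 j2 hj2 h
        simp only at hj1 hj2 h
        by_cases h1i : j1 = i
        · by_cases h2i : j2 = i
          · rw [h1i, h2i]
          · by_cases h2i' : j2 = i'
            · exfalso
              rw [h1i, h2i', hlam'i, hlam'i'] at h
              rcases h with h | h
              · exact hgg1 h
              · exact hgg2 h
            · exfalso
              rw [h1i, hlam'i] at h
              exact hcl' g _ hgU (hold j2 hj2 h2i h2i').1 h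
        · by_cases h1i' : j1 = i'
          · by_cases h2i : j2 = i
            · exfalso
              rw [h1i', h2i, hlam'i, hlam'i'] at h
              rcases h with h | h
              · exact hgg1 h.symm
              · exact hgg2 (by rw [h, inv_inv])
            · by_cases h2i' : j2 = i'
              · rw [h1i', h2i']
              · exfalso
                rw [h1i', hlam'i'] at h
                exact hcl' g' _ hgU' (hold j2 hj2 h2i h2i').1 h
          · obtain ⟨hu1, he1, hA1⟩ := hold j1 hj1 h1i h1i'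
            by_cases h2i : j2 = i
            · exfalso
              rw [h2i, hlam'i] at h
              exact hcl _ g hu1 hgU h
            · by_cases h2i' : j2 = i'
              · exfalso
                rw [h2i', hlam'i'] at h
                exact hcl _ g' hu1 hgU' h
              · obtain ⟨hu2, he2, hA2⟩ := hold j2 hj2 h2i h2i'
                rw [he1, he2] at h
                exact hV2 j1 hA1 j2 hA2 h)
    rw [Finset.card_insert_of_notMem hi] at hgood
    omega
  -- counting
  have hsa : ∑ j, a j ≤ U.card := by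
    have hd : ∀ j1 ∈ (Finset.univ : Finset (X k)), ∀ j2 ∈ (Finset.univ : Finset (X k)), j1 ≠ j2 →
        Disjoint (ℓ (x : Ω) (π k j1 : Ω) ∩ U) (ℓ (x : Ω) (π k j2 : Ω) ∩ U) := by
      intro j1 _ j2 _ hne
      rw [Finset.disjoint_left]
      intro g hg1 hg2
      have e1 := ((hℓ _ _ _).mp (Finset.mem_inter.mp hg1).1).1
      have e2 := ((hℓ _ _ _).mp (Finset.mem_inter.mp hg2).1).1
      exact hne ((π k).injective (Subtype.ext (e1.symm.trans e2)))
    rw [← Finset.card_biUnion hd]
    apply Finset.card_le_card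
    intro g hg
    rw [Finset.mem_biUnion] at hg
    obtain ⟨j, _, hj⟩ := hg
    exact (Finset.mem_inter.mp hj).2
  have hsb : ∑ j, b j ≤ U.card := by
    have hd : ∀ j1 ∈ (Finset.univ : Finset (X k)), ∀ j2 ∈ (Finset.univ : Finset (X k)), j1 ≠ j2 →
        Disjoint (ℓ (j1 : Ω) (π k x : Ω) ∩ U) (ℓ (j2 : Ω) (π k x : Ω) ∩ U) := by
      intro j1 _ j2 _ hne
      rw [Finset.disjoint_left]
      intro g hg1 hg2
      have e1 := ((hℓ _ _ _).mp (Finset.mem_inter.mp hg1).1).1
      have e2 := ((hℓ _ _ _).mp (Finset.mem_inter.mp hg2).1).1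
      apply hne
      apply Subtype.ext
      exact MulAction.injective g (e1.trans e2.symm)
    rw [← Finset.card_biUnion hd]
    apply Finset.card_le_card
    intro g hg
    rw [Finset.mem_biUnion] at hg
    obtain ⟨j, _, hj⟩ := hg
    exact (Finset.mem_inter.mp hj).2
  have hax : w ≤ a x := by
    have : ℓ (x : Ω) (π k x : Ω) ∩ U = ℓ (x : Ω) (π k x : Ω) := Finset.inter_eq_left.mpr hiU
    simp only [a]; rw [this]; exact hℓw k x x.2 _ (π k x).2
  have hbx : w ≤ b x := hax
  have hcardX : (Finset.univ : Finset (X k)).card = n := by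
    rw [Finset.card_univ, Fintype.card_coe, hX]
  have hsum : (n - 1) * w + 2 * w ≤ ∑ j, (a j + b j) := by
    rw [← Finset.add_sum_erase _ _ (Finset.mem_univ x)]
    have h1 : (n - 1) * w ≤ ∑ j ∈ Finset.univ.erase x, (a j + b j) := by
      have h2 : (Finset.univ.erase x).card = n - 1 := by
        rw [Finset.card_erase_of_mem (Finset.mem_univ x), hcardX]
      rw [← h2, ← smul_eq_mul, ← Finset.sum_const]
      exact Finset.sum_le_sum (fun j hj => hfail j (Finset.mem_erase.mp hj).1)
    omega
  rw [Finset.sum_add_distrib] at hsum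
  have hAc : A.card + 1 ≤ m * n := by
    rw [← Finset.card_insert_of_notMem hi]
    refine (Finset.card_le_univ _).trans ?_
    rw [Fintype.card_sigma]
    simp only [Fintype.card_coe, hX, Finset.sum_const, Finset.card_univ, Fintype.card_fin, smul_eq_mul, le_refl]
  have hn : 1 ≤ n := by
    rw [← hcardX]
    exact Finset.card_pos.mpr ⟨x, Finset.mem_univ x⟩
  have h4 : 4 * (m * n) ≤ w * n := by nlinarith
  obtain ⟨n', rfl⟩ : ∃ n', n = n' + 1 := ⟨n - 1, by omega⟩
  simp only [Nat.add_sub_cancel] at hsum
  nlinarith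

end Pool.Agent.Zk59.ST
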