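import Pool.Agent.Zk59.ST.Big

set_option autoImplicit false

/-!
# Representatives of inverse pairs, pairings, and the first theorem
-/

namespace Pool.Agent.Zk59.ST

open Classical

variable {G : Type} [Group G]

theorem exists_reps [Finite G] (S : Finset G) (hS : ∀ s ∈ S, s⁻¹ ∈ S) (h2 : ∀ s ∈ S, s ^ 2 ≠ 1) :
    ∃ D ⊆ S, (∀ s ∈ S, s ∈ D ∨ s⁻¹ ∈ D) ∧ (∀ d ∈ D, ∀ d' ∈ D, d' ≠ d⁻¹) ∧ 2 * D.card = S.card := by
  have : Fintype G := Fintype.ofFinite G
  let r : G → ℕ := fun g => ((Fintype.equivFin G) g : ℕ)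
  have hr : Function.Injective r := fun a b h => (Fintype.equivFin G).injective (Fin.ext h)
  have hne : ∀ s ∈ S, r s ≠ r s⁻¹ := by
    intro s hs h
    apply h2 s hs
    have h3 := hr h
    rw [sq]; nth_rw 2 [h3]; simp
  let D : Finset G := S.filter (fun s => r s < r s⁻¹)
  have hD : ∀ s, s ∈ D ↔ s ∈ S ∧ r s < r s⁻¹ := by intro s; simp [D]
  refine ⟨D, Finset.filter_subset _ _, ?_, ?_, ?_⟩
  · intro s hs
    rcases lt_or_gt_of_ne (hne s hs) with h | h
    · left; exact (hD s).mpr ⟨hs, h⟩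
    · right; exact (hD _).mpr ⟨hS s hs, by rw [inv_inv]; exact h⟩
  · intro d hd d' hd' h
    rw [hD] at hd hd'
    rw [h, inv_inv] at hd'
    omega
  · have h1 : S = D ∪ D.image (fun s => s⁻¹) := by
      ext s
      rw [Finset.mem_union, Finset.mem_image]
      constructor
      · intro hs
        rcases lt_or_gt_of_ne (hne s hs) with h | h
        · left; exact (hD s).mpr ⟨hs, h⟩
        · right; exact ⟨s⁻¹, (hD _).mpr ⟨hS s hs, by rw [inv_inv]; exact h⟩, inv_inv s⟩
      · rintro (h | ⟨t, ht, rfl⟩)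
        · exact ((hD s).mp h).1
        · exact hS t ((hD t).mp ht).1
    have h3 : Disjoint D (D.image (fun s => s⁻¹)) := by
      rw [Finset.disjoint_left]
      intro s hs hs'
      rw [Finset.mem_image] at hs'
      obtain ⟨t, ht, rfl⟩ := hs'
      rw [hD] at hs ht
      rw [inv_inv] at hs
      omega
    have h4 : S.card = D.card + (D.image (fun s => s⁻¹)).card := by
      conv_lhs => rw [h1]
      exact Finset.card_union_of_disjoint h3
    rw [Finset.card_image_of_injective _ inv_injective] at h4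
    omega

/-- Every finite set is a disjoint union of pairs and at most one point. -/
theorem exists_pairing {α : Type} (D : Finset α) :
    ∃ (P : Finset (α × α)) (E : Finset α), E ⊆ D ∧ E.card ≤ 1 ∧
      (∀ z ∈ P, z.1 ∈ D ∧ z.2 ∈ D ∧ z.1 ∉ E ∧ z.2 ∉ E ∧ z.1 ≠ z.2) ∧
      (∀ z ∈ P, ∀ z' ∈ P, (z.1 = z'.1 ∨ z.1 = z'.2 ∨ z.2 = z'.1 ∨ z.2 = z'.2) → z = z') ∧
      (∀ d ∈ D, d ∈ E ∨ ∃ z ∈ P, d = z.1 ∨ d = z.2) := by
  induction' hn : D.card using Nat.strong_induction_on with n ih generalizing D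
  by_cases h1 : D.card ≤ 1
  · exact ⟨∅, D, Finset.Subset.refl _, h1, by simp, by simp, fun d hd => Or.inl hd⟩
  · obtain ⟨x, hx, y, hy, hxy⟩ := Finset.one_lt_card.mp (by omega : 1 < D.card)
    let D' := (D.erase x).erase y
    have hyx : y ∈ D.erase x := Finset.mem_erase.mpr ⟨hxy.symm, hy⟩
    have hD' : D'.card < n := by
      change ((D.erase x).erase y).card < n
      have := Finset.card_erase_lt_of_mem hyx
      have := Finset.card_erase_lt_of_mem hx
      omega
    have hmD' : ∀ a, a ∈ D' ↔ a ≠ y ∧ a ≠ x ∧ a ∈ D := by intro a; simp [D']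
    obtain ⟨P, E, hE, hEc, hP1, hP2, hP3⟩ := ih D'.card hD' D' rfl
    have hxE : x ∉ E := fun h => ((hmD' x).mp (hE h)).2.1 rfl
    have hyE : y ∉ E := fun h => ((hmD' y).mp (hE h)).1 rfl
    have hcross : ∀ z ∈ P, (x = z.1 ∨ x = z.2 ∨ y = z.1 ∨ y = z.2) → False := by
      intro z hz h
      obtain ⟨ha, hb, _⟩ := hP1 z hz
      rw [hmD'] at ha hb
      rcases h with h | h | h | h
      · exact ha.2.1 h.symm
      · exact hb.2.1 h.symm
      · exact ha.1 h.symm
      · exact hb.1 h.symm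
    refine ⟨insert (x, y) P, E, ?_, hEc, ?_, ?_, ?_⟩
    · intro a ha; exact ((hmD' a).mp (hE ha)).2.2
    · intro z hz
      rcases Finset.mem_insert.mp hz with rfl | hz
      · exact ⟨hx, hy, hxE, hyE, hxy⟩
      · obtain ⟨ha, hb, hc⟩ := hP1 z hz
        exact ⟨((hmD' _).mp ha).2.2, ((hmD' _).mp hb).2.2, hc⟩
    · intro z hz z' hz' h
      rcases Finset.mem_insert.mp hz with hz1 | hz1 <;> rcases Finset.mem_insert.mp hz' with hz2 | hz2
      · rw [hz1, hz2]
      · exfalso
        rw [hz1] at h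
        apply hcross z' hz2
        tauto
      · exfalso
        rw [hz2] at h
        apply hcross z hz1
        rcases h with h | h | h | h
        · left; exact h.symm
        · right; right; left; exact h.symm
        · right; left; exact h.symm
        · right; right; right; exact h.symm
      · exact hP2 z hz1 z' hz2 h
    · intro d hd
      by_cases hdx : d = x
      · right; exact ⟨(x, y), Finset.mem_insert_self _ _, Or.inl hdx⟩
      · by_cases hdy : d = y
        · right; exact ⟨(x, y), Finset.mem_insert_self _ _, Or.inr hdy⟩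
        · rcases hP3 d ((hmD' d).mpr ⟨hdy, hdx, hd⟩) with h | ⟨z, hz, h⟩
          · exact Or.inl h
          · exact Or.inr ⟨z, Finset.mem_insert_of_mem hz, h⟩

/-- A starter from one big block. -/
theorem starter_of_one [Finite G] (M V F : Subgroup G) [V.Normal] (hM : M.index = 2) (hVM : V ≤ M)
    (hVinv : ∀ v ∈ V, v ^ 2 = 1) (hV4 : 4 ≤ Nat.card V) (hinv : ∀ g : G, g ^ 2 = 1 → g ∈ M)
    (hF : ∀ f : G, (∀ K : Subgroup G, K.index = 2 → f ∈ K) → f ∈ F) (hFM : F ≤ M)
    (hc : Nat.card F * Nat.card V ≤ Nat.card M) : HasStarter G := by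
  have : Fintype G := Fintype.ofFinite G
  let S : Finset G := Finset.univ.filter (fun f => f ∈ F ∧ f ^ 2 ≠ 1)
  have hS : ∀ f, f ∈ S ↔ f ∈ F ∧ f ^ 2 ≠ 1 := by intro f; simp [S]
  obtain ⟨D, hDS, hD1, hD2, hD3⟩ := exists_reps S
    (fun s hs => (hS _).mpr ⟨F.inv_mem ((hS s).mp hs).1, by
      intro h; apply ((hS s).mp hs).2
      rw [inv_pow] at h; exact inv_eq_one.mp h⟩)
    (fun s hs => ((hS s).mp hs).2)
  have hScard : S.card ≤ Nat.card F := by
    have h1 : (Finset.univ.filter (fun f : G => f ∈ F)).card = Nat.card F := by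
      rw [Nat.card_eq_fintype_card, Fintype.card_subtype]
    rw [← h1]
    apply Finset.card_le_card
    intro f hf
    simp [((hS f).mp hf).1]
  obtain ⟨L, hL1, hL2, hL3, hL4, hL5⟩ := bigBlock M V hM hVM hVinv hV4 hinv D
    (fun d hd => hFM ((hS d).mp (hDS hd)).1) (fun d hd => ((hS d).mp (hDS hd)).2) hD2
    (by rw [hD3]; exact (Nat.mul_le_mul_right _ hScard).trans hc)
  refine of_special (β := Unit) (fun _ => V) (fun _ => L) (fun _ => hL1) (fun _ => hL5) ?_ ?_
  · intro _ _ d d' hd hd' h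
    refine ⟨rfl, ?_⟩
    rcases h with h | h
    · exact h
    · exact hL4 d hd d' hd' h
  · intro f hf2 hfK
    refine ⟨(), ?_⟩
    rcases hD1 f ((hS f).mpr ⟨hF f hfK, hf2⟩) with h | h
    · exact Or.inl (hL2 h)
    · exact Or.inr (hL2 h)

end Pool.Agent.Zk59.ST
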