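import Pool.Agent.Zk59.ST.Bet
import Pool.Agent.Zk59.ST.Reps

set_option autoImplicit false

/-!
# 2-groups generated by involutions with a Klein four-group in the Frattini subgroup
-/

namespace Pool.Agent.Zk59.ST

open Classical

variable {G : Type} [Group G]

theorem big_exists [Finite G] (h : IsPGroup 2 G) (hgen : Subgroup.closure {x : G | x ^ 2 = 1} = ⊤)
    (F V : Subgroup G) [hVn : V.Normal] (hVc : Nat.card V = 4) (hV2 : ∀ v ∈ V, v ^ 2 = 1) (hVF : V ≤ F)
    (hF : ∀ K : Subgroup G, K.index = 2 → F ≤ K) (hF8 : 8 * Nat.card F ≤ Nat.card G)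
    (D : Finset G) (hDF : ∀ d ∈ D, d ∈ F) (hD2 : ∀ d ∈ D, d ^ 2 ≠ 1)
    (hanti : ∀ d ∈ D, ∀ d' ∈ D, d' ≠ d⁻¹) (hc : 32 * D.card ≤ Nat.card G) : BigFor F D := by
  by_cases hno : ∀ E : Subgroup G, (∀ e ∈ E, e ^ 2 = 1) → Nat.card E < 8
  · exact big_beta h hgen F V hVc hV2 hVF hF hno hF8 D hDF hD2 hanti hc
  push Not at hno
  obtain ⟨E, hE1, hE2⟩ := hno
  by_cases hDe : D = ∅
  · rw [hDe]; exact BigFor.empty F
  obtain ⟨d0, hd0⟩ := Finset.nonempty_of_ne_empty hDe
  have : Fintype (Subgroup G) := Fintype.ofFinite _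
  obtain ⟨H, hH, hmax⟩ := Finset.exists_max_image
    ((Finset.univ : Finset (Subgroup G)).filter (fun E => ∀ e ∈ E, e ^ 2 = 1)) (fun E => Nat.card E)
    ⟨E, Finset.mem_filter.mpr ⟨Finset.mem_univ _, hE1⟩⟩
  have hH2 := (Finset.mem_filter.mp hH).2
  have hmax' : ∀ E : Subgroup G, (∀ e ∈ E, e ^ 2 = 1) → Nat.card E ≤ Nat.card H :=
    fun E hE => hmax E (Finset.mem_filter.mpr ⟨Finset.mem_univ _, hE⟩)
  have hHtop : H ≠ ⊤ := by
    intro h'
    apply hD2 d0 hd0
    apply hH2
    rw [h']; trivial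
  obtain ⟨M, hM, hHM⟩ := exists_index_two_ge h H hHtop
  have : Fact (Nat.Prime 2) := ⟨Nat.prime_two⟩
  obtain ⟨n, hn⟩ := IsPGroup.iff_card.mp (h.to_subgroup H)
  have hH8 : 8 ≤ Nat.card H := hE2.trans (hmax' E hE1)
  have hn3 : 3 ≤ n := by
    by_contra hlt
    have : 2 ^ n ≤ 2 ^ 2 := Nat.pow_le_pow_right (by norm_num) (by omega)
    omega
  have hHm : Nat.card H = 8 * 2 ^ (n - 3) := by
    rw [hn, show (8 : ℕ) = 2 ^ 3 by norm_num, ← pow_add]
    congr 1; omega
  exact big_alpha F M H hM (hF M hM) hHM hH2 hmax' (2 ^ (n - 3)) (by positivity) hHm D hDF hD2 hanti hc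

theorem starter_of_big [Finite G] (F : Subgroup G)
    (hF' : ∀ f : G, (∀ K : Subgroup G, K.index = 2 → f ∈ K) → f ∈ F) (D : Finset G) (hB : BigFor F D)
    (hcov : ∀ f ∈ F, f ^ 2 ≠ 1 → f ∈ D ∨ f⁻¹ ∈ D) : HasStarter G := by
  obtain ⟨β, _, H, L, h1, h2, h3, h4, _⟩ := hB
  refine of_special H L h1 h2 h3 ?_
  intro f hf hK
  rcases hcov f (hF' f hK) hf with h' | h'
  · obtain ⟨b, hb⟩ := h4 f h'
    exact ⟨b, Or.inl hb⟩
  · obtain ⟨b, hb⟩ := h4 _ h'
    exact ⟨b, Or.inr hb⟩

/-- Rank at least four. -/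
theorem starter_rank_four [Finite G] (h : IsPGroup 2 G) (hgen : Subgroup.closure {x : G | x ^ 2 = 1} = ⊤)
    (F V : Subgroup G) [hVn : V.Normal] (hVc : Nat.card V = 4) (hV2 : ∀ v ∈ V, v ^ 2 = 1) (hVF : V ≤ F)
    (hF : ∀ K : Subgroup G, K.index = 2 → F ≤ K)
    (hF' : ∀ f : G, (∀ K : Subgroup G, K.index = 2 → f ∈ K) → f ∈ F)
    (hF16 : 16 * Nat.card F ≤ Nat.card G) : HasStarter G := by
  have : Fintype G := Fintype.ofFinite G
  let S : Finset G := Finset.univ.filter (fun f => f ∈ F ∧ f ^ 2 ≠ 1)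
  have hS : ∀ f, f ∈ S ↔ f ∈ F ∧ f ^ 2 ≠ 1 := by intro f; simp [S]
  obtain ⟨D, hDS, hD1, hD2, hD3⟩ := exists_reps S
    (fun s hs => (hS _).mpr ⟨F.inv_mem ((hS s).mp hs).1, by
      intro h; apply ((hS s).mp hs).2
      rw [inv_pow] at h; exact inv_eq_one.mp h⟩)
    (fun s hs => ((hS s).mp hs).2)
  have hScard : S.card ≤ Nat.card F := by
    have h1 : (Finset.univ.filter (fun f : G => f ∈ F)).card = Nat.card F := by
      rw [Nat.card_eq_fintype_card, Fintype.card_subtype]
    rw [← h1]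
    apply Finset.card_le_card
    intro f hf
    simp [((hS f).mp hf).1]
  refine starter_of_big F hF' D (big_exists h hgen F V hVc hV2 hVF hF (by omega) D
    (fun d hd => ((hS d).mp (hDS hd)).1) (fun d hd => ((hS d).mp (hDS hd)).2) hD2 (by omega)) ?_
  intro f hf hf2
  exact hD1 f ((hS f).mpr ⟨hf, hf2⟩)

theorem card_addInv [Finite G] (V : Subgroup G) (x : G) (hx : x ^ 2 = 1) (hxc : ∀ v ∈ V, x * v * x⁻¹ ∈ V)
    (hxV : x ∉ V) : Nat.card (addInv V x hx hxc) = 2 * Nat.card V := by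
  have hxx : x * x = 1 := by rw [← sq, hx]
  have hle : V ≤ addInv V x hx hxc := fun v hv => Or.inl hv
  have hxE : x ∈ addInv V x hx hxc := Or.inr (by rw [hxx]; exact V.one_mem)
  have h1 : (V.subgroupOf (addInv V x hx hxc)).index = 2 := by
    rw [Subgroup.index_eq_two_iff]
    refine ⟨⟨x, hxE⟩, fun b => ?_⟩
    rw [Subgroup.mem_subgroupOf, Subgroup.mem_subgroupOf]
    show Xor (((b : G) * x) ∈ V) ((b : G) ∈ V)
    by_cases hb : (b : G) ∈ V
    · right
      exact ⟨hb, fun h' => hxV ((V.mul_mem_cancel_left hb).mp h')⟩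
    · left
      refine ⟨?_, hb⟩
      have h2 : x * (b : G) ∈ V := by
        rcases (mem_addInv V x hx hxc b).mp b.2 with h' | h'
        · exact absurd h' hb
        · exact h'
      have h3 := hxc _ h2
      have e : (b : G) * x = x * (x * (b : G)) * x⁻¹ := by
        have hxi : x⁻¹ = x := by rw [inv_eq_iff_mul_eq_one, hxx]
        rw [hxi, ← mul_assoc, hxx, one_mul]
      rw [e]; exact h3
  have h2 := (V.subgroupOf (addInv V x hx hxc)).card_mul_index
  rw [h1] at h2
  have h3 : Nat.card (V.subgroupOf (addInv V x hx hxc)) = Nat.card V :=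
    Nat.card_congr (Subgroup.subgroupOfEquivOfLe hle).toEquiv
  rw [h3] at h2
  omega

/-- Four labels in `F \ P` form a block with eight points. -/
theorem hasBlock_batch [Finite G] (F F1 P H : Subgroup G) [hPn : P.Normal] [hFn : F.Normal] (hF1 : F1.index = 4)
    (hFF1 : F ≤ F1) (hHF1 : H ≤ F1) (hH : ∀ f ∈ F, f ∉ P → f ∉ H)
    (hmul : ∀ a ∈ F1, ∀ b ∈ F1, a ∉ H → b ∉ H → a * b ∈ H)
    (B : Finset G) (hB : B.card = 4) (hBF : ∀ d ∈ B, d ∈ F ∧ d ∉ P) (hB2 : ∀ d ∈ B, d ^ 2 ≠ 1) : HasBlock H B := by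
  have : Fintype (G ⧸ F1) := Fintype.ofFinite _
  obtain ⟨e⟩ : Nonempty (B ≃ G ⧸ F1) := by
    apply Fintype.card_eq.mp
    rw [Fintype.card_coe, hB, ← Nat.card_eq_fintype_card]
    exact hF1.symm
  let g : G → G := fun d => if hd : d ∈ B then (e ⟨d, hd⟩).out else 1
  have hg : ∀ d (hd : d ∈ B), ((g d : G) : G ⧸ F1) = e ⟨d, hd⟩ := by
    intro d hd
    simp only [g, dif_pos hd]
    exact QuotientGroup.out_eq' _
  have hcF : ∀ d ∈ B, ∀ a : G, a⁻¹ * d * a ∈ F ∧ a⁻¹ * d * a ∉ P := by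
    intro d hd a
    obtain ⟨h1, h2⟩ := hBF d hd
    have h3 := hFn.conj_mem d h1 a⁻¹
    rw [inv_inv] at h3
    refine ⟨h3, fun h4 => h2 ?_⟩
    have h5 := hPn.conj_mem _ h4 a
    have : a * (a⁻¹ * d * a) * a⁻¹ = d := by group
    rw [this] at h5; exact h5
  have hsame : ∀ d (hd : d ∈ B) d' (hd' : d' ∈ B), (g d)⁻¹ * g d' ∈ F1 → d = d' := by
    intro d hd d' hd' h'
    have h1 : ((g d : G) : G ⧸ F1) = ((g d' : G) : G ⧸ F1) := by rw [QuotientGroup.eq]; exact h'
    rw [hg d hd, hg d' hd'] at h1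
    exact congrArg Subtype.val (e.injective h1)
  refine ⟨fun d => (g d : G ⧸ H), ?_, ?_, ?_, ?_⟩
  · intro q
    induction q using QuotientGroup.induction_on with
    | H a =>
      obtain ⟨⟨d, hd⟩, hde⟩ := e.surjective (a : G ⧸ F1)
      refine ⟨d, hd, ?_⟩
      have h1 : ((g d : G) : G ⧸ F1) = (a : G ⧸ F1) := by rw [hg d hd, hde]
      rw [QuotientGroup.eq] at h1
      by_cases h2 : (g d)⁻¹ * a ∈ H
      · left
        have : ((g d : G) : G ⧸ H) = (a : G ⧸ H) := by rw [QuotientGroup.eq]; exact h2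
        exact this.symm
      · right
        have e1 : d • ((g d : G) : G ⧸ H) = ((d * g d : G) : G ⧸ H) := rfl
        show (a : G ⧸ H) = d • ((g d : G) : G ⧸ H)
        rw [e1]
        have : ((d * g d : G) : G ⧸ H) = (a : G ⧸ H) := by
          rw [QuotientGroup.eq]
          have h3 := hcF d hd (g d)
          have e2 : (d * g d)⁻¹ * a = ((g d)⁻¹ * d * g d)⁻¹ * ((g d)⁻¹ * a) := by group
          rw [e2]
          apply hmul
          · exact F1.inv_mem (hFF1 h3.1)
          · exact h1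
          · intro h4
            exact hH _ h3.1 h3.2 (inv_mem_iff.mp h4)
          · exact h2
        exact this.symm
  · intro d hd d' hd' hne
    have hdd : ∀ d ∈ B, d • ((g d : G) : G ⧸ H) = ((d * g d : G) : G ⧸ H) := fun _ _ => rfl
    refine ⟨?_, ?_, ?_⟩
    · intro h'
      rw [QuotientGroup.eq] at h'
      exact hne (hsame d hd d' hd' (hHF1 h'))
    · intro h'
      rw [hdd d' hd', QuotientGroup.eq] at h'
      apply hne
      apply hsame d hd d' hd'
      have h3 := hFF1 (hcF d' hd' (g d')).1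
      have e1 : (g d)⁻¹ * g d' = ((g d)⁻¹ * (d' * g d')) * ((g d')⁻¹ * d' * g d')⁻¹ := by group
      rw [e1]; exact F1.mul_mem (hHF1 h') (F1.inv_mem h3)
    · intro h'
      rw [hdd d hd, hdd d' hd', QuotientGroup.eq] at h'
      apply hne
      apply hsame d hd d' hd'
      have h3 := hFF1 (hcF d' hd' (g d')).1
      have h4 := hFF1 (hcF d hd (g d)).1
      have e1 : (g d)⁻¹ * g d' = ((g d)⁻¹ * d * g d) * ((d * g d)⁻¹ * (d' * g d')) * ((g d')⁻¹ * d' * g d')⁻¹ := by
        group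
      rw [e1]; exact F1.mul_mem (F1.mul_mem h4 (hHF1 h')) (F1.inv_mem h3)
  · intro d hd _ h'
    have h3 := hcF d hd (g d)
    apply hH _ h3.1 h3.2
    have e1 : d • ((g d : G) : G ⧸ H) = ((d * g d : G) : G ⧸ H) := rfl
    rw [e1, eq_comm, QuotientGroup.eq] at h'
    rw [mul_assoc]; exact h'
  · intro d hd h2
    exact absurd h2 (hB2 d hd)

/-- Batches of four elements. -/
theorem batches {α : Type} (k r : ℕ) (A : Finset α) (hA : A.card = 4 * k + r) :
    ∃ f : α → ℕ, (∀ a ∈ A, f a ≤ k) ∧ (∀ i, 1 ≤ i → i ≤ k → (A.filter (fun a => f a = i)).card = 4) ∧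
      (A.filter (fun a => f a = 0)).card = r := by
  induction k generalizing A with
  | zero =>
    refine ⟨fun _ => 0, by simp, by omega, ?_⟩
    simp; omega
  | succ k ih =>
    obtain ⟨B, hBA, hB⟩ := Finset.exists_subset_card_eq (show 4 ≤ A.card by omega)
    have h1 := Finset.card_sdiff_of_subset hBA
    obtain ⟨f, hf1, hf2, hf3⟩ := ih (A \ B) (by omega)
    refine ⟨fun a => if a ∈ B then k + 1 else f a, ?_, ?_, ?_⟩
    · intro a ha
      by_cases haB : a ∈ B
      · simp [haB]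
      · simp only [haB, if_false]
        have := hf1 a (Finset.mem_sdiff.mpr ⟨ha, haB⟩)
        omega
    · intro i hi1 hi2
      by_cases hik : i = k + 1
      · subst hik
        have : A.filter (fun a => (if a ∈ B then k + 1 else f a) = k + 1) = B := by
          ext a
          rw [Finset.mem_filter]
          constructor
          · rintro ⟨ha, h'⟩
            by_contra haB
            simp only [haB, if_false] at h'
            have := hf1 a (Finset.mem_sdiff.mpr ⟨ha, haB⟩)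
            omega
          · intro haB
            exact ⟨hBA haB, by simp [haB]⟩
        rw [this, hB]
      · rw [← hf2 i hi1 (by omega)]
        congr 1
        ext a
        simp only [Finset.mem_filter, Finset.mem_sdiff]
        constructor
        · rintro ⟨ha, h'⟩
          by_cases haB : a ∈ B
          · simp only [haB, if_true] at h'
            omega
          · simp only [haB, if_false] at h'
            exact ⟨⟨ha, haB⟩, h'⟩
        · rintro ⟨⟨ha, haB⟩, h'⟩
          exact ⟨ha, by simp only [haB, if_false]; exact h'⟩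
    · rw [← hf3]
      congr 1
      ext a
      simp only [Finset.mem_filter, Finset.mem_sdiff]
      constructor
      · rintro ⟨ha, h'⟩
        by_cases haB : a ∈ B
        · simp only [haB, if_true] at h'
          omega
        · simp only [haB, if_false] at h'
          exact ⟨⟨ha, haB⟩, h'⟩
      · rintro ⟨⟨ha, haB⟩, h'⟩
        exact ⟨ha, by simp only [haB, if_false]; exact h'⟩

end Pool.Agent.Zk59.ST
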