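import Pool.Agent.Zk59.ST.Fin

set_option autoImplicit false

/-!
# Rank three
-/

namespace Pool.Agent.Zk59.ST

open Classical

variable {G : Type} [Group G]

/-- The subgroup `P ∪ y P`. -/
def addSq (P : Subgroup G) (y : G) (hy : y ^ 2 ∈ P) (hPy : ∀ p ∈ P, y⁻¹ * p * y ∈ P) : Subgroup G where
  carrier := {g | g ∈ P ∨ y⁻¹ * g ∈ P}
  one_mem' := Or.inl P.one_mem
  mul_mem' := by
    rintro g k (hg | hg) (hk | hk)
    · exact Or.inl (P.mul_mem hg hk)
    · right
      have e : y⁻¹ * (g * k) = (y⁻¹ * g * y) * (y⁻¹ * k) := by group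
      rw [e]; exact P.mul_mem (hPy g hg) hk
    · right
      have e : y⁻¹ * (g * k) = (y⁻¹ * g) * k := by group
      rw [e]; exact P.mul_mem hg hk
    · left
      have e : g * k = y ^ 2 * (y⁻¹ * (y⁻¹ * g) * y) * (y⁻¹ * k) := by rw [sq]; group
      rw [e]; exact P.mul_mem (P.mul_mem hy (hPy _ hg)) hk
  inv_mem' := by
    rintro g (hg | hg)
    · exact Or.inl (P.inv_mem hg)
    · right
      have e : y⁻¹ * g⁻¹ = (y⁻¹ * (y⁻¹ * g)⁻¹ * y) * (y ^ 2)⁻¹ := by rw [sq]; group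
      rw [e]; exact P.mul_mem (hPy _ (P.inv_mem hg)) (P.inv_mem hy)

theorem exists_half [Finite G] (h : IsPGroup 2 G) (V F : Subgroup G) [hV : V.Normal] [hF : F.Normal] (hVF : V ≤ F)
    (hne : V ≠ F) : ∃ P : Subgroup G, P.Normal ∧ V ≤ P ∧ P ≤ F ∧ 2 * Nat.card P = Nat.card F := by
  have : Fintype (Subgroup G) := Fintype.ofFinite _
  obtain ⟨P, hP, hmax⟩ := Finset.exists_max_image
    ((Finset.univ : Finset (Subgroup G)).filter (fun P => P.Normal ∧ V ≤ P ∧ P ≤ F ∧ P ≠ F)) (fun E => Nat.card E)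
    ⟨V, Finset.mem_filter.mpr ⟨Finset.mem_univ _, hV, le_rfl, hVF, hne⟩⟩
  obtain ⟨hPn, hVP, hPF, hPne⟩ := (Finset.mem_filter.mp hP).2
  obtain ⟨x, hxF, hxP, hxc⟩ := meet_center_quot h P F hPF hPne
  obtain ⟨N, hN⟩ := h x
  have hPe : ∃ j, x ^ (2 ^ j) ∈ P := ⟨N, by rw [hN]; exact P.one_mem⟩
  let j := Nat.find hPe
  have hj : x ^ (2 ^ j) ∈ P := Nat.find_spec hPe
  have hjmin : ∀ i, i < j → x ^ (2 ^ i) ∉ P := fun i hi => Nat.find_min hPe hi
  have hj1 : 1 ≤ j := by
    by_contra hlt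
    have : j = 0 := by omega
    rw [this, pow_zero, pow_one] at hj
    exact hxP hj
  let y := x ^ (2 ^ (j - 1))
  have hyP : y ∉ P := hjmin _ (by omega)
  have hy2 : y ^ 2 ∈ P := by
    simp only [y]
    rw [← pow_mul, ← pow_succ, show j - 1 + 1 = j by omega]; exact hj
  have hyF : y ∈ F := F.pow_mem hxF _
  have hyc : ∀ g : G, g * y * g⁻¹ * y⁻¹ ∈ P := by
    intro g
    rw [← QuotientGroup.eq_one_iff]
    have h1 := hxc g
    rw [← QuotientGroup.eq_one_iff] at h1
    have h2 : (g : G ⧸ P) * (x : G ⧸ P) * (g : G ⧸ P)⁻¹ = (x : G ⧸ P) := mul_inv_eq_one.mp h1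
    have h3 : (g : G ⧸ P) * (x : G ⧸ P) ^ (2 ^ (j - 1)) * (g : G ⧸ P)⁻¹ = (x : G ⧸ P) ^ (2 ^ (j - 1)) := by
      rw [← conj_pow, h2]
    show (g : G ⧸ P) * ((x ^ (2 ^ (j - 1)) : G) : G ⧸ P) * (g : G ⧸ P)⁻¹ * ((x ^ (2 ^ (j - 1)) : G) : G ⧸ P)⁻¹ = 1
    rw [QuotientGroup.mk_pow, h3, mul_inv_cancel]
  have hPy : ∀ p ∈ P, y⁻¹ * p * y ∈ P := by
    intro p hp
    have := hPn.conj_mem p hp y⁻¹
    rw [inv_inv] at this; exact this
  let Q : Subgroup G := addSq P y hy2 hPy
  have hQmem : ∀ g, g ∈ Q ↔ g ∈ P ∨ y⁻¹ * g ∈ P := fun g => Iff.rfl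
  have hQn : Q.Normal := by
    constructor
    intro g hg a
    rw [hQmem] at hg ⊢
    rcases hg with hg | hg
    · left; exact hPn.conj_mem g hg a
    · right
      have e : y⁻¹ * (a * g * a⁻¹) = (y⁻¹ * (a * y * a⁻¹ * y⁻¹) * y) * (a * (y⁻¹ * g) * a⁻¹) := by group
      rw [e]
      exact P.mul_mem (hPy _ (hyc a)) (hPn.conj_mem _ hg a)
  have hPQ : P ≤ Q := fun g hg => Or.inl hg
  have hQF : Q ≤ F := by
    intro g hg
    rcases (hQmem g).mp hg with hg | hg
    · exact hPF hg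
    · have := F.mul_mem hyF (hPF hg)
      rwa [mul_inv_cancel_left] at this
  have hyQ : y ∈ Q := Or.inr (by rw [inv_mul_cancel]; exact P.one_mem)
  have hQeq : Q = F := by
    by_contra hQne
    have h1 := hmax Q (Finset.mem_filter.mpr ⟨Finset.mem_univ _, hQn, hVP.trans hPQ, hQF, hQne⟩)
    have h2 : P = Q := Subgroup.eq_of_le_of_card_ge hPQ h1
    exact hyP (h2 ▸ hyQ)
  refine ⟨P, hPn, hVP, hPF, ?_⟩
  have h1 : (P.subgroupOf F).index = 2 := by
    rw [Subgroup.index_eq_two_iff]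
    refine ⟨⟨y⁻¹, F.inv_mem hyF⟩, fun b => ?_⟩
    rw [Subgroup.mem_subgroupOf, Subgroup.mem_subgroupOf]
    show Xor (((b : G) * y⁻¹) ∈ P) ((b : G) ∈ P)
    by_cases hb : (b : G) ∈ P
    · right
      exact ⟨hb, fun h' => hyP (inv_mem_iff.mp ((P.mul_mem_cancel_left hb).mp h'))⟩
    · left
      refine ⟨?_, hb⟩
      have h2 : (b : G) ∈ Q := by rw [hQeq]; exact b.2
      have h3 : y⁻¹ * (b : G) ∈ P := ((hQmem _).mp h2).resolve_left hb
      have e : (b : G) * y⁻¹ = y * (y⁻¹ * (b : G)) * y⁻¹ := by group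
      rw [e]; exact hPn.conj_mem _ h3 y
  have h2 := (P.subgroupOf F).card_mul_index
  rw [h1] at h2
  have h3 : Nat.card (P.subgroupOf F) = Nat.card P := Nat.card_congr (Subgroup.subgroupOfEquivOfLe hPF).toEquiv
  rw [h3] at h2
  omega

/-- A normal Klein four-group is centralized by the Frattini subgroup. -/
theorem klein_centralized [Finite G] (h : IsPGroup 2 G) (F V : Subgroup G) [hVn : V.Normal] (hVc : Nat.card V = 4)
    (hV2 : ∀ v ∈ V, v ^ 2 = 1) (hF : ∀ K : Subgroup G, K.index = 2 → F ≤ K) :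
    ∀ f ∈ F, ∀ v ∈ V, f * v = v * f := by
  have : Fintype G := Fintype.ofFinite G
  by_cases hall : ∀ x : G, ∀ v ∈ V, x * v = v * x
  · exact fun f _ v hv => hall f v hv
  obtain ⟨x, hxC⟩ : ∃ x : G, ¬ ∀ v ∈ V, x * v = v * x := by
    by_contra h'
    push Not at h'
    exact hall h'
  have hVb : V ≠ ⊥ := by
    rintro rfl
    simp at hVc
  obtain ⟨z, hzV, hz1, hzc⟩ := meet_center h V hVb
  have hzz : z * z = 1 := by rw [← sq, hV2 z hzV]
  let C : Subgroup G := Subgroup.centralizer (V : Set G)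
  have hC : ∀ g, g ∈ C ↔ ∀ v ∈ V, v * g = g * v := by
    intro g
    rw [Subgroup.mem_centralizer_iff]
    rfl
  obtain ⟨v0, hv0, hv01, hv0z⟩ : ∃ v ∈ V, v ≠ 1 ∧ v ≠ z := by
    by_contra hcon
    push Not at hcon
    have : Fintype V := Fintype.ofFinite V
    have h1 : (Finset.univ.filter (fun g : G => g ∈ V)) ⊆ {1, z} := by
      intro g hg
      have hg' := (Finset.mem_filter.mp hg).2
      rw [Finset.mem_insert, Finset.mem_singleton]
      by_cases h1 : g = 1
      · exact Or.inl h1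
      · exact Or.inr (hcon g hg' h1)
    have h2 := Finset.card_le_card h1
    have h3 : (Finset.univ.filter (fun g : G => g ∈ V)).card = 4 := by
      rw [← hVc, Nat.card_eq_fintype_card, Fintype.card_subtype]
    have h4 : ({1, z} : Finset G).card ≤ 2 := Finset.card_le_two
    omega
  have helem := klein_elems V hVc z v0 hzV hv0 hz1 hv01 hv0z hzz
  have hzc' : ∀ g : G, g * z = z * g := fun g => mul_inv_eq_iff_eq_mul.mp (hzc g)
  have hC' : ∀ g, g ∈ C ↔ g * v0 * g⁻¹ = v0 := by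
    intro g
    rw [hC]
    constructor
    · intro h'
      rw [← h' v0 hv0, mul_inv_cancel_right]
    · intro h' v hv
      have h1 : g * v0 = v0 * g := mul_inv_eq_iff_eq_mul.mp h'
      rcases helem v hv with rfl | rfl | rfl | rfl
      · simp
      · exact (hzc' g).symm
      · exact h1.symm
      · rw [mul_assoc, ← hzc' g, ← mul_assoc, ← h1, mul_assoc]
  -- conjugation moves `v0` at most by `z`
  have hconj : ∀ g : G, g ∉ C → g * v0 * g⁻¹ = v0 * z := by
    intro g hg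
    rcases helem _ (hVn.conj_mem v0 hv0 g) with h' | h' | h' | h'
    · exfalso
      apply hv01
      have : v0 = g⁻¹ * (g * v0 * g⁻¹) * g := by group
      rw [this, h']; group
    · exfalso
      apply hv0z
      have h1 : v0 = g⁻¹ * (g * v0 * g⁻¹) * g := by group
      rw [h1, h', mul_assoc, ← hzc' g, ← mul_assoc, inv_mul_cancel, one_mul]
    · exact absurd ((hC' g).mpr h') hg
    · exact h'
  have hxC' : x ∉ C := by
    intro h'
    apply hxC
    intro v hv
    exact ((hC x).mp h' v hv).symm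
  have hCi : C.index = 2 := by
    rw [Subgroup.index_eq_two_iff]
    refine ⟨x, fun b => ?_⟩
    by_cases hb : b ∈ C
    · right
      exact ⟨hb, fun h' => hxC' ((C.mul_mem_cancel_left hb).mp h')⟩
    · left
      refine ⟨?_, hb⟩
      rw [hC']
      have e : b * x * v0 * (b * x)⁻¹ = b * (x * v0 * x⁻¹) * b⁻¹ := by group
      rw [e, hconj x hxC']
      have e2 : b * (v0 * z) * b⁻¹ = (b * v0 * b⁻¹) * (b * z * b⁻¹) := by group
      rw [e2, hconj b hb, hzc, mul_assoc, hzz, mul_one]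
  intro f hf v hv
  exact ((hC f).mp (hF C hCi hf) v hv).symm

/-- A set that is invariant under right multiplication by `V` has a multiple of `|V|` elements. -/
theorem dvd_card_of_mul [Finite G] (V : Subgroup G) (N : Finset G) (hN : ∀ n ∈ N, ∀ v ∈ V, n * v ∈ N) :
    Nat.card V ∣ N.card := by
  have : Fintype V := Fintype.ofFinite V
  rw [Finset.card_eq_sum_card_image (fun g : G => (g : G ⧸ V)) N]
  apply Finset.dvd_sum
  intro q hq
  obtain ⟨n, hn, rfl⟩ := Finset.mem_image.mp hq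
  have h1 : (N.filter (fun a : G => (a : G ⧸ V) = (n : G ⧸ V))).card = Nat.card V := by
    rw [Nat.card_eq_fintype_card, ← Finset.card_univ]
    symm
    apply Finset.card_bij (fun (v : V) _ => n * (v : G))
    · intro v _
      rw [Finset.mem_filter]
      refine ⟨hN n hn v v.2, ?_⟩
      rw [eq_comm, QuotientGroup.eq]
      simp
    · intro v _ w _ h'
      exact Subtype.ext (mul_left_cancel h')
    · intro a ha
      obtain ⟨ha1, ha2⟩ := Finset.mem_filter.mp ha
      rw [eq_comm, QuotientGroup.eq] at ha2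
      exact ⟨⟨n⁻¹ * a, ha2⟩, Finset.mem_univ _, by simp⟩
  rw [← h1]

end Pool.Agent.Zk59.ST
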