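import Pool.Agent.Zk59.ST.Fin3

set_option autoImplicit false

/-!
# Rank three: the starter
-/

namespace Pool.Agent.Zk59.ST

open Classical

variable {G : Type} [Group G]

theorem starter_of_exp_two [Finite G]
    (hF : ∀ f : G, (∀ K : Subgroup G, K.index = 2 → f ∈ K) → f ^ 2 = 1) : HasStarter G := by
  refine of_special (β := Empty) (fun b => b.elim) (fun b => b.elim) (fun b => b.elim) (fun b => b.elim)
    (fun b => b.elim) ?_
  intro f hf2 hfK
  exact absurd (hF f hfK) hf2

theorem starter_rank_three [Finite G] (h : IsPGroup 2 G) (hgen : Subgroup.closure {x : G | x ^ 2 = 1} = ⊤)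
    (F V : Subgroup G) [hFn : F.Normal] [hVn : V.Normal] (hVc : Nat.card V = 4) (hV2 : ∀ v ∈ V, v ^ 2 = 1)
    (hVF : V ≤ F) (hF : ∀ K : Subgroup G, K.index = 2 → F ≤ K)
    (hF' : ∀ f : G, (∀ K : Subgroup G, K.index = 2 → f ∈ K) → f ∈ F)
    (hF8 : 8 * Nat.card F = Nat.card G) : HasStarter G := by
  have : Fintype G := Fintype.ofFinite G
  by_cases hVFe : V = F
  · apply starter_of_exp_two
    intro f hf
    apply hV2
    rw [hVFe]; exact hF' f hf
  obtain ⟨P, hPn, hVP, hPF, hPc⟩ := exists_half h V F hVF hVFe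
  have hcent := klein_centralized h F V hVc hV2 hF
  have hPmul : ∀ a ∈ F, ∀ b ∈ F, a ∉ P → b ∉ P → a * b ∈ P := by
    have h1 : (P.subgroupOf F).index = 2 := by
      have h2 := (P.subgroupOf F).card_mul_index
      have h3 : Nat.card (P.subgroupOf F) = Nat.card P := Nat.card_congr (Subgroup.subgroupOfEquivOfLe hPF).toEquiv
      rw [h3, ← hPc, mul_comm 2] at h2
      exact Nat.eq_of_mul_eq_mul_left Nat.card_pos h2
    intro a ha b hb haP hbP
    have h4 := (Subgroup.mul_mem_iff_of_index_two h1 (a := ⟨a, ha⟩) (b := ⟨b, hb⟩))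
    rw [Subgroup.mem_subgroupOf, Subgroup.mem_subgroupOf, Subgroup.mem_subgroupOf] at h4
    exact h4.mpr ⟨fun h' => absurd h' haP, fun h' => absurd h' hbP⟩
  -- an involution outside `F`
  obtain ⟨x, hx2, hxF⟩ : ∃ x : G, x ^ 2 = 1 ∧ x ∉ F := by
    by_contra hcon
    push Not at hcon
    have h1 : F = ⊤ := by
      rw [eq_top_iff, ← hgen, Subgroup.closure_le]
      intro x hx
      exact hcon x hx
    rw [h1, Subgroup.card_top] at hF8
    have : 0 < Nat.card G := Nat.card_pos
    omega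
  have hxx : x * x = 1 := by rw [← sq, hx2]
  have hxi : x⁻¹ = x := by rw [inv_eq_iff_mul_eq_one, hxx]
  have hcP : ∀ v ∈ P, x * v * x⁻¹ ∈ P := fun v hv => hPn.conj_mem v hv x
  have hcF : ∀ v ∈ F, x * v * x⁻¹ ∈ F := fun v hv => hFn.conj_mem v hv x
  let H : Subgroup G := addInv P x hx2 hcP
  let F1 : Subgroup G := addInv F x hx2 hcF
  have hH : ∀ g, g ∈ H ↔ g ∈ P ∨ x * g ∈ P := fun g => Iff.rfl
  have hF1 : ∀ g, g ∈ F1 ↔ g ∈ F ∨ x * g ∈ F := fun g => Iff.rfl
  have hF1i : F1.index = 4 := by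
    have h1 : Nat.card F1 = 2 * Nat.card F := card_addInv F x hx2 hcF hxF
    have h2 := F1.card_mul_index
    rw [h1, ← hF8, show 8 * Nat.card F = 2 * Nat.card F * 4 by ring] at h2
    exact Nat.eq_of_mul_eq_mul_left (by have : 0 < Nat.card F := Nat.card_pos; omega) h2
  have hFF1 : F ≤ F1 := fun g hg => Or.inl hg
  have hHF1 : H ≤ F1 := by
    intro g hg
    rcases (hH g).mp hg with h' | h'
    · exact Or.inl (hPF h')
    · exact Or.inr (hPF h')
  have hHF : ∀ f ∈ F, f ∉ P → f ∉ H := by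
    intro f hf hfP hfH
    rcases (hH f).mp hfH with h' | h'
    · exact hfP h'
    · apply hxF
      exact (F.mul_mem_cancel_right hf).mp (hPF h')
  have hPconj : ∀ g : G, x * g * x⁻¹ ∈ P → g ∈ P := by
    intro g hg
    have := hPn.conj_mem _ hg x⁻¹
    have e : x⁻¹ * (x * g * x⁻¹) * x⁻¹⁻¹ = g := by group
    rw [e] at this; exact this
  have hmul : ∀ a ∈ F1, ∀ b ∈ F1, a ∉ H → b ∉ H → a * b ∈ H := by
    intro a ha b hb haH hbH
    rw [hH] at haH hbH ⊢
    push Not at haH hbH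
    rcases (hF1 a).mp ha with ha' | ha' <;> rcases (hF1 b).mp hb with hb' | hb'
    · left; exact hPmul a ha' b hb' haH.1 hbH.1
    · right
      have e : x * (a * b) = (x * a * x⁻¹) * (x * b) := by group
      rw [e]
      exact hPmul _ (hcF a ha') _ hb' (fun h' => haH.1 (hPconj a h')) hbH.2
    · right
      have e : x * (a * b) = (x * a) * b := by group
      rw [e]
      exact hPmul _ ha' _ hb' haH.2 hbH.1
    · left
      have e : a * b = (x * (x * a) * x⁻¹) * (x * b) := by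
        rw [hxi]
        calc a * b = (x * x) * a * (x * x) * b := by rw [hxx, one_mul, mul_one]
          _ = x * (x * a) * x * (x * b) := by simp only [mul_assoc]
      rw [e]
      exact hPmul _ (hcF _ ha') _ hb' (fun h' => haH.2 (hPconj _ h')) hbH.2
  -- representatives
  let S : Finset G := Finset.univ.filter (fun f => f ∈ P ∧ f ^ 2 ≠ 1)
  have hS : ∀ f, f ∈ S ↔ f ∈ P ∧ f ^ 2 ≠ 1 := by intro f; simp [S]
  let N : Finset G := Finset.univ.filter (fun f => (f ∈ F ∧ f ∉ P) ∧ f ^ 2 ≠ 1)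
  have hN : ∀ f, f ∈ N ↔ (f ∈ F ∧ f ∉ P) ∧ f ^ 2 ≠ 1 := by intro f; simp [N]
  have hsqinv : ∀ g : G, g ^ 2 ≠ 1 → g⁻¹ ^ 2 ≠ 1 := by
    intro g hg h'
    apply hg
    rw [inv_pow] at h'; exact inv_eq_one.mp h'
  obtain ⟨DP, hDP1, hDP2, hDP3, hDP4⟩ := exists_reps S
    (fun s hs => (hS _).mpr ⟨P.inv_mem ((hS s).mp hs).1, hsqinv s ((hS s).mp hs).2⟩)
    (fun s hs => ((hS s).mp hs).2)
  obtain ⟨DN, hDN1, hDN2, hDN3, hDN4⟩ := exists_reps N
    (fun s hs => (hN _).mpr ⟨⟨F.inv_mem ((hN s).mp hs).1.1, fun h' => ((hN s).mp hs).1.2 (inv_mem_iff.mp h')⟩,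
      hsqinv s ((hN s).mp hs).2⟩)
    (fun s hs => ((hN s).mp hs).2)
  have hSc : S.card + 4 ≤ Nat.card P := by
    have : Fintype P := Fintype.ofFinite P
    have h1 : (Finset.univ.filter (fun f : G => f ∈ P)).card = Nat.card P := by
      rw [Nat.card_eq_fintype_card, Fintype.card_subtype]
    have h2 : (Finset.univ.filter (fun f : G => f ∈ V)).card = 4 := by
      rw [← hVc]
      have : Fintype V := Fintype.ofFinite V
      rw [Nat.card_eq_fintype_card, Fintype.card_subtype]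
    rw [← h1, ← h2, ← Finset.card_union_of_disjoint]
    · apply Finset.card_le_card
      intro f hf
      rw [Finset.mem_filter]
      refine ⟨Finset.mem_univ _, ?_⟩
      rcases Finset.mem_union.mp hf with h' | h'
      · exact ((hS f).mp h').1
      · exact hVP (Finset.mem_filter.mp h').2
    · rw [Finset.disjoint_left]
      intro f hf hf'
      exact ((hS f).mp hf).2 (hV2 f (Finset.mem_filter.mp hf').2)
  have hN4 : 4 ∣ N.card := by
    rw [← hVc]
    apply dvd_card_of_mul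
    intro n hn v hv
    rw [hN] at hn ⊢
    refine ⟨⟨F.mul_mem hn.1.1 (hVF hv), fun h' => hn.1.2 ((P.mul_mem_cancel_right (hVP hv)).mp h')⟩, ?_⟩
    have h1 : Commute n v := hcent n hn.1.1 v hv
    rw [h1.mul_pow, hV2 v hv, mul_one]
    exact hn.2
  obtain ⟨k, r, hkr, hr⟩ : ∃ k r, DN.card = 4 * k + r ∧ r ≤ 2 := by
    obtain ⟨c, hc⟩ := hN4
    have h1 : DN.card = 2 * c := by omega
    rcases Nat.even_or_odd' c with ⟨e, he | he⟩
    · exact ⟨e, 0, by omega, by omega⟩
    · exact ⟨e, 2, by omega, by omega⟩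
  obtain ⟨f, hf1, hf2, hf3⟩ := batches k r DN hkr
  let R : Finset G := DN.filter (fun a => f a = 0)
  have hR : ∀ a, a ∈ R ↔ a ∈ DN ∧ f a = 0 := by intro a; exact Finset.mem_filter
  have hRc : R.card = r := hf3
  let D : Finset G := DP ∪ R
  have hDPm : ∀ d ∈ DP, d ∈ P ∧ d ^ 2 ≠ 1 := fun d hd => (hS d).mp (hDP1 hd)
  have hDNm : ∀ d ∈ DN, (d ∈ F ∧ d ∉ P) ∧ d ^ 2 ≠ 1 := fun d hd => (hN d).mp (hDN1 hd)
  have hDc : 32 * D.card ≤ Nat.card G := by
    have h1 : D.card ≤ DP.card + R.card := Finset.card_union_le _ _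
    omega
  have hDm : ∀ d ∈ D, d ∈ DP ∨ (d ∈ DN ∧ f d = 0) := by
    intro d hd
    rcases Finset.mem_union.mp hd with h' | h'
    · exact Or.inl h'
    · exact Or.inr ((hR d).mp h')
  have hBig := big_exists h hgen F V hVc hV2 hVF hF (by omega) D
    (fun d hd => by
      rcases hDm d hd with h' | h'
      · exact hPF (hDPm d h').1
      · exact (hDNm d h'.1).1.1)
    (fun d hd => by
      rcases hDm d hd with h' | h'
      · exact (hDPm d h').2
      · exact (hDNm d h'.1).2)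
    (fun d hd d' hd' hdd => by
      rcases hDm d hd with h1 | h1 <;> rcases hDm d' hd' with h2 | h2
      · exact hDP3 d h1 d' h2 hdd
      · apply (hDNm d' h2.1).1.2
        rw [hdd]; exact P.inv_mem (hDPm d h1).1
      · apply (hDNm d h1.1).1.2
        rw [← inv_mem_iff, ← hdd]; exact (hDPm d' h2).1
      · exact hDN3 d h1.1 d' h2.1 hdd) hDc
  obtain ⟨β, _, HH, L, b1, b2, b3, b4, b5⟩ := hBig
  let B : Fin k → Finset G := fun i => DN.filter (fun a => f a = i.1 + 1)
  have hB : ∀ i a, a ∈ B i ↔ a ∈ DN ∧ f a = i.1 + 1 := by intro i a; exact Finset.mem_filter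
  have hBc : ∀ i, (B i).card = 4 := fun i => hf2 (i.1 + 1) (by omega) (by omega)
  have hBblock : ∀ i, HasBlock H (B i) := by
    intro i
    apply hasBlock_batch F F1 P H hF1i hFF1 hHF1 hHF hmul (B i) (hBc i)
    · intro d hd
      exact (hDNm d ((hB i d).mp hd).1).1
    · intro d hd
      exact (hDNm d ((hB i d).mp hd).1).2
  have hcross : ∀ (b : β) (i : Fin k) (d d' : G), d ∈ L b → d' ∈ B i → ¬ (d' = d ∨ d' = d⁻¹) := by
    intro b i d d' hd hd' hdd
    obtain ⟨h1, h2⟩ := (hB i d').mp hd'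
    obtain ⟨h3, h4⟩ := hDNm d' h1
    have hdd' : d = d' ∨ d = d'⁻¹ := by
      rcases hdd with h' | h'
      · left; exact h'.symm
      · right; rw [h', inv_inv]
    have hdF : d ∈ F := by
      rcases hdd' with h' | h' <;> rw [h']
      · exact h3.1
      · exact F.inv_mem h3.1
    have hdP : d ∉ P := by
      rcases hdd' with h' | h' <;> rw [h']
      · exact h3.2
      · exact fun h'' => h3.2 (inv_mem_iff.mp h'')
    have hd2 : d ^ 2 ≠ 1 := by
      rcases hdd' with h' | h' <;> rw [h']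
      · exact h4
      · exact hsqinv _ h4
    rcases b5 b d hd with h' | h' | h'
    · rcases hDm d h' with h'' | h''
      · exact hdP (hDPm d h'').1
      · rcases hdd with h5 | h5
        · rw [h5] at h2
          omega
        · exact hDN3 d h''.1 d' h1 h5
    · exact hd2 h'
    · exact h' hdF
  refine of_special (β := β ⊕ Fin k) (Sum.elim HH (fun _ => H)) (Sum.elim L B) ?_ ?_ ?_ ?_
  · rintro (b | i)
    · exact b1 b
    · exact hBblock i
  · rintro (b | i) d hd
    · exact b2 b d hd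
    · intro h'
      have := (hDNm d ((hB i d).mp hd).1).2
      apply this
      rw [h', one_pow]
  · rintro (b | i) (b' | i') d d' hd hd' hdd
    · obtain ⟨h1, h2⟩ := b3 b b' d d' hd hd' hdd
      exact ⟨by rw [h1], h2⟩
    · exact absurd hdd (hcross b i' d d' hd hd')
    · exfalso
      apply hcross b' i d' d hd' hd
      rcases hdd with h' | h'
      · left; exact h'.symm
      · right; rw [h', inv_inv]
    · obtain ⟨h1, h2⟩ := (hB i d).mp hd
      obtain ⟨h3, h4⟩ := (hB i' d').mp hd'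
      rcases hdd with h' | h'
      · rw [h', h2] at h4
        refine ⟨?_, h'⟩
        congr 1
        apply Fin.ext
        omega
      · exact absurd h' (hDN3 d h1 d' h3)
  · intro g hg2 hgK
    have hgF := hF' g hgK
    -- an element of `D` or `DN` is covered
    have hcov : ∀ d, d ∈ DP ∨ d ∈ DN → ∃ b, d ∈ (Sum.elim L B : β ⊕ Fin k → Finset G) b := by
      intro d hd
      by_cases hdD : d ∈ D
      · obtain ⟨b, hb⟩ := b4 d hdD
        exact ⟨Sum.inl b, hb⟩
      · rcases hd with hd | hd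
        · exact absurd (Finset.mem_union_left _ hd) hdD
        · have h1 : f d ≠ 0 := fun h' => hdD (Finset.mem_union_right _ ((hR d).mpr ⟨hd, h'⟩))
          have h2 := hf1 d hd
          exact ⟨Sum.inr ⟨f d - 1, by omega⟩, (hB _ d).mpr ⟨hd, by simp only; omega⟩⟩
    by_cases hgP : g ∈ P
    · rcases hDP2 g ((hS g).mpr ⟨hgP, hg2⟩) with h' | h'
      · obtain ⟨b, hb⟩ := hcov g (Or.inl h')
        exact ⟨b, Or.inl hb⟩
      · obtain ⟨b, hb⟩ := hcov _ (Or.inl h')
        exact ⟨b, Or.inr hb⟩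
    · rcases hDN2 g ((hN g).mpr ⟨⟨hgF, hgP⟩, hg2⟩) with h' | h'
      · obtain ⟨b, hb⟩ := hcov g (Or.inr h')
        exact ⟨b, Or.inl hb⟩
      · obtain ⟨b, hb⟩ := hcov _ (Or.inr h')
        exact ⟨b, Or.inr hb⟩

end Pool.Agent.Zk59.ST
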