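import Pool.Agent.Zk59.ST.Cyc2

set_option autoImplicit false

/-!
# Every noncyclic finite 2-group has a starter
-/

namespace Pool.Agent.Zk59.ST

open Classical

variable {G : Type} [Group G]

/-- If two involutions generate `G`, the Frattini subgroup is cyclic. -/
theorem frattini_cyclic_of_two [Finite G] (F : Subgroup G) (hF : ∀ K : Subgroup G, K.index = 2 → F ≤ K)
    (x y : G) (hx : x ^ 2 = 1) (hy : y ^ 2 = 1) (hxy : Subgroup.closure {x, y} = ⊤) : IsCyclic F := by
  have hxx : x * x = 1 := by rw [← sq, hx]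
  have hyy : y * y = 1 := by rw [← sq, hy]
  have hxi : x⁻¹ = x := by rw [inv_eq_iff_mul_eq_one, hxx]
  have hyi : y⁻¹ = y := by rw [inv_eq_iff_mul_eq_one, hyy]
  let N : Subgroup G := Subgroup.zpowers (x * y)
  have hN : ∀ g, g ∈ N ↔ ∃ k : ℤ, (x * y) ^ k = g := fun g => Subgroup.mem_zpowers_iff
  have hxN : ∀ v ∈ N, x * v * x⁻¹ ∈ N := by
    intro v hv
    obtain ⟨k, rfl⟩ := (hN v).mp hv
    rw [hN]
    refine ⟨-k, ?_⟩
    rw [← conj_zpow]
    have h1 : x * (x * y) * x⁻¹ = (x * y)⁻¹ := by
      rw [mul_inv_rev, hyi, hxi, ← mul_assoc, hxx, one_mul]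
    rw [h1, inv_zpow, zpow_neg]
  have hE : addInv N x hx hxN = ⊤ := by
    rw [eq_top_iff, ← hxy, Subgroup.closure_le]
    intro g hg
    rcases hg with rfl | hg
    · right
      rw [hxx]; exact N.one_mem
    · rw [Set.mem_singleton_iff] at hg
      subst hg
      right
      exact Subgroup.mem_zpowers _
  have hFN : F ≤ N := by
    by_cases hxN' : x ∈ N
    · intro f _
      have h1 : f ∈ addInv N x hx hxN := by rw [hE]; trivial
      rcases h1 with h1 | h1
      · exact h1
      · exact (N.mul_mem_cancel_left hxN').mp h1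
    · apply hF
      have h1 := card_addInv N x hx hxN hxN'
      rw [hE, Subgroup.card_top] at h1
      have h2 := N.card_mul_index
      rw [h1, mul_comm 2] at h2
      exact Nat.eq_of_mul_eq_mul_left Nat.card_pos h2
  have hNc : IsCyclic N := inferInstance
  exact isCyclic_of_injective (Subgroup.inclusion hFN) (Subgroup.inclusion_injective hFN)

/-- Finite 2-groups that are generated by involutions have a starter. -/
theorem starter_of_gen [Finite G] (h : IsPGroup 2 G) (hgen : Subgroup.closure {x : G | x ^ 2 = 1} = ⊤) :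
    HasStarter G := by
  have : Fact (Nat.Prime 2) := ⟨Nat.prime_two⟩
  let F : Subgroup G := ⨅ K : {K : Subgroup G // K.index = 2}, (K : Subgroup G)
  have hFmem : ∀ f : G, f ∈ F ↔ ∀ K : Subgroup G, K.index = 2 → f ∈ K := by
    intro f
    simp only [F, Subgroup.mem_iInf, Subtype.forall]
  have hFn : F.Normal := Subgroup.normal_iInf_normal (fun K => Subgroup.normal_of_index_eq_two K.2)
  have hF : ∀ K : Subgroup G, K.index = 2 → F ≤ K := fun K hK f hf => (hFmem f).mp hf K hK
  have hF' : ∀ f : G, (∀ K : Subgroup G, K.index = 2 → f ∈ K) → f ∈ F := fun f hf => (hFmem f).mpr hf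
  by_cases hFc : IsCyclic F
  · exact starter_cyclic_frattini h hgen F hF hF' hFc
  obtain ⟨V, hVn, hVc, hV2, hVF⟩ := exists_klein_rel h F hF hFc
  have hGF : Nat.card F * F.index = Nat.card G := F.card_mul_index
  obtain ⟨r, hr⟩ : ∃ r, F.index = 2 ^ r := by
    have h1 : IsPGroup 2 (G ⧸ F) := h.to_quotient F
    obtain ⟨r, hr⟩ := IsPGroup.iff_card.mp h1
    exact ⟨r, hr⟩
  by_cases hr4 : 4 ≤ r
  · refine starter_rank_four h hgen F V hVc hV2 hVF hF hF' ?_
    have h16 : 16 ≤ F.index := by
      rw [hr]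
      calc 16 = 2 ^ 4 := by norm_num
        _ ≤ 2 ^ r := Nat.pow_le_pow_right (by norm_num) hr4
    rw [← hGF, mul_comm 16]
    exact Nat.mul_le_mul_left _ h16
  by_cases hr3 : r = 3
  · subst hr3
    refine starter_rank_three h hgen F V hVc hV2 hVF hF hF' ?_
    rw [← hGF, hr, mul_comm 8]; norm_num
  exfalso
  have hr2 : r ≤ 2 := by omega
  have hG4 : Nat.card G ≤ 4 * Nat.card F := by
    have h1 : F.index ≤ 4 := by
      rw [hr]
      calc 2 ^ r ≤ 2 ^ 2 := Nat.pow_le_pow_right (by norm_num) hr2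
        _ = 4 := by norm_num
    rw [← hGF, mul_comm 4]
    exact Nat.mul_le_mul_left _ h1
  apply hFc
  by_cases hbt : (⊥ : Subgroup G) = ⊤
  · have hs : Subsingleton F := by
      constructor
      intro x y
      have h1 : ∀ x : F, (x : G) = 1 := by
        intro x
        have : (x : G) ∈ (⊥ : Subgroup G) := by rw [hbt]; trivial
        rwa [Subgroup.mem_bot] at this
      exact Subtype.ext ((h1 x).trans (h1 y).symm)
    exact isCyclic_of_subsingleton
  obtain ⟨K0, hK0, _⟩ := exists_index_two_ge h ⊥ hbt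
  obtain ⟨x, hx2, hxF⟩ : ∃ x : G, x ^ 2 = 1 ∧ x ∉ F := by
    by_contra hcon
    push Not at hcon
    have h1 : F = ⊤ := by
      rw [eq_top_iff, ← hgen, Subgroup.closure_le]
      intro x hx
      exact hcon x hx
    have h2 : K0 = ⊤ := top_le_iff.mp (h1 ▸ hF K0 hK0)
    rw [h2, Subgroup.index_top] at hK0
    omega
  have hcF : ∀ v ∈ F, x * v * x⁻¹ ∈ F := fun v hv => hFn.conj_mem v hv x
  let F1 : Subgroup G := addInv F x hx2 hcF
  have hF1c : Nat.card F1 = 2 * Nat.card F := card_addInv F x hx2 hcF hxF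
  have hxx : x * x = 1 := by rw [← sq, hx2]
  have hF1K : ∀ K : Subgroup G, K.index = 2 → x ∈ K → K = F1 := by
    intro K hK hxK
    have h1 : F1 ≤ K := by
      rintro g (hg | hg)
      · exact hF K hK hg
      · exact (K.mul_mem_cancel_left hxK).mp (hF K hK hg)
    have h2 := K.card_mul_index
    rw [hK] at h2
    exact (Subgroup.eq_of_le_of_card_ge h1 (by omega)).symm
  by_cases hF1 : F1 = ⊤
  · refine frattini_cyclic_of_two F hF x 1 hx2 (one_pow 2) ?_
    by_contra hne
    obtain ⟨K, hK, hcK⟩ := exists_index_two_ge h _ hne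
    have hxK : x ∈ K := hcK (Subgroup.subset_closure (by simp))
    have h1 := hF1K K hK hxK
    rw [h1, hF1, Subgroup.index_top] at hK
    omega
  · obtain ⟨y, hy2, hyF⟩ : ∃ y : G, y ^ 2 = 1 ∧ y ∉ F1 := by
      by_contra hcon
      push Not at hcon
      apply hF1
      rw [eq_top_iff, ← hgen, Subgroup.closure_le]
      intro x hx
      exact hcon x hx
    refine frattini_cyclic_of_two F hF x y hx2 hy2 ?_
    by_contra hne
    obtain ⟨K, hK, hcK⟩ := exists_index_two_ge h _ hne
    have hxK : x ∈ K := hcK (Subgroup.subset_closure (by simp))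
    have hyK : y ∈ K := hcK (Subgroup.subset_closure (by simp))
    rw [hF1K K hK hxK] at hyK
    exact hyF hyK

/-- **Every noncyclic finite 2-group has a starter.** -/
theorem starter_of_noncyclic [Finite G] (h : IsPGroup 2 G) (hG : ¬ IsCyclic G) : HasStarter G := by
  have : Fact (Nat.Prime 2) := ⟨Nat.prime_two⟩
  by_cases hgen : Subgroup.closure {x : G | x ^ 2 = 1} = ⊤
  · exact starter_of_gen h hgen
  by_cases hcyc : ∀ x : G, 2 < (Subgroup.zpowers x).index
  · obtain ⟨V, hVn, hVc, hV2⟩ := exists_klein h hcyc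
    exact main_of_klein h hgen hcyc V hVc hV2
  push Not at hcyc
  obtain ⟨a, ha⟩ := hcyc
  have h0 : (Subgroup.zpowers a).index ≠ 0 := Subgroup.index_ne_zero_of_finite
  have h1 : (Subgroup.zpowers a).index ≠ 1 := by
    intro h1
    apply hG
    rw [Subgroup.index_eq_one] at h1
    refine ⟨a, fun x => ?_⟩
    have hx : x ∈ Subgroup.zpowers a := by rw [h1]; trivial
    exact hx
  exact starter_cyclic_index_two h hG a (by omega)

end Pool.Agent.Zk59.ST
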