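import Pool.Agent.Zk59.ST.Exk
import Pool.Agent.Zk59.ST.Fin4

set_option autoImplicit false

/-!
# Normal Klein four-groups in the Frattini subgroup
-/

namespace Pool.Agent.Zk59.ST

open Classical

variable {G : Type} [Group G]

theorem exists_max_abelian_rel [Finite G] (h : IsPGroup 2 G) (N : Subgroup G) [hN : N.Normal] :
    ∃ A : Subgroup G, A.Normal ∧ A ≤ N ∧ (∀ a ∈ A, ∀ b ∈ A, a * b = b * a) ∧
      (∀ x ∈ N, (∀ a ∈ A, x * a = a * x) → x ∈ A) := by
  have : Fintype (Subgroup G) := Fintype.ofFinite _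
  let S : Finset (Subgroup G) := Finset.univ.filter
    (fun A => A.Normal ∧ A ≤ N ∧ (∀ a ∈ A, ∀ b ∈ A, a * b = b * a))
  have hS : ∀ A, A ∈ S ↔ A.Normal ∧ A ≤ N ∧ (∀ a ∈ A, ∀ b ∈ A, a * b = b * a) := by intro A; simp [S]
  have hne : S.Nonempty := ⟨⊥, (hS _).mpr ⟨inferInstance, bot_le, by
    intro a ha b hb
    rw [Subgroup.mem_bot] at ha hb
    rw [ha, hb]⟩⟩
  obtain ⟨A, hA, hmax⟩ := Finset.exists_max_image S (fun A => Nat.card A) hne
  obtain ⟨hAn, hAN, hAc⟩ := (hS A).mp hA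
  refine ⟨A, hAn, hAN, hAc, ?_⟩
  let C : Subgroup G := N ⊓ Subgroup.centralizer (A : Set G)
  have hC : ∀ x, x ∈ C ↔ x ∈ N ∧ ∀ a ∈ A, x * a = a * x := by
    intro x
    rw [Subgroup.mem_inf, Subgroup.mem_centralizer_iff]
    constructor
    · rintro ⟨hx, h'⟩; exact ⟨hx, fun a ha => (h' a ha).symm⟩
    · rintro ⟨hx, h'⟩; exact ⟨hx, fun a ha => (h' a ha).symm⟩
  have hCn : C.Normal := by
    constructor
    intro n hn g
    rw [hC] at hn ⊢
    refine ⟨hN.conj_mem n hn.1 g, ?_⟩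
    intro a ha
    have h1 := hn.2 (g⁻¹ * a * g) (by simpa using hAn.conj_mem a ha g⁻¹)
    have h2 : g * n * g⁻¹ * a = g * (n * (g⁻¹ * a * g)) * g⁻¹ := by group
    have h3 : a * (g * n * g⁻¹) = g * ((g⁻¹ * a * g) * n) * g⁻¹ := by group
    rw [h2, h3, h1]
  have hAC : A ≤ C := fun a ha => (hC a).mpr ⟨hAN ha, fun b hb => hAc a ha b hb⟩
  intro x hxN hx
  by_contra hxA
  have hne' : A ≠ C := by
    intro h'
    apply hxA
    rw [h']; exact (hC x).mpr ⟨hxN, hx⟩
  obtain ⟨y, hyC, hyA, hyc⟩ := meet_center_quot h A C hAC hne'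
  obtain ⟨hyN, hyC'⟩ := (hC y).mp hyC
  let A' : Subgroup G := (Subgroup.zpowers (y : G ⧸ A)).comap (QuotientGroup.mk' A)
  have hA' : ∀ g, g ∈ A' ↔ ∃ k : ℤ, (y ^ k)⁻¹ * g ∈ A := by
    intro g
    rw [Subgroup.mem_comap, Subgroup.mem_zpowers_iff]
    constructor
    · rintro ⟨k, hk⟩
      refine ⟨k, ?_⟩
      rw [← QuotientGroup.eq]
      exact hk
    · rintro ⟨k, hk⟩
      refine ⟨k, ?_⟩
      rw [← QuotientGroup.eq] at hk
      exact hk
  have hAA' : A ≤ A' := fun a ha => (hA' a).mpr ⟨0, by simpa using ha⟩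
  have hyA' : y ∈ A' := (hA' y).mpr ⟨1, by simpa using A.one_mem⟩
  have hyk : ∀ (k : ℤ) (a : G), a ∈ A → y ^ k * a = a * y ^ k := by
    intro k a ha
    have : Commute y a := hyC' a ha
    exact (this.zpow_left k).eq
  have hA'S : A' ∈ S := by
    rw [hS]
    refine ⟨?_, ?_, ?_⟩
    · constructor
      intro n hn g
      have hcomm : Commute (g : G ⧸ A) (y : G ⧸ A) := by
        have h1 := hyc g
        have h2 : ((g * y * g⁻¹ * y⁻¹ : G) : G ⧸ A) = 1 := (QuotientGroup.eq_one_iff _).mpr h1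
        have h3 : ((g * y * g⁻¹ * y⁻¹ : G) : G ⧸ A) =
          ((g : G ⧸ A) * (y : G ⧸ A) * (g : G ⧸ A)⁻¹) * (y : G ⧸ A)⁻¹ := rfl
        rw [h3, mul_inv_eq_one] at h2
        exact mul_inv_eq_iff_eq_mul.mp h2
      rw [Subgroup.mem_comap, Subgroup.mem_zpowers_iff] at hn ⊢
      obtain ⟨k, hk⟩ := hn
      refine ⟨k, ?_⟩
      have h4 : (QuotientGroup.mk' A) (g * n * g⁻¹) = (g : G ⧸ A) * (QuotientGroup.mk' A) n * (g : G ⧸ A)⁻¹ := rfl
      rw [h4, ← hk, (hcomm.zpow_right k).eq, mul_inv_cancel_right]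
    · intro g hg
      obtain ⟨k, hk⟩ := (hA' g).mp hg
      have h5 := N.mul_mem (N.zpow_mem hyN k) (hAN hk)
      rwa [mul_inv_cancel_left] at h5
    · intro a ha b hb
      obtain ⟨k, hk⟩ := (hA' a).mp ha
      obtain ⟨l, hl⟩ := (hA' b).mp hb
      set u := (y ^ k)⁻¹ * a with hu
      set v := (y ^ l)⁻¹ * b with hv
      have ea : a = y ^ k * u := by rw [hu]; group
      have eb : b = y ^ l * v := by rw [hv]; group
      rw [ea, eb]
      calc y ^ k * u * (y ^ l * v) = y ^ k * (u * y ^ l) * v := by group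
        _ = y ^ k * (y ^ l * u) * v := by rw [hyk l u hk]
        _ = (y ^ k * y ^ l) * (u * v) := by group
        _ = (y ^ l * y ^ k) * (v * u) := by rw [← zpow_add, ← zpow_add, add_comm, hAc u hk v hl]
        _ = y ^ l * (y ^ k * v) * u := by group
        _ = y ^ l * (v * y ^ k) * u := by rw [hyk k v hl]
        _ = y ^ l * v * (y ^ k * u) := by group
  have hle := hmax A' hA'S
  have hEq : A = A' := Subgroup.eq_of_le_of_card_ge hAA' hle
  exact hyA (hEq ▸ hyA')

/-- A normal Klein four-group from a central involution `z` and an involution `x` with `g x g⁻¹ ∈ {x, x z}`. -/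
theorem klein_of_le (N : Subgroup G) (z x : G) (hzN : z ∈ N) (hxN : x ∈ N) (hz : z ^ 2 = 1) (hz1 : z ≠ 1) (hzc : ∀ g : G, g * z * g⁻¹ = z) (hx : x ^ 2 = 1)
    (hx1 : x ≠ 1) (hxz : x ≠ z) (hxc : ∀ g : G, g * x * g⁻¹ = x ∨ g * x * g⁻¹ = x * z) :
    ∃ V : Subgroup G, V.Normal ∧ Nat.card V = 4 ∧ (∀ v ∈ V, v ^ 2 = 1) ∧ V ≤ N := by
  have hzx : z * x = x * z := by
    have := hzc x
    have h2 : x * z * x⁻¹ * x = z * x := by rw [this]
    rw [inv_mul_cancel_right] at h2
    exact h2.symm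
  have hz' : z * z = 1 := by rw [← sq, hz]
  have hx' : x * x = 1 := by rw [← sq, hx]
  refine ⟨kleinSub z x hz hx hzx, ⟨?_⟩, ?_, ?_, ?_⟩
  · intro n hn g
    rw [mem_kleinSub] at hn ⊢
    rcases hn with rfl | rfl | rfl | rfl
    · left; group
    · right; left; exact hzc g
    · rcases hxc g with h | h
      · right; right; left; exact h
      · right; right; right; exact h
    · have e : g * (x * z) * g⁻¹ = (g * x * g⁻¹) * (g * z * g⁻¹) := by group
      rw [e, hzc]
      rcases hxc g with h | h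
      · right; right; right; rw [h]
      · right; right; left; rw [h, mul_assoc, hz', mul_one]
  · classical
    have hset : ((kleinSub z x hz hx hzx : Subgroup G) : Set G) = (({1, z, x, x * z} : Finset G) : Set G) := by
      ext g
      rw [SetLike.mem_coe, mem_kleinSub]
      simp
    have h1 : Nat.card (kleinSub z x hz hx hzx) = ((kleinSub z x hz hx hzx : Subgroup G) : Set G).ncard := rfl
    rw [h1, hset, Set.ncard_coe_finset]
    have hxz1 : x * z ≠ 1 := by
      intro h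
      apply hxz
      have : x = x * z * z := by rw [mul_assoc, hz', mul_one]
      rw [this, h, one_mul]
    have hxzz : x * z ≠ z := fun h => hx1 (mul_eq_right.mp h)
    have hxzx : x * z ≠ x := fun h => hz1 (mul_eq_left.mp h)
    rw [Finset.card_insert_of_notMem, Finset.card_insert_of_notMem, Finset.card_insert_of_notMem,
      Finset.card_singleton]
    · simp only [Finset.mem_singleton]; exact hxzx.symm
    · simp only [Finset.mem_insert, Finset.mem_singleton, not_or]; exact ⟨hxz.symm, hxzz.symm⟩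
    · simp only [Finset.mem_insert, Finset.mem_singleton, not_or]; exact ⟨hz1.symm, hx1.symm, hxz1.symm⟩
  · intro v hv
    rw [mem_kleinSub] at hv
    rcases hv with rfl | rfl | rfl | rfl
    · exact one_pow 2
    · exact hz
    · exact hx
    · rw [sq]
      have e4 : x * z * x = z := by rw [mul_assoc, hzx, ← mul_assoc, hx', one_mul]
      rw [← mul_assoc, e4, hz']
  · intro g hg
    rcases (mem_kleinSub z x hz hx hzx g).mp hg with rfl | rfl | rfl | rfl
    · exact N.one_mem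
    · exact hzN
    · exact hxN
    · exact N.mul_mem hxN hzN

/-- A normal subgroup of exponent two and order at least four contains a normal Klein four-group. -/
theorem klein_of_normal_le [Finite G] (h : IsPGroup 2 G) (N : Subgroup G) [hN : N.Normal] (hN2 : ∀ n ∈ N, n ^ 2 = 1)
    (hc : 3 ≤ Nat.card N) : ∃ V : Subgroup G, V.Normal ∧ Nat.card V = 4 ∧ (∀ v ∈ V, v ^ 2 = 1) ∧ V ≤ N := by
  have hNb : N ≠ ⊥ := by
    rintro rfl
    simp at hc
  obtain ⟨z, hzN, hz1, hzc⟩ := meet_center h N hNb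
  have hz2 := hN2 z hzN
  let B : Subgroup G := kleinSub z 1 hz2 (one_pow 2) (by simp)
  have hBmem : ∀ g, g ∈ B ↔ g = 1 ∨ g = z := by
    intro g
    rw [mem_kleinSub]
    simp only [one_mul]
    tauto
  have hBn : B.Normal := by
    constructor
    intro n hn g
    rw [hBmem] at hn ⊢
    rcases hn with rfl | rfl
    · left; group
    · right; exact hzc g
  have hBN : B ≤ N := by
    intro g hg
    rcases (hBmem g).mp hg with rfl | rfl
    · exact N.one_mem
    · exact hzN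
  have hne : B ≠ N := by
    intro hEq
    have h1 : Nat.card B ≤ 2 := by
      classical
      have hset : (B : Set G) = (({1, z} : Finset G) : Set G) := by
        ext g
        rw [SetLike.mem_coe, hBmem]
        simp
      have h1 : Nat.card B = (B : Set G).ncard := rfl
      rw [h1, hset, Set.ncard_coe_finset]
      exact Finset.card_le_two
    rw [hEq] at h1
    omega
  obtain ⟨x, hxN, hxB, hxc⟩ := meet_center_quot h B N hBN hne
  have hxB' : x ≠ 1 ∧ x ≠ z := by
    constructor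
    · intro h'; exact hxB ((hBmem x).mpr (Or.inl h'))
    · intro h'; exact hxB ((hBmem x).mpr (Or.inr h'))
  refine klein_of_le N z x hzN hxN hz2 hz1 hzc (hN2 x hxN) hxB'.1 hxB'.2 ?_
  intro g
  rcases (hBmem _).mp (hxc g) with h' | h'
  · left; exact mul_inv_eq_one.mp h'
  · right
    have h2 : g * x * g⁻¹ = z * x := by
      have : g * x * g⁻¹ = (g * x * g⁻¹ * x⁻¹) * x := by group
      rw [this, h']
    rw [h2]
    have := hzc x
    have h3 : x * z * x⁻¹ * x = z * x := by rw [this]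
    rw [inv_mul_cancel_right] at h3
    exact h3.symm

theorem exists_klein_rel [Finite G] (h : IsPGroup 2 G) (N : Subgroup G) [hN : N.Normal]
    (hNF : ∀ K : Subgroup G, K.index = 2 → N ≤ K) (hNc : ¬ IsCyclic N) :
    ∃ V : Subgroup G, V.Normal ∧ Nat.card V = 4 ∧ (∀ v ∈ V, v ^ 2 = 1) ∧ V ≤ N := by
  obtain ⟨A, hAn, hAN, hAc, hAC⟩ := exists_max_abelian_rel h N
  -- the elements of square one in `A`
  let Ω : Subgroup G :=
    { carrier := {a | a ∈ A ∧ a ^ 2 = 1}
      one_mem' := ⟨A.one_mem, one_pow 2⟩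
      mul_mem' := by
        rintro a b ⟨ha, ha2⟩ ⟨hb, hb2⟩
        refine ⟨A.mul_mem ha hb, ?_⟩
        have : Commute a b := hAc a ha b hb
        rw [this.mul_pow, ha2, hb2, one_mul]
      inv_mem' := by
        rintro a ⟨ha, ha2⟩
        exact ⟨A.inv_mem ha, by rw [inv_pow, ha2, inv_one]⟩ }
  have hΩ : ∀ a, a ∈ Ω ↔ a ∈ A ∧ a ^ 2 = 1 := fun a => Iff.rfl
  have hΩn : Ω.Normal := by
    constructor
    intro n hn g
    rw [hΩ] at hn ⊢
    refine ⟨hAn.conj_mem n hn.1 g, ?_⟩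
    have : (g * n * g⁻¹) ^ 2 = g * n ^ 2 * g⁻¹ := by simp only [sq]; group
    rw [this, hn.2]; group
  by_cases hΩc : 3 ≤ Nat.card Ω
  · obtain ⟨V, h1, h2, h3, h4⟩ := klein_of_normal_le h Ω (fun n hn => ((hΩ n).mp hn).2) hΩc
    exact ⟨V, h1, h2, h3, fun v hv => hAN ((hΩ v).mp (h4 hv)).1⟩
  have hΩc' : Nat.card Ω ≤ 2 := by omega
  -- `A` is cyclic
  let iA : CommGroup A := { (inferInstance : Group A) with
    mul_comm := fun a b => Subtype.ext (hAc a a.2 b b.2) }
  have hcycA : IsCyclic A := by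
    apply isCyclic_of_two (h.to_subgroup A)
    refine le_trans (le_of_eq ?_) hΩc'
    apply Nat.card_congr
    refine ⟨fun a => ⟨(a : A), (a : A).2, ?_⟩, fun a => ⟨⟨(a : G), a.2.1⟩, ?_⟩, ?_, ?_⟩
    · have := congrArg (fun x : A => (x : G)) a.2
      exact this
    · exact Subtype.ext a.2.2
    · intro a; rfl
    · intro a; rfl
  obtain ⟨⟨a, haA⟩, ha⟩ := hcycA.exists_generator
  have hAz : ∀ b, b ∈ A ↔ ∃ k : ℤ, a ^ k = b := by
    intro b
    constructor
    · intro hb
      obtain ⟨k, hk⟩ := Subgroup.mem_zpowers_iff.mp (ha ⟨b, hb⟩)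
      refine ⟨k, ?_⟩
      have := congrArg (fun x : A => (x : G)) hk
      exact this
    · rintro ⟨k, rfl⟩
      exact A.zpow_mem haA k
  have hAzp : A = Subgroup.zpowers a := by
    ext b
    rw [hAz, Subgroup.mem_zpowers_iff]
  have hANe : A ≠ N := by
    intro h'
    rw [← h'] at hNc
    exact hNc hcycA
  have hAC' : ∀ x ∈ N, x * a = a * x → x ∈ A := by
    intro x hxN hx
    apply hAC x hxN
    intro b hb
    obtain ⟨k, rfl⟩ := (hAz b).mp hb
    have : Commute x a := hx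
    exact (this.zpow_right k).eq
  obtain ⟨m, hm⟩ : ∃ m, orderOf a = 2 ^ m := by
    have : Fact (Nat.Prime 2) := ⟨Nat.prime_two⟩
    exact IsPGroup.iff_orderOf.mp h a
  have hone : ∀ n : ℤ, a ^ n = 1 ↔ (2 ^ m : ℤ) ∣ n := by
    intro n
    rw [← orderOf_dvd_iff_zpow_eq_one, hm]
    push_cast
    rfl
  have heq : ∀ n n' : ℤ, a ^ n = a ^ n' ↔ (2 ^ m : ℤ) ∣ n - n' := by
    intro n n'
    rw [← hone, zpow_sub, mul_inv_eq_one]
  -- conjugation exponents
  have hs : ∀ g : G, ∃ s : ℤ, g * a * g⁻¹ = a ^ s := by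
    intro g
    obtain ⟨k, hk⟩ := (hAz _).mp (hAn.conj_mem a haA g)
    exact ⟨k, hk.symm⟩
  choose s hs using hs
  have hsz : ∀ (g : G) (n : ℤ), g * a ^ n * g⁻¹ = a ^ (s g * n) := by
    intro g n
    rw [← conj_zpow, hs g, ← zpow_mul]
  -- the order of `a` is at least four
  have hm2 : 2 ≤ m := by
    by_contra hm2
    have ha2 : ∀ n : ℤ, a ^ n = 1 ∨ a ^ n = a := by
      intro n
      have h2m : (2 ^ m : ℤ) ∣ 2 := by
        have : m = 0 ∨ m = 1 := by omega
        rcases this with rfl | rfl <;> norm_num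
      rcases Int.emod_two_eq_zero_or_one n with h0 | h0
      · left
        rw [hone]
        exact h2m.trans (by omega)
      · right
        have h3 : a ^ n = a ^ (1 : ℤ) := by
          rw [heq]
          exact h2m.trans (by omega)
        rw [h3, zpow_one]
    have hall : ∀ g ∈ N, g ∈ A := by
      intro g hgN
      apply hAC' g hgN
      rcases ha2 (s g) with h' | h'
      · have h1 : g * a * g⁻¹ = 1 := by rw [hs g, h']
        have h2 : a = 1 := by
          have h3 : a = g⁻¹ * (g * a * g⁻¹) * g := by group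
          rw [h3, h1]; group
        rw [h2]; simp
      · have h1 : g * a * g⁻¹ = a := by rw [hs g, h']
        exact mul_inv_eq_iff_eq_mul.mp h1
    exact hANe (le_antisymm hAN hall)
  have hpow2 : (2 ^ m : ℤ) = 4 * 2 ^ (m - 2) := by
    have : m = (m - 2) + 2 := by omega
    conv_lhs => rw [this, pow_add]
    ring
  have h4m : (4 : ℤ) ∣ 2 ^ m := ⟨_, hpow2⟩
  have hsodd : ∀ g, ¬ (2 : ℤ) ∣ s g := by
    rintro g ⟨t, ht⟩
    have h1 : g * a ^ ((2 : ℤ) * 2 ^ (m - 2)) * g⁻¹ = 1 := by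
      rw [hsz, hone, ht, hpow2]
      exact ⟨t, by ring⟩
    have h2 : a ^ ((2 : ℤ) * 2 ^ (m - 2)) = 1 := by
      have h3 : a ^ ((2 : ℤ) * 2 ^ (m - 2)) = g⁻¹ * (g * a ^ ((2 : ℤ) * 2 ^ (m - 2)) * g⁻¹) * g := by group
      rw [h3, h1]; group
    rw [hone, hpow2] at h2
    have hpos : (0 : ℤ) < 2 * 2 ^ (m - 2) := by positivity
    have := Int.le_of_dvd hpos h2
    nlinarith [pow_pos (show (0 : ℤ) < 2 by norm_num) (m - 2)]
  have hsmul : ∀ g k : G, (4 : ℤ) ∣ s (g * k) - s g * s k := by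
    intro g k
    refine h4m.trans ?_
    rw [← heq]
    have h1 : (g * k) * a * (g * k)⁻¹ = g * (k * a * k⁻¹) * g⁻¹ := by group
    rw [← hs (g * k), h1, hs k, hsz]
  -- the exponents of elements of `N` are 1 modulo 4
  let K : Subgroup G :=
    { carrier := {g | s g % 4 = 1}
      one_mem' := by
        have h1 := hsmul 1 1
        rw [one_mul] at h1
        have h2 : s 1 % 2 ≠ 0 := by have := hsodd 1; omega
        rcases odd_of _ (hsodd 1) with h' | h'
        · exact h'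
        · exfalso
          have h3 : s 1 * s 1 % 4 = 1 := by rw [Int.mul_emod, h']; norm_num
          omega
      mul_mem' := by
        intro g k hg hk
        have h1 := hsmul g k
        have hg' : s g % 4 = 1 := hg
        have hk' : s k % 4 = 1 := hk
        have h3 : s g * s k % 4 = 1 := by rw [Int.mul_emod, hg', hk']; norm_num
        show s (g * k) % 4 = 1
        omega
      inv_mem' := by
        intro g hg
        have hg' : s g % 4 = 1 := hg
        have h1 := hsmul g g⁻¹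
        rw [mul_inv_cancel] at h1
        have h2 : s 1 % 4 = 1 := by
          have h1 := hsmul 1 1
          rw [one_mul] at h1
          rcases odd_of _ (hsodd 1) with h' | h'
          · exact h'
          · exfalso
            have h3 : s 1 * s 1 % 4 = 1 := by rw [Int.mul_emod, h']; norm_num
            omega
        rcases odd_of _ (hsodd g⁻¹) with h' | h'
        · exact h'
        · exfalso
          have h3 : s g * s g⁻¹ % 4 = 3 := by rw [Int.mul_emod, hg', h']; norm_num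
          omega }
  have hK : ∀ g, g ∈ K ↔ s g % 4 = 1 := fun g => Iff.rfl
  have hNs : ∀ g ∈ N, s g % 4 = 1 := by
    intro g hg
    by_cases hall : ∀ k : G, s k % 4 = 1
    · exact hall g
    push Not at hall
    obtain ⟨k, hk⟩ := hall
    have hk3 : s k % 4 = 3 := (odd_of _ (hsodd k)).resolve_left hk
    have hKi : K.index = 2 := by
      rw [Subgroup.index_eq_two_iff]
      refine ⟨k, fun b => ?_⟩
      rw [hK, hK]
      have h1 := hsmul b k
      rcases odd_of _ (hsodd b) with h' | h'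
      · right
        refine ⟨h', ?_⟩
        have h3 : s b * s k % 4 = 3 := by rw [Int.mul_emod, h', hk3]; norm_num
        omega
      · left
        have h3 : s b * s k % 4 = 1 := by rw [Int.mul_emod, h', hk3]; norm_num
        refine ⟨?_, ?_⟩ <;> omega
    exact hNF K hKi hg
  -- an element `c` outside `A` with square in `A` and exponent 1 modulo 4
  obtain ⟨c, hcN, hcA, hc2, hc4⟩ : ∃ c ∈ N, c ∉ A ∧ c ^ 2 ∈ A ∧ s c % 4 = 1 := by
    obtain ⟨k, hkN, hk⟩ : ∃ k ∈ N, k ∉ A := by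
      by_contra h'
      push Not at h'
      exact hANe (le_antisymm hAN h')
    obtain ⟨n0, hn0⟩ := h k
    have hP : ∃ j, k ^ (2 ^ j) ∈ A := ⟨n0, by rw [hn0]; exact A.one_mem⟩
    let j := Nat.find hP
    have hj : k ^ (2 ^ j) ∈ A := Nat.find_spec hP
    have hjmin : ∀ i, i < j → k ^ (2 ^ i) ∉ A := fun i hi => Nat.find_min hP hi
    have hj1 : 1 ≤ j := by
      by_contra hlt
      have h0 : j = 0 := by omega
      rw [h0, pow_zero, pow_one] at hj
      exact hk hj
    refine ⟨k ^ (2 ^ (j - 1)), N.pow_mem hkN _, hjmin _ (by omega), ?_, hNs _ (N.pow_mem hkN _)⟩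
    rw [← pow_mul, ← pow_succ, show j - 1 + 1 = j by omega]; exact hj
  -- the exponent of `c`
  have hcs2 : (2 ^ m : ℤ) ∣ s c ^ 2 - 1 := by
    rw [← heq]
    have h1 : c ^ 2 * a * (c ^ 2)⁻¹ = a := by
      rw [hAc _ hc2 a haA]; group
    have h2 : c ^ 2 * a * (c ^ 2)⁻¹ = c * (c * a * c⁻¹) * c⁻¹ := by rw [sq]; group
    rw [h2, hs c, hsz, ← sq] at h1
    rw [h1, zpow_one]
  have hcs1 : ¬ (2 ^ m : ℤ) ∣ s c - 1 := by
    rw [← heq]
    intro h'
    apply hcA
    apply hAC' c hcN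
    rw [← hs c, zpow_one] at h'
    exact mul_inv_eq_iff_eq_mul.mp h'
  have hm3 : 3 ≤ m := by
    by_contra hm3
    have : m = 2 := by omega
    subst this
    apply hcs1
    have : (2 ^ 2 : ℤ) = 4 := by norm_num
    rw [this]; omega
  obtain ⟨k, rfl⟩ : ∃ k, m = k + 3 := ⟨m - 3, by omega⟩
  have h8 : (2 ^ (k + 3) : ℤ) = 8 * 2 ^ k := by rw [pow_add]; ring
  rw [h8] at hcs1 hcs2
  have hcs := nt1 k (s c) hc4 hcs2 hcs1
  simp only [h8] at hone heq
  set q : ℤ := 2 ^ k with hq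
  have hcq : c * a * c⁻¹ = a ^ (1 + 4 * q) := by
    rw [hs c, heq]
    have : s c - (1 + 4 * q) = s c - 1 - 4 * q := by ring
    rw [this]; exact hcs
  have hcqz : ∀ n : ℤ, c * a ^ n * c⁻¹ = a ^ ((1 + 4 * q) * n) := by
    intro n
    rw [← conj_zpow, hcq, ← zpow_mul]
  have hqpos : 0 < q := by positivity
  let z : G := a ^ (4 * q)
  have hz2 : z ^ 2 = 1 := by
    simp only [z]
    rw [← zpow_natCast, ← zpow_mul, hone]
    exact ⟨1, by push_cast; ring⟩
  have hz1 : z ≠ 1 := by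
    simp only [z]
    rw [Ne, hone]
    intro h'
    have := Int.le_of_dvd (by positivity) h'
    omega
  have hzodd : ∀ n : ℤ, ¬ (2 : ℤ) ∣ n → a ^ (4 * q * n) = z := by
    intro n hn
    simp only [z]
    rw [heq]
    obtain ⟨w, hw⟩ : ∃ w, n = 2 * w + 1 := ⟨n / 2, by omega⟩
    exact ⟨w, by rw [hw]; ring⟩
  have hzc : ∀ g : G, g * z * g⁻¹ = z := by
    intro g
    simp only [z]
    rw [hsz, mul_comm (s g)]
    exact hzodd _ (hsodd g)
  -- the involution `x`
  obtain ⟨i, hi⟩ := (hAz _).mp hc2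
  have hieven : (2 : ℤ) ∣ i := by
    by_contra hodd
    have h1 : c * a ^ i * c⁻¹ = a ^ i := by rw [hi, sq]; group
    rw [hcqz, heq] at h1
    have h2 : a ^ (4 * q * i) = 1 := by
      rw [hone]
      have : (1 + 4 * q) * i - i = 4 * q * i := by ring
      rw [this] at h1; exact h1
    rw [hzodd i hodd] at h2
    exact hz1 h2
  obtain ⟨l, hl⟩ := hieven
  let j : ℤ := -l * (1 - 2 * q)
  let x : G := c * a ^ j
  have hx2 : x ^ 2 = 1 := by
    have e1 : x ^ 2 = (c * a ^ j * c⁻¹) * c ^ 2 * a ^ j := by simp only [x, sq]; group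
    rw [e1, hcqz, ← hi, ← zpow_add, ← zpow_add, hone]
    refine ⟨q * l, ?_⟩
    simp only [j]
    rw [hl]; ring
  have hxA : x ∉ A := by
    intro h'
    apply hcA
    have : c = x * (a ^ j)⁻¹ := by simp only [x]; group
    rw [this]; exact A.mul_mem h' (A.inv_mem (A.zpow_mem haA j))
  have hzA : z ∈ A := A.zpow_mem haA _
  have hxact : ∀ n : ℤ, x * a ^ n * x⁻¹ = a ^ ((1 + 4 * q) * n) := by
    intro n
    have : x * a ^ n * x⁻¹ = c * a ^ n * c⁻¹ := by simp only [x]; group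
    rw [this, hcqz]
  have hxN : x ∈ N := N.mul_mem hcN (hAN (A.zpow_mem haA j))
  refine klein_of_le N z x (hAN hzA) hxN hz2 hz1 hzc hx2 (fun h' => hxA (h' ▸ A.one_mem)) (fun h' => hxA (h' ▸ hzA)) ?_
  intro g
  set y := g * x * g⁻¹ with hy
  have hy2 : y ^ 2 = 1 := by
    have : y ^ 2 = g * x ^ 2 * g⁻¹ := by rw [hy]; simp only [sq]; group
    rw [this, hx2]; group
  have hyact : y * a * y⁻¹ = a ^ (1 + 4 * q) := by
    have h1 : y * a * y⁻¹ = g * (x * (g⁻¹ * a * g⁻¹⁻¹) * x⁻¹) * g⁻¹ := by rw [hy]; group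
    rw [h1, hs g⁻¹, hxact]
    have h2 : (1 + 4 * q) * s g⁻¹ = s g⁻¹ + 4 * q * s g⁻¹ := by ring
    rw [h2, zpow_add, hzodd _ (hsodd g⁻¹), ← hs g⁻¹]
    have h3 : g * (g⁻¹ * a * g⁻¹⁻¹ * z) * g⁻¹ = a * (g * z * g⁻¹) := by group
    rw [h3, hzc, zpow_add, zpow_one]
  have hxyA : x⁻¹ * y ∈ A := by
    apply hAC' _ (N.mul_mem (N.inv_mem hxN) (hN.conj_mem x hxN g))
    have h1 : x * a * x⁻¹ = a ^ (1 + 4 * q) := by
      have := hxact 1
      rw [zpow_one, mul_one] at this; exact this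
    have h2 : y * a * y⁻¹ = x * a * x⁻¹ := by rw [hyact, h1]
    calc x⁻¹ * y * a = x⁻¹ * (y * a * y⁻¹) * y := by group
      _ = x⁻¹ * (x * a * x⁻¹) * y := by rw [h2]
      _ = a * (x⁻¹ * y) := by group
  obtain ⟨n, hn⟩ := (hAz _).mp hxyA
  have hyx : y = x * a ^ n := by rw [hn]; group
  have hfin : a ^ ((1 + 4 * q) * n + n) = 1 := by
    rw [zpow_add, ← hxact]
    have h1 : x * a ^ n * x⁻¹ * a ^ n = (x * a ^ n) * (x⁻¹ ^ 2 * (x * a ^ n)) := by simp only [sq]; group
    have h2 : x⁻¹ ^ 2 = 1 := by rw [inv_pow, hx2, inv_one]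
    rw [h1, h2, one_mul, ← hyx, ← sq, hy2]
  rw [hone] at hfin
  have hn4 := nt2 k n (by
    have : (2 : ℤ) * n + 4 * 2 ^ k * n = (1 + 4 * q) * n + n := by rw [hq]; ring
    rw [this]; exact hfin)
  obtain ⟨w, hw⟩ := hn4
  by_cases hw2 : (2 : ℤ) ∣ w
  · left
    have : a ^ n = 1 := by
      rw [hone, hw]
      obtain ⟨w', rfl⟩ := hw2
      exact ⟨w', by rw [hq]; ring⟩
    rw [hyx, this, mul_one]
  · right
    rw [hyx, hw, ← hq, hzodd w hw2]


end Pool.Agent.Zk59.ST
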