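import Pool.Agent.Zk59.ST.Asm

set_option autoImplicit false

/-!
# The free labels: involutions, and elements outside a subgroup of index two
-/

namespace Pool.Agent.Zk59.ST

open Classical

variable {G : Type} [Group G]

/-- An involution forms a block of one point. -/
theorem hasBlock_top (d : G) (hd : d ^ 2 = 1) : HasBlock (⊤ : Subgroup G) {d} := by
  have hs : ∀ a b : G ⧸ (⊤ : Subgroup G), a = b := by
    intro a b
    induction a using QuotientGroup.induction_on with
    | H a => induction b using QuotientGroup.induction_on with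
      | H b => rw [QuotientGroup.eq]; trivial
  refine ⟨fun _ => ((1 : G) : G ⧸ (⊤ : Subgroup G)), ?_, ?_, ?_, ?_⟩
  · intro q; exact ⟨d, Finset.mem_singleton_self d, Or.inl (hs _ _)⟩
  · intro a ha b hb hne
    rw [Finset.mem_singleton] at ha hb
    exact absurd (ha.trans hb.symm) hne
  · intro a ha h2
    rw [Finset.mem_singleton] at ha
    exact absurd (ha ▸ hd) h2
  · intro a ha _
    exact hs _ _

/-- An element outside a subgroup of index two forms a block of two points. -/
theorem hasBlock_two (K : Subgroup G) (hK : K.index = 2) (d : G) (hdK : d ∉ K) (hd : d ^ 2 ≠ 1) :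
    HasBlock K {d} := by
  have hne : d • ((1 : G) : G ⧸ K) ≠ ((1 : G) : G ⧸ K) := by
    intro h
    have h' : ((d * 1 : G) : G ⧸ K) = ((1 : G) : G ⧸ K) := h
    have h2 := h'.symm
    rw [QuotientGroup.eq] at h2
    apply hdK; simpa using h2
  refine ⟨fun _ => ((1 : G) : G ⧸ K), ?_, ?_, ?_, ?_⟩
  · intro q
    refine ⟨d, Finset.mem_singleton_self d, ?_⟩
    induction q using QuotientGroup.induction_on with
    | H g =>
      by_cases hg : g ∈ K
      · left
        have : ((1 : G) : G ⧸ K) = (g : G ⧸ K) := by rw [QuotientGroup.eq]; simpa using hg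
        exact this.symm
      · right
        show (g : G ⧸ K) = ((d * 1 : G) : G ⧸ K)
        have : ((d * 1 : G) : G ⧸ K) = (g : G ⧸ K) := by
          rw [QuotientGroup.eq, mul_one, Subgroup.mul_mem_iff_of_index_two hK]
          constructor
          · intro h; exact absurd (by simpa using h) hdK
          · intro h; exact absurd h hg
        exact this.symm
  · intro a ha b hb hne'
    rw [Finset.mem_singleton] at ha hb
    exact absurd (ha.trans hb.symm) hne'
  · intro a ha h2
    rw [Finset.mem_singleton] at ha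
    rw [ha]; exact hne
  · intro a ha h2
    rw [Finset.mem_singleton] at ha
    exact absurd (ha ▸ h2) hd

/-- A starter from blocks that cover all non-involutions in the intersection of the subgroups of index two. -/
theorem of_special [Finite G] {β : Type} [Fintype β] (H : β → Subgroup G) (L : β → Finset G)
    (hB : ∀ b, HasBlock (H b) (L b)) (h1 : ∀ b, ∀ d ∈ L b, d ≠ 1)
    (huniq : ∀ b b' d d', d ∈ L b → d' ∈ L b' → (d' = d ∨ d' = d⁻¹) → b = b' ∧ d' = d)
    (hcov : ∀ f : G, f ^ 2 ≠ 1 → (∀ K : Subgroup G, K.index = 2 → f ∈ K) → ∃ b, f ∈ L b ∨ f⁻¹ ∈ L b) :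
    HasStarter G := by
  have : Fintype G := Fintype.ofFinite G
  let r : G → ℕ := fun g => ((Fintype.equivFin G) g : ℕ)
  have hr : Function.Injective r := fun a b h => (Fintype.equivFin G).injective (Fin.ext h)
  let R : Finset G := Finset.univ.filter
    (fun g => g ≠ 1 ∧ (∀ b, g ∉ L b ∧ g⁻¹ ∉ L b) ∧ (g ^ 2 = 1 ∨ r g < r g⁻¹))
  have hR : ∀ g, g ∈ R ↔ g ≠ 1 ∧ (∀ b, g ∉ L b ∧ g⁻¹ ∉ L b) ∧ (g ^ 2 = 1 ∨ r g < r g⁻¹) := by
    intro g; simp [R]
  have hK : ∀ g : R, ∃ K : Subgroup G, HasBlock K {(g : G)} := by
    rintro ⟨g, hg⟩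
    rw [hR] at hg
    by_cases h2 : g ^ 2 = 1
    · exact ⟨⊤, hasBlock_top g h2⟩
    · by_cases hF : ∀ K : Subgroup G, K.index = 2 → g ∈ K
      · obtain ⟨b, hb⟩ := hcov g h2 hF
        rcases hb with hb | hb
        · exact absurd hb (hg.2.1 b).1
        · exact absurd hb (hg.2.1 b).2
      · push Not at hF
        obtain ⟨K, hK2, hgK⟩ := hF
        exact ⟨K, hasBlock_two K hK2 g hgK h2⟩
  choose KK hKK using hK
  refine of_blocks (β := β ⊕ R) (Sum.elim H KK) (Sum.elim L (fun g => {(g : G)})) ?_ ?_ ?_ ?_
  · rintro (b | g)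
    · exact hB b
    · exact hKK g
  · rintro (b | g) d hd
    · exact h1 b d hd
    · simp only [Sum.elim_inr, Finset.mem_singleton] at hd
      have := (hR _).mp g.2
      rw [hd]; exact this.1
  · have hinvL : ∀ (b : β) (g : R) (d d' : G), d ∈ L b → d' = (g : G) → (d' = d ∨ d' = d⁻¹) → False := by
      intro b g d d' hd hd' h
      have h3 := ((hR _).mp g.2).2.1 b
      rcases h with h | h
      · apply h3.1; rw [← hd', h]; exact hd
      · apply h3.2; rw [← hd', h, inv_inv]; exact hd
    rintro (b | g) (b' | g') d d' hd hd' h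
    · obtain ⟨h3, h4⟩ := huniq b b' d d' hd hd' h
      exact ⟨by rw [h3], h4⟩
    · simp only [Sum.elim_inr, Finset.mem_singleton] at hd'
      exact (hinvL b g' d d' hd hd' h).elim
    · simp only [Sum.elim_inr, Finset.mem_singleton] at hd
      refine (hinvL b' g d' d hd' hd ?_).elim
      rcases h with h | h
      · left; exact h.symm
      · right; rw [h, inv_inv]
    · simp only [Sum.elim_inr, Finset.mem_singleton] at hd hd'
      have e1 := ((hR _).mp g.2).2.2
      have e2 := ((hR _).mp g'.2).2.2
      have : d' = d := by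
        rcases h with h | h
        · exact h
        · by_cases h2 : d ^ 2 = 1
          · rw [h, inv_eq_iff_mul_eq_one, ← sq, h2]
          · exfalso
            rw [← hd] at e1
            rw [← hd', h] at e2
            rcases e1 with e1 | e1
            · exact h2 e1
            · rcases e2 with e2 | e2
              · apply h2
                rw [inv_pow] at e2
                exact inv_eq_one.mp e2
              · rw [inv_inv] at e2
                exact absurd (e1.trans e2) (lt_irrefl _)
      refine ⟨?_, this⟩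
      congr 1
      apply Subtype.ext
      rw [← hd, ← hd', this]
  · intro g hg
    by_cases hL : ∃ b, g ∈ L b ∨ g⁻¹ ∈ L b
    · obtain ⟨b, hb⟩ := hL
      exact ⟨Sum.inl b, hb⟩
    · push Not at hL
      by_cases h2 : g ^ 2 = 1
      · exact ⟨Sum.inr ⟨g, (hR g).mpr ⟨hg, hL, Or.inl h2⟩⟩, Or.inl (by simp)⟩
      · have hne : r g ≠ r g⁻¹ := by
          intro h
          apply h2
          have h3 := hr h
          rw [sq]; nth_rw 2 [h3]; simp
        rcases lt_or_gt_of_ne hne with h | h
        · exact ⟨Sum.inr ⟨g, (hR g).mpr ⟨hg, hL, Or.inr h⟩⟩, Or.inl (by simp)⟩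
        · refine ⟨Sum.inr ⟨g⁻¹, (hR g⁻¹).mpr ⟨inv_ne_one.mpr hg, ?_, Or.inr ?_⟩⟩, Or.inr (by simp)⟩
          · intro b
            refine ⟨(hL b).2, ?_⟩
            rw [inv_inv]; exact (hL b).1
          · rw [inv_inv]; exact h

end Pool.Agent.Zk59.ST
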