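import Pool.Agent.Zk59.ST.Reps

set_option autoImplicit false

/-!
# Blocks of four points, and the second theorem
-/

namespace Pool.Agent.Zk59.ST

open Classical

variable {G : Type} [Group G]

/-- A block of four points. -/
theorem hasBlock_four (H M : Subgroup G) (hM : M.index = 2) (hHM : H ≤ M)
    (hH : ∀ a ∈ M, ∀ b ∈ M, a ∉ H → b ∉ H → a⁻¹ * b ∈ H) (g : G) (hg : g ∉ M) (x y : G) (hx : x ∈ M) (hy : y ∈ M)
    (hxH : x ∉ H) (hyH : g⁻¹ * y * g ∉ H) (hxy : x ≠ y) (hx2 : x ^ 2 ≠ 1) (hy2 : y ^ 2 ≠ 1) :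
    HasBlock H {x, y} := by
  have hMM : ∀ a : G, a ∉ M → g⁻¹ * a ∈ M := by
    intro a ha
    rw [Subgroup.mul_mem_iff_of_index_two hM]
    constructor
    · intro h; exact absurd (by simpa using h) hg
    · intro h; exact absurd h ha
  have hMn : M.Normal := Subgroup.normal_of_index_eq_two hM
  have hconj : g⁻¹ * y * g ∈ M := by
    have := hMn.conj_mem y hy g⁻¹
    simpa using this
  let p : G → G ⧸ H := fun d => if d = x then ((1 : G) : G ⧸ H) else (g : G ⧸ H)
  have hpx : p x = ((1 : G) : G ⧸ H) := by simp [p]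
  have hpy : p y = (g : G ⧸ H) := by simp [p, hxy.symm]
  have hactx : x • ((1 : G) : G ⧸ H) = (x : G ⧸ H) := by
    show ((x * 1 : G) : G ⧸ H) = _
    rw [mul_one]
  have hacty : y • ((g : G) : G ⧸ H) = ((y * g : G) : G ⧸ H) := rfl
  have hygM : y * g ∉ M := by
    intro h
    apply hg
    have : g = y⁻¹ * (y * g) := by group
    rw [this]; exact M.mul_mem (M.inv_mem hy) h
  -- elements of `M` and the others are in different cosets
  have hdiff : ∀ a b : G, a ∈ M → b ∉ M → (a : G ⧸ H) ≠ (b : G ⧸ H) := by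
    intro a b ha hb h
    rw [QuotientGroup.eq] at h
    apply hb
    have : b = a * (a⁻¹ * b) := by group
    rw [this]; exact M.mul_mem ha (hHM h)
  refine ⟨p, ?_, ?_, ?_, ?_⟩
  · intro q
    induction q using QuotientGroup.induction_on with
    | H a =>
      by_cases haM : a ∈ M
      · refine ⟨x, by simp, ?_⟩
        rw [hpx, hactx]
        by_cases haH : a ∈ H
        · left
          have : ((1 : G) : G ⧸ H) = (a : G ⧸ H) := by rw [QuotientGroup.eq]; simpa using haH
          exact this.symm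
        · right
          have : (x : G ⧸ H) = (a : G ⧸ H) := by
            rw [QuotientGroup.eq]; exact hH x hx a haM hxH haH
          exact this.symm
      · refine ⟨y, by simp, ?_⟩
        rw [hpy, hacty]
        by_cases haH : g⁻¹ * a ∈ H
        · left
          have : ((g : G) : G ⧸ H) = (a : G ⧸ H) := by rw [QuotientGroup.eq]; exact haH
          exact this.symm
        · right
          have : ((y * g : G) : G ⧸ H) = (a : G ⧸ H) := by
            rw [QuotientGroup.eq]
            have h1 := hH _ hconj _ (hMM a haM) hyH haH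
            have h2 : (g⁻¹ * y * g)⁻¹ * (g⁻¹ * a) = (y * g)⁻¹ * a := by group
            rw [h2] at h1; exact h1
          exact this.symm
  · have key : (p x ≠ p y ∧ p x ≠ y • p y ∧ x • p x ≠ y • p y) ∧
        (p y ≠ p x ∧ p y ≠ x • p x ∧ y • p y ≠ x • p x) := by
      rw [hpx, hpy, hactx, hacty]
      refine ⟨⟨hdiff 1 g M.one_mem hg, hdiff 1 _ M.one_mem hygM, hdiff x _ hx hygM⟩,
        ⟨(hdiff 1 g M.one_mem hg).symm, (hdiff x g hx hg).symm, (hdiff x _ hx hygM).symm⟩⟩
    intro d hd d' hd' hne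
    rw [Finset.mem_insert, Finset.mem_singleton] at hd hd'
    rcases hd with rfl | rfl <;> rcases hd' with rfl | rfl
    · exact absurd rfl hne
    · exact key.1
    · exact key.2
    · exact absurd rfl hne
  · intro d hd _
    rw [Finset.mem_insert, Finset.mem_singleton] at hd
    rcases hd with rfl | rfl
    · rw [hpx, hactx]
      intro h
      have h' := h.symm
      rw [QuotientGroup.eq] at h'
      apply hxH; simpa using h'
    · rw [hpy, hacty]
      intro h
      have h' := h.symm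
      rw [QuotientGroup.eq] at h'
      apply hyH
      have : g⁻¹ * d * g = g⁻¹ * (d * g) := by group
      rw [this]; exact h'
  · intro d hd h2
    rw [Finset.mem_insert, Finset.mem_singleton] at hd
    rcases hd with rfl | rfl
    · exact absurd h2 hx2
    · exact absurd h2 hy2

/-- A starter from one big block and blocks of four points. -/
theorem starter_of_two [Finite G] (M V F : Subgroup G) [V.Normal] [F.Normal] (hM : M.index = 2) (hVM : V ≤ M)
    (hVinv : ∀ v ∈ V, v ^ 2 = 1) (hV4 : 4 ≤ Nat.card V) (hinv : ∀ g : G, g ^ 2 = 1 → g ∈ M)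
    (hF : ∀ f : G, (∀ K : Subgroup G, K.index = 2 → f ∈ K) → f ∈ F) (hFM : F ≤ M)
    (M1 H : Subgroup G) (hM1 : M1.index = 2) (hHM1 : H ≤ M1) (hFM1 : F ≤ M1)
    (hH : ∀ a ∈ M1, ∀ b ∈ M1, a ∉ H → b ∉ H → a⁻¹ * b ∈ H) (hFH : ¬ F ≤ H)
    (hc : Nat.card F * Nat.card V ≤ 2 * Nat.card M) (hc2 : 2 * Nat.card V ≤ Nat.card M)
    (h2 : IsPGroup 2 F) : HasStarter G := by
  have : Fintype G := Fintype.ofFinite G
  have hFn : F.Normal := inferInstance
  have hM1n : M1.Normal := Subgroup.normal_of_index_eq_two hM1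
  obtain ⟨g, hg⟩ : ∃ g : G, g ∉ M1 := by
    by_contra h
    push Not at h
    have : M1 = ⊤ := by ext x; simp [h x]
    rw [this, Subgroup.index_top] at hM1
    omega
  have hg2 : g * g ∈ M1 := by
    rw [Subgroup.mul_mem_iff_of_index_two hM1]
  -- `H` is normalised by `M1`
  have hHn : ∀ m ∈ M1, ∀ h : G, h ∈ H → m * h * m⁻¹ ∈ H := by
    intro m hm h hh
    by_cases hmH : m ∈ H
    · exact H.mul_mem (H.mul_mem hmH hh) (H.inv_mem hmH)
    · by_contra hcon
      have h1 : m * h * m⁻¹ ∈ M1 := M1.mul_mem (M1.mul_mem hm (hHM1 hh)) (M1.inv_mem hm)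
      have h3 : (m * h)⁻¹ ∉ H := by
        intro h'
        apply hmH
        have h5 := H.inv_mem h'
        rw [inv_inv] at h5
        have : m = (m * h) * h⁻¹ := by group
        rw [this]; exact H.mul_mem h5 (H.inv_mem hh)
      have h4 := hH (m * h * m⁻¹) h1 ((m * h)) (M1.mul_mem hm (hHM1 hh)) hcon (fun h' => h3 (H.inv_mem h'))
      have h5 : (m * h * m⁻¹)⁻¹ * (m * h) = m := by group
      rw [h5] at h4
      exact hmH h4
  -- the three kinds of elements of `F` outside `R`
  let bad : G → Prop := fun f => g⁻¹ * f * g ∈ H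
  let S : (G → Prop) → Finset G := fun P => Finset.univ.filter (fun f => f ∈ F ∧ f ^ 2 ≠ 1 ∧ P f)
  have hS : ∀ P f, f ∈ S P ↔ f ∈ F ∧ f ^ 2 ≠ 1 ∧ P f := by intro P f; simp [S]
  have hSinv : ∀ P : G → Prop, (∀ f, P f → P f⁻¹) → ∀ f ∈ S P, f⁻¹ ∈ S P := by
    intro P hP f hf
    rw [hS] at hf ⊢
    refine ⟨F.inv_mem hf.1, ?_, hP f hf.2.2⟩
    intro h; apply hf.2.1
    rw [inv_pow] at h; exact inv_eq_one.mp h
  have hbadinv : ∀ f, bad f ↔ bad f⁻¹ := by
    intro f
    have e1 : g⁻¹ * f⁻¹ * g = (g⁻¹ * f * g)⁻¹ := by group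
    simp only [bad]
    rw [e1, inv_mem_iff]
  obtain ⟨DR, hDR1, hDR2, hDR3, hDR4⟩ := exists_reps (S (fun f => f ∈ H ∧ bad f))
    (hSinv _ (fun f hf => ⟨H.inv_mem hf.1, (hbadinv f).mp hf.2⟩)) (fun s hs => ((hS _ s).mp hs).2.1)
  obtain ⟨DW, hDW1, hDW2, hDW3, hDW4⟩ := exists_reps (S (fun f => f ∈ H ∧ ¬ bad f))
    (hSinv _ (fun f hf => ⟨H.inv_mem hf.1, fun h => hf.2 ((hbadinv f).mpr h)⟩)) (fun s hs => ((hS _ s).mp hs).2.1)
  obtain ⟨DU, hDU1, hDU2, hDU3, hDU4⟩ := exists_reps (S (fun f => f ∉ H ∧ ¬ bad f))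
    (hSinv _ (fun f hf => ⟨fun h => hf.1 (by simpa using H.inv_mem h), fun h => hf.2 ((hbadinv f).mpr h)⟩))
    (fun s hs => ((hS _ s).mp hs).2.1)
  obtain ⟨P, E, hED, hEc, hP1, hP2, hP3⟩ := exists_pairing DU
  -- conjugation by `g` exchanges the two kinds
  have hW1 : ∀ w, w ∈ H → w ∈ F → ¬ bad w → g * w * g⁻¹ ∉ H ∧ bad (g * w * g⁻¹) := by
    intro w hw hwF hwb
    constructor
    · intro h
      apply hwb
      simp only [bad]
      have h1 := hHn _ (M1.inv_mem hg2) _ h
      have e1 : (g * g)⁻¹ * (g * w * g⁻¹) * ((g * g)⁻¹)⁻¹ = g⁻¹ * w * g := by group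
      rw [e1] at h1; exact h1
    · simp only [bad]
      have e1 : g⁻¹ * (g * w * g⁻¹) * g = w := by group
      rw [e1]; exact hw
  have hW2 : ∀ f, f ∉ H → f ∈ F → bad f → g⁻¹ * f * g ∈ S (fun f => f ∈ H ∧ ¬ bad f) ∨ f ^ 2 = 1 := by
    intro f hf hfF hfb
    by_cases hf2 : f ^ 2 = 1
    · exact Or.inr hf2
    left
    rw [hS]
    refine ⟨?_, ?_, hfb, ?_⟩
    · have := hFn.conj_mem f hfF g⁻¹
      simpa using this
    · intro h
      apply hf2
      have e1 : (g⁻¹ * f * g) ^ 2 = g⁻¹ * f ^ 2 * g := by simp only [sq]; group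
      rw [e1] at h
      have e2 : f ^ 2 = g * (g⁻¹ * f ^ 2 * g) * g⁻¹ := by group
      rw [e2, h]; group
    · intro h
      apply hf
      simp only [bad] at h
      have h1 := hHn _ hg2 _ h
      have e1 : (g * g) * (g⁻¹ * (g⁻¹ * f * g) * g) * (g * g)⁻¹ = f := by group
      rw [e1] at h1; exact h1
  have hSR : ∀ d ∈ DR, d ∈ F ∧ d ^ 2 ≠ 1 ∧ d ∈ H ∧ bad d := fun d hd => (hS _ d).mp (hDR1 hd)
  have hSW : ∀ d ∈ DW, d ∈ F ∧ d ^ 2 ≠ 1 ∧ d ∈ H ∧ ¬ bad d := fun d hd => (hS _ d).mp (hDW1 hd)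
  have hSU : ∀ d ∈ DU, d ∈ F ∧ d ^ 2 ≠ 1 ∧ d ∉ H ∧ ¬ bad d := fun d hd => (hS _ d).mp (hDU1 hd)
  -- the big block
  have hcardR : 2 * (DR ∪ E).card * Nat.card V ≤ Nat.card M := by
    have h1 : (DR ∪ E).card ≤ DR.card + 1 := (Finset.card_union_le _ _).trans (by omega)
    let R : Subgroup G := F ⊓ H
    have hRle : R ≤ F := inf_le_left
    have hRF : 2 * Nat.card R ≤ Nat.card F := by
      have hlt : R ≠ F := by
        intro h
        apply hFH
        rw [← h]; exact inf_le_right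
      have h3 : Nat.card R ∣ Nat.card F := Subgroup.card_dvd_of_le hRle
      obtain ⟨c, hc'⟩ := h3
      have hc0 : c ≠ 0 := by
        rintro rfl
        have : 0 < Nat.card F := Nat.card_pos
        omega
      have hc1 : c ≠ 1 := by
        rintro rfl
        apply hlt
        apply Subgroup.eq_of_le_of_card_ge hRle
        rw [hc', mul_one]
      rw [hc']
      have : 2 ≤ c := by omega
      rw [mul_comm]; exact Nat.mul_le_mul_left _ this
    have hSRc : (S (fun f => f ∈ H ∧ bad f)).card + 1 ≤ Nat.card R := by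
      have h4 : (Finset.univ.filter (fun f : G => f ∈ R)).card = Nat.card R := by
        rw [Nat.card_eq_fintype_card, Fintype.card_subtype]
      rw [← h4, ← Finset.card_insert_of_notMem (a := (1 : G))]
      · apply Finset.card_le_card
        intro f hf
        rw [Finset.mem_insert] at hf
        simp only [Finset.mem_filter, Finset.mem_univ, true_and]
        rcases hf with rfl | hf
        · exact R.one_mem
        · have := (hS _ f).mp hf
          exact ⟨this.1, this.2.2.1⟩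
      · intro h
        exact ((hS _ 1).mp h).2.1 (one_pow 2)
    rw [← hDR4] at hSRc
    have hpow : ∃ k, Nat.card R = 2 ^ k := by
      have h5 : IsPGroup 2 R := h2.to_le hRle
      have : Fact (Nat.Prime 2) := ⟨Nat.prime_two⟩
      exact IsPGroup.iff_card.mp h5
    obtain ⟨k, hk⟩ := hpow
    by_cases hk0 : k = 0
    · subst hk0
      rw [pow_zero] at hk
      have hDR0 : DR.card = 0 := by omega
      have : (DR ∪ E).card ≤ 1 := by omega
      calc 2 * (DR ∪ E).card * Nat.card V ≤ 2 * 1 * Nat.card V := by gcongr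
        _ ≤ Nat.card M := by simpa using hc2
    · obtain ⟨k', rfl⟩ : ∃ k', k = k' + 1 := ⟨k - 1, by omega⟩
      have h6 : 2 * (DR ∪ E).card ≤ Nat.card R := by
        have h7 : Nat.card R = 2 * 2 ^ k' := by rw [hk, pow_succ, mul_comm]
        omega
      have h8 : 2 * (2 * (DR ∪ E).card * Nat.card V) ≤ 2 * Nat.card M := by
        calc 2 * (2 * (DR ∪ E).card * Nat.card V) ≤ 2 * (Nat.card R * Nat.card V) := by gcongr
          _ = 2 * Nat.card R * Nat.card V := by ring
          _ ≤ Nat.card F * Nat.card V := by gcongr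
          _ ≤ 2 * Nat.card M := hc
      omega
  have hinvH : ∀ d, d ∈ H ↔ d⁻¹ ∈ H := fun d => inv_mem_iff.symm
  obtain ⟨L, hL1, hL2, hL3, hL4, hL5⟩ := bigBlock M V hM hVM hVinv hV4 hinv (DR ∪ E)
    (by
      intro d hd
      rcases Finset.mem_union.mp hd with h | h
      · exact hFM (hSR d h).1
      · exact hFM (hSU d (hED h)).1)
    (by
      intro d hd
      rcases Finset.mem_union.mp hd with h | h
      · exact (hSR d h).2.1
      · exact (hSU d (hED h)).2.1)
    (by
      intro d hd d' hd' h'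
      rcases Finset.mem_union.mp hd with h | h <;> rcases Finset.mem_union.mp hd' with h1 | h1
      · exact hDR3 d h d' h1 h'
      · apply (hSU d' (hED h1)).2.2.1
        rw [h', ← hinvH]; exact (hSR d h).2.2.1
      · apply (hSU d (hED h)).2.2.1
        rw [hinvH, ← h']; exact (hSR d' h1).2.2.1
      · exact hDU3 d (hED h) d' (hED h1) h')
    hcardR
  -- the pairs
  let PP : Finset (G × G) := P ∪ DW.image (fun w => (g * w * g⁻¹, w))
  have hkey : ∀ z ∈ PP, ∀ a, (a = z.1 ∨ a = z.2) → (a ∈ DU ∧ a ∉ E ∧ z ∈ P) ∨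
      (a ∈ DW ∧ z = (g * a * g⁻¹, a)) ∨ (g⁻¹ * a * g ∈ DW ∧ z = (a, g⁻¹ * a * g)) := by
    intro z hz a ha
    rcases Finset.mem_union.mp hz with h | h
    · left
      obtain ⟨h1, h3, h4, h5, _⟩ := hP1 z h
      rcases ha with rfl | rfl
      · exact ⟨h1, h4, h⟩
      · exact ⟨h3, h5, h⟩
    · rw [Finset.mem_image] at h
      obtain ⟨w, hw, rfl⟩ := h
      rcases ha with rfl | rfl
      · right; right
        have e1 : g⁻¹ * (g * w * g⁻¹) * g = w := by group
        simp only
        rw [e1]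
        exact ⟨hw, rfl⟩
      · right; left
        exact ⟨hw, rfl⟩
  -- facts about a label of the third kind
  have hthird : ∀ a, g⁻¹ * a * g ∈ DW → a ∈ F ∧ a ^ 2 ≠ 1 ∧ a ∉ H ∧ bad a := by
    intro a ha
    obtain ⟨h1, h3, h4, h5⟩ := hSW _ ha
    have e1 : g * (g⁻¹ * a * g) * g⁻¹ = a := by group
    have h6 := hFn.conj_mem _ h1 g
    rw [e1] at h6
    obtain ⟨h7, h8⟩ := hW1 _ h4 h1 h5
    rw [e1] at h7 h8
    refine ⟨h6, ?_, h7, h8⟩
    intro h9
    apply h3
    have e2 : (g⁻¹ * a * g) ^ 2 = g⁻¹ * a ^ 2 * g := by simp only [sq]; group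
    rw [e2, h9]; group
  have hlabF : ∀ z ∈ PP, ∀ a, (a = z.1 ∨ a = z.2) → a ∈ F ∧ a ^ 2 ≠ 1 ∧ ¬ (a ∈ H ∧ bad a) := by
    intro z hz a ha
    rcases hkey z hz a ha with ⟨h, _, _⟩ | ⟨h, _⟩ | ⟨h, _⟩
    · obtain ⟨h1, h3, h4, h5⟩ := hSU a h
      exact ⟨h1, h3, fun h => h4 h.1⟩
    · obtain ⟨h1, h3, h4, h5⟩ := hSW a h
      exact ⟨h1, h3, fun h => h5 h.2⟩
    · obtain ⟨h1, h3, h4, h5⟩ := hthird a h
      exact ⟨h1, h3, fun h => h4 h.1⟩
  have hPPblock : ∀ z ∈ PP, HasBlock H {z.1, z.2} := by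
    intro z hz
    rcases Finset.mem_union.mp hz with h | h
    · obtain ⟨h1, h3, h4, h5, h6⟩ := hP1 z h
      obtain ⟨a1, a2, a3, a4⟩ := hSU _ h1
      obtain ⟨b1, b2, b3, b4⟩ := hSU _ h3
      exact hasBlock_four H M1 hM1 hHM1 hH g hg z.1 z.2 (hFM1 a1) (hFM1 b1) a3 b4 h6 a2 b2
    · rw [Finset.mem_image] at h
      obtain ⟨w, hw, rfl⟩ := h
      obtain ⟨b1, b2, b3, b4⟩ := hSW _ hw
      have e1 : g⁻¹ * (g * w * g⁻¹) * g = w := by group
      obtain ⟨a1, a2, a3, a4⟩ := hthird (g * w * g⁻¹) (by rw [e1]; exact hw)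
      exact hasBlock_four H M1 hM1 hHM1 hH g hg (g * w * g⁻¹) w (hFM1 a1) (hFM1 b1) a3 b4
        (fun h => a3 (by rw [h]; exact b3)) a2 b2
  have hsep : ∀ z ∈ PP, ∀ z' ∈ PP, ∀ a b, (a = z.1 ∨ a = z.2) → (b = z'.1 ∨ b = z'.2) → (b = a ∨ b = a⁻¹) →
      z = z' ∧ b = a := by
    intro z hz z' hz' a b ha hb hab
    have hHab : a ∈ H ↔ b ∈ H := by
      rcases hab with h | h
      · rw [h]
      · rw [h]; exact hinvH a
    have hbab : bad a ↔ bad b := by
      rcases hab with h | h
      · rw [h]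
      · rw [h]; exact hbadinv a
    rcases hkey z hz a ha with ⟨h1, h3, h4⟩ | ⟨h1, h3⟩ | ⟨h1, h3⟩ <;>
      rcases hkey z' hz' b hb with ⟨k1, k3, k4⟩ | ⟨k1, k3⟩ | ⟨k1, k3⟩
    · have hba : b = a := by
        rcases hab with h | h
        · exact h
        · exact absurd h (hDU3 a h1 b k1)
      refine ⟨?_, hba⟩
      apply hP2 z h4 z' k4
      rw [hba] at hb
      rcases ha with ha | ha <;> rcases hb with hb | hb
      · left; rw [← ha, ← hb]
      · right; left; rw [← ha, ← hb]
      · right; right; left; rw [← ha, ← hb]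
      · right; right; right; rw [← ha, ← hb]
    · exact absurd (hHab.mpr (hSW b k1).2.2.1) (hSU a h1).2.2.1
    · exact absurd (hbab.mpr (hthird b k1).2.2.2) (hSU a h1).2.2.2
    · exact absurd (hHab.mp (hSW a h1).2.2.1) (hSU b k1).2.2.1
    · have hba : b = a := by
        rcases hab with h | h
        · exact h
        · exact absurd h (hDW3 a h1 b k1)
      refine ⟨?_, hba⟩
      rw [h3, k3, hba]
    · exact absurd (hHab.mp (hSW a h1).2.2.1) (hthird b k1).2.2.1
    · exact absurd (hbab.mp (hthird a h1).2.2.2) (hSU b k1).2.2.2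
    · exact absurd (hHab.mpr (hSW b k1).2.2.1) (hthird a h1).2.2.1
    · have hba : b = a := by
        rcases hab with h | h
        · exact h
        · exfalso
          apply hDW3 _ h1 _ k1
          rw [h]; group
      refine ⟨?_, hba⟩
      rw [h3, k3, hba]
  have hLsep : ∀ z ∈ PP, ∀ a b, (a = z.1 ∨ a = z.2) → b ∈ L → (b = a ∨ b = a⁻¹) → False := by
    intro z hz a b ha hb hab
    obtain ⟨haF, ha2, haH⟩ := hlabF z hz a ha
    have hbF : b ∈ F := by
      rcases hab with h | h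
      · rw [h]; exact haF
      · rw [h]; exact F.inv_mem haF
    rcases hL3 b hb with h | h | h
    · have hHab : a ∈ H ↔ b ∈ H := by
        rcases hab with h | h
        · rw [h]
        · rw [h]; exact hinvH a
      have hbab : bad a ↔ bad b := by
        rcases hab with h | h
        · rw [h]
        · rw [h]; exact hbadinv a
      rcases Finset.mem_union.mp h with h | h
      · apply haH
        exact ⟨hHab.mpr (hSR b h).2.2.1, hbab.mpr (hSR b h).2.2.2⟩
      · have hbU := hED h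
        obtain ⟨b1, b2, b3, b4⟩ := hSU b hbU
        rcases hkey z hz a ha with ⟨h1, h3, h4⟩ | ⟨h1, h3⟩ | ⟨h1, h3⟩
        · rcases hab with hab | hab
          · apply h3; rw [← hab]; exact h
          · exact hDU3 a h1 b hbU hab
        · exact b3 (hHab.mp (hSW a h1).2.2.1)
        · exact b4 (hbab.mp (hthird a h1).2.2.2)
    · have hb2 := hVinv b h.1
      apply ha2
      rcases hab with h' | h'
      · rw [← h']; exact hb2
      · rw [h', inv_pow] at hb2
        exact inv_eq_one.mp hb2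
    · exact h (hFM hbF)
  refine of_special (β := Option PP) (fun b => b.elim V (fun _ => H))
    (fun b => b.elim L (fun z => {(z : G × G).1, (z : G × G).2})) ?_ ?_ ?_ ?_
  · rintro (_ | z)
    · exact hL1
    · exact hPPblock z z.2
  · rintro (_ | z) d hd
    · exact hL5 d hd
    · simp only [Option.elim_some, Finset.mem_insert, Finset.mem_singleton] at hd
      intro h
      apply (hlabF z z.2 d hd).2.1
      rw [h, one_pow]
  · rintro (_ | z) (_ | z') d d' hd hd' h
    · refine ⟨rfl, ?_⟩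
      rcases h with h | h
      · exact h
      · exact hL4 d hd d' hd' h
    · simp only [Option.elim_some, Finset.mem_insert, Finset.mem_singleton] at hd'
      refine (hLsep z' z'.2 d' d hd' hd ?_).elim
      rcases h with h | h
      · left; exact h.symm
      · right; rw [h, inv_inv]
    · simp only [Option.elim_some, Finset.mem_insert, Finset.mem_singleton] at hd
      exact (hLsep z z.2 d d' hd hd' h).elim
    · simp only [Option.elim_some, Finset.mem_insert, Finset.mem_singleton] at hd hd'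
      obtain ⟨h1, h3⟩ := hsep z z.2 z' z'.2 d d' hd hd' h
      exact ⟨congrArg some (Subtype.ext h1), h3⟩
  · intro f hf2 hfK
    have hfF := hF f hfK
    by_cases h1 : f ∈ H <;> by_cases h3 : bad f
    · refine ⟨none, ?_⟩
      rcases hDR2 f ((hS _ f).mpr ⟨hfF, hf2, h1, h3⟩) with h | h
      · exact Or.inl (hL2 (Finset.mem_union_left _ h))
      · exact Or.inr (hL2 (Finset.mem_union_left _ h))
    · rcases hDW2 f ((hS _ f).mpr ⟨hfF, hf2, h1, h3⟩) with h | h
      · exact ⟨some ⟨(g * f * g⁻¹, f), Finset.mem_union_right _ (Finset.mem_image_of_mem _ h)⟩,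
          Or.inl (by simp)⟩
      · exact ⟨some ⟨(g * f⁻¹ * g⁻¹, f⁻¹), Finset.mem_union_right _ (Finset.mem_image_of_mem _ h)⟩,
          Or.inr (by simp)⟩
    · rcases hW2 f h1 hfF h3 with h | h
      · rcases hDW2 _ h with h' | h'
        · refine ⟨some ⟨(f, g⁻¹ * f * g), Finset.mem_union_right _ (Finset.mem_image.mpr
            ⟨_, h', ?_⟩)⟩, Or.inl (by simp)⟩
          have : g * (g⁻¹ * f * g) * g⁻¹ = f := by group
          rw [this]
        · refine ⟨some ⟨(f⁻¹, (g⁻¹ * f * g)⁻¹), Finset.mem_union_right _ (Finset.mem_image.mpr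
            ⟨_, h', ?_⟩)⟩, Or.inr (by simp)⟩
          have : g * (g⁻¹ * f * g)⁻¹ * g⁻¹ = f⁻¹ := by group
          rw [this]
      · exact absurd h hf2
    · have hcase : ∀ x, x ∈ DU → x ∈ L ∨ ∃ z : PP, x = (z : G × G).1 ∨ x = (z : G × G).2 := by
        intro x hx
        rcases hP3 x hx with h | ⟨z, hz, h⟩
        · exact Or.inl (hL2 (Finset.mem_union_right _ h))
        · exact Or.inr ⟨⟨z, Finset.mem_union_left _ hz⟩, h⟩
      rcases hDU2 f ((hS _ f).mpr ⟨hfF, hf2, h1, h3⟩) with h | h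
      · rcases hcase f h with h | ⟨z, h⟩
        · exact ⟨none, Or.inl h⟩
        · exact ⟨some z, Or.inl (by simpa using h)⟩
      · rcases hcase _ h with h | ⟨z, h⟩
        · exact ⟨none, Or.inr h⟩
        · exact ⟨some z, Or.inr (by simpa using h)⟩

end Pool.Agent.Zk59.ST
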